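import Pool.Agent.Lib.MP_b7d179_gt.L.CfgA
import Pool.Agent.Lib.MP_b7d179_gt.U.Ess
import Pool.Agent.Lib.MP_b7d179_gt.C.Locx

/-! Access arcs: existence, and how configurations pass through them. -/

namespace Pool.Agent.Lib.MP_b7d179_gt.L

open Set C

variable {Z : Type} [MetricSpace Z] {φ ι N : Type} {σ : Tw Z} {π : Po Z φ} {K : Set Z}
  {o o' : N → Ob Z φ} {real : Set ι} {f : φ} {th : Option Z} {E E' : Set Z} {α : Z → Set Z}
  {q : Z → Z} {e : Z}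

theorem Ac.mono (h : Ac π f th E α q) (s : E' ⊆ E) : Ac π f th E' α q :=
  ⟨fun e he => h.cc e (s he), h.dj.subset s, fun a e he => h.no a e (s he), h.io,
    fun x hx => h.mid x (s hx), fun x u a b c e he => h.lo x u a b c e (s he),
    fun x u a b c e he => h.hi x u a b c e (s he)⟩

theorem Po.Ok.ends (hπ : π.Ok K) (f : φ) : π.I f ∩ π.l f = {π.e1 f} ∧ π.r f ∩ π.I f = {π.e0 f} := by
  obtain ⟨a, b, d, e, -, -, -, -, h1, -, -, h2⟩ := (hπ.quad f).ex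
  have e1 : π.e1 f = b := h1.le ⟨(hπ.arc f).right, hπ.el f⟩
  have e0 : π.e0 f = a := h2.le ⟨hπ.er f, (hπ.arc f).left⟩
  exact ⟨e1 ▸ h1, e0 ▸ h2⟩

theorem Po.Ok.io (hπ : π.Ok K) (he : e ∈ π.Io f) : e ∈ π.I f \ (π.l f ∪ π.r f) :=
  ⟨he.1, fun h => he.2 (h.elim (fun h => .inr ((hπ.ends f).1.le ⟨he.1, h⟩))
    fun h => .inl ((hπ.ends f).2.le ⟨h, he.1⟩))⟩

theorem Po.Ok.halves (hπ : π.Ok K) {x : Z} (hx : x ∈ π.Io f) : ∃ u v, Arc u (π.e0 f) x ∧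
    Arc v x (π.e1 f) ∧ u ∩ v = {x} ∧ u ∪ v = π.I f :=
  (hπ.arc f).split hx.1 (fun h => hx.2 (.inl h)) fun h => hx.2 (.inr h)

/-- where the access arcs land -/
theorem Ac.land (hπ : π.Ok K) (h : Ac π f th E α q) (he : e ∈ E) (hi : e ∈ π.I f) :
    q e ∈ π.J0 f ∨ q e ∈ π.Jm f ∨ q e ∈ π.J1 f := by
  rcases th with _ | x
  · exact .inl (h.no rfl e he)
  · obtain ⟨u, v, a, b, -, c⟩ := hπ.halves (h.io x rfl)
    rcases eq_or_ne e x with rfl | n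
    · exact .inr (.inl (h.mid e he rfl))
    · exact (c.ge hi).elim (fun k => .inl (h.lo x u rfl a (c ▸ subset_union_left) e he k n))
        fun k => .inr (.inr (h.hi x v rfl b (c ▸ subset_union_right) e he k n))

theorem Ac.pad (hπ : π.Ok K) (h : Ac π f th E α q) (he : e ∈ E) (hi : e ∈ π.I f) :
    ∃ b, q e ∈ π.k (π.pd f b) := by
  rcases h.land hπ he hi with k | k | k
  exacts [⟨_, (hπ.j0 f).2 k⟩, ⟨_, (hπ.jm f).2 k⟩, ⟨_, (hπ.j1 f).2 k⟩]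

theorem Ac.facts (hπ : π.Ok K) (h : Ac π f th E α q) (he : e ∈ E) (hi : e ∈ π.I f) :
    Arc (α e) e (q e) ∧ α e ⊆ π.H f ∧ α e ∩ π.k f = {e} ∧ (∀ b, α e ∩ π.H (π.pd f b) ⊆ {q e}) ∧
      Disjoint (α e) K := by
  have c := h.cc e he
  obtain ⟨b, hb⟩ := h.pad hπ he hi
  refine ⟨c.arc, c.sub.trans (hπ.os f), subset_antisymm (fun x hx => ?_)
    (singleton_subset_iff.2 ⟨c.arc.left, hπ.ik f hi⟩), fun b x hx => ?_, (hπ.fr f).mono_left c.sub⟩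
  · exact (c.inter.le ⟨hx.1, hπ.ok f ⟨c.sub hx.1, hx.2⟩⟩).resolve_right fun k =>
      (hπ.pin f b ((hπ.kd _).d.rim_sub hb)).2 ((k : x = q e) ▸ hx.2)
  · exact (c.inter.le ⟨hx.1, hπ.op f b ⟨c.sub hx.1, hx.2⟩⟩).resolve_left fun k =>
      (hπ.pin f b hx.2).2 ((k : x = e) ▸ hπ.ik f hi)

theorem ac_side {O c g l m r u a b : Set Z} {x y z e0 : Z} (hO : Disc O c) (hq : Quad c g l m r)
    (ha : Cc O c a x y) (hx : x ∈ g) (hy : y ∈ m) (hb : Cc O c b e z) (hz : z ∈ l)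
    (hd : Disjoint b a) (hu : Arc u e0 x) (hug : u ⊆ g) (h0 : e0 ∈ r) (he : e ∈ u) (n : e ≠ x)
    (n0 : e ∉ r) : False := by
  obtain ⟨u1, u2, a1, a2, i, s⟩ := hu.split he (fun k => n0 (k ▸ h0)) n
  have gc : g ⊆ c := hq.union ▸ fun _ k => .inl (.inl (.inl k))
  have s1 : u1 ⊆ g := (s ▸ subset_union_left : u1 ⊆ u).trans hug
  obtain ⟨w, hw | hw, hw'⟩ := cross4 hO hq ha hx hy
    (hb.arc.conn.union e hb.arc.left a1.right a1.conn)
    (union_subset hb.sub (s1.trans (gc.trans hO.rim_sub))) ⟨z, .inl hb.arc.right, hz⟩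
    ⟨e0, .inr a1.left, h0⟩
  · exact disjoint_left.1 hd hw hw'
  · rcases ha.inter.le ⟨hw', gc (s1 hw)⟩ with k | k
    · exact n (i.le ⟨k ▸ hw, a2.right⟩ : x = e).symm
    · exact disjoint_left.1 hq.d1 (s1 hw) ((k : w = y) ▸ hy)

theorem ac_ex (hπ : π.Ok K) (hE : E.Finite) (hs : E ⊆ π.Io f) (ht : ∀ x, th = some x → x ∈ π.Io f) :
    ∃ α q, Ac π f th E α q := by
  obtain ⟨⟨j, x0, y0, aj, jr, jj⟩, -⟩ := hπ.j0 f
  obtain ⟨⟨j', x1, y1, aj', jl, jj'⟩, -⟩ := hπ.j1 f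
  have Q := hπ.quad f
  rcases th with _ | x
  · obtain ⟨α, q, d, k⟩ := fan_zero _ (hπ.od f) aj (jr.trans (Q.union ▸ subset_union_right)) hE le_rfl
      (fun e he => Q.union.le (.inl (.inl (.inl (hs he).1))))
      (disjoint_left.2 fun e he k => (hπ.io (hs he)).2 (.inr (jr k)))
    exact ⟨α, q, fun e he => (k e he).1, d, fun _ e he => jj (k e he).2, nofun, nofun, nofun, nofun⟩
  · have hx := ht x rfl
    have s : insert x E ⊆ π.I f \ (π.l f ∪ π.r f) :=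
      insert_subset (hπ.io hx) fun e he => hπ.io (hs he)
    obtain ⟨α, q, sy, k0, k⟩ := access3 (hπ.od f) Q aj' aj jl jr (hE.insert x) s (mem_insert _ _)
    have m := fun e (he : e ∈ E) => mem_insert_of_mem x he
    have cx := sy.cc x (mem_insert _ _)
    refine ⟨α, q, fun e he => sy.cc e (m e he), sy.disj.subset (subset_insert _ _), nofun,
      fun y e => Option.some.inj e ▸ hx, fun y _ e => Option.some.inj e ▸ (hπ.jm f).1 k0,
      fun y u e a b z hz c n => ?_, fun y u e a b z hz c n => ?_⟩ <;>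
      obtain rfl := Option.some.inj e
    · exact jj ((k z (m z hz) n).resolve_left fun w => ac_side (hπ.od f) Q cx hx.1 k0.1
        (sy.cc z (m z hz)) (jl w.1) (sy.disj (m z hz) (mem_insert _ _) n) a b (hπ.er f) c n
        fun k => (s (m z hz)).2 (.inr k))
    · exact jj' ((k z (m z hz) n).resolve_right fun w => ac_side (hπ.od f) Q.rev cx hx.1 k0.1
        (sy.cc z (m z hz)) (jr w.1) (sy.disj (m z hz) (mem_insert _ _) n) a.symm b (hπ.el f) c n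
        fun k => (s (m z hz)).2 (.inl k))

/-- lollipops in the two pads, prolonged by the access arcs -/
theorem Ac.lols (hπ : π.Ok K) (h : Ac π f th E α q) (hE : E.Finite) (hs : E ⊆ π.I f)
    {Λ : φ → Set Z} (hΛ : ∀ b, Lols K (π.H (π.pd f b)) (π.k (π.pd f b)) univ
      ((⋃ e ∈ E, α e) ∩ π.H (π.pd f b)) (Λ (π.pd f b))) :
    Lols K (π.H f) (π.k f) univ E ((⋃ e ∈ E, α e) ∪ ⋃ b, Λ (π.pd f b)) := by
  have L := lols_union (D := ⋃ b, π.H (π.pd f b)) (C := ⋃ b, π.k (π.pd f b)) (M := univ)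
    (t := univ) finite_univ univ_nonempty (fun b _ => ⟨hΛ b, subset_iUnion (fun b => π.H (π.pd f b)) b,
      fun x hx => ⟨trivial, mem_iUnion.2 ⟨b, hx.1⟩, fun k => by
        obtain ⟨b', k⟩ := mem_iUnion.1 k
        rcases eq_or_ne b b' with rfl | c
        exacts [hx.2 k, disjoint_left.1 (hπ.pad_dj f c) hx.1 ((hπ.kd _).d.rim_sub k)]⟩,
      (hΛ b).2.1.trans (subset_iUnion (fun b => π.k (π.pd f b)) b)⟩) fun _ _ _ _ c => hπ.pad_dj f c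
  simp only [biUnion_univ] at L
  have i : ∀ e ∈ E, α e ∩ ⋃ b, π.H (π.pd f b) = {q e} := fun e he => by
    obtain ⟨a, -, -, d, -⟩ := h.facts hπ he (hs he)
    obtain ⟨b, hb⟩ := h.pad hπ he (hs he)
    exact subset_antisymm (inter_iUnion _ _ ▸ iUnion_subset d)
      (singleton_subset_iff.2 ⟨a.right, mem_iUnion.2 ⟨b, (hπ.kd _).d.rim_sub hb⟩⟩)
  refine lols_access (x := q) (iUnion_subset (hπ.pin f)) hE (hs.trans (hπ.ik f)) (fun e he => ?_) h.dj ?_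
    rfl L
  · obtain ⟨a, b, c, -, d⟩ := h.facts hπ he (hs he)
    exact ⟨a, b, c, i e he, d⟩
  · rw [← inter_iUnion, iUnion₂_inter, iUnion₂_congr i, image_eq_iUnion]

variable {a : N → ι → Set Z} {X : N → Set Z} {ths : φ → Option Z} {αs : φ → Z → Set Z}
  {qs : φ → Z → Z}

omit [MetricSpace Z] in
theorem ext_tot (P : Set φ) (T : Set ι) (b : ι → Set Z) :
    tot T (fun i => ext π P αs (b i)) = ext π P αs (tot T b) := by
  ext x
  simp only [tot, ext, mem_iUnion, mem_union, mem_inter_iff]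
  constructor
  · rintro ⟨i, hi, h | ⟨f, hf, e, he, h⟩⟩
    exacts [.inl ⟨i, hi, h⟩, .inr ⟨f, hf, e, ⟨⟨i, hi, he.1⟩, he.2⟩, h⟩]
  · rintro (⟨i, hi, h⟩ | ⟨f, hf, e, ⟨⟨i, hi, h1⟩, h2⟩, h⟩)
    exacts [⟨i, hi, .inl h⟩, ⟨i, hi, .inr ⟨f, hf, e, ⟨h1, h2⟩, h⟩⟩]

omit [MetricSpace Z] in
theorem ext_empty (P : Set φ) : ext π P αs ∅ = ∅ := by simp [ext]

theorem AcP.mono {o : Ob Z φ} {A A' : Set Z} (h : AcP π o ths A αs qs) (s : A' ⊆ A) :
    AcP π o ths A' αs qs := fun f hf => (h f hf).mono (inter_subset_inter_left _ s)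

/-- the trace of a prolonged piece on a pad -/
theorem ext_pad (hπ : π.Ok K) {o : Ob Z φ} (ho : o.Ok π) {A : Set Z} (h : AcP π o ths A αs qs)
    (hA : ∀ f ∈ o.P, A ∩ π.H f ⊆ π.I f) (hf : f ∈ o.P) (b : Bool) :
    ext π o.P αs A ∩ π.H (π.pd f b) = (⋃ e ∈ A ∩ π.H f, αs f e) ∩ π.H (π.pd f b) := by
  refine subset_antisymm ?_ (inter_subset_inter_left _
    (subset_union_of_subset_right (subset_biUnion_of_mem (u := fun f => ⋃ e ∈ A ∩ π.H f, αs f e) hf) _))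
  rintro x ⟨hx | hx, hx'⟩
  · exact ((hπ.pin f b hx').2 (hπ.ik f (hA f hf ⟨hx, (hπ.pin f b hx').1⟩))).elim
  · obtain ⟨g, hg, hx⟩ := mem_iUnion₂.1 hx
    rcases eq_or_ne f g with rfl | c
    · exact ⟨hx, hx'⟩
    · obtain ⟨e, he, hx⟩ := mem_iUnion₂.1 hx
      exact (disjoint_left.1 (ho.dj f hf g hg c) (hπ.pin f b hx')
        (((h g hg).facts hπ he (hA g hg he)).2.1 hx)).elim

theorem acc_ex (hπ : π.Ok K) [Finite N] (hX : ∀ n, ∀ f ∈ (o n).P, X n ∩ π.H f ⊆ π.Io f ∧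
    (X n ∩ π.H f).Finite) (ht : ∀ f x, ths f = some x → x ∈ π.Io f) :
    ∃ αs qs, ∀ n, AcP π (o n) ths (X n) αs qs := by
  choose αs qs h using fun f => ac_ex (f := f) (th := ths f)
    (E := ⋃ n ∈ {n | f ∈ (o n).P}, X n ∩ π.H f) hπ
    ((toFinite _).biUnion fun n hn => (hX n f hn).2) (iUnion₂_subset fun n hn => (hX n f hn).1) (ht f)
  exact ⟨αs, qs, fun n f hf => (h f).mono
    (subset_biUnion_of_mem (u := fun n => X n ∩ π.H f) (show n ∈ {n | f ∈ (o n).P} from hf))⟩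

theorem Up.common (hπ : π.Ok K) (h : GeoC π o) (u : ∀ n, Up π (o n) (o' n)) {n n' : N} {g : φ}
    (hg : g ∈ (o' n).P) (hg' : g ∈ (o' n').P) :
    ∃ f ∈ (o n).P, f ∈ (o n').P ∧ ∃ b, g = π.pd f b := by
  obtain ⟨f, hf, b, e⟩ := ((u n).p g).1 hg
  obtain ⟨f', hf', b', e'⟩ := ((u n').p g).1 hg'
  obtain ⟨x, hx⟩ := hπ.inner g
  obtain ⟨rfl, -⟩ := h.pad_eq hπ hf hf' fun d => disjoint_left.1 d (e ▸ hx.1) (e' ▸ hx.1)
  exact ⟨f, hf, hf', b, e⟩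

theorem acc_mu (hπ : π.Ok K) (h : GeoC π o) (u : ∀ n, Up π (o n) (o' n)) (hm : MU π real o a)
    (hA : ∀ n i, ∀ f ∈ (o n).P, a n i ∩ π.H f ⊆ π.I f)
    (hα : ∀ n, AcP π (o n) ths (tot univ (a n)) αs qs) :
    MU π real o' fun n i => ext π (o n).P αs (a n i) := by
  have t : ∀ n T, ∀ f ∈ (o n).P, tot T (a n) ∩ π.H f ⊆ π.I f := fun n T f hf x hx => by
    obtain ⟨i, -, k⟩ := mem_iUnion₂.1 hx.1
    exact hA n i f hf ⟨k, hx.2⟩
  have s : ∀ n T, tot T (a n) ⊆ tot univ (a n) := fun n T => biUnion_subset_biUnion_left (subset_univ _)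
  have s1 : ∀ n i, a n i ⊆ tot univ (a n) := fun n i => tot_single i (a n) ▸ s n {i}
  refine ⟨fun n n' g hg hg' => ?_, fun n n' g hg hg' i hi => ?_⟩ <;>
    obtain ⟨f, hf, hf', b, rfl⟩ := Up.common hπ h u hg hg'
  · rw [ext_tot, ext_tot, ext_pad hπ (h.ok n) ((hα n).mono (s n real)) (t n real) hf,
      ext_pad hπ (h.ok n') ((hα n').mono (s n' real)) (t n' real) hf', hm.re n n' f hf hf']
  · have k : ∀ n, f ∈ (o n).P → ∀ x ∈ ext π (o n).P αs (a n i) ∩ π.H (π.pd f b),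
        ∃ e ∈ a n i ∩ π.H f, x = qs f e := fun n hf x hx => by
      rw [ext_pad hπ (h.ok n) ((hα n).mono (s1 n i)) (hA n i) hf] at hx
      obtain ⟨e, he, k⟩ := mem_iUnion₂.1 hx.1
      exact ⟨e, he, ((hα n f hf).facts hπ ⟨s1 n i he.1, he.2⟩ (hA n i f hf he)).2.2.2.1 b ⟨k, hx.2⟩⟩
    have k' : ∀ x ∈ (ext π (o n).P αs (a n i) ∪ ext π (o n').P αs (a n' i)) ∩ π.H (π.pd f b),
        ∃ e ∈ (a n i ∪ a n' i) ∩ π.H f, x = qs f e := by
      rintro x ⟨hx | hx, hx'⟩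
      · exact (k n hf x ⟨hx, hx'⟩).imp fun e he => ⟨⟨.inl he.1.1, he.1.2⟩, he.2⟩
      · exact (k n' hf' x ⟨hx, hx'⟩).imp fun e he => ⟨⟨.inr he.1.1, he.1.2⟩, he.2⟩
    intro x hx y hy
    obtain ⟨e, he, rfl⟩ := k' x hx
    obtain ⟨e', he', rfl⟩ := k' y hy
    rw [hm.ph n n' f hf hf' i hi he he']

theorem acc_solv (hπ : π.Ok σ.K) (h : GeoC π o) (u : ∀ n, Up π (o n) (o' n))
    (hm : ∀ n n', ∀ g ∈ (o n).P, g ∈ (o n').P → X n ∩ π.H g = X n' ∩ π.H g)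
    (hX : ∀ n, ∀ f ∈ (o n).P, X n ∩ π.H f ⊆ π.I f ∧ (X n ∩ π.H f).Finite)
    (hα : ∀ n, AcP π (o n) ths (X n) αs qs)
    (hs : Solv σ π o' fun n => ext π (o n).P αs (X n)) : Solv σ π o X := by
  obtain ⟨Λ, hΛ⟩ := hs
  have e : ∀ n, ∀ f ∈ (o n).P, (⋃ n ∈ {n | f ∈ (o n).P}, X n ∩ π.H f) = X n ∩ π.H f :=
    fun n f hf => subset_antisymm (iUnion₂_subset fun n' hn' => (hm n' n f hn' hf).le)
      (subset_biUnion_of_mem (u := fun n => X n ∩ π.H f) (show n ∈ {n | f ∈ (o n).P} from hf))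
  refine ⟨fun f => (⋃ e ∈ ⋃ n ∈ {n | f ∈ (o n).P}, X n ∩ π.H f, αs f e) ∪ ⋃ b, Λ (π.pd f b),
    fun n => ⟨fun f hf => ?_, ?_⟩⟩
  · beta_reduce
    rw [e n f hf]
    refine (hα n f hf).lols hπ (hX n f hf).2 (hX n f hf).1 fun b => ?_
    rw [← ext_pad hπ (h.ok n) (hα n) (fun f hf => (hX n f hf).1) hf]
    exact (hΛ n).1 _ (((u n).p _).2 ⟨f, hf, b, rfl⟩)
  · have := (hΛ n).2
    rw [SolP, (u n).b, (u n).s] at this
    rw [SolP, iUnion₂_congr fun f hf => by rw [e n f hf]]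
    convert this using 1
    ext x
    simp only [ext, mem_iUnion, mem_union, (u n).p]
    constructor
    · rintro (k | ⟨f, hf, k | ⟨b, k⟩⟩)
      exacts [.inl (.inl k), .inl (.inr ⟨f, hf, k⟩), .inr ⟨_, ⟨f, hf, b, rfl⟩, k⟩]
    · rintro ((k | ⟨f, hf, k⟩) | ⟨_, ⟨f, hf, b, rfl⟩, k⟩)
      exacts [.inl k, .inr ⟨f, hf, .inl k⟩, .inr ⟨f, hf, .inr ⟨b, k⟩⟩]

/-- at most one point: the whole pad is the disc of the lollipop -/
theorem Ac.last (hπ : π.Ok K) (h : Ac π f none E α q) (hE : E.Subsingleton) (hs : E ⊆ π.I f) :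
    Lols K (π.H f) (π.k f) univ E (⋃ e ∈ E, π.H (π.pd f (π.t f)) ∪ α e) := by
  obtain ⟨z, hz⟩ := (hπ.kd (π.pd f !π.t f)).k
  refine ⟨hE.finite, hs.trans (hπ.ik f), fun _ => π.H (π.pd f (π.t f)),
    fun _ => π.k (π.pd f (π.t f)), α, q, fun e he => ?_, hE.pairwise _, rfl,
    z, ⟨hz.1, (hπ.pin f _ hz.2).1⟩, fun k => ?_⟩
  · obtain ⟨a, b, c, d, k⟩ := h.facts hπ he (hs he)
    have m := (hπ.j0 f).2 (h.no rfl e he)
    exact ⟨⟨a, (hπ.kd _).d, subset_antisymm (d _)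
      (singleton_subset_iff.2 ⟨a.right, (hπ.kd _).d.rim_sub m⟩), m⟩, hπ.kd _,
      subset_inter (subset_univ _) (hπ.pin f _), k, b, c⟩
  · obtain ⟨e, he, k | k⟩ := mem_iUnion₂.1 k
    · exact disjoint_left.1 (hπ.pad_dj f (by simp)) k hz.2
    · exact disjoint_left.1 (h.facts hπ he (hs he)).2.2.2.2 k hz.1

end Pool.Agent.Lib.MP_b7d179_gt.L
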