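import Pool.Agent.Lib.MP_b7d179_gt.L.Md

/-! Certificates of the steps of a tripod of the first kind. -/

namespace Pool.Agent.Lib.MP_b7d179_gt.L

open C

def cyNSt : Cert where
  lb := []
  l :=
    []
  n0 := 3
  ch :=
    [(0, (87, [])), (1, (237, [])), (2, (387, [])), (99, (81, [(82, [156]), (91, [118, 122, 126]),
    (231, [426]), (232, [418, 422, 456]), (381, [726]), (382, [718, 722, 756])])), (4, (137, [(142,
    [203, 247, 243]), (287, [503, 547, 543]), (437, [803, 847, 843])])), (48, (39, [(80, [148]),
    (83, [131, 152]), (84, [139, 135, 158]), (133, [230]), (134, [255, 239, 235, 258]), (190, [406,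
    410, 414, 450, 506, 510, 514])])), (198, (189, [(230, [448]), (233, [431, 452]), (234, [439,
    435, 458]), (283, [530]), (284, [555, 539, 535, 558]), (340, [706, 710, 714, 750, 806, 810,
    814])])), (348, (40, [(380, [150]), (339, [748]), (383, [110, 114, 753, 730]), (384, [106, 759,
    734, 738]), (434, [207, 855, 839, 835]), (433, [215, 211, 859, 831])])), (149, (130, [(131,
    [249]), (132, [257]), (141, [218, 222, 226, 252]), (280, [552]), (281, [549, 527]), (282, [557,
    523, 519, 550]), (430, [251, 853]), (431, [849, 827]), (432, [857, 823, 819, 850])])), (49,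
    (30, [(31, [48]), (32, [56]), (92, [103, 147, 143, 154]), (180, [454]), (181, [348, 442, 446]),
    (182, [350, 403, 357]), (330, [50, 755]), (331, [648, 742, 746]), (332, [650, 703, 657])]))]
  ops :=
    [.re 0 (41, [(481, [18]), (482, [956]), (489, [27, 23, 948]), (490, [950]), (581, [1149]),
    (931, [318]), (932, [1856]), (939, [327, 323, 1848]), (940, [1850]), (1031, [2049]), (1381,
    [618]), (1382, [2756]), (1389, [627, 623, 2748]), (1390, [2750]), (1481, [2949])]), .popF 0,
    .re 0 (31, [(32, [56]), (92, [103, 147, 143]), (181, [447, 443]), (182, [356, 402]), (331,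
    [747, 743]), (332, [656, 702]), (481, [18]), (482, [956]), (489, [27, 23, 948]), (490, [950]),
    (581, [1149]), (931, [318]), (932, [1856]), (939, [327, 323, 1848]), (940, [1850]), (1031,
    [2049]), (1381, [618]), (1382, [2756]), (1389, [627, 623, 2748]), (1390, [2750]), (1481,
    [2949])]), .split 0 (92, [(181, [447, 443]), (182, [356, 402]), (331, [747, 743]), (332, [656,
    702]), (931, [318]), (932, [1856]), (939, [327, 323, 1848]), (940, [1850]), (1031, [2049]),
    (1381, [618]), (1382, [2756]), (1389, [627, 623, 2748]), (1390, [2750]), (1481, [2949])]) (31,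
    [(32, [56]), (481, [18]), (482, [956]), (489, [27, 23, 948]), (490, [950]), (581, [1149])])
    [103, 147, 143] [103, 147], .split 0 (92, [(331, [747, 743]), (332, [656, 702]), (1381, [618]),
    (1382, [2756]), (1389, [627, 623, 2748]), (1390, [2750]), (1481, [2949])]) (181, [(182, [356]),
    (931, [318]), (932, [1856]), (939, [327, 323, 1848]), (940, [1850]), (1031, [2049])]) [403,
    447, 443] [403, 447], .split 0 (92, []) (331, [(332, [656]), (1381, [618]), (1382, [2756]),
    (1389, [627, 623, 2748]), (1390, [2750]), (1481, [2949])]) [703, 747, 743] [703, 747]]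
  ex :=
    [.fa ((537, []), [([1056], (587, [])), ([1156, 42, 46, 257], (137, [])), ([157], (87, []))])
    [1], .fa ((987, []), [([1956], (1037, [])), ([2056, 342, 346, 557], (287, [])), ([457], (237,
    []))]) [2], .fa ((1437, []), [([2856], (1487, [])), ([2956, 642, 646, 857], (437, [])), ([757],
    (387, []))]) [3], .di (84, [(92, [154]), (234, [454]), (384, [755])]) [0], .di (133, [(141,
    [252]), (283, [552]), (433, [853])]) []]
  ob :=
    ((34, [(42, [54]), (184, [354]), (334, [655])]), [([1157], (587, [])), ([1057], (537, [])),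
    ([2057], (1037, [])), ([1957], (987, [])), ([2957], (1487, [])), ([2857], (1437, []))])
  ts :=
    [(33, [(41, [52]), (183, [352]), (333, [653]), (481, [18]), (482, [10, 14, 956]), (489, [31,
    27, 23, 948]), (490, [950]), (581, [1149]), (931, [318]), (932, [310, 314, 1856]), (939, [331,
    327, 323, 1848]), (940, [1850]), (1031, [2049]), (1381, [618]), (1382, [610, 614, 2756]),
    (1389, [631, 627, 623, 2748]), (1390, [2750]), (1481, [2949])])]

theorem cyNSt_ok : certOk (.yq false true .N) cyNSt = true := by decide +kernel

def cyTSt0 : Cert where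
  lb := []
  l :=
    []
  n0 := 3
  ch :=
    [(0, (87, [])), (1, (237, [])), (2, (387, [])), (99, (81, [(82, [156]), (91, [118, 122, 126]),
    (231, [426]), (232, [418, 422, 456]), (381, [726]), (382, [718, 722, 756])])), (4, (137, [(142,
    [203, 247, 243]), (287, [503, 547, 543]), (437, [803, 847, 843])])), (198, (189, [(230, [448]),
    (233, [431, 452]), (234, [439, 435, 458]), (283, [530]), (284, [555, 539, 535, 558]), (340,
    [706, 710, 714, 750, 806, 810, 814])])), (348, (40, [(380, [150]), (339, [748]), (383, [110,
    114, 753, 730]), (384, [106, 759, 734, 738]), (434, [207, 855, 839, 835]), (433, [215, 211,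
    859, 831])])), (149, (131, [(132, [257]), (141, [218, 222, 226]), (280, [552]), (281, [549,
    527]), (282, [557, 523, 519]), (430, [251, 853]), (431, [849, 827]), (432, [857, 823, 819,
    850])])), (48, (39, [(80, [148]), (83, [131, 152]), (84, [139, 135, 158]), (130, [249]), (133,
    [231, 252]), (134, [255, 239, 235, 258]), (190, [551, 515, 511, 507, 451, 415, 411, 407])])),
    (49, (30, [(31, [48]), (32, [56]), (92, [103, 147, 143, 154]), (180, [454]), (181, [348, 442,
    446]), (182, [350, 403, 357]), (330, [50, 755]), (331, [648, 742, 746]), (332, [650, 703,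
    657])]))]
  ops :=
    [.popF 0, .re 0 (31, [(32, [56]), (92, [103, 147, 143]), (182, [402]), (331, [747, 743]), (332,
    [656, 702]), (481, [18]), (482, [956]), (490, [950]), (931, [318]), (939, [323, 1848]), (1031,
    [2049]), (1381, [618]), (1382, [2756]), (1389, [627, 623, 2748]), (1390, [2750]), (1481,
    [2949])]), .re 1 (30, [(33, [52]), (34, [58]), (489, [30]), (581, [39, 35, 1149]), (932, [310,
    314])]), .popF 1, .re 1 (39, [(80, [148]), (83, [131, 152]), (84, [139, 135, 158]), (130,
    [249]), (42, [54]), (133, [231, 252]), (134, [255, 239, 235, 258]), (190, [551, 515, 511, 507,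
    451, 415, 411, 407]), (489, [30]), (581, [39, 35, 1149]), (932, [310, 314])]), .popF 1, .re 1
    (39, [(131, [249]), (141, [226]), (282, [518, 522]), (190, [551]), (489, [30]), (581, [39, 35,
    1149]), (932, [310, 314])]), .split 0 (31, [(32, [56]), (92, [103, 147, 143]), (182, [402]),
    (481, [18]), (482, [956]), (490, [950]), (931, [318]), (939, [323, 1848]), (1031, [2049])])
    (331, [(332, [656]), (1381, [618]), (1382, [2756]), (1389, [627, 623, 2748]), (1390, [2750]),
    (1481, [2949])]) [703, 747, 743] [703, 747], .split 0 (92, [(182, [402]), (931, [318]), (939,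
    [323, 1848]), (1031, [2049])]) (31, [(32, [56]), (481, [18]), (482, [956]), (490, [950])])
    [103, 147, 143] [103, 147], .split 0 (92, []) (182, [(931, [318]), (939, [323, 1848]), (1031,
    [2049])]) [402] [402], .split 1 (141, [(282, [518, 522]), (190, [551]), (932, [310, 314])])
    (39, [(131, [249]), (489, [30]), (581, [39, 35, 1149])]) [226] [226], .split 1 (141, []) (190,
    [(282, [551]), (932, [310, 314])]) [518, 522] [522]]
  ex :=
    [.fa ((537, []), [([1056], (587, [])), ([1156, 42, 46, 257], (137, [])), ([157], (87, []))])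
    [3, 5], .fa ((987, []), [([1956], (1037, [])), ([2056, 339, 335, 331, 327, 356], (237, [])),
    ([456], (287, []))]) [4, 6], .fa ((1437, []), [([2856], (1487, [])), ([2956, 642, 646, 857],
    (437, [])), ([757], (387, []))]) [2], .di (84, [(92, [154]), (234, [454]), (384, [755])]) [0],
    .di (133, [(141, [252]), (283, [552]), (433, [853])]) [1]]
  ob :=
    ((34, [(42, [54]), (184, [354]), (334, [655])]), [([1157], (587, [])), ([1057], (537, [])),
    ([2057], (1037, [])), ([1957], (987, [])), ([2957], (1487, [])), ([2857], (1437, []))])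
  ts :=
    [(41, [(481, [18]), (482, [956]), (490, [950]), (931, [318]), (939, [327, 323, 1848]), (1031,
    [2049]), (1381, [618]), (1382, [2756]), (1389, [627, 623, 2748]), (1390, [2750]), (1481,
    [2949])]), (33, [(489, [30]), (581, [1149]), (932, [310, 314])])]

theorem cyTSt0_ok : certOk (.yq false true (.T 0)) cyTSt0 = true := by decide +kernel

def cyTSt1 : Cert where
  lb := []
  l :=
    []
  n0 := 3
  ch :=
    [(0, (87, [])), (1, (237, [])), (2, (387, [])), (99, (81, [(82, [156]), (91, [118, 122, 126]),
    (231, [426]), (232, [418, 422, 456]), (381, [726]), (382, [718, 722, 756])])), (4, (137, [(142,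
    [203, 247, 243]), (287, [503, 547, 543]), (437, [803, 847, 843])])), (348, (40, [(380, [150]),
    (339, [748]), (383, [110, 114, 753, 730]), (384, [106, 759, 734, 738]), (434, [207, 855, 839,
    835]), (433, [215, 211, 859, 831])])), (48, (39, [(80, [148]), (83, [131, 152]), (84, [139,
    135, 158]), (133, [230]), (134, [255, 239, 235, 258]), (190, [406, 410, 414, 450, 506, 510,
    514])])), (149, (130, [(131, [249]), (132, [257]), (141, [218, 222, 226, 252]), (281, [526]),
    (282, [557, 523, 519, 550]), (430, [251, 853]), (431, [849, 827]), (432, [857, 823, 819])])),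
    (198, (189, [(230, [448]), (233, [431, 452]), (234, [439, 435, 458]), (280, [549]), (283, [531,
    552]), (284, [555, 539, 535, 558]), (340, [851, 815, 811, 807, 751, 715, 711, 707])])), (49,
    (30, [(31, [48]), (32, [56]), (92, [103, 147, 143, 154]), (180, [454]), (181, [348, 442, 446]),
    (182, [350, 403, 357]), (330, [50, 755]), (331, [648, 742, 746]), (332, [650, 703, 657])]))]
  ops :=
    [.popF 0, .re 0 (31, [(32, [56]), (92, [103, 147, 143]), (181, [447, 443]), (182, [356, 402]),
    (332, [702]), (481, [18]), (482, [956]), (489, [27, 23, 948]), (490, [950]), (581, [1149]),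
    (931, [318]), (932, [1856]), (940, [1850]), (1381, [618]), (1389, [623, 2748]), (1481,
    [2949])]), .re 1 (180, [(183, [352]), (184, [358]), (939, [330]), (1031, [339, 335, 2049]),
    (1382, [610, 614])]), .popF 1, .re 1 (42, [(280, [354]), (189, [549]), (230, [448]), (233,
    [431, 452]), (234, [439, 435, 458]), (283, [531, 552]), (284, [555, 539, 535, 558]), (340,
    [851, 815, 811, 807, 751, 715, 711, 707]), (939, [330]), (1031, [339, 335, 2049]), (1382, [610,
    614])]), .popF 1, .re 1 (141, [(281, [526]), (189, [549]), (432, [818, 822]), (340, [851]),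
    (939, [330]), (1031, [339, 335, 2049]), (1382, [610, 614])]), .split 0 (92, [(181, [447, 443]),
    (182, [356, 402]), (332, [702]), (931, [318]), (932, [1856]), (940, [1850]), (1381, [618]),
    (1389, [623, 2748]), (1481, [2949])]) (31, [(32, [56]), (481, [18]), (482, [956]), (489, [27,
    23, 948]), (490, [950]), (581, [1149])]) [103, 147, 143] [103, 147], .split 0 (92, [(332,
    [702]), (1381, [618]), (1389, [623, 2748]), (1481, [2949])]) (181, [(182, [356]), (931, [318]),
    (932, [1856]), (940, [1850])]) [403, 447, 443] [403, 447], .split 0 (92, []) (332, [(1381,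
    [618]), (1389, [623, 2748]), (1481, [2949])]) [702] [702], .split 1 (141, [(432, [818, 822]),
    (340, [851]), (1382, [610, 614])]) (189, [(281, [549]), (939, [330]), (1031, [339, 335,
    2049])]) [526] [526], .split 1 (141, []) (340, [(432, [851]), (1382, [610, 614])]) [818, 822]
    [822]]
  ex :=
    [.fa ((537, []), [([1056], (587, [])), ([1156, 42, 46, 257], (137, [])), ([157], (87, []))])
    [2], .fa ((987, []), [([1956], (1037, [])), ([2056, 342, 346, 557], (287, [])), ([457], (237,
    []))]) [3, 5], .fa ((1437, []), [([2856], (1487, [])), ([2956, 639, 635, 631, 627, 656], (387,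
    [])), ([756], (437, []))]) [4, 6], .di (84, [(92, [154]), (234, [454]), (384, [755])]) [0], .di
    (133, [(141, [252]), (283, [552]), (433, [853])]) [1]]
  ob :=
    ((34, [(42, [54]), (184, [354]), (334, [655])]), [([1157], (587, [])), ([1057], (537, [])),
    ([2057], (1037, [])), ([1957], (987, [])), ([2957], (1487, [])), ([2857], (1437, []))])
  ts :=
    [(41, [(481, [18]), (482, [956]), (489, [27, 23, 948]), (490, [950]), (581, [1149]), (931,
    [318]), (932, [1856]), (940, [1850]), (1381, [618]), (1389, [627, 623, 2748]), (1481,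
    [2949])]), (183, [(939, [330]), (1031, [2049]), (1382, [610, 614])])]

theorem cyTSt1_ok : certOk (.yq false true (.T 1)) cyTSt1 = true := by decide +kernel

def cyTSt2 : Cert where
  lb := []
  l :=
    []
  n0 := 3
  ch :=
    [(0, (87, [])), (1, (237, [])), (2, (387, [])), (99, (81, [(82, [156]), (91, [118, 122, 126]),
    (231, [426]), (232, [418, 422, 456]), (381, [726]), (382, [718, 722, 756])])), (4, (137, [(142,
    [203, 247, 243]), (287, [503, 547, 543]), (437, [803, 847, 843])])), (48, (39, [(80, [148]),
    (83, [131, 152]), (84, [139, 135, 158]), (133, [230]), (134, [255, 239, 235, 258]), (190, [406,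
    410, 414, 450, 506, 510, 514])])), (198, (189, [(230, [448]), (233, [431, 452]), (234, [439,
    435, 458]), (283, [530]), (284, [555, 539, 535, 558]), (340, [706, 710, 714, 750, 806, 810,
    814])])), (149, (130, [(131, [249]), (132, [257]), (141, [218, 222, 226, 252]), (280, [552]),
    (281, [549, 527]), (282, [557, 523, 519, 550]), (431, [826]), (432, [857, 823, 819, 850])])),
    (348, (40, [(380, [150]), (339, [748]), (383, [110, 114, 753, 730]), (384, [106, 759, 734,
    738]), (434, [207, 855, 839, 835]), (433, [215, 211, 859, 831]), (430, [251, 853, 848])])),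
    (49, (30, [(31, [48]), (32, [56]), (92, [103, 147, 143, 154]), (180, [454]), (181, [348, 442,
    446]), (182, [350, 403, 357]), (330, [50, 755]), (331, [648, 742, 746]), (332, [650, 703,
    657])]))]
  ops :=
    [.popF 0, .re 0 (32, [(92, [102]), (181, [447, 443]), (182, [356, 402]), (331, [747, 743]),
    (332, [656, 702]), (481, [18]), (489, [23, 948]), (581, [1149]), (931, [318]), (932, [1856]),
    (939, [327, 323, 1848]), (940, [1850]), (1031, [2049]), (1381, [618]), (1382, [2756]), (1390,
    [2750])]), .re 1 (330, [(333, [653]), (334, [659]), (482, [10, 14]), (1389, [630]), (1481,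
    [639, 635, 2949])]), .popF 1, .re 1 (40, [(380, [150]), (339, [748]), (383, [110, 114, 753,
    730]), (384, [106, 759, 734, 738]), (434, [207, 855, 839, 835]), (433, [215, 211, 859, 831]),
    (430, [251, 853, 848]), (42, [655]), (482, [10, 14]), (1389, [630]), (1481, [639, 635,
    2949])]), .popF 1, .re 1 (40, [(132, [251]), (141, [218, 222]), (431, [826]), (339, [849]),
    (482, [10, 14]), (1389, [630]), (1481, [639, 635, 2949])]), .split 0 (32, [(92, [102]), (331,
    [747, 743]), (332, [656, 702]), (481, [18]), (489, [23, 948]), (581, [1149]), (1381, [618]),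
    (1382, [2756]), (1390, [2750])]) (181, [(182, [356]), (931, [318]), (932, [1856]), (939, [327,
    323, 1848]), (940, [1850]), (1031, [2049])]) [403, 447, 443] [403, 447], .split 0 (32, [(92,
    [102]), (481, [18]), (489, [23, 948]), (581, [1149])]) (331, [(332, [656]), (1381, [618]),
    (1382, [2756]), (1390, [2750])]) [703, 747, 743] [703, 747], .split 0 (92, []) (32, [(481,
    [18]), (489, [23, 948]), (581, [1149])]) [102] [102], .split 1 (40, [(132, [251]), (141, [218,
    222]), (482, [10, 14])]) (339, [(431, [849]), (1389, [630]), (1481, [639, 635, 2949])]) [826]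
    [826], .split 1 (141, []) (40, [(132, [251]), (482, [10, 14])]) [218, 222] [222]]
  ex :=
    [.fa ((537, []), [([1056], (587, [])), ([1156, 39, 35, 31, 27, 56], (87, [])), ([156], (137,
    []))]) [4, 6], .fa ((987, []), [([1956], (1037, [])), ([2056, 342, 346, 557], (287, [])),
    ([457], (237, []))]) [2], .fa ((1437, []), [([2856], (1487, [])), ([2956, 642, 646, 857], (437,
    [])), ([757], (387, []))]) [3, 5], .di (84, [(92, [154]), (234, [454]), (384, [755])]) [0], .di
    (133, [(141, [252]), (283, [552]), (433, [853])]) [1]]
  ob :=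
    ((34, [(42, [54]), (184, [354]), (334, [655])]), [([1157], (587, [])), ([1057], (537, [])),
    ([2057], (1037, [])), ([1957], (987, [])), ([2957], (1487, [])), ([2857], (1437, []))])
  ts :=
    [(41, [(481, [18]), (489, [27, 23, 948]), (581, [1149]), (931, [318]), (932, [1856]), (939,
    [327, 323, 1848]), (940, [1850]), (1031, [2049]), (1381, [618]), (1382, [2756]), (1390,
    [2750])]), (333, [(482, [10, 14]), (1389, [630]), (1481, [2949])])]

theorem cyTSt2_ok : certOk (.yq false true (.T 2)) cyTSt2 = true := by decide +kernel

end Pool.Agent.Lib.MP_b7d179_gt.L
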