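import Pool.Agent.Lib.MP_b7d179_gt.L.Md

/-! Certificates of the steps of a tripod of the first kind. -/

namespace Pool.Agent.Lib.MP_b7d179_gt.L

open C

def cyNSf : Cert where
  lb := []
  l :=
    []
  n0 := 4
  ch :=
    [(0, (137, [])), (2, (437, [])), (1, (287, [])), (99, (81, [(82, [156]), (142, [203, 247,
    243]), (231, [547, 543]), (232, [456, 502]), (381, [847, 843]), (382, [756, 802])])), (3, (87,
    [(91, [118, 122, 126]), (237, [418, 422, 426]), (387, [718, 722, 726])])), (348, (40, [(380,
    [150]), (339, [748]), (383, [110, 114, 753, 730]), (384, [106, 759, 734, 738]), (434, [207,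
    855, 839, 835]), (433, [215, 211, 859, 831])])), (198, (189, [(230, [448]), (233, [431, 452]),
    (234, [439, 435, 458]), (283, [530]), (284, [555, 539, 535, 558]), (340, [706, 710, 714, 750,
    806, 810, 814])])), (48, (39, [(80, [148]), (83, [131, 152]), (84, [139, 135, 158]), (133,
    [230]), (134, [255, 239, 235, 258]), (190, [406, 410, 414, 450, 506, 510, 514])])), (49, (30,
    [(31, [48]), (32, [56]), (92, [103, 147, 143, 154]), (180, [454]), (181, [348, 442, 446]),
    (182, [350, 403, 357]), (330, [50, 755]), (331, [648, 742, 746]), (332, [650, 703, 657])])),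
    (149, (130, [(131, [249]), (132, [257]), (141, [218, 222, 226, 252]), (280, [552]), (281, [549,
    527]), (282, [557, 523, 519, 550]), (430, [251, 853]), (431, [849, 827]), (432, [857, 823, 819,
    850])]))]
  ops :=
    [.re 0 (42, [(490, [3, 47]), (482, [950]), (582, [42, 1151]), (581, [1157]), (489, [1149]),
    (940, [303, 347]), (932, [1850]), (1032, [342, 2051]), (1031, [2057]), (939, [2049]), (1390,
    [603, 647]), (1382, [2750]), (1482, [642, 2951]), (1481, [2957]), (1389, [2949])]), .popF 0,
    .re 0 (131, [(132, [257]), (141, [218, 222, 226]), (281, [526]), (282, [557, 523, 519]), (431,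
    [826]), (432, [857, 823, 819]), (490, [3, 47]), (482, [950]), (582, [42, 1151]), (581, [1157]),
    (489, [1149]), (940, [303, 347]), (932, [1850]), (1032, [342, 2051]), (1031, [2057]), (939,
    [2049]), (1390, [603, 647]), (1382, [2750]), (1482, [642, 2951]), (1481, [2957]), (1389,
    [2949])]), .split 0 (141, [(281, [526]), (282, [557, 523, 519]), (431, [826]), (432, [857, 823,
    819]), (940, [303, 347]), (932, [1850]), (1032, [342, 2051]), (1031, [2057]), (939, [2049]),
    (1390, [603, 647]), (1382, [2750]), (1482, [642, 2951]), (1481, [2957]), (1389, [2949])]) (131,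
    [(132, [257]), (490, [3, 47]), (482, [950]), (582, [42, 1151]), (581, [1157]), (489, [1149])])
    [218, 222, 226] [222, 226], .split 0 (141, [(281, [526]), (282, [557, 523, 519]), (940, [303,
    347]), (932, [1850]), (1032, [342, 2051]), (1031, [2057]), (939, [2049])]) (431, [(432, [857]),
    (1390, [603, 647]), (1382, [2750]), (1482, [642, 2951]), (1481, [2957]), (1389, [2949])]) [818,
    822, 826] [822, 826], .split 0 (141, []) (281, [(282, [557]), (940, [303, 347]), (932, [1850]),
    (1032, [342, 2051]), (1031, [2057]), (939, [2049])]) [518, 522, 526] [522, 526]]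
  ex :=
    [.fa ((537, []), [([957, 18, 22, 56], (87, [])), ([156], (137, [])), ([1056], (587, []))]) [1],
    .fa ((987, []), [([1857, 318, 322, 356], (237, [])), ([456], (287, [])), ([1956], (1037, []))])
    [3], .fa ((1437, []), [([2757, 618, 622, 656], (387, [])), ([756], (437, [])), ([2856], (1487,
    []))]) [2], .di (84, [(92, [154]), (234, [454]), (384, [755])]) [], .di (133, [(141, [252]),
    (283, [552]), (433, [853])]) [0]]
  ob :=
    ((33, [(41, [52]), (183, [352]), (333, [653])]), [([956], (537, [])), ([1056], (587, [])),
    ([1856], (987, [])), ([1956], (1037, [])), ([2756], (1437, [])), ([2856], (1487, []))])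
  ts :=
    [(34, [(42, [54]), (184, [354]), (334, [655]), (490, [7, 3, 47]), (482, [950]), (581, [34,
    38]), (489, [1149]), (582, [1150, 43, 1157]), (940, [307, 303, 347]), (932, [1850]), (1031,
    [334, 338]), (939, [2049]), (1032, [2050, 343, 2057]), (1390, [607, 603, 647]), (1382, [2750]),
    (1481, [634, 638]), (1389, [2949]), (1482, [2950, 643, 2957])])]

theorem cyNSf_ok : certOk (.yq false false .N) cyNSf = true := by decide +kernel

def cyTSf0 : Cert where
  lb := []
  l :=
    []
  n0 := 4
  ch :=
    [(0, (137, [])), (2, (437, [])), (1, (287, [])), (99, (81, [(82, [156]), (142, [203, 247,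
    243]), (231, [547, 543]), (232, [456, 502]), (381, [847, 843]), (382, [756, 802])])), (3, (87,
    [(91, [118, 122, 126]), (237, [418, 422, 426]), (387, [718, 722, 726])])), (198, (189, [(230,
    [448]), (233, [431, 452]), (234, [439, 435, 458]), (283, [530]), (284, [555, 539, 535, 558]),
    (340, [706, 710, 714, 750, 806, 810, 814])])), (48, (39, [(80, [148]), (83, [131, 152]), (84,
    [139, 135, 158]), (133, [230]), (134, [255, 239, 235, 258]), (190, [406, 410, 414, 450, 506,
    510, 514])])), (49, (30, [(31, [48]), (32, [56]), (92, [103, 147, 143, 154]), (180, [454]),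
    (181, [348, 442, 446]), (182, [350, 403, 357]), (331, [747, 743]), (332, [650, 703, 657])])),
    (348, (40, [(330, [50]), (339, [648]), (384, [107, 755, 739, 735]), (383, [115, 111, 759,
    731]), (380, [151, 753, 748]), (434, [207, 855, 839, 835]), (433, [215, 211, 859, 831])])),
    (149, (130, [(131, [249]), (132, [257]), (141, [218, 222, 226, 252]), (280, [552]), (281, [549,
    527]), (282, [557, 523, 519, 550]), (430, [251, 853]), (431, [849, 827]), (432, [857, 823, 819,
    850])]))]
  ops :=
    [.popF 0, .re 0 (131, [(132, [257]), (141, [218, 222, 226]), (281, [526]), (282, [557, 523,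
    519]), (431, [826]), (582, [42]), (581, [1157]), (489, [1149]), (940, [303, 347]), (932,
    [1850]), (1032, [342, 2051]), (1031, [2057]), (939, [2049]), (1390, [647]), (1382, [2750]),
    (1482, [642, 2951])]), .re 1 (333, [(334, [659]), (430, [655]), (482, [10, 14]), (490, [6,
    950]), (1481, [634, 638])]), .popF 1, .re 1 (40, [(330, [50]), (41, [653]), (339, [648]), (384,
    [107, 755, 739, 735]), (383, [115, 111, 759, 731]), (380, [151, 753, 748]), (434, [207, 855,
    839, 835]), (433, [215, 211, 859, 831]), (482, [10, 14]), (490, [6, 950]), (1481, [634,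
    638])]), .popF 1, .re 1 (32, [(40, [50]), (92, [102]), (331, [747, 743]), (339, [648]), (482,
    [10, 14]), (490, [6, 950]), (1481, [634, 638])]), .split 0 (131, [(132, [257]), (141, [218,
    222, 226]), (431, [826]), (582, [42]), (581, [1157]), (489, [1149]), (1390, [647]), (1382,
    [2750]), (1482, [642, 2951])]) (281, [(282, [557]), (940, [303, 347]), (932, [1850]), (1032,
    [342, 2051]), (1031, [2057]), (939, [2049])]) [518, 522, 526] [522, 526], .split 0 (141, [(431,
    [826]), (1390, [647]), (1382, [2750]), (1482, [642, 2951])]) (131, [(132, [257]), (582, [42]),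
    (581, [1157]), (489, [1149])]) [218, 222, 226] [222, 226], .split 0 (141, []) (431, [(1390,
    [647]), (1382, [2750]), (1482, [642, 2951])]) [826] [826], .split 1 (92, [(331, [747, 743]),
    (339, [648]), (1481, [634, 638])]) (32, [(40, [50]), (482, [10, 14]), (490, [6, 950])]) [102]
    [102], .split 1 (92, []) (331, [(339, [648]), (1481, [634, 638])]) [747, 743] [747]]
  ex :=
    [.fa ((537, []), [([957, 18, 22, 56], (87, [])), ([156], (137, [])), ([1056], (587, []))]) [3,
    5], .fa ((987, []), [([1857, 318, 322, 356], (237, [])), ([456], (287, [])), ([1956], (1037,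
    []))]) [2], .fa ((1437, []), [([2757, 615, 611, 607, 603, 857], (437, [])), ([757], (387, [])),
    ([2856], (1487, []))]) [4, 6], .di (84, [(92, [154]), (234, [454]), (384, [755])]) [1], .di
    (133, [(141, [252]), (283, [552]), (433, [853])]) [0]]
  ob :=
    ((33, [(41, [52]), (183, [352]), (333, [653])]), [([956], (537, [])), ([1056], (587, [])),
    ([1856], (987, [])), ([1956], (1037, [])), ([2756], (1437, [])), ([2856], (1487, []))])
  ts :=
    [(42, [(582, [42]), (581, [1157]), (489, [1149]), (940, [303, 347]), (932, [1850]), (1032,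
    [342, 2051]), (1031, [2057]), (939, [2049]), (1390, [603, 647]), (1382, [2750]), (1482, [642,
    2951])]), (334, [(490, [6]), (482, [950]), (1481, [634, 638])])]

theorem cyTSf0_ok : certOk (.yq false false (.T 0)) cyTSf0 = true := by decide +kernel

def cyTSf1 : Cert where
  lb := []
  l :=
    []
  n0 := 4
  ch :=
    [(0, (137, [])), (2, (437, [])), (1, (287, [])), (99, (81, [(82, [156]), (142, [203, 247,
    243]), (231, [547, 543]), (232, [456, 502]), (381, [847, 843]), (382, [756, 802])])), (3, (87,
    [(91, [118, 122, 126]), (237, [418, 422, 426]), (387, [718, 722, 726])])), (48, (39, [(80,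
    [148]), (83, [131, 152]), (84, [139, 135, 158]), (133, [230]), (134, [255, 239, 235, 258]),
    (190, [406, 410, 414, 450, 506, 510, 514])])), (348, (40, [(380, [150]), (339, [748]), (383,
    [110, 114, 753, 730]), (384, [106, 759, 734, 738]), (434, [207, 855, 839, 835]), (433, [215,
    211, 859, 831])])), (49, (30, [(31, [48]), (32, [56]), (92, [103, 147, 143, 154]), (181, [447,
    443]), (182, [350, 403, 357]), (330, [50, 755]), (331, [648, 742, 746]), (332, [656, 702])])),
    (198, (180, [(189, [348]), (230, [448]), (233, [431, 452]), (234, [455, 439, 435, 458]), (283,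
    [530]), (284, [555, 539, 535, 558]), (340, [650, 706, 710, 714, 750, 806, 810, 814])])), (149,
    (130, [(131, [249]), (132, [257]), (141, [218, 222, 226, 252]), (280, [552]), (281, [549,
    527]), (282, [557, 523, 519, 550]), (430, [251, 853]), (431, [849, 827]), (432, [857, 823, 819,
    850])]))]
  ops :=
    [.popF 0, .re 0 (131, [(132, [257]), (141, [218, 222, 226]), (281, [526]), (431, [826]), (432,
    [857, 823, 819]), (490, [3, 47]), (482, [950]), (582, [42, 1151]), (581, [1157]), (489,
    [1149]), (940, [347]), (932, [1850]), (1032, [342, 2051]), (1482, [642]), (1481, [2957]),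
    (1389, [2949])]), .re 1 (183, [(184, [358]), (280, [354]), (1031, [334, 338]), (1382, [610,
    614]), (1390, [606, 2750])]), .popF 1, .re 1 (41, [(180, [352]), (189, [348]), (230, [448]),
    (233, [431, 452]), (234, [455, 439, 435, 458]), (283, [530]), (284, [555, 539, 535, 558]),
    (340, [650, 706, 710, 714, 750, 806, 810, 814]), (1031, [334, 338]), (1382, [610, 614]), (1390,
    [606, 2750])]), .popF 1, .re 1 (92, [(181, [447, 443]), (189, [348]), (332, [702]), (340,
    [650]), (1031, [334, 338]), (1382, [610, 614]), (1390, [606, 2750])]), .split 0 (141, [(281,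
    [526]), (431, [826]), (432, [857, 823, 819]), (940, [347]), (932, [1850]), (1032, [342, 2051]),
    (1482, [642]), (1481, [2957]), (1389, [2949])]) (131, [(132, [257]), (490, [3, 47]), (482,
    [950]), (582, [42, 1151]), (581, [1157]), (489, [1149])]) [218, 222, 226] [222, 226], .split 0
    (141, [(281, [526]), (940, [347]), (932, [1850]), (1032, [342, 2051])]) (431, [(432, [857]),
    (1482, [642]), (1481, [2957]), (1389, [2949])]) [818, 822, 826] [822, 826], .split 0 (141, [])
    (281, [(940, [347]), (932, [1850]), (1032, [342, 2051])]) [526] [526], .split 1 (92, [(181,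
    [447, 443]), (189, [348]), (1031, [334, 338])]) (332, [(340, [650]), (1382, [610, 614]), (1390,
    [606, 2750])]) [702] [702], .split 1 (92, []) (181, [(189, [348]), (1031, [334, 338])]) [447,
    443] [447]]
  ex :=
    [.fa ((537, []), [([957, 18, 22, 56], (87, [])), ([156], (137, [])), ([1056], (587, []))]) [2],
    .fa ((987, []), [([1857, 315, 311, 307, 303, 557], (287, [])), ([457], (237, [])), ([1956],
    (1037, []))]) [4, 6], .fa ((1437, []), [([2757, 618, 622, 656], (387, [])), ([756], (437, [])),
    ([2856], (1487, []))]) [3, 5], .di (84, [(92, [154]), (234, [454]), (384, [755])]) [1], .di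
    (133, [(141, [252]), (283, [552]), (433, [853])]) [0]]
  ob :=
    ((33, [(41, [52]), (183, [352]), (333, [653])]), [([956], (537, [])), ([1056], (587, [])),
    ([1856], (987, [])), ([1956], (1037, [])), ([2756], (1437, [])), ([2856], (1487, []))])
  ts :=
    [(42, [(490, [3, 47]), (482, [950]), (582, [42, 1151]), (581, [1157]), (489, [1149]), (940,
    [303, 347]), (932, [1850]), (1032, [342, 2051]), (1482, [642]), (1481, [2957]), (1389,
    [2949])]), (184, [(1031, [334, 338]), (1390, [606]), (1382, [2750])])]

theorem cyTSf1_ok : certOk (.yq false false (.T 1)) cyTSf1 = true := by decide +kernel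

def cyTSf2 : Cert where
  lb := []
  l :=
    []
  n0 := 4
  ch :=
    [(0, (137, [])), (2, (437, [])), (1, (287, [])), (99, (81, [(82, [156]), (142, [203, 247,
    243]), (231, [547, 543]), (232, [456, 502]), (381, [847, 843]), (382, [756, 802])])), (3, (87,
    [(91, [118, 122, 126]), (237, [418, 422, 426]), (387, [718, 722, 726])])), (348, (40, [(380,
    [150]), (339, [748]), (383, [110, 114, 753, 730]), (384, [106, 759, 734, 738]), (434, [207,
    855, 839, 835]), (433, [215, 211, 859, 831])])), (198, (189, [(230, [448]), (233, [431, 452]),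
    (234, [439, 435, 458]), (283, [530]), (284, [555, 539, 535, 558]), (340, [706, 710, 714, 750,
    806, 810, 814])])), (49, (31, [(32, [56]), (92, [103, 147, 143]), (180, [454]), (181, [348,
    442, 446]), (182, [356, 402]), (330, [50, 755]), (331, [648, 742, 746]), (332, [650, 703,
    657])])), (48, (30, [(39, [48]), (80, [148]), (83, [131, 152]), (84, [155, 139, 135, 158]),
    (133, [230]), (134, [255, 239, 235, 258]), (190, [350, 406, 410, 414, 450, 506, 510, 514])])),
    (149, (130, [(131, [249]), (132, [257]), (141, [218, 222, 226, 252]), (280, [552]), (281, [549,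
    527]), (282, [557, 523, 519, 550]), (430, [251, 853]), (431, [849, 827]), (432, [857, 823, 819,
    850])]))]
  ops :=
    [.popF 0, .re 0 (131, [(141, [226]), (281, [526]), (282, [557, 523, 519]), (431, [826]), (432,
    [857, 823, 819]), (490, [47]), (482, [950]), (582, [42, 1151]), (1032, [342]), (1031, [2057]),
    (939, [2049]), (1390, [603, 647]), (1382, [2750]), (1482, [642, 2951]), (1481, [2957]), (1389,
    [2949])]), .re 1 (33, [(34, [58]), (130, [54]), (581, [34, 38]), (932, [310, 314]), (940, [306,
    1850])]), .popF 1, .re 1 (30, [(39, [48]), (41, [52]), (80, [148]), (83, [131, 152]), (84,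
    [155, 139, 135, 158]), (133, [230]), (134, [255, 239, 235, 258]), (190, [350, 406, 410, 414,
    450, 506, 510, 514]), (581, [34, 38]), (932, [310, 314]), (940, [306, 1850])]), .popF 1, .re 1
    (31, [(39, [48]), (92, [147, 143]), (182, [402]), (190, [350]), (581, [34, 38]), (932, [310,
    314]), (940, [306, 1850])]), .split 0 (131, [(141, [226]), (281, [526]), (282, [557, 523,
    519]), (490, [47]), (482, [950]), (582, [42, 1151]), (1032, [342]), (1031, [2057]), (939,
    [2049])]) (431, [(432, [857]), (1390, [603, 647]), (1382, [2750]), (1482, [642, 2951]), (1481,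
    [2957]), (1389, [2949])]) [818, 822, 826] [822, 826], .split 0 (131, [(141, [226]), (490,
    [47]), (482, [950]), (582, [42, 1151])]) (281, [(282, [557]), (1032, [342]), (1031, [2057]),
    (939, [2049])]) [518, 522, 526] [522, 526], .split 0 (141, []) (131, [(490, [47]), (482,
    [950]), (582, [42, 1151])]) [226] [226], .split 1 (31, [(39, [48]), (92, [147, 143]), (581,
    [34, 38])]) (182, [(190, [350]), (932, [310, 314]), (940, [306, 1850])]) [402] [402], .split 1
    (92, []) (31, [(39, [48]), (581, [34, 38])]) [147, 143] [147]]
  ex :=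
    [.fa ((537, []), [([957, 15, 11, 7, 3, 257], (137, [])), ([157], (87, [])), ([1056], (587,
    []))]) [4, 6], .fa ((987, []), [([1857, 318, 322, 356], (237, [])), ([456], (287, [])),
    ([1956], (1037, []))]) [3, 5], .fa ((1437, []), [([2757, 618, 622, 656], (387, [])), ([756],
    (437, [])), ([2856], (1487, []))]) [2], .di (84, [(92, [154]), (234, [454]), (384, [755])])
    [1], .di (133, [(141, [252]), (283, [552]), (433, [853])]) [0]]
  ob :=
    ((33, [(41, [52]), (183, [352]), (333, [653])]), [([956], (537, [])), ([1056], (587, [])),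
    ([1856], (987, [])), ([1956], (1037, [])), ([2756], (1437, [])), ([2856], (1487, []))])
  ts :=
    [(42, [(490, [3, 47]), (482, [950]), (582, [42, 1151]), (1032, [342]), (1031, [2057]), (939,
    [2049]), (1390, [603, 647]), (1382, [2750]), (1482, [642, 2951]), (1481, [2957]), (1389,
    [2949])]), (34, [(581, [34, 38]), (940, [306]), (932, [1850])])]

theorem cyTSf2_ok : certOk (.yq false false (.T 2)) cyTSf2 = true := by decide +kernel

end Pool.Agent.Lib.MP_b7d179_gt.L
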