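import Pool.Agent.Lib.MP_b7d179_gt.L.Md

/-! Certificates of the steps after a cut. -/

namespace Pool.Agent.Lib.MP_b7d179_gt.L

open C

def cyUEt0 : Cert where
  lb := []
  l :=
    []
  n0 := 3
  ch :=
    [(0, (186, [])), (1, (236, [])), (2, (286, [])), (198, (183, [(184, [358]), (189, [330, 334,
    338]), (233, [430]), (234, [439, 435, 458]), (283, [530]), (284, [539, 535, 558])])), (4, (336,
    [(340, [606, 610, 614]), (386, [706, 710, 714]), (436, [806, 810, 814])])), (49, (41, [(180,
    [352]), (92, [454]), (181, [326, 348, 442, 446]), (182, [318, 322, 356, 402]), (332, [623, 619,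
    650, 703]), (331, [627, 656, 747, 743])])), (99, (91, [(230, [452]), (142, [554]), (231, [426,
    448, 542, 546]), (232, [418, 422, 456, 502]), (382, [723, 719, 750, 803]), (381, [727, 756,
    847, 843])])), (348, (330, [(333, [653]), (334, [659]), (339, [639, 635, 631, 648]), (380,
    [748]), (383, [753, 730]), (384, [755, 739, 735, 758]), (433, [830]), (434, [855, 839, 835,
    858])])), (149, (42, [(280, [354]), (141, [552]), (281, [347, 343, 549, 527]), (282, [303, 557,
    523, 519]), (432, [602, 851, 818, 822]), (431, [642, 646, 857, 826]), (430, [655, 849,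
    852])])), (48, (30, [(33, [52]), (34, [58]), (84, [154]), (83, [158]), (80, [152]), (130,
    [54]), (133, [252]), (190, [451, 415, 411, 407, 351, 315, 311, 307, 551, 515, 511]), (134,
    [258, 507, 255])]))]
  ops :=
    [.popF 0, .re 0 (33, [(34, [58]), (190, [306, 310, 314]), (83, [410, 414]), (84, [158, 407]),
    (482, [34, 38]), (490, [30, 950]), (932, [134, 138]), (931, [1856]), (939, [1848]), (940, [130,
    1850]), (1031, [2049])]), .re 1 (130, [(131, [249]), (132, [257]), (481, [42]), (489, [3, 47,
    948]), (581, [1149]), (1390, [222, 226]), (1382, [2750])]), .popF 1, .re 1 (40, [(430, [251]),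
    (42, [655]), (141, [853]), (431, [647, 643, 849, 827]), (432, [603, 857, 823, 819]), (280,
    [354, 851, 553]), (281, [347, 343, 549, 527]), (282, [303, 557, 523, 519]), (481, [42]), (489,
    [7, 3, 47, 948]), (581, [15, 11, 1149]), (1390, [222, 226]), (1382, [2750])]), .popF 1, .re 1
    (42, [(334, [655]), (339, [634, 638]), (433, [830]), (141, [853]), (481, [42]), (489, [7, 3,
    47, 948]), (581, [1149]), (1390, [222, 226]), (1382, [2750])]), .split 0 (33, [(34, [58]),
    (190, [306, 310, 314]), (482, [34, 38]), (490, [30, 950])]) (83, [(84, [158]), (932, [134,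
    138]), (931, [1856]), (939, [1848]), (940, [130, 1850]), (1031, [2049])]) [406, 410, 414] [406,
    410], .split 0 (190, []) (33, [(34, [58]), (482, [34, 38]), (490, [30, 950])]) [306, 310, 314]
    [306, 310], .split 1 (141, [(433, [853]), (339, [830]), (1390, [222, 226]), (1382, [2750])])
    (42, [(334, [655]), (481, [42]), (489, [7, 3, 47, 948]), (581, [1149])]) [634, 638] [634],
    .split 1 (339, []) (141, [(433, [853]), (1390, [222, 226]), (1382, [2750])]) [830] [830]]
  ex :=
    [.fa ((186, []), [([358], (336, [])), ([658, 10, 14, 1157], (587, [])), ([1057], (537, []))])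
    [3, 4], .fa ((236, []), [([458], (386, [])), ([758, 110, 114, 2057], (1037, [])), ([1957],
    (987, []))]) [2], .fa ((286, []), [([558], (436, [])), ([259, 234, 238, 2756], (1437, [])),
    ([2856], (1487, []))]) [5], .di (182, [(190, [350]), (232, [450]), (282, [551])]) [0], .di
    (331, [(339, [648]), (381, [748]), (431, [849])]) [1]]
  ob :=
    ((32, [(40, [50]), (82, [150]), (132, [251])]), [([1157], (587, [])), ([1057], (537, [])),
    ([2057], (1037, [])), ([1957], (987, [])), ([2957], (1487, [])), ([2857], (1437, []))])
  ts :=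
    [(39, [(482, [34, 38]), (490, [30, 950]), (932, [134, 138]), (931, [1856]), (939, [1848]),
    (940, [130, 1850]), (1031, [2049])]), (131, [(481, [42]), (489, [47, 948]), (581, [1149]),
    (1390, [226]), (1382, [2750])])]

theorem cyUEt0_ok : certOk (.yq true true (.U 0)) cyUEt0 = true := by decide +kernel

def cyUEt1 : Cert where
  lb := []
  l :=
    []
  n0 := 3
  ch :=
    [(0, (186, [])), (1, (236, [])), (2, (286, [])), (198, (183, [(184, [358]), (189, [330, 334,
    338]), (233, [430]), (234, [439, 435, 458]), (283, [530]), (284, [539, 535, 558])])), (4, (336,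
    [(340, [606, 610, 614]), (386, [706, 710, 714]), (436, [806, 810, 814])])), (149, (42, [(280,
    [354]), (141, [552]), (281, [347, 343, 549, 527]), (282, [303, 557, 523, 519]), (432, [602,
    851, 818, 822]), (431, [642, 646, 857, 826])])), (49, (41, [(180, [352]), (92, [454]), (181,
    [326, 348, 442, 446]), (182, [318, 322, 356, 402]), (332, [623, 619, 650, 703]), (331, [627,
    656, 747, 743])])), (348, (330, [(333, [653]), (334, [659]), (339, [639, 635, 631, 648]), (383,
    [730]), (384, [755, 739, 735, 758]), (430, [655, 849]), (433, [853, 830]), (434, [859, 834,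
    838])])), (99, (91, [(230, [452]), (142, [554]), (231, [426, 448, 542, 546]), (232, [418, 422,
    456, 502]), (382, [723, 719, 750, 803]), (381, [727, 756, 847, 843]), (380, [753, 748,
    854])])), (48, (30, [(33, [52]), (34, [58]), (84, [154]), (83, [158]), (80, [152]), (130,
    [54]), (133, [252]), (190, [451, 415, 411, 407, 351, 315, 311, 307, 551, 515, 511]), (134,
    [258, 507, 255])]))]
  ops :=
    [.popF 0, .re 0 (33, [(34, [58]), (190, [306, 310, 314]), (133, [510, 514]), (134, [258, 507]),
    (482, [34, 38]), (481, [956]), (489, [948]), (490, [30, 950]), (581, [1149]), (1382, [234,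
    238]), (1390, [230, 2750])]), .re 1 (80, [(81, [148]), (82, [156]), (940, [122, 126]), (932,
    [1850]), (1381, [242]), (1389, [203, 247, 2748]), (1481, [2949])]), .popF 1, .re 1 (40, [(380,
    [150]), (91, [753]), (142, [855]), (381, [726, 748, 842, 846]), (382, [718, 722, 756, 802]),
    (230, [452, 750, 555]), (231, [426, 448, 542, 546]), (232, [418, 422, 456, 502]), (940, [122,
    126]), (932, [1850]), (1381, [242]), (1389, [207, 203, 247, 2748]), (1481, [215, 211, 2949])]),
    .popF 1, .re 1 (91, [(383, [753]), (339, [730]), (434, [834, 838]), (142, [855]), (940, [122,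
    126]), (932, [1850]), (1381, [242]), (1389, [207, 203, 247, 2748]), (1481, [2949])]), .split 0
    (133, [(134, [258]), (190, [506, 510, 514]), (1382, [234, 238]), (1390, [230, 2750])]) (33,
    [(34, [58]), (482, [34, 38]), (481, [956]), (489, [948]), (490, [30, 950]), (581, [1149])])
    [306, 310, 314] [306, 310], .split 0 (190, []) (133, [(134, [258]), (1382, [234, 238]), (1390,
    [230, 2750])]) [506, 510, 514] [506, 510], .split 1 (91, [(383, [753]), (339, [730]), (940,
    [122, 126]), (932, [1850])]) (142, [(434, [855]), (1381, [242]), (1389, [207, 203, 247, 2748]),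
    (1481, [2949])]) [834, 838] [834], .split 1 (339, []) (91, [(383, [753]), (940, [122, 126]),
    (932, [1850])]) [730] [730]]
  ex :=
    [.fa ((186, []), [([358], (336, [])), ([658, 10, 14, 1157], (587, [])), ([1057], (537, []))])
    [2], .fa ((236, []), [([458], (386, [])), ([159, 134, 138, 1856], (987, [])), ([1956], (1037,
    []))]) [5], .fa ((286, []), [([558], (436, [])), ([858, 210, 214, 2957], (1487, [])), ([2857],
    (1437, []))]) [3, 4], .di (182, [(190, [350]), (232, [450]), (282, [551])]) [0], .di (331,
    [(339, [648]), (381, [748]), (431, [849])]) [1]]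
  ob :=
    ((32, [(40, [50]), (82, [150]), (132, [251])]), [([1157], (587, [])), ([1057], (537, [])),
    ([2057], (1037, [])), ([1957], (987, [])), ([2957], (1487, [])), ([2857], (1437, []))])
  ts :=
    [(39, [(482, [34, 38]), (481, [956]), (489, [948]), (490, [30, 950]), (581, [1149]), (1382,
    [234, 238]), (1390, [230, 2750])]), (81, [(940, [126]), (932, [1850]), (1381, [242]), (1389,
    [247, 2748]), (1481, [2949])])]

theorem cyUEt1_ok : certOk (.yq true true (.U 1)) cyUEt1 = true := by decide +kernel

def cyUEt2 : Cert where
  lb := []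
  l :=
    []
  n0 := 3
  ch :=
    [(0, (186, [])), (1, (236, [])), (2, (286, [])), (198, (183, [(184, [358]), (189, [330, 334,
    338]), (233, [430]), (234, [439, 435, 458]), (283, [530]), (284, [539, 535, 558])])), (4, (336,
    [(340, [606, 610, 614]), (386, [706, 710, 714]), (436, [806, 810, 814])])), (99, (91, [(230,
    [452]), (142, [554]), (231, [426, 448, 542, 546]), (232, [418, 422, 456, 502]), (382, [723,
    719, 750, 803]), (381, [727, 756, 847, 843])])), (149, (42, [(280, [354]), (141, [552]), (281,
    [347, 343, 549, 527]), (282, [303, 557, 523, 519]), (432, [602, 851, 818, 822]), (431, [642,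
    646, 857, 826])])), (348, (333, [(334, [659]), (339, [630, 634, 638]), (380, [748]), (383,
    [753, 730]), (384, [759, 734, 738]), (430, [655, 849]), (433, [853, 830]), (434, [855, 839,
    835, 858])])), (49, (41, [(180, [352]), (92, [454]), (181, [326, 348, 442, 446]), (182, [318,
    322, 356, 402]), (332, [623, 619, 650, 703]), (331, [627, 656, 747, 743]), (330, [653, 648,
    754])])), (48, (30, [(33, [52]), (34, [58]), (84, [154]), (83, [158]), (80, [152]), (130,
    [54]), (133, [252]), (190, [451, 415, 411, 407, 351, 315, 311, 307, 551, 515, 511]), (134,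
    [258, 507, 255])]))]
  ops :=
    [.popF 0, .re 0 (83, [(84, [158]), (190, [406, 410, 414]), (133, [510, 514]), (134, [258,
    507]), (932, [134, 138]), (940, [130, 1850]), (1382, [234, 238]), (1381, [2756]), (1389,
    [2748]), (1390, [230, 2750]), (1481, [2949])]), .re 1 (30, [(31, [48]), (32, [56]), (490, [22,
    26]), (482, [950]), (931, [142]), (939, [103, 147, 1848]), (1031, [2049])]), .popF 1, .re 1
    (40, [(330, [50]), (41, [653]), (92, [755]), (331, [626, 648, 742, 746]), (332, [618, 622, 656,
    702]), (180, [352, 650, 455]), (181, [326, 348, 442, 446]), (182, [318, 322, 356, 402]), (490,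
    [22, 26]), (482, [950]), (931, [142]), (939, [107, 103, 147, 1848]), (1031, [115, 111,
    2049])]), .popF 1, .re 1 (41, [(333, [653]), (339, [630]), (384, [734, 738]), (92, [755]),
    (490, [22, 26]), (482, [950]), (931, [142]), (939, [107, 103, 147, 1848]), (1031, [2049])]),
    .split 0 (83, [(84, [158]), (190, [406, 410, 414]), (932, [134, 138]), (940, [130, 1850])])
    (133, [(134, [258]), (1382, [234, 238]), (1381, [2756]), (1389, [2748]), (1390, [230, 2750]),
    (1481, [2949])]) [506, 510, 514] [506, 510], .split 0 (190, []) (83, [(84, [158]), (932, [134,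
    138]), (940, [130, 1850])]) [406, 410, 414] [406, 410], .split 1 (41, [(333, [653]), (339,
    [630]), (490, [22, 26]), (482, [950])]) (92, [(384, [755]), (931, [142]), (939, [107, 103, 147,
    1848]), (1031, [2049])]) [734, 738] [734], .split 1 (339, []) (41, [(333, [653]), (490, [22,
    26]), (482, [950])]) [630] [630]]
  ex :=
    [.fa ((186, []), [([358], (336, [])), ([59, 34, 38, 956], (537, [])), ([1056], (587, []))])
    [5], .fa ((236, []), [([458], (386, [])), ([758, 110, 114, 2057], (1037, [])), ([1957], (987,
    []))]) [3, 4], .fa ((286, []), [([558], (436, [])), ([858, 210, 214, 2957], (1487, [])),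
    ([2857], (1437, []))]) [2], .di (182, [(190, [350]), (232, [450]), (282, [551])]) [0], .di
    (331, [(339, [648]), (381, [748]), (431, [849])]) [1]]
  ob :=
    ((32, [(40, [50]), (82, [150]), (132, [251])]), [([1157], (587, [])), ([1057], (537, [])),
    ([2057], (1037, [])), ([1957], (987, [])), ([2957], (1487, [])), ([2857], (1437, []))])
  ts :=
    [(39, [(932, [134, 138]), (940, [130, 1850]), (1382, [234, 238]), (1381, [2756]), (1389,
    [2748]), (1390, [230, 2750]), (1481, [2949])]), (31, [(490, [26]), (482, [950]), (931, [142]),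
    (939, [147, 1848]), (1031, [2049])])]

theorem cyUEt2_ok : certOk (.yq true true (.U 2)) cyUEt2 = true := by decide +kernel

end Pool.Agent.Lib.MP_b7d179_gt.L
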