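import Pool.Agent.Lib.MP_b7d179_gt.L.Md

/-! Certificates of the steps after a cut. -/

namespace Pool.Agent.Lib.MP_b7d179_gt.L

open C

def cyUEf0 : Cert where
  lb := []
  l :=
    []
  n0 := 4
  ch :=
    [(0, (336, [])), (2, (436, [])), (1, (386, [])), (198, (183, [(184, [358]), (340, [606, 610,
    614]), (233, [710, 714]), (234, [458, 707]), (283, [810, 814]), (284, [558, 807])])), (3, (186,
    [(189, [330, 334, 338]), (236, [430, 434, 438]), (286, [530, 534, 538])])), (149, (42, [(280,
    [354]), (141, [552]), (281, [347, 343, 549, 527]), (282, [303, 557, 523, 519]), (432, [602,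
    851, 818, 822]), (431, [642, 646, 857, 826])])), (99, (91, [(230, [452]), (142, [554]), (231,
    [426, 448, 542, 546]), (232, [418, 422, 456, 502]), (382, [723, 719, 750, 803]), (381, [727,
    756, 847, 843])])), (48, (33, [(34, [58]), (130, [54]), (133, [252]), (134, [258]), (80,
    [254]), (83, [152]), (84, [158]), (190, [315, 311, 307, 551, 515, 511, 507, 451, 415, 411,
    407])])), (49, (30, [(41, [52]), (92, [154]), (182, [323, 319, 350, 403]), (181, [327, 356,
    447, 443]), (180, [353, 348, 454]), (332, [623, 619, 650, 703]), (331, [627, 656, 747,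
    743])])), (348, (330, [(333, [653]), (334, [659]), (339, [639, 635, 631, 648]), (380, [748]),
    (383, [753, 730]), (384, [755, 739, 735, 758]), (430, [655, 849]), (433, [853, 830]), (434,
    [855, 839, 835, 858])]))]
  ops :=
    [.popF 0, .re 0 (333, [(334, [659]), (339, [630, 634, 638]), (433, [830]), (434, [859, 834,
    838]), (489, [6]), (581, [15, 11, 1149]), (1389, [206]), (1481, [215, 211, 2949]), (1482,
    [2957]), (1390, [2951]), (1382, [2750])]), .re 1 (31, [(32, [56]), (330, [50]), (490, [22,
    26]), (482, [950]), (582, [18, 1151]), (939, [103, 147]), (1031, [2049])]), .popF 1, .re 1 (30,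
    [(39, [48]), (41, [52]), (92, [154]), (182, [323, 319, 350, 403]), (181, [327, 356, 447, 443]),
    (180, [353, 348, 454]), (332, [623, 619, 650, 703]), (331, [627, 656, 747, 743]), (482, [34,
    38]), (490, [22, 26, 30, 950]), (582, [18, 1151]), (939, [103, 147]), (1031, [2049])]), .popF
    1, .re 1 (33, [(41, [52]), (190, [310, 314]), (84, [406]), (92, [154]), (490, [22, 26, 30]),
    (482, [950]), (582, [18, 1151]), (939, [103, 147]), (1031, [2049])]), .split 0 (333, [(334,
    [659]), (339, [630, 634, 638]), (489, [6]), (581, [15, 11, 1149])]) (433, [(434, [859]), (1389,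
    [206]), (1481, [215, 211, 2949]), (1482, [2957]), (1390, [2951]), (1382, [2750])]) [830, 834,
    838] [830, 834], .split 0 (339, []) (333, [(334, [659]), (489, [6]), (581, [15, 11, 1149])])
    [630, 634, 638] [630, 634], .split 1 (84, [(92, [154]), (190, [406]), (939, [103, 147]), (1031,
    [2049])]) (33, [(41, [52]), (490, [22, 26, 30]), (482, [950]), (582, [18, 1151])]) [310, 314]
    [310], .split 1 (190, []) (84, [(92, [154]), (939, [103, 147]), (1031, [2049])]) [406] [406]]
  ex :=
    [.fa ((186, []), [([358], (336, [])), ([59, 34, 38, 956], (537, [])), ([1056], (587, []))]) [3,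
    4], .fa ((236, []), [([458], (386, [])), ([758, 110, 114, 2057], (1037, [])), ([1957], (987,
    []))]) [5], .fa ((286, []), [([558], (436, [])), ([259, 234, 238, 2756], (1437, [])), ([2856],
    (1487, []))]) [2], .di (182, [(190, [350]), (232, [450]), (282, [551])]) [1], .di (331, [(339,
    [648]), (381, [748]), (431, [849])]) [0]]
  ob :=
    ((31, [(39, [48]), (81, [148]), (131, [249])]), [([956], (537, [])), ([1056], (587, [])),
    ([1856], (987, [])), ([1956], (1037, [])), ([2756], (1437, [])), ([2856], (1487, []))])
  ts :=
    [(40, [(489, [6]), (581, [15, 11, 1149]), (1389, [206]), (1481, [215, 211, 2949]), (1482,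
    [2957]), (1390, [2951]), (1382, [2750])]), (32, [(490, [22]), (482, [950]), (582, [18, 1151]),
    (939, [102]), (1031, [2049])])]

theorem cyUEf0_ok : certOk (.yq true false (.U 0)) cyUEf0 = true := by decide +kernel

def cyUEf1 : Cert where
  lb := []
  l :=
    []
  n0 := 4
  ch :=
    [(0, (336, [])), (2, (436, [])), (1, (386, [])), (198, (183, [(184, [358]), (340, [606, 610,
    614]), (233, [710, 714]), (234, [458, 707]), (283, [810, 814]), (284, [558, 807])])), (3, (186,
    [(189, [330, 334, 338]), (236, [430, 434, 438]), (286, [530, 534, 538])])), (49, (41, [(180,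
    [352]), (92, [454]), (181, [326, 348, 442, 446]), (182, [318, 322, 356, 402]), (332, [623, 619,
    650, 703]), (331, [627, 656, 747, 743])])), (149, (42, [(280, [354]), (141, [552]), (281, [347,
    343, 549, 527]), (282, [303, 557, 523, 519]), (432, [602, 851, 818, 822]), (431, [642, 646,
    857, 826])])), (48, (30, [(33, [52]), (34, [58]), (84, [154]), (83, [158]), (130, [54]), (133,
    [252]), (134, [258]), (190, [415, 411, 407, 351, 315, 311, 307, 551, 515, 511, 507])])), (99,
    (80, [(91, [152]), (142, [254]), (232, [423, 419, 450, 503]), (231, [427, 456, 547, 543]),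
    (230, [453, 448, 554]), (382, [723, 719, 750, 803]), (381, [727, 756, 847, 843])])), (348,
    (330, [(333, [653]), (334, [659]), (339, [639, 635, 631, 648]), (380, [748]), (383, [753,
    730]), (384, [755, 739, 735, 758]), (430, [655, 849]), (433, [853, 830]), (434, [855, 839, 835,
    858])]))]
  ops :=
    [.popF 0, .re 0 (333, [(334, [659]), (339, [630, 634, 638]), (383, [730]), (384, [759, 734,
    738]), (489, [6]), (581, [15, 11, 1149]), (582, [1157]), (490, [1151]), (482, [950]), (939,
    [106]), (1031, [115, 111, 2049])]), .re 1 (81, [(82, [156]), (380, [150]), (940, [122, 126]),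
    (932, [1850]), (1032, [118, 2051]), (1389, [203, 247]), (1481, [2949])]), .popF 1, .re 1 (39,
    [(80, [148]), (91, [152]), (142, [254]), (232, [423, 419, 450, 503]), (231, [427, 456, 547,
    543]), (230, [453, 448, 554]), (382, [723, 719, 750, 803]), (381, [727, 756, 847, 843]), (932,
    [134, 138]), (940, [122, 126, 130, 1850]), (1032, [118, 2051]), (1389, [203, 247]), (1481,
    [2949])]), .popF 1, .re 1 (83, [(91, [152]), (190, [410, 414]), (134, [506]), (142, [254]),
    (940, [122, 126, 130]), (932, [1850]), (1032, [118, 2051]), (1389, [203, 247]), (1481,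
    [2949])]), .split 0 (339, [(383, [730]), (384, [759, 734, 738]), (939, [106]), (1031, [115,
    111, 2049])]) (333, [(334, [659]), (489, [6]), (581, [15, 11, 1149]), (582, [1157]), (490,
    [1151]), (482, [950])]) [630, 634, 638] [630, 634], .split 0 (339, []) (383, [(384, [759]),
    (939, [106]), (1031, [115, 111, 2049])]) [730, 734, 738] [730, 734], .split 1 (134, [(142,
    [254]), (190, [506]), (1389, [203, 247]), (1481, [2949])]) (83, [(91, [152]), (940, [122, 126,
    130]), (932, [1850]), (1032, [118, 2051])]) [410, 414] [410], .split 1 (190, []) (134, [(142,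
    [254]), (1389, [203, 247]), (1481, [2949])]) [506] [506]]
  ex :=
    [.fa ((186, []), [([358], (336, [])), ([59, 34, 38, 956], (537, [])), ([1056], (587, []))])
    [2], .fa ((236, []), [([458], (386, [])), ([159, 134, 138, 1856], (987, [])), ([1956], (1037,
    []))]) [3, 4], .fa ((286, []), [([558], (436, [])), ([858, 210, 214, 2957], (1487, [])),
    ([2857], (1437, []))]) [5], .di (182, [(190, [350]), (232, [450]), (282, [551])]) [1], .di
    (331, [(339, [648]), (381, [748]), (431, [849])]) [0]]
  ob :=
    ((31, [(39, [48]), (81, [148]), (131, [249])]), [([956], (537, [])), ([1056], (587, [])),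
    ([1856], (987, [])), ([1956], (1037, [])), ([2756], (1437, [])), ([2856], (1487, []))])
  ts :=
    [(40, [(489, [6]), (581, [15, 11, 1149]), (582, [1157]), (490, [1151]), (482, [950]), (939,
    [106]), (1031, [115, 111, 2049])]), (82, [(940, [122]), (932, [1850]), (1032, [118, 2051]),
    (1389, [202]), (1481, [2949])])]

theorem cyUEf1_ok : certOk (.yq true false (.U 1)) cyUEf1 = true := by decide +kernel

def cyUEf2 : Cert where
  lb := []
  l :=
    []
  n0 := 4
  ch :=
    [(0, (336, [])), (2, (436, [])), (1, (386, [])), (198, (183, [(184, [358]), (340, [606, 610,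
    614]), (233, [710, 714]), (234, [458, 707]), (283, [810, 814]), (284, [558, 807])])), (3, (186,
    [(189, [330, 334, 338]), (236, [430, 434, 438]), (286, [530, 534, 538])])), (99, (91, [(230,
    [452]), (142, [554]), (231, [426, 448, 542, 546]), (232, [418, 422, 456, 502]), (382, [723,
    719, 750, 803]), (381, [727, 756, 847, 843])])), (49, (41, [(180, [352]), (92, [454]), (181,
    [326, 348, 442, 446]), (182, [318, 322, 356, 402]), (332, [623, 619, 650, 703]), (331, [627,
    656, 747, 743])])), (48, (30, [(33, [52]), (34, [58]), (84, [154]), (83, [158]), (80, [152]),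
    (134, [254]), (133, [258]), (190, [306, 310, 314, 350, 406, 410, 414, 450, 506, 510, 514])])),
    (149, (42, [(130, [54]), (141, [252]), (282, [302, 551, 518, 522]), (281, [342, 346, 557,
    526]), (280, [355, 549, 552]), (432, [602, 851, 818, 822]), (431, [642, 646, 857, 826])])),
    (348, (330, [(333, [653]), (334, [659]), (339, [639, 635, 631, 648]), (380, [748]), (383, [753,
    730]), (384, [755, 739, 735, 758]), (430, [655, 849]), (433, [853, 830]), (434, [855, 839, 835,
    858])]))]
  ops :=
    [.popF 0, .re 0 (339, [(383, [730]), (384, [759, 734, 738]), (433, [830]), (434, [859, 834,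
    838]), (939, [106]), (1031, [115, 111, 2049]), (1032, [2057]), (940, [2051]), (932, [1850]),
    (1389, [206]), (1481, [215, 211, 2949])]), .re 1 (131, [(132, [257]), (430, [251]), (489, [3,
    47]), (581, [1149]), (1390, [222, 226]), (1382, [2750]), (1482, [218, 2951])]), .popF 1, .re 1
    (39, [(130, [249]), (42, [54]), (141, [252]), (282, [302, 551, 518, 522]), (281, [342, 346,
    557, 526]), (280, [355, 549, 552]), (432, [602, 851, 818, 822]), (431, [642, 646, 857, 826]),
    (489, [3, 47]), (581, [1149]), (1382, [234, 238]), (1390, [222, 226, 230, 2750]), (1482, [218,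
    2951])]), .popF 1, .re 1 (34, [(42, [54]), (190, [306]), (133, [510, 514]), (141, [252]), (489,
    [3, 47]), (581, [1149]), (1390, [222, 226, 230]), (1382, [2750]), (1482, [218, 2951])]), .split
    0 (339, [(433, [830]), (434, [859, 834, 838]), (1389, [206]), (1481, [215, 211, 2949])]) (383,
    [(384, [759]), (939, [106]), (1031, [115, 111, 2049]), (1032, [2057]), (940, [2051]), (932,
    [1850])]) [730, 734, 738] [730, 734], .split 0 (339, []) (433, [(434, [859]), (1389, [206]),
    (1481, [215, 211, 2949])]) [830, 834, 838] [830, 834], .split 1 (34, [(42, [54]), (190, [306]),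
    (489, [3, 47]), (581, [1149])]) (133, [(141, [252]), (1390, [222, 226, 230]), (1382, [2750]),
    (1482, [218, 2951])]) [510, 514] [510], .split 1 (190, []) (34, [(42, [54]), (489, [3, 47]),
    (581, [1149])]) [306] [306]]
  ex :=
    [.fa ((186, []), [([358], (336, [])), ([658, 10, 14, 1157], (587, [])), ([1057], (537, []))])
    [5], .fa ((236, []), [([458], (386, [])), ([159, 134, 138, 1856], (987, [])), ([1956], (1037,
    []))]) [2], .fa ((286, []), [([558], (436, [])), ([259, 234, 238, 2756], (1437, [])), ([2856],
    (1487, []))]) [3, 4], .di (182, [(190, [350]), (232, [450]), (282, [551])]) [1], .di (331,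
    [(339, [648]), (381, [748]), (431, [849])]) [0]]
  ob :=
    ((31, [(39, [48]), (81, [148]), (131, [249])]), [([956], (537, [])), ([1056], (587, [])),
    ([1856], (987, [])), ([1956], (1037, [])), ([2756], (1437, [])), ([2856], (1487, []))])
  ts :=
    [(40, [(939, [106]), (1031, [115, 111, 2049]), (1032, [2057]), (940, [2051]), (932, [1850]),
    (1389, [206]), (1481, [215, 211, 2949])]), (132, [(489, [2]), (581, [1149]), (1390, [222]),
    (1382, [2750]), (1482, [218, 2951])])]

theorem cyUEf2_ok : certOk (.yq true false (.U 2)) cyUEf2 = true := by decide +kernel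

end Pool.Agent.Lib.MP_b7d179_gt.L
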