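import Pool.Agent.Lib.MP_b7d179_gt.L.Md

/-! Certificates of the steps of a lens. -/

namespace Pool.Agent.Lib.MP_b7d179_gt.L

open C

def cxNtt : Cert where
  lb := []
  l :=
    []
  n0 := 0
  ch :=
    [(4, (236, [])), (2, (237, [])), (6, (387, [])), (1, (386, [])), (7, (436, [])), (5, (286,
    [])), (201, (189, [(233, [430]), (234, [439, 435, 458]), (340, [706, 710, 714])])), (3, (283,
    [(284, [558]), (287, [530, 534, 538]), (437, [806, 810, 814])])), (102, (91, [(230, [452]),
    (142, [554]), (231, [426, 448, 542, 546]), (232, [418, 422, 456, 502]), (382, [723, 719, 750,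
    803]), (381, [727, 756, 847, 843])])), (351, (339, [(380, [748]), (383, [753, 730]), (384,
    [759, 734, 738]), (433, [830]), (434, [855, 839, 835, 858])])), (152, (141, [(280, [552]),
    (281, [549, 527]), (282, [557, 523, 519]), (430, [853]), (431, [849, 827]), (432, [857, 823,
    819, 850])])), (52, (92, [(180, [454]), (181, [348, 442, 446]), (182, [356, 402]), (330,
    [755]), (331, [648, 742, 746]), (332, [650, 703, 657])])), (51, (30, [(84, [154]), (83, [158]),
    (80, [152]), (134, [254]), (133, [258]), (130, [252]), (190, [551, 515, 511, 507, 451, 415,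
    411, 407, 351])]))]
  ops :=
    [.popF 0, .popF 0, .split 0 (80, [(83, [152]), (84, [158]), (92, [154]), (180, [454]), (181,
    [348, 442, 446]), (182, [356, 402]), (190, [350, 406, 410, 414, 450]), (330, [755]), (331,
    [648, 742, 746]), (332, [650, 703, 657])]) (42, [(130, [54]), (131, [47, 43, 249]), (133,
    [252]), (134, [258]), (334, [655])]) [254, 506, 510, 514, 550] [510, 514], .re 1 (42, [(130,
    [54]), (131, [47, 43, 249]), (132, [3, 257]), (133, [252]), (134, [258]), (334, [655])]), .popF
    1, .re 0 (80, [(83, [152]), (84, [158]), (92, [154]), (180, [454]), (181, [348, 442, 446]),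
    (182, [356, 402]), (190, [350, 406, 410, 414, 450]), (331, [747, 743]), (332, [650, 703,
    657])]), .re 1 (40, [(330, [50]), (333, [10, 14, 653]), (334, [6, 659]), (430, [250, 655]),
    (141, [853]), (133, [252]), (134, [258]), (280, [552]), (281, [549, 527]), (282, [557, 523,
    519]), (431, [849, 827]), (432, [857, 823, 819, 850])]), .popF 1, .re 0 (84, [(92, [154]),
    (182, [402]), (190, [350, 406])]), .re 1 (133, [(141, [252]), (431, [826]), (339, [849]), (433,
    [853, 830])]), .split 0 (182, [(190, [350])]) (84, [(92, [154])]) [402, 406] [402, 406], .split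
    1 (339, [(431, [849])]) (133, [(141, [252]), (433, [853])]) [826, 830] [826, 830]]
  ex :=
    [.di (182, [(190, [350]), (232, [450]), (282, [551])]) [0], .di (331, [(339, [648]), (381,
    [748]), (431, [849])]) [1], .di (84, [(92, [154]), (234, [454]), (384, [755])]) [2], .di (133,
    [(141, [252]), (283, [552]), (433, [853])]) [3], .pt [(0, [402, 406], [402, 406])], .pt [(0,
    [510, 514], [510, 514, 518, 522])], .pt [], .pt [(1, [826, 830], [826, 830])]]
  ob :=
    ((87, []), [([156], (137, [])), ([256, 2, 6, 659], (336, [])), ([359], (186, []))])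
  ts :=
    [(31, [(32, [56]), (39, [48]), (33, [30]), (34, [39, 35, 58]), (41, [18, 22, 26, 52]), (42,
    [54]), (131, [47, 43, 249]), (334, [655])])]

theorem cxNtt_ok : certOk (.xq true true .N) cxNtt = true := by decide +kernel

def cxPtt : Cert where
  lb := []
  l :=
    []
  n0 := 0
  ch :=
    [(4, (236, [])), (2, (237, [])), (6, (387, [])), (1, (386, [])), (7, (436, [])), (5, (286,
    [])), (201, (189, [(233, [430]), (234, [439, 435, 458]), (340, [706, 710, 714])])), (3, (283,
    [(284, [558]), (287, [530, 534, 538]), (437, [806, 810, 814])])), (102, (91, [(230, [452]),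
    (142, [554]), (231, [426, 448, 542, 546]), (232, [418, 422, 456, 502]), (382, [723, 719, 750,
    803]), (381, [727, 756, 847, 843])])), (351, (339, [(380, [748]), (383, [753, 730]), (384,
    [759, 734, 738]), (433, [830]), (434, [855, 839, 835, 858])])), (152, (141, [(280, [552]),
    (281, [549, 527]), (282, [557, 523, 519]), (430, [853]), (431, [849, 827]), (432, [857, 823,
    819, 850])])), (52, (92, [(180, [454]), (181, [348, 442, 446]), (182, [356, 402]), (330,
    [755]), (331, [648, 742, 746]), (332, [650, 703, 657])])), (51, (30, [(84, [154]), (83, [158]),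
    (80, [152]), (134, [254]), (133, [258]), (130, [252]), (190, [551, 515, 511, 507, 451, 415,
    411, 407, 351])]))]
  ops :=
    [.popF 0, .popF 0, .re 0 (84, [(92, [154]), (182, [402]), (190, [350, 406])]), .re 1 (42,
    [(130, [54]), (131, [47, 43, 249]), (132, [3, 257]), (334, [655])]), .popF 1, .re 1 (40, [(330,
    [50]), (333, [10, 14, 653]), (334, [6, 659]), (430, [250, 655]), (141, [853]), (280, [552]),
    (281, [549, 527]), (282, [557, 523, 519]), (431, [849, 827]), (432, [857, 823, 819, 850])]),
    .popF 1, .re 1 (141, [(431, [826]), (339, [849]), (433, [853, 830])]), .split 0 (182, [(190,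
    [350])]) (84, [(92, [154])]) [402, 406] [402, 406], .split 1 (339, [(431, [849])]) (141, [(433,
    [853])]) [826, 830] [826, 830]]
  ex :=
    [.di (182, [(190, [350]), (232, [450]), (282, [551])]) [0], .di (331, [(339, [648]), (381,
    [748]), (431, [849])]) [1], .di (84, [(92, [154]), (234, [454]), (384, [755])]) [2], .di (133,
    [(141, [252]), (283, [552]), (433, [853])]) [3], .pt [(0, [402, 406], [402, 406])], .pt [], .pt
    [], .pt [(1, [826, 830], [826, 830])]]
  ob :=
    ((87, []), [([156], (137, [])), ([256, 2, 6, 659], (336, [])), ([359], (186, []))])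
  ts :=
    [(31, [(32, [56]), (39, [48]), (33, [30]), (34, [39, 35, 58]), (41, [18, 22, 26, 52])]), (42,
    [(131, [47, 43]), (334, [655])])]

theorem cxPtt_ok : certOk (.xq true true .PAR) cxPtt = true := by decide +kernel

def cxNtf : Cert where
  lb := []
  l :=
    []
  n0 := 0
  ch :=
    [(4, (236, [])), (2, (237, [])), (6, (387, [])), (1, (386, [])), (7, (436, [])), (5, (286,
    [])), (201, (189, [(233, [430]), (234, [439, 435, 458]), (340, [706, 710, 714])])), (3, (283,
    [(284, [558]), (287, [530, 534, 538]), (437, [806, 810, 814])])), (102, (91, [(230, [452]),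
    (142, [554]), (231, [426, 448, 542, 546]), (232, [418, 422, 456, 502]), (382, [723, 719, 750,
    803]), (381, [727, 756, 847, 843])])), (52, (92, [(180, [454]), (181, [348, 442, 446]), (182,
    [356, 402]), (331, [747, 743]), (332, [650, 703, 657])])), (351, (330, [(339, [648]), (380,
    [748]), (383, [753, 730]), (384, [755, 739, 735, 758]), (433, [830]), (434, [855, 839, 835,
    858])])), (152, (141, [(280, [552]), (281, [549, 527]), (282, [557, 523, 519]), (430, [853]),
    (431, [849, 827]), (432, [857, 823, 819, 850])])), (51, (30, [(84, [154]), (83, [158]), (80,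
    [152]), (134, [254]), (133, [258]), (130, [252]), (190, [551, 515, 511, 507, 451, 415, 411,
    407, 351])]))]
  ops :=
    [.popF 0, .popF 0, .split 0 (30, [(84, [154]), (83, [158]), (80, [152]), (134, [254]), (133,
    [258]), (141, [252]), (190, [350, 406, 410, 414, 450, 506, 510, 514]), (280, [552]), (281,
    [549, 527]), (282, [557, 523, 519, 550])]) (32, [(40, [50]), (334, [6]), (430, [250, 655]),
    (431, [849]), (432, [857])]) [853, 827, 823, 819, 850] [826], .re 1 (32, [(40, [50]), (333,
    [10, 14]), (334, [6, 659]), (430, [250, 655]), (431, [849]), (432, [857])]), .popF 1, .re 0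
    (80, [(83, [152]), (84, [158]), (134, [254]), (133, [258]), (141, [252]), (190, [406, 410, 414,
    450, 506, 510, 514]), (280, [552]), (281, [549, 527]), (282, [557, 523, 519, 550])]), .re 1
    (30, [(31, [48]), (32, [56]), (41, [18, 22, 26, 52]), (330, [51, 653]), (339, [648]), (380,
    [748]), (383, [753, 730]), (384, [755, 739, 735, 758]), (431, [849]), (432, [857]), (433,
    [830]), (434, [855, 839, 835, 858])]), .popF 1, .re 0 (133, [(141, [252]), (190, [510, 514]),
    (282, [551, 518, 522])]), .re 1 (92, [(331, [747, 743]), (339, [648]), (384, [755, 739, 735]),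
    (431, [849])]), .split 0 (190, [(282, [551])]) (133, [(141, [252])]) [510, 514, 518, 522] [510,
    514, 518, 522], .split 1 (331, [(339, [648]), (431, [849])]) (92, [(384, [755])]) [747, 743,
    739, 735] [747, 743, 739, 735]]
  ex :=
    [.di (182, [(190, [350]), (232, [450]), (282, [551])]) [0], .di (331, [(339, [648]), (381,
    [748]), (431, [849])]) [1], .di (84, [(92, [154]), (234, [454]), (384, [755])]) [3], .di (133,
    [(141, [252]), (283, [552]), (433, [853])]) [2], .pt [], .pt [(0, [510, 514, 518, 522], [510,
    514, 518, 522])], .pt [(1, [747, 743, 739, 735], [747, 743, 739, 735])], .pt [(1, [826], [826,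
    830])]]
  ob :=
    ((87, []), [([156], (137, [])), ([57, 23, 19, 15, 11, 659], (336, [])), ([359], (186, []))])
  ts :=
    [(32, [(40, [50]), (132, [251]), (42, [2]), (34, [54]), (33, [58]), (39, [30, 34, 38]), (131,
    [256, 47, 43, 249]), (334, [7, 655])])]

theorem cxNtf_ok : certOk (.xq true false .N) cxNtf = true := by decide +kernel

def cxPtf : Cert where
  lb := []
  l :=
    []
  n0 := 0
  ch :=
    [(4, (236, [])), (2, (237, [])), (6, (387, [])), (1, (386, [])), (7, (436, [])), (5, (286,
    [])), (201, (189, [(233, [430]), (234, [439, 435, 458]), (340, [706, 710, 714])])), (3, (283,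
    [(284, [558]), (287, [530, 534, 538]), (437, [806, 810, 814])])), (102, (91, [(230, [452]),
    (142, [554]), (231, [426, 448, 542, 546]), (232, [418, 422, 456, 502]), (382, [723, 719, 750,
    803]), (381, [727, 756, 847, 843])])), (52, (92, [(180, [454]), (181, [348, 442, 446]), (182,
    [356, 402]), (331, [747, 743]), (332, [650, 703, 657])])), (351, (330, [(339, [648]), (380,
    [748]), (383, [753, 730]), (384, [755, 739, 735, 758]), (433, [830]), (434, [855, 839, 835,
    858])])), (152, (141, [(280, [552]), (281, [549, 527]), (282, [557, 523, 519]), (430, [853]),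
    (431, [849, 827]), (432, [857, 823, 819, 850])])), (51, (30, [(84, [154]), (83, [158]), (80,
    [152]), (134, [254]), (133, [258]), (130, [252]), (190, [551, 515, 511, 507, 451, 415, 411,
    407, 351])]))]
  ops :=
    [.popF 0, .popF 0, .re 0 (133, [(141, [252]), (190, [510, 514]), (282, [551, 518, 522])]), .re
    1 (32, [(40, [50]), (333, [10, 14]), (334, [6, 659]), (430, [250, 655])]), .popF 1, .re 1 (30,
    [(31, [48]), (32, [56]), (41, [18, 22, 26, 52]), (330, [51, 653]), (339, [648]), (380, [748]),
    (383, [753, 730]), (384, [755, 739, 735, 758]), (433, [830]), (434, [855, 839, 835, 858])]),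
    .popF 1, .re 1 (92, [(331, [747, 743]), (339, [648]), (384, [755, 739, 735])]), .split 0 (190,
    [(282, [551])]) (133, [(141, [252])]) [510, 514, 518, 522] [510, 514, 518, 522], .split 1 (331,
    [(339, [648])]) (92, [(384, [755])]) [747, 743, 739, 735] [747, 743, 739, 735]]
  ex :=
    [.di (182, [(190, [350]), (232, [450]), (282, [551])]) [0], .di (331, [(339, [648]), (381,
    [748]), (431, [849])]) [1], .di (84, [(92, [154]), (234, [454]), (384, [755])]) [3], .di (133,
    [(141, [252]), (283, [552]), (433, [853])]) [2], .pt [], .pt [(0, [510, 514, 518, 522], [510,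
    514, 518, 522])], .pt [(1, [747, 743, 739, 735], [747, 743, 739, 735])], .pt []]
  ob :=
    ((87, []), [([156], (137, [])), ([57, 23, 19, 15, 11, 659], (336, [])), ([359], (186, []))])
  ts :=
    [(33, [(34, [58]), (39, [30, 34, 38]), (42, [54]), (131, [47, 43, 249]), (132, [3, 257])]),
    (32, [(40, [50]), (334, [6])])]

theorem cxPtf_ok : certOk (.xq true false .PAR) cxPtf = true := by decide +kernel

def cxMtf : Cert where
  lb := []
  l :=
    [.vt 26, .dg 33 [59, 31, 52] [310, 314, 903], .dg 41 [53, 27, 23, 19] [902, 318, 322, 326, 352,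
    618, 622, 626, 652], .dg 30 [48, 154] [52, 902, 350], .dg 430 [251, 853] [655, 849], .dg 190
    [351, 315, 311] [406, 410, 414, 450, 506, 510, 514, 550, 306], .dg 339 [830, 834, 838, 749,
    730, 734, 738, 649, 630] [848, 639, 635], .dg 92 [103, 147, 143, 154] [755, 742, 746, 702, 455,
    442, 446, 402], .dg 141 [227, 223, 219, 853] [252, 518, 522, 526, 552, 818, 822, 826]]
  n0 := 0
  ch :=
    [(4, (236, [])), (2, (237, [])), (6, (387, [])), (1, (386, [])), (7, (436, [])), (5, (286,
    [])), (201, (189, [(233, [430]), (234, [439, 435, 458]), (340, [706, 710, 714])])), (3, (283,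
    [(284, [558]), (287, [530, 534, 538]), (437, [806, 810, 814])])), (102, (91, [(230, [452]),
    (142, [554]), (231, [426, 448, 542, 546]), (232, [418, 422, 456, 502]), (382, [723, 719, 750,
    803]), (381, [727, 756, 847, 843])])), (152, (141, [(467, [932]), (280, [552]), (281, [549,
    527]), (282, [557, 523, 519]), (431, [826]), (432, [857, 823, 819, 850])])), (52, (92, [(465,
    [928]), (180, [454]), (181, [348, 442, 446]), (182, [356, 402]), (331, [747, 743]), (332, [650,
    703, 657])])), (351, (330, [(339, [648]), (380, [748]), (383, [753, 730]), (384, [755, 739,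
    735, 758]), (433, [830]), (430, [853]), (434, [855, 839, 835, 858]), (459, [916]), (463, [925,
    848])])), (51, (30, [(84, [154]), (83, [158]), (80, [152]), (134, [254]), (133, [258]), (130,
    [252]), (457, [912]), (190, [350]), (461, [551, 515, 511, 507, 451, 415, 411, 407, 920])]))]
  ops :=
    [.re 1 (31, [(32, [56]), (39, [48]), (33, [30]), (34, [39, 35, 58]), (41, [18, 22, 26, 52]),
    (42, [54]), (334, [655])]), .re 1 (31, [(32, [56]), (39, [48]), (34, [34, 38]), (42, [54]),
    (334, [655])]), .re 0 (33, [(41, [52]), (453, [904]), (455, [909, 902]), (333, [653]), (40,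
    [10, 14]), (132, [251]), (131, [257])]), .popP 0 1 [30, 58] [912, 920] (33, [(453, [904])])
    (34, [(39, [34, 38])]) (190, [(457, [350])]) (30, [(84, [154]), (83, [158]), (80, [152]), (134,
    [254]), (133, [258]), (130, [252]), (461, [551, 515, 511, 507, 451, 415, 411, 407])]), .popP 0
    1 [6, 659] [916, 924] (40, [(333, [10, 14])]) (334, []) (330, [(339, [648]), (380, [748]),
    (383, [753, 730]), (384, [755, 739, 735, 758]), (433, [830]), (430, [853]), (434, [855, 839,
    835, 858])]) (459, [(463, [849])]), .popP 0 1 [51, 18, 22, 26, 912] [928] (41, [(455, [909]),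
    (330, [653]), (457, [52, 902])]) (30, [(31, [48]), (32, [56])]) (180, [(181, [348]), (182,
    [356]), (332, [650]), (331, [656]), (465, [403, 447, 443, 454, 703, 747, 743])]) (92, []),
    .popP 0 1 [248, 42, 46, 2, 916] [932] (131, [(132, [257]), (430, [251])]) (42, [(130, [54]),
    (459, [655])]) (141, []) (280, [(281, [549]), (282, [557]), (432, [851]), (431, [857]), (467,
    [518, 522, 526, 552, 818, 822, 826])]), .re 0 (141, [(433, [853]), (339, [830]), (331, [648]),
    (384, [734, 738]), (465, [755, 742, 746]), (182, [402]), (190, [350])]), .re 1 (84, [(92,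
    [154]), (461, [406]), (133, [510, 514]), (282, [551]), (467, [252, 518, 522]), (431, [826]),
    (463, [849])]), .split 0 (182, [(190, [350])]) (141, [(433, [853]), (339, [830]), (331, [648]),
    (384, [734, 738]), (465, [755, 742, 746])]) [402] [402], .split 2 (384, [(465, [755])]) (141,
    [(433, [853]), (339, [830]), (331, [648])]) [747, 743, 739, 735] [747, 743, 739, 735], .split 3
    (331, [(339, [648])]) (141, [(433, [853])]) [830] [830], .split 1 (431, [(463, [849])]) (84,
    [(92, [154]), (461, [406]), (133, [510, 514]), (282, [551]), (467, [252, 518, 522])]) [826]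
    [826], .split 5 (133, [(467, [252])]) (84, [(92, [154]), (461, [406]), (282, [551])]) [510,
    514, 518, 522] [510, 514, 518, 522], .split 6 (282, [(461, [551])]) (84, [(92, [154])]) [406]
    [406]]
  ex :=
    [.di (182, [(190, [350]), (461, [921]), (232, [450]), (282, [551])]) [0, 6], .di (331, [(339,
    [648]), (381, [748]), (463, [925]), (431, [849])]) [1, 3], .di (84, [(92, [154]), (465, [928]),
    (234, [454]), (384, [755])]) [2, 7], .di (133, [(467, [252]), (141, [932]), (283, [552]), (433,
    [853])]) [4, 5], .pt [(0, [402], [402]), (6, [406], [406])], .pt [(5, [510, 514, 518, 522],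
    [510, 514, 518, 522])], .pt [(2, [747, 743, 739, 735], [747, 743, 739, 735])], .pt [(1, [826],
    [826]), (3, [830], [830])]]
  ob :=
    ((87, []), [([156], (137, [])), ([57, 26, 30, 34, 38, 42, 46, 2, 6, 659], (336, [])), ([359],
    (186, []))])
  ts :=
    [(40, [(132, [251]), (131, [257]), (333, [10, 14]), (455, [653]), (453, [903])]), (32, [(41,
    [18, 22]), (33, [52]), (34, [58]), (42, [54]), (334, [655])])]

theorem cxMtf_ok : certOk (.xq true false .M) cxMtf = true := by decide +kernel

end Pool.Agent.Lib.MP_b7d179_gt.L
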