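import Pool.Agent.Lib.MP_b7d179_gt.L.Md

/-! Certificates of the steps of a lens. -/

namespace Pool.Agent.Lib.MP_b7d179_gt.L

open C

def cxNff : Cert where
  lb := []
  l :=
    []
  n0 := 1
  ch :=
    [(7, (436, [])), (3, (437, [])), (5, (287, [])), (0, (286, [])), (4, (236, [])), (6, (386,
    [])), (201, (189, [(283, [530]), (284, [539, 535, 558]), (340, [806, 810, 814])])), (2, (233,
    [(234, [458]), (237, [430, 434, 438]), (387, [706, 710, 714])])), (102, (91, [(230, [452]),
    (142, [554]), (231, [426, 448, 542, 546]), (232, [418, 422, 456, 502]), (382, [723, 719, 750,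
    803]), (381, [727, 756, 847, 843])])), (51, (80, [(83, [152]), (84, [158]), (134, [254]), (133,
    [258]), (190, [406, 410, 414, 450, 506, 510, 514])])), (52, (30, [(92, [154]), (180, [454]),
    (181, [348, 442, 446]), (182, [350, 403, 357]), (331, [747, 743]), (332, [650, 703, 657])])),
    (152, (130, [(141, [252]), (280, [552]), (281, [549, 527]), (282, [557, 523, 519, 550]), (431,
    [826]), (432, [857, 823, 819, 850])])), (351, (330, [(339, [648]), (380, [748]), (383, [753,
    730]), (384, [755, 739, 735, 758]), (430, [849]), (433, [853, 830]), (434, [855, 839, 835,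
    858])]))]
  ops :=
    [.popF 0, .popF 0, .split 0 (130, [(141, [252]), (280, [552]), (281, [549, 527]), (282, [557,
    523, 519, 550]), (431, [826]), (339, [849]), (380, [748]), (432, [857, 823, 819, 850]), (433,
    [853, 830]), (434, [855, 839, 835, 858])]) (32, [(41, [18, 22]), (33, [52]), (330, [51, 653]),
    (384, [755]), (383, [759])]) [753, 730, 734, 738, 649] [734, 738], .re 1 (31, [(32, [56]), (41,
    [18, 22, 26]), (33, [52]), (330, [51, 653]), (384, [755]), (383, [759])]), .popF 1, .re 0 (141,
    [(280, [552]), (281, [549, 527]), (282, [557, 523, 519]), (431, [826]), (339, [849]), (380,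
    [748]), (432, [857, 823, 819, 850]), (433, [853, 830]), (434, [855, 839, 835, 858])]), .re 1
    (30, [(33, [52]), (34, [58]), (39, [39, 35, 31, 48]), (92, [154]), (130, [248, 54]), (180,
    [454]), (181, [348, 442, 446]), (182, [350, 403, 357]), (331, [747, 743]), (332, [650, 703,
    657]), (384, [755]), (383, [759])]), .popF 1, .re 0 (141, [(431, [826]), (339, [849]), (433,
    [853, 830])]), .re 1 (84, [(92, [154]), (182, [402]), (190, [350, 406]), (384, [755])]), .split
    0 (339, [(431, [849])]) (141, [(433, [853])]) [826, 830] [826, 830], .split 1 (182, [(190,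
    [350])]) (84, [(92, [154]), (384, [755])]) [402, 406] [402, 406]]
  ex :=
    [.di (182, [(190, [350]), (232, [450]), (282, [551])]) [1], .di (331, [(339, [648]), (381,
    [748]), (431, [849])]) [0], .di (84, [(92, [154]), (234, [454]), (384, [755])]) [3], .di (133,
    [(141, [252]), (283, [552]), (433, [853])]) [2], .pt [(1, [402, 406], [402, 406])], .pt [], .pt
    [(0, [734, 738], [747, 743, 739, 735])], .pt [(0, [826, 830], [826, 830])]]
  ob :=
    ((87, []), [([57, 26, 30, 58], (186, [])), ([156], (137, [])), ([358], (336, []))])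
  ts :=
    [(32, [(40, [50]), (41, [18, 22]), (33, [52]), (132, [251]), (42, [2]), (131, [42, 46, 257]),
    (333, [10, 14, 653]), (334, [658, 7, 655])])]

theorem cxNff_ok : certOk (.xq false false .N) cxNff = true := by decide +kernel

def cxPff : Cert where
  lb := []
  l :=
    []
  n0 := 1
  ch :=
    [(7, (436, [])), (3, (437, [])), (5, (287, [])), (0, (286, [])), (4, (236, [])), (6, (386,
    [])), (201, (189, [(283, [530]), (284, [539, 535, 558]), (340, [806, 810, 814])])), (2, (233,
    [(234, [458]), (237, [430, 434, 438]), (387, [706, 710, 714])])), (102, (91, [(230, [452]),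
    (142, [554]), (231, [426, 448, 542, 546]), (232, [418, 422, 456, 502]), (382, [723, 719, 750,
    803]), (381, [727, 756, 847, 843])])), (51, (80, [(83, [152]), (84, [158]), (134, [254]), (133,
    [258]), (190, [406, 410, 414, 450, 506, 510, 514])])), (52, (30, [(92, [154]), (180, [454]),
    (181, [348, 442, 446]), (182, [350, 403, 357]), (331, [747, 743]), (332, [650, 703, 657])])),
    (152, (130, [(141, [252]), (280, [552]), (281, [549, 527]), (282, [557, 523, 519, 550]), (431,
    [826]), (432, [857, 823, 819, 850])])), (351, (330, [(339, [648]), (380, [748]), (383, [753,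
    730]), (384, [755, 739, 735, 758]), (430, [849]), (433, [853, 830]), (434, [855, 839, 835,
    858])]))]
  ops :=
    [.popF 0, .popF 0, .re 0 (141, [(431, [826]), (339, [849]), (433, [853, 830])]), .re 1 (31,
    [(32, [56]), (41, [18, 22, 26]), (33, [52]), (330, [51, 653])]), .popF 1, .re 1 (30, [(33,
    [52]), (34, [58]), (39, [39, 35, 31, 48]), (92, [154]), (130, [248, 54]), (180, [454]), (181,
    [348, 442, 446]), (182, [350, 403, 357]), (331, [747, 743]), (332, [650, 703, 657])]), .popF 1,
    .re 1 (84, [(92, [154]), (182, [402]), (190, [350, 406])]), .split 0 (339, [(431, [849])])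
    (141, [(433, [853])]) [826, 830] [826, 830], .split 1 (182, [(190, [350])]) (84, [(92, [154])])
    [402, 406] [402, 406]]
  ex :=
    [.di (182, [(190, [350]), (232, [450]), (282, [551])]) [1], .di (331, [(339, [648]), (381,
    [748]), (431, [849])]) [0], .di (84, [(92, [154]), (234, [454]), (384, [755])]) [3], .di (133,
    [(141, [252]), (283, [552]), (433, [853])]) [2], .pt [(1, [402, 406], [402, 406])], .pt [], .pt
    [], .pt [(0, [826, 830], [826, 830])]]
  ob :=
    ((87, []), [([57, 26, 30, 58], (186, [])), ([156], (137, [])), ([358], (336, []))])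
  ts :=
    [(40, [(132, [251]), (42, [2]), (131, [42, 46, 257]), (333, [10, 14]), (334, [658, 7, 655])]),
    (32, [(41, [18, 22]), (33, [52])])]

theorem cxPff_ok : certOk (.xq false false .PAR) cxPff = true := by decide +kernel

def cxNft : Cert where
  lb := []
  l :=
    []
  n0 := 1
  ch :=
    [(7, (436, [])), (3, (437, [])), (5, (287, [])), (0, (286, [])), (4, (236, [])), (6, (386,
    [])), (201, (189, [(283, [530]), (284, [539, 535, 558]), (340, [806, 810, 814])])), (2, (233,
    [(234, [458]), (237, [430, 434, 438]), (387, [706, 710, 714])])), (102, (91, [(230, [452]),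
    (142, [554]), (231, [426, 448, 542, 546]), (232, [418, 422, 456, 502]), (382, [723, 719, 750,
    803]), (381, [727, 756, 847, 843])])), (152, (141, [(280, [552]), (281, [549, 527]), (282,
    [557, 523, 519]), (431, [826]), (432, [857, 823, 819, 850])])), (51, (80, [(83, [152]), (84,
    [158]), (134, [254]), (133, [258]), (130, [252]), (190, [551, 515, 511, 507, 451, 415, 411,
    407])])), (52, (30, [(92, [154]), (180, [454]), (181, [348, 442, 446]), (182, [350, 403, 357]),
    (331, [747, 743]), (332, [650, 703, 657])])), (351, (330, [(339, [648]), (380, [748]), (383,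
    [753, 730]), (384, [755, 739, 735, 758]), (430, [849]), (433, [853, 830]), (434, [855, 839,
    835, 858])]))]
  ops :=
    [.popF 0, .popF 0, .split 0 (92, [(180, [454]), (331, [747, 743]), (332, [650, 703, 657]),
    (339, [648]), (380, [748]), (383, [753, 730]), (384, [755, 739, 735, 758]), (430, [849]), (433,
    [853, 830]), (434, [855, 839, 835, 858])]) (30, [(33, [52]), (39, [31, 48]), (131, [249]),
    (182, [350]), (181, [356])]) [154, 403, 447, 443, 349] [402], .re 1 (30, [(33, [52]), (34,
    [58]), (39, [39, 35, 31, 48]), (131, [249]), (182, [350]), (181, [356])]), .popF 1, .re 0 (92,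
    [(180, [454]), (331, [747, 743]), (332, [650, 703, 657]), (339, [648]), (380, [748]), (383,
    [753, 730]), (384, [755, 739, 735, 758]), (433, [830]), (434, [855, 839, 835, 858])]), .re 1
    (42, [(130, [54]), (131, [47, 43, 249]), (132, [3, 257]), (133, [252]), (134, [258]), (80,
    [254]), (83, [152]), (84, [158]), (190, [551, 515, 511, 507, 451, 415, 411, 407]), (182,
    [350]), (181, [356]), (430, [250, 655])]), .popF 1, .re 0 (92, [(331, [747, 743]), (339,
    [648]), (384, [755, 739, 735])]), .re 1 (133, [(141, [252]), (190, [510, 514]), (182, [350]),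
    (282, [551, 518, 522])]), .split 0 (331, [(339, [648])]) (92, [(384, [755])]) [747, 743, 739,
    735] [747, 743, 739, 735], .split 1 (182, [(190, [350]), (282, [551])]) (133, [(141, [252])])
    [510, 514, 518, 522] [510, 514, 518, 522]]
  ex :=
    [.di (182, [(190, [350]), (232, [450]), (282, [551])]) [1], .di (331, [(339, [648]), (381,
    [748]), (431, [849])]) [0], .di (84, [(92, [154]), (234, [454]), (384, [755])]) [2], .di (133,
    [(141, [252]), (283, [552]), (433, [853])]) [3], .pt [(1, [402], [402, 406])], .pt [(1, [510,
    514, 518, 522], [510, 514, 518, 522])], .pt [(0, [747, 743, 739, 735], [747, 743, 739, 735])],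
    .pt []]
  ob :=
    ((87, []), [([156], (137, [])), ([256, 47, 43, 39, 35, 58], (186, [])), ([358], (336, []))])
  ts :=
    [(31, [(32, [56]), (39, [48]), (33, [30]), (40, [50]), (41, [18, 22, 26, 52]), (131, [249]),
    (333, [10, 14, 653]), (334, [6, 659])])]

theorem cxNft_ok : certOk (.xq false true .N) cxNft = true := by decide +kernel

def cxPft : Cert where
  lb := []
  l :=
    []
  n0 := 1
  ch :=
    [(7, (436, [])), (3, (437, [])), (5, (287, [])), (0, (286, [])), (4, (236, [])), (6, (386,
    [])), (201, (189, [(283, [530]), (284, [539, 535, 558]), (340, [806, 810, 814])])), (2, (233,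
    [(234, [458]), (237, [430, 434, 438]), (387, [706, 710, 714])])), (102, (91, [(230, [452]),
    (142, [554]), (231, [426, 448, 542, 546]), (232, [418, 422, 456, 502]), (382, [723, 719, 750,
    803]), (381, [727, 756, 847, 843])])), (152, (141, [(280, [552]), (281, [549, 527]), (282,
    [557, 523, 519]), (431, [826]), (432, [857, 823, 819, 850])])), (51, (80, [(83, [152]), (84,
    [158]), (134, [254]), (133, [258]), (130, [252]), (190, [551, 515, 511, 507, 451, 415, 411,
    407])])), (52, (30, [(92, [154]), (180, [454]), (181, [348, 442, 446]), (182, [350, 403, 357]),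
    (331, [747, 743]), (332, [650, 703, 657])])), (351, (330, [(339, [648]), (380, [748]), (383,
    [753, 730]), (384, [755, 739, 735, 758]), (430, [849]), (433, [853, 830]), (434, [855, 839,
    835, 858])]))]
  ops :=
    [.popF 0, .popF 0, .re 0 (92, [(331, [747, 743]), (339, [648]), (384, [755, 739, 735])]), .re 1
    (30, [(33, [52]), (34, [58]), (39, [39, 35, 31, 48]), (131, [249])]), .popF 1, .re 1 (42,
    [(130, [54]), (131, [47, 43, 249]), (132, [3, 257]), (133, [252]), (134, [258]), (80, [254]),
    (83, [152]), (84, [158]), (190, [551, 515, 511, 507, 451, 415, 411, 407]), (430, [250, 655])]),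
    .popF 1, .re 1 (133, [(141, [252]), (190, [510, 514]), (282, [551, 518, 522])]), .split 0 (331,
    [(339, [648])]) (92, [(384, [755])]) [747, 743, 739, 735] [747, 743, 739, 735], .split 1 (190,
    [(282, [551])]) (133, [(141, [252])]) [510, 514, 518, 522] [510, 514, 518, 522]]
  ex :=
    [.di (182, [(190, [350]), (232, [450]), (282, [551])]) [1], .di (331, [(339, [648]), (381,
    [748]), (431, [849])]) [0], .di (84, [(92, [154]), (234, [454]), (384, [755])]) [2], .di (133,
    [(141, [252]), (283, [552]), (433, [853])]) [3], .pt [], .pt [(1, [510, 514, 518, 522], [510,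
    514, 518, 522])], .pt [(0, [747, 743, 739, 735], [747, 743, 739, 735])], .pt []]
  ob :=
    ((87, []), [([156], (137, [])), ([256, 47, 43, 39, 35, 58], (186, [])), ([358], (336, []))])
  ts :=
    [(31, [(32, [56]), (40, [50]), (41, [18, 22, 26]), (333, [10, 14, 653]), (334, [6, 659])]),
    (33, [(39, [30]), (131, [249])])]

theorem cxPft_ok : certOk (.xq false true .PAR) cxPft = true := by decide +kernel

def cxMft : Cert where
  lb := []
  l :=
    [.vt 327, .dg 334 [634, 638, 654] [658, 7, 903], .dg 42 [655, 642, 646, 602, 355, 342, 346,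
    302, 55] [902, 3, 47, 43], .dg 430 [251, 853] [903, 655, 849], .dg 30 [48, 154] [52, 350], .dg
    339 [830, 834, 838, 749, 730, 734, 738, 649, 630] [848, 639, 635], .dg 190 [351, 315, 311]
    [406, 410, 414, 450, 506, 510, 514, 550, 306], .dg 141 [227, 223, 219, 853] [252, 518, 522,
    526, 552, 818, 822, 826], .dg 92 [103, 147, 143, 154] [755, 742, 746, 702, 455, 442, 446, 402]]
  n0 := 1
  ch :=
    [(7, (436, [])), (3, (437, [])), (5, (287, [])), (0, (286, [])), (4, (236, [])), (6, (386,
    [])), (201, (189, [(283, [530]), (284, [539, 535, 558]), (340, [806, 810, 814])])), (2, (233,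
    [(234, [458]), (237, [430, 434, 438]), (387, [706, 710, 714])])), (102, (91, [(230, [452]),
    (142, [554]), (231, [426, 448, 542, 546]), (232, [418, 422, 456, 502]), (382, [723, 719, 750,
    803]), (381, [727, 756, 847, 843])])), (52, (92, [(467, [932]), (180, [454]), (181, [348, 442,
    446]), (182, [356, 402]), (331, [747, 743]), (332, [650, 703, 657])])), (152, (141, [(465,
    [928]), (280, [552]), (281, [549, 527]), (282, [557, 523, 519]), (431, [826]), (432, [857, 823,
    819, 850])])), (51, (30, [(84, [154]), (83, [158]), (80, [152]), (134, [254]), (133, [258]),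
    (130, [252]), (459, [916]), (190, [350]), (463, [551, 515, 511, 507, 451, 415, 411, 407,
    924])])), (351, (330, [(339, [648]), (380, [748]), (383, [753, 730]), (384, [755, 739, 735,
    758]), (433, [830]), (430, [853]), (434, [855, 839, 835, 858]), (457, [912]), (461, [921,
    848])]))]
  ops :=
    [.re 1 (33, [(41, [52]), (333, [653]), (40, [10, 14]), (132, [251]), (131, [257]), (453, [6,
    659]), (455, [42, 46, 2, 903])]), .re 1 (33, [(41, [52]), (333, [653]), (40, [10, 14]), (132,
    [251]), (131, [257])]), .re 0 (31, [(32, [56]), (39, [48]), (34, [34, 38]), (42, [54]), (334,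
    [654]), (453, [904]), (455, [903, 908])]), .popP 0 1 [6, 659] [912, 920] (334, [(453, [904])])
    (40, [(333, [10, 14])]) (457, [(461, [849])]) (330, [(339, [648]), (380, [748]), (383, [753,
    730]), (384, [755, 739, 735, 758]), (433, [830]), (430, [853]), (434, [855, 839, 835, 858])]),
    .popP 0 1 [30, 58] [916, 924] (34, [(39, [34, 38])]) (33, []) (30, [(84, [154]), (83, [158]),
    (80, [152]), (134, [254]), (133, [258]), (130, [252]), (463, [551, 515, 511, 507, 451, 415,
    411, 407])]) (190, [(459, [350])]), .popP 0 1 [248, 42, 46, 2, 912] [928] (42, [(130, [54]),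
    (455, [909]), (457, [903, 655])]) (131, [(132, [257]), (430, [251])]) (280, [(281, [549]),
    (282, [557]), (432, [851]), (431, [857]), (465, [518, 522, 526, 552, 818, 822, 826])]) (141,
    []), .popP 0 1 [51, 18, 22, 26, 916] [932] (30, [(31, [48]), (32, [56])]) (41, [(330, [653]),
    (459, [52])]) (92, []) (180, [(181, [348]), (182, [356]), (332, [650]), (331, [656]), (467,
    [403, 447, 443, 454, 703, 747, 743])]), .re 0 (84, [(92, [154]), (463, [406]), (133, [510,
    514]), (282, [551]), (465, [252, 518, 522]), (431, [826]), (461, [849])]), .re 1 (141, [(433,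
    [853]), (339, [830]), (331, [648]), (384, [734, 738]), (467, [755, 742, 746]), (182, [402]),
    (190, [350])]), .split 0 (431, [(461, [849])]) (84, [(92, [154]), (463, [406]), (133, [510,
    514]), (282, [551]), (465, [252, 518, 522])]) [826] [826], .split 2 (133, [(465, [252])]) (84,
    [(92, [154]), (463, [406]), (282, [551])]) [510, 514, 518, 522] [510, 514, 518, 522], .split 3
    (282, [(463, [551])]) (84, [(92, [154])]) [406] [406], .split 1 (182, [(190, [350])]) (141,
    [(433, [853]), (339, [830]), (331, [648]), (384, [734, 738]), (467, [755, 742, 746])]) [402]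
    [402], .split 5 (384, [(467, [755])]) (141, [(433, [853]), (339, [830]), (331, [648])]) [747,
    743, 739, 735] [747, 743, 739, 735], .split 6 (331, [(339, [648])]) (141, [(433, [853])]) [830]
    [830]]
  ex :=
    [.di (182, [(190, [350]), (463, [925]), (232, [450]), (282, [551])]) [1, 3], .di (331, [(339,
    [648]), (381, [748]), (461, [921]), (431, [849])]) [0, 6], .di (84, [(92, [154]), (467, [932]),
    (234, [454]), (384, [755])]) [4, 5], .di (133, [(465, [252]), (141, [928]), (283, [552]), (433,
    [853])]) [2, 7], .pt [(1, [402], [402]), (3, [406], [406])], .pt [(2, [510, 514, 518, 522],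
    [510, 514, 518, 522])], .pt [(5, [747, 743, 739, 735], [747, 743, 739, 735])], .pt [(0, [826],
    [826]), (6, [830], [830])]]
  ob :=
    ((87, []), [([156], (137, [])), ([256, 2, 6, 10, 14, 18, 22, 26, 30, 58], (186, [])), ([358],
    (336, []))])
  ts :=
    [(31, [(32, [56]), (39, [48]), (34, [34, 38]), (42, [54]), (334, [654])]), (33, [(41, [52]),
    (333, [653]), (453, [659]), (455, [903]), (131, [47, 43])])]

theorem cxMft_ok : certOk (.xq false true .M) cxMft = true := by decide +kernel

end Pool.Agent.Lib.MP_b7d179_gt.L
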