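import Pool.Agent.Lib.MP_b7d179_gt.L.MachD
import Pool.Agent.Lib.MP_b7d179_gt.L.CertXA
import Pool.Agent.Lib.MP_b7d179_gt.L.CertXB
import Pool.Agent.Lib.MP_b7d179_gt.L.CertSA
import Pool.Agent.Lib.MP_b7d179_gt.L.CertSB
import Pool.Agent.Lib.MP_b7d179_gt.L.CertEA
import Pool.Agent.Lib.MP_b7d179_gt.L.CertEB
import Pool.Agent.Lib.MP_b7d179_gt.L.CertUA
import Pool.Agent.Lib.MP_b7d179_gt.L.CertUB
import Pool.Agent.Lib.MP_b7d179_gt.L.CertI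

/-! All programs are certified. -/

namespace Pool.Agent.Lib.MP_b7d179_gt.L

open C

theorem cert_x : ∀ a b m, (m = XM.M → a ≠ b) → ∃ x, certOk (.xq a b m) x = true
  | true, true, .N, _ => ⟨_, cxNtt_ok⟩
  | true, false, .N, _ => ⟨_, cxNtf_ok⟩
  | false, true, .N, _ => ⟨_, cxNft_ok⟩
  | false, false, .N, _ => ⟨_, cxNff_ok⟩
  | true, true, .PAR, _ => ⟨_, cxPtt_ok⟩
  | true, false, .PAR, _ => ⟨_, cxPtf_ok⟩
  | false, true, .PAR, _ => ⟨_, cxPft_ok⟩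
  | false, false, .PAR, _ => ⟨_, cxPff_ok⟩
  | true, false, .M, _ => ⟨_, cxMtf_ok⟩
  | false, true, .M, _ => ⟨_, cxMft_ok⟩
  | true, true, .M, h => absurd rfl (h rfl)
  | false, false, .M, h => absurd rfl (h rfl)

theorem cert_y : ∀ e t m, (∀ b, m = YM.U b → e = true) → ∃ x, certOk (.yq e t m) x = true
  | false, true, .N, _ => ⟨_, cyNSt_ok⟩
  | false, false, .N, _ => ⟨_, cyNSf_ok⟩
  | true, true, .N, _ => ⟨_, cyNEt_ok⟩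
  | true, false, .N, _ => ⟨_, cyNEf_ok⟩
  | false, true, .T 0, _ => ⟨_, cyTSt0_ok⟩
  | false, true, .T 1, _ => ⟨_, cyTSt1_ok⟩
  | false, true, .T 2, _ => ⟨_, cyTSt2_ok⟩
  | false, false, .T 0, _ => ⟨_, cyTSf0_ok⟩
  | false, false, .T 1, _ => ⟨_, cyTSf1_ok⟩
  | false, false, .T 2, _ => ⟨_, cyTSf2_ok⟩
  | true, true, .T 0, _ => ⟨_, cyTEt0_ok⟩
  | true, true, .T 1, _ => ⟨_, cyTEt1_ok⟩
  | true, true, .T 2, _ => ⟨_, cyTEt2_ok⟩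
  | true, false, .T 0, _ => ⟨_, cyTEf0_ok⟩
  | true, false, .T 1, _ => ⟨_, cyTEf1_ok⟩
  | true, false, .T 2, _ => ⟨_, cyTEf2_ok⟩
  | true, true, .U 0, _ => ⟨_, cyUEt0_ok⟩
  | true, true, .U 1, _ => ⟨_, cyUEt1_ok⟩
  | true, true, .U 2, _ => ⟨_, cyUEt2_ok⟩
  | true, false, .U 0, _ => ⟨_, cyUEf0_ok⟩
  | true, false, .U 1, _ => ⟨_, cyUEf1_ok⟩
  | true, false, .U 2, _ => ⟨_, cyUEf2_ok⟩
  | false, _, .U b, h => absurd (h b rfl) (by decide)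

theorem certs : Certs where
  x := cert_x
  y := cert_y
  il := ⟨_, ci_ok⟩
  iy
    | false, true => ⟨_, cyISt_ok⟩
    | false, false => ⟨_, cyISf_ok⟩
    | true, true => ⟨_, cyIEt_ok⟩
    | true, false => ⟨_, cyIEf_ok⟩

end Pool.Agent.Lib.MP_b7d179_gt.L
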