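import Pool.Agent.Lib.MP_b7d179_gt.C.Defs

/-! Abstract configurations: ports, objects, steps, access arcs, the machine of states. -/

namespace Pool.Agent.Lib.MP_b7d179_gt.L

open Set C

variable {Z : Type} [MetricSpace Z] {φ ι κ N : Type}

/-- Ports. `H f` is a disc with rim `k f` and pads `H (pd f b)`; `O f` is the access disc with rim
`c f`, a cycle of the arcs `I f` (from `e0 f` to `e1 f`), `l f`, `m f`, `r f`. -/
structure Po (Z φ : Type) where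
  H : φ → Set Z
  k : φ → Set Z
  pd : φ → Bool → φ
  t : φ → Bool
  O : φ → Set Z
  c : φ → Set Z
  I : φ → Set Z
  l : φ → Set Z
  m : φ → Set Z
  r : φ → Set Z
  e0 : φ → Z
  e1 : φ → Z
  J0 : φ → Set Z
  J1 : φ → Set Z
  Jm : φ → Set Z
  cut : φ → Bool → Z

/-- the open arc -/
def Po.Io (π : Po Z φ) (f : φ) : Set Z := π.I f \ {π.e0 f, π.e1 f}

structure Po.Ok (π : Po Z φ) (K : Set Z) : Prop where
  kd : ∀ f, KD K (π.H f) (π.k f)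
  pin : ∀ f b, π.H (π.pd f b) ⊆ π.H f \ π.k f
  pdj : ∀ f, Disjoint (π.H (π.pd f true)) (π.H (π.pd f false))
  od : ∀ f, Disc (π.O f) (π.c f)
  os : ∀ f, π.O f ⊆ π.H f
  fr : ∀ f, Disjoint (π.O f) K
  ok : ∀ f, π.O f ∩ π.k f ⊆ π.c f
  op : ∀ f b, π.O f ∩ π.H (π.pd f b) ⊆ π.c f
  quad : ∀ f, Quad (π.c f) (π.I f) (π.l f) (π.m f) (π.r f)
  arc : ∀ f, Arc (π.I f) (π.e0 f) (π.e1 f)
  ik : ∀ f, π.I f ⊆ π.k f
  er : ∀ f, π.e0 f ∈ π.r f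
  el : ∀ f, π.e1 f ∈ π.l f
  j0 : ∀ f, (∃ j x y, Arc j x y ∧ j ⊆ π.r f ∧ j \ {x, y} ⊆ π.J0 f) ∧ π.J0 f ⊆ π.k (π.pd f (π.t f))
  j1 : ∀ f, (∃ j x y, Arc j x y ∧ j ⊆ π.l f ∧ j \ {x, y} ⊆ π.J1 f) ∧ π.J1 f ⊆ π.k (π.pd f (!π.t f))
  jm : ∀ f, π.m f \ (π.l f ∪ π.r f) ⊆ π.Jm f ∧ π.Jm f ⊆ π.k (π.pd f (π.t f))
  cut : ∀ f b, π.cut f b ∈ π.Io f

/-- a ball with rim, ports and marks -/
structure Ob (Z φ : Type) where
  B : Set Z
  S : Set Z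
  P : Set φ
  M : φ → Option Bool

variable (σ : Tw Z) (π : Po Z φ)

structure Ob.Ok (o : Ob Z φ) : Prop where
  ball : Ball o.B o.S
  sub : ∀ g ∈ o.P, π.H g ⊆ o.S
  dj : ∀ g ∈ o.P, ∀ g' ∈ o.P, g ≠ g' → Disjoint (π.H g \ π.k g) (π.H g')

/-- a family of objects that fit together -/
structure GeoC (o : N → Ob Z φ) : Prop where
  ok : ∀ n, (o n).Ok π
  sep : ∀ n n', n ≠ n' → (o n).B ∩ (o n').B ⊆ (o n).S
  own : ∀ n n', ∀ g ∈ (o n).P, Disjoint (π.H g \ π.k g) (o n').B ∨ g ∈ (o n').P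
  mark : ∀ n n', ∀ g ∈ (o n).P, g ∈ (o n').P → (o n).M g = (o n').M g

structure Kid (o : Ob Z φ) (k : κ → Ob Z φ) : Prop where
  geo : GeoC π k
  sub : ∀ m, (k m).B ⊆ o.B
  rim : ∀ m, (k m).B ∩ o.S ⊆ (k m).S
  port : ∀ m, ∀ g ∈ (k m).P, (g ∈ o.P ∧ (k m).M g = o.M g) ∨ Disjoint (π.H g \ π.k g) o.S
  onto : ∀ g ∈ o.P, ∃ m, g ∈ (k m).P

/-- the same ball with the pads as ports -/
structure Up (o o' : Ob Z φ) : Prop where
  b : o'.B = o.B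
  s : o'.S = o.S
  p : ∀ g, g ∈ o'.P ↔ ∃ f ∈ o.P, ∃ b, g = π.pd f b
  m : ∀ g ∈ o'.P, o'.M g = none

/-- the sets of labels whose traces are matched -/
def CC (real : Set ι) : Set (Set ι) := insert real {T | ∃ s, s ∉ real ∧ T = {s}}

/-- matching on common ports -/
structure MU (real : Set ι) (o : N → Ob Z φ) (a : N → ι → Set Z) : Prop where
  re : ∀ n n', ∀ g ∈ (o n).P, g ∈ (o n').P → tot real (a n) ∩ π.H g = tot real (a n') ∩ π.H g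
  ph : ∀ n n', ∀ g ∈ (o n).P, g ∈ (o n').P → ∀ s, s ∉ real → ((a n s ∪ a n' s) ∩ π.H g).Subsingleton

/-- the traces on the ports agree -/
structure Tr (o : Ob Z φ) (X : Set Z) (k : κ → Ob Z φ) (X' : κ → Set Z) : Prop where
  kk : ∀ m m', ∀ g ∈ (k m).P, g ∈ (k m').P → X' m ∩ π.H g = X' m' ∩ π.H g
  kp : ∀ m, ∀ g ∈ (k m).P, g ∈ o.P → X' m ∩ π.H g = X ∩ π.H g

/-- lollipops in all ports -/
def LolP (o : Ob Z φ) (X : Set Z) (Λ : φ → Set Z) : Prop :=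
  ∀ g ∈ o.P, Lols σ.K (π.H g) (π.k g) univ (X ∩ π.H g) (Λ g)

def SolP (o : Ob Z φ) (X : Set Z) (Λ : φ → Set Z) : Prop := SolU σ o.B o.S (X ∪ ⋃ g ∈ o.P, Λ g)

/-- solutions for the kids give a solution for the parent -/
def Lift (o : Ob Z φ) (X : Set Z) (k : κ → Ob Z φ) (X' : κ → Set Z) : Prop :=
  ∀ Λ : φ → Set Z, (∀ m, LolP σ π (k m) (X' m) Λ) → (∀ m, SolP σ (k m) (X' m) Λ) → SolP σ o X Λ

structure Step (real : Set ι) (o : Ob Z φ) (a : ι → Set Z) (k : κ → Ob Z φ) (a' : κ → ι → Set Z) :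
    Prop where
  tr : ∀ T ∈ CC real, Tr π o (tot T a) k fun m => tot T (a' m)
  one : ∀ m, ∀ g ∈ (k m).P, ∀ s, s ∉ real → (a' m s ∩ π.H g).Subsingleton
  nil : ∀ i, a i = ∅ → ∀ m, a' m i = ∅
  sol : Lift σ π o (tot real a) k fun m => tot real (a' m)

def Solv (o : N → Ob Z φ) (X : N → Set Z) : Prop :=
  ∃ Λ : φ → Set Z, ∀ n, LolP σ π (o n) (X n) Λ ∧ SolP σ (o n) (X n) Λ

/-- access arcs `α e` in the port `f` from the points `e` of `E`, with threshold `th` -/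
structure Ac (f : φ) (th : Option Z) (E : Set Z) (α : Z → Set Z) (q : Z → Z) : Prop where
  cc : ∀ e ∈ E, Cc (π.O f) (π.c f) (α e) e (q e)
  dj : E.PairwiseDisjoint α
  no : th = none → ∀ e ∈ E, q e ∈ π.J0 f
  io : ∀ x, th = some x → x ∈ π.Io f
  mid : ∀ x ∈ E, th = some x → q x ∈ π.Jm f
  lo : ∀ x u, th = some x → Arc u (π.e0 f) x → u ⊆ π.I f → ∀ e ∈ E, e ∈ u → e ≠ x → q e ∈ π.J0 f
  hi : ∀ x v, th = some x → Arc v x (π.e1 f) → v ⊆ π.I f → ∀ e ∈ E, e ∈ v → e ≠ x → q e ∈ π.J1 f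

/-- access arcs for all points of `X` on the ports of `o` -/
def AcP (o : Ob Z φ) (th : φ → Option Z) (X : Set Z) (α : φ → Z → Set Z) (q : φ → Z → Z) : Prop :=
  ∀ f ∈ o.P, Ac π f (th f) (X ∩ π.H f) (α f) (q f)

/-- a piece with its access arcs -/
def ext (P : Set φ) (α : φ → Z → Set Z) (A : Set Z) : Set Z :=
  A ∪ ⋃ f ∈ P, ⋃ e ∈ A ∩ π.H f, α f e

/-- the label `t` is dropped -/
def del (t : ι) (a : ι → Set Z) (i : ι) : Set Z := {x | x ∈ a i ∧ i ≠ t}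

/-- shapes of states -/
inductive Sh (Z : Type)
  | q (S Y : Set Z) (Ls : Bool → Set (Set Z))
  | d (P c : Set Z) (Ls : Bool → Set (Set Z))
  | p (L : Bool → Set Z)

def Sh.St : Sh Z → (ι → ι → ι → Prop) → (ι → Bool) → (ι → Set Z) → Prop
  | .q S Y Ls => Fam S Y Ls
  | .d P c Ls => FamD P c Ls
  | .p L => FamP L

/-- the shapes at the start of a round -/
def Sh.Pre0 : Sh Z → Prop
  | .q _ _ _ => False
  | .d P c Ls => Disc P c ∧ Ls true = ∅ ∧ ∀ L ∈ Ls false, ∃ j x y, Arc j x y ∧ j ⊆ c ∧ L = j \ {x, y}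
  | .p L => L true = ∅ ∧ ∃ j x y, Arc j x y ∧ L false = j \ {x, y}

/-- Positions with objects and shapes; `C j` are the positions allowed in phase `j < 6`. -/
structure Mach (Z φ : Type) where
  Pos : Type
  ob : Pos → Ob Z φ
  sh : Pos → Sh Z
  C : ℕ → Set Pos

structure Mach.Ok (M : Mach Z φ) : Prop where
  pre0 : ∀ p ∈ M.C 0, (M.sh p).Pre0
  base : ∀ p ∈ M.C 0 ∪ M.C 3, ∀ (ι : Type) (rel : ι → ι → ι → Prop) (grp : ι → Bool)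
    (a : ι → Set Z), (M.sh p).St rel grp a → ∀ i, ∀ f ∈ (M.ob p).P,
      a i ∩ π.H f ⊆ π.Io f ∧ (a i ∩ π.H f).Subsingleton
  post1 : ∀ p ∈ M.C 0, ∀ (ι : Type) [Finite ι] (rel : ι → ι → ι → Prop) (grp : ι → Bool)
    (a : ι → Set Z) (t : ι) (th : φ → Option Z) (α : φ → Z → Set Z) (q : φ → Z → Z),
      (∀ i j s, rel i j s → i ≠ j) → (M.sh p).St rel grp a →
      AcP π (M.ob p) th (tot univ a) α q →
      (∀ f ∈ (M.ob p).P, ∀ x ∈ a t ∩ π.H f, th f = some x) →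
      ∃ p' ∈ M.C 1, ∃ grp', Up π (M.ob p) (M.ob p') ∧
        (M.sh p').St rel grp' fun i => ext π (M.ob p).P α (del t a i)
  post2 : ∀ p ∈ M.C 3, ∀ (ι : Type) [Finite ι] (rel : ι → ι → ι → Prop) (grp : ι → Bool)
    (a : ι → Set Z) (th : φ → Option Z) (α : φ → Z → Set Z) (q : φ → Z → Z),
      (∀ i j s, rel i j s → i ≠ j) → (M.sh p).St rel grp a →
      AcP π (M.ob p) th (tot univ a) α q →
      (∀ f ∈ (M.ob p).P, th f = ((M.ob p).M f).map (π.cut f)) →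
      ∃ p' ∈ M.C 4, ∃ grp', Up π (M.ob p) (M.ob p') ∧
        (M.sh p').St rel grp' fun i => ext π (M.ob p).P α (a i)
  stage : ∀ j, j = 1 ∨ j = 2 ∨ j = 4 ∨ j = 5 → ∀ p ∈ M.C j, p ∈ M.C ((j + 1) % 6) ∨
    ∀ (ι : Type) [Finite ι] (real : Set ι) (rel : ι → ι → ι → Prop) (grp : ι → Bool)
      (a : ι → Set Z), (M.sh p).St rel grp a →
      ∃ (κ : Type) (_ : Finite κ) (k : κ → M.Pos) (grp' : κ → ι → Bool) (a' : κ → ι → Set Z),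
        Kid π (M.ob p) (fun m => M.ob (k m)) ∧
        Step σ π real (M.ob p) a (fun m => M.ob (k m)) a' ∧
        ∀ m, k m ∈ M.C ((j + 1) % 6) ∧ (M.sh (k m)).St rel (grp' m) (a' m)
  lane : ∀ p ∈ M.C 0, ∀ (A : Set Z) (α : φ → Z → Set Z) (q : φ → Z → Z),
    (M.sh p).St (fun _ _ _ : Unit => False) (fun _ => false) (fun _ => A) →
    AcP π (M.ob p) (fun _ => none) A α q →
    SolU σ (M.ob p).B (M.ob p).S (ext π (M.ob p).P α A ∪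
      ⋃ f ∈ {f ∈ (M.ob p).P | (A ∩ π.H f).Nonempty}, π.H (π.pd f (π.t f)))

/-- The tower and the ports: `ft f` is the port of the foot `f`, `o v` the leaf `v` with the pads
of its feet as ports. -/
structure Link (ft : σ.φ → φ) (o : σ.β → Ob Z φ) : Prop where
  b : ∀ v, (o v).B = σ.B v
  s : ∀ v, (o v).S = σ.S v
  p : ∀ v g, g ∈ (o v).P ↔ ∃ f ∈ σ.F v, ∃ b, g = π.pd (ft f) b
  geo : ∀ m, GeoC π fun v : {v // σ.lv v = m} => o v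
  lev : ∀ v, ∀ f ∈ σ.F v, σ.lf f = σ.lv v
  fdj : ∀ f g, σ.lf f = σ.lf g → f ≠ g → Disjoint (σ.A f) (σ.A g)
  pad : ∀ f b, π.H (π.pd (ft f) b) ⊆ σ.A f ∧
    π.H (π.pd (ft f) b) \ π.k (π.pd (ft f) b) ⊆ σ.A f \ σ.C f
  j : ∀ f, σ.J f ⊆ σ.C f ∧ ∃ b, σ.J f ⊆ π.H (π.pd (ft f) b)

/-- the first step, from arbitrary essential arcs -/
def Init (M : Mach Z φ) (o : σ.β → Ob Z φ) : Prop :=
  ∀ v E X, Ess σ (σ.S v) (σ.F v) E X →
    ∃ (κ ρ : Type) (_ : Finite κ) (_ : Finite ρ) (k : κ → M.Pos) (grp : κ → ρ → Bool)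
      (a : κ → ρ → Set Z), Kid π (o v) (fun m => M.ob (k m)) ∧
      Tr π (o v) X (fun m => M.ob (k m)) (fun m => tot univ (a m)) ∧
      Lift σ π (o v) X (fun m => M.ob (k m)) (fun m => tot univ (a m)) ∧
      ∀ m, k m ∈ M.C 5 ∧ (M.sh (k m)).St (fun _ _ _ => False) (grp m) (a m)

/-- the routing axiom of a tower -/
def S5 : Prop :=
  ∀ (m : ℕ) (V : Set σ.β) (E : σ.φ → Set Z) (X : σ.β → Set Z), V.Finite →
    (∀ v ∈ V, σ.lv v = m ∧ Ess σ (σ.S v) (σ.F v) E (X v)) →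
    ∃ Λ : σ.φ → Set Z, (∀ v ∈ V, ∀ f ∈ σ.F v, Lols σ.K (σ.A f) (σ.C f) univ (E f) (Λ f)) ∧
      ∀ v ∈ V, SolU σ (σ.B v) (σ.S v) (X v ∪ ⋃ f ∈ σ.F v, Λ f)

end Pool.Agent.Lib.MP_b7d179_gt.L
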