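import Pool.Agent.Lib.MP_b7d179_gt.L.Cfg
import Pool.Agent.Lib.MP_b7d179_gt.U.SolA

/-! Configurations pass to kids and to pads. -/

namespace Pool.Agent.Lib.MP_b7d179_gt.L

open Set C

variable {Z : Type} [MetricSpace Z] {φ ι κ N N' : Type} {σ : Tw Z} {π : Po Z φ} {K : Set Z}
  {o o' : N → Ob Z φ} {real : Set ι}

theorem Po.Ok.inner (h : π.Ok K) (f : φ) : (π.H f \ π.k f).Nonempty :=
  ((h.kd f).d.exists_int finite_empty).imp fun _ k => k.1

theorem Ob.Ok.hb {o : Ob Z φ} (h : o.Ok π) {g : φ} (hg : g ∈ o.P) : π.H g ⊆ o.B :=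
  (h.sub g hg).trans h.ball.rim_sub

theorem GeoC.comap (h : GeoC π o) {f : N' → N} (hf : Function.Injective f) :
    GeoC π fun n => o (f n) :=
  ⟨fun _ => h.ok _, fun _ _ e => h.sep _ _ (hf.ne e), fun _ _ => h.own _ _, fun _ _ => h.mark _ _⟩

/-- different ports of a configuration -/
theorem GeoC.dj (h : GeoC π o) {n n' : N} {g g' : φ} (hg : g ∈ (o n).P) (hg' : g' ∈ (o n').P)
    (e : g ≠ g') : Disjoint (π.H g \ π.k g) (π.H g') :=
  (h.own n n' g hg).elim (fun d => d.mono_right ((h.ok n').hb hg')) fun k =>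
    (h.ok n').dj g k g' hg' e

theorem Kid.refl {o : Ob Z φ} (h : o.Ok π) : Kid π o fun _ : Unit => o :=
  ⟨⟨fun _ => h, fun _ _ e => (e rfl).elim, fun _ _ _ hg => .inr hg, fun _ _ _ _ _ => rfl⟩,
    fun _ => subset_rfl, fun _ => inter_subset_right, fun _ _ hg => .inl ⟨hg, rfl⟩,
    fun _ hg => ⟨(), hg⟩⟩

theorem Step.refl {o : Ob Z φ} {a : ι → Set Z}
    (h : ∀ g ∈ o.P, ∀ s, s ∉ real → (a s ∩ π.H g).Subsingleton) :
    Step σ π real o a (fun _ : Unit => o) fun _ => a :=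
  ⟨fun _ _ => ⟨fun _ _ _ _ _ => rfl, fun _ _ _ _ => rfl⟩, fun _ => h, fun _ e _ => e,
    fun _ _ k => k ()⟩

variable {κ' : N → Type} {k : ∀ n, κ' n → Ob Z φ}

/-- a port of a kid whose open disc meets another parent is a port of both parents -/
theorem GeoC.both (h : GeoC π o) (hk : ∀ n, Kid π (o n) (k n)) {n n' : N} (e : n ≠ n') {m : κ' n}
    {g : φ} (hg : g ∈ (k n m).P) (hd : ¬ Disjoint (π.H g \ π.k g) (o n').B) :
    g ∈ (o n).P ∧ (k n m).M g = (o n).M g ∧ g ∈ (o n').P := by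
  obtain ⟨x, hx, hx'⟩ := not_disjoint_iff.1 hd
  have hs := h.sep n n' e ⟨(hk n).sub m ((((hk n).geo.ok m).hb hg) hx.1), hx'⟩
  obtain ⟨a, b⟩ := ((hk n).port m g hg).resolve_right fun d => disjoint_left.1 d hx hs
  exact ⟨a, b, (h.own n n' g a).resolve_left hd⟩

theorem GeoC.common (hπ : π.Ok K) (h : GeoC π o) (hk : ∀ n, Kid π (o n) (k n)) {n n' : N}
    (e : n ≠ n') {m : κ' n} {m' : κ' n'} {g : φ} (hg : g ∈ (k n m).P) (hg' : g ∈ (k n' m').P) :
    g ∈ (o n).P ∧ (k n m).M g = (o n).M g ∧ g ∈ (o n').P := by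
  obtain ⟨x, hx⟩ := hπ.inner g
  exact h.both hk e hg fun d => disjoint_left.1 d hx
    ((hk n').sub m' ((((hk n').geo.ok m').hb hg') hx.1))

theorem geoC_step (hπ : π.Ok K) (h : GeoC π o) (hk : ∀ n, Kid π (o n) (k n)) :
    GeoC π fun x : Σ n, κ' n => k x.1 x.2 := by
  refine ⟨fun x => (hk x.1).geo.ok x.2, ?_, ?_, ?_⟩
  · rintro ⟨n, m⟩ ⟨n', m'⟩ e
    rcases eq_or_ne n n' with rfl | c
    · exact (hk n).geo.sep m m' fun e' => e (e' ▸ rfl)
    · exact fun x hx => (hk n).rim m ⟨hx.1, h.sep n n' c ⟨(hk n).sub m hx.1, (hk n').sub m' hx.2⟩⟩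
  · rintro ⟨n, m⟩ ⟨n', m'⟩ g hg
    rcases eq_or_ne n n' with rfl | c
    · exact (hk n).geo.own m m' g hg
    · by_cases d : Disjoint (π.H g \ π.k g) (o n').B
      · exact .inl (d.mono_right ((hk n').sub m'))
      · obtain ⟨m'', e⟩ := (hk n').onto g (h.both hk c hg d).2.2
        exact (hk n').geo.own m'' m' g e
  · rintro ⟨n, m⟩ ⟨n', m'⟩ g hg hg'
    rcases eq_or_ne n n' with rfl | c
    · exact (hk n).geo.mark m m' g hg hg'
    · obtain ⟨a, b, d⟩ := h.common hπ hk c hg hg'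
      exact b.trans ((h.mark n n' g a d).trans (h.common hπ hk c.symm hg' hg).2.1.symm)

theorem Po.Ok.pad_dj (hπ : π.Ok K) (f : φ) {b b' : Bool} (e : b ≠ b') :
    Disjoint (π.H (π.pd f b)) (π.H (π.pd f b')) := by
  cases b <;> cases b'
  exacts [(e rfl).elim, (hπ.pdj f).symm, hπ.pdj f, (e rfl).elim]

/-- a pad determines its port and its side -/
theorem GeoC.pad_eq (hπ : π.Ok K) (h : GeoC π o) {n n' : N} {f f' : φ} {b b' : Bool}
    (hf : f ∈ (o n).P) (hf' : f' ∈ (o n').P)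
    (e : ¬ Disjoint (π.H (π.pd f b)) (π.H (π.pd f' b'))) : f = f' ∧ b = b' := by
  have : f = f' := by
    by_contra c
    exact e ((h.dj hf hf' c).mono (hπ.pin f b) ((hπ.pin f' b').trans sdiff_subset))
  subst this
  exact ⟨rfl, by_contra fun c => e (hπ.pad_dj f c)⟩

theorem GeoC.up (hπ : π.Ok K) (h : GeoC π o) (u : ∀ n, Up π (o n) (o' n)) : GeoC π o' := by
  refine ⟨fun n => ⟨(u n).b ▸ (u n).s ▸ (h.ok n).ball, fun g hg => ?_, fun g hg g' hg' e => ?_⟩,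
    fun n n' e => by rw [(u n).b, (u n').b, (u n).s]; exact h.sep n n' e, fun n n' g hg => ?_,
    fun n n' g hg hg' => ((u n).m g hg).trans ((u n').m g hg').symm⟩
  · obtain ⟨f, hf, b, rfl⟩ := ((u n).p g).1 hg
    exact (u n).s ▸ ((hπ.pin f b).trans sdiff_subset).trans ((h.ok n).sub f hf)
  · obtain ⟨f, hf, b, rfl⟩ := ((u n).p g).1 hg
    obtain ⟨f', hf', b', rfl⟩ := ((u n).p g').1 hg'
    refine Disjoint.mono_left sdiff_subset (by_contra fun c => ?_)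
    obtain ⟨rfl, rfl⟩ := h.pad_eq hπ hf hf' c
    exact e rfl
  · obtain ⟨f, hf, b, rfl⟩ := ((u n).p g).1 hg
    exact (h.own n n' f hf).imp
      (fun d => (u n').b ▸ d.mono_left (sdiff_subset.trans (hπ.pin f b)))
      fun k => ((u n').p _).2 ⟨f, k, b, rfl⟩

theorem LolP.up {o : Ob Z φ} {k : κ → Ob Z φ} {X : Set Z} {X' : κ → Set Z} {Λ : φ → Set Z}
    (hk : Kid π o k) (ht : Tr π o X k X') (h : ∀ m, LolP σ π (k m) (X' m) Λ) : LolP σ π o X Λ :=
  fun g hg => by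
    obtain ⟨m, e⟩ := hk.onto g hg
    exact ht.kp m g e hg ▸ h m g e

theorem solv_step {X : N → Set Z} {X' : ∀ n, κ' n → Set Z} (hk : ∀ n, Kid π (o n) (k n))
    (ht : ∀ n, Tr π (o n) (X n) (k n) (X' n)) (hl : ∀ n, Lift σ π (o n) (X n) (k n) (X' n))
    (h : Solv σ π (fun x : Σ n, κ' n => k x.1 x.2) fun x => X' x.1 x.2) : Solv σ π o X := by
  obtain ⟨Λ, h⟩ := h
  exact ⟨Λ, fun n => ⟨.up (hk n) (ht n) fun m => (h ⟨n, m⟩).1,
    hl n Λ (fun m => (h ⟨n, m⟩).1) fun m => (h ⟨n, m⟩).2⟩⟩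

theorem match_step (hπ : π.Ok K) (h : GeoC π o) {X : N → Set Z} {X' : ∀ n, κ' n → Set Z}
    (hk : ∀ n, Kid π (o n) (k n)) (ht : ∀ n, Tr π (o n) (X n) (k n) (X' n))
    (hm : ∀ n n', ∀ g ∈ (o n).P, g ∈ (o n').P → X n ∩ π.H g = X n' ∩ π.H g) (x y : Σ n, κ' n) :
    ∀ g ∈ (k x.1 x.2).P, g ∈ (k y.1 y.2).P → X' x.1 x.2 ∩ π.H g = X' y.1 y.2 ∩ π.H g := by
  obtain ⟨n, m⟩ := x
  obtain ⟨n', m'⟩ := y
  intro g hg hg'
  rcases eq_or_ne n n' with rfl | c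
  · exact (ht n).kk m m' g hg hg'
  · obtain ⟨a, -, d⟩ := h.common hπ hk c hg hg'
    exact ((ht n).kp m g hg a).trans ((hm n n' g a d).trans ((ht n').kp m' g hg' d).symm)

omit [MetricSpace Z] in
theorem tot_single (s : ι) (a : ι → Set Z) : tot {s} a = a s := biUnion_singleton _ _

theorem mu_step (hπ : π.Ok K) (h : GeoC π o) {a : N → ι → Set Z} {a' : ∀ n, κ' n → ι → Set Z}
    (hk : ∀ n, Kid π (o n) (k n)) (hs : ∀ n, Step σ π real (o n) (a n) (k n) (a' n))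
    (hm : MU π real o a) :
    MU π real (fun x : Σ n, κ' n => k x.1 x.2) fun x => a' x.1 x.2 := by
  refine ⟨match_step hπ h hk (fun n => (hs n).tr real (mem_insert _ _)) hm.re, ?_⟩
  rintro ⟨n, m⟩ ⟨n', m'⟩ g hg hg' s hs'
  have t := fun n => (hs n).tr {s} (.inr ⟨s, hs', rfl⟩)
  simp only [tot_single] at t
  rw [union_inter_distrib_right]
  rcases eq_or_ne n n' with rfl | c
  · rw [(t n).kk m m' g hg hg', union_self]
    exact (hs n).one m' g hg' s hs'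
  · obtain ⟨b, -, d⟩ := h.common hπ hk c hg hg'
    rw [(t n).kp m g hg b, (t n').kp m' g hg' d, ← union_inter_distrib_right]
    exact hm.ph n n' g b d s hs'

end Pool.Agent.Lib.MP_b7d179_gt.L
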