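import Pool.Agent.Lib.MP_b7d179_gt.L.Obj
import Pool.Agent.Lib.MP_b7d179_gt.C.Shell

/-! The ports are good; soundness of the check of kids. -/

namespace Pool.Agent.Lib.MP_b7d179_gt.L

open Set C Gen

def tb_root : TB :=
  (44, [(45, (31, [(32, [56])])), (47, (35, [])), (48, (36, [])), (49, (37, [])), (46, (38, [(41,
    [18, 22, 26])])), (94, (81, [(82, [156])])), (97, (85, [])), (98, (86, [])), (99, (87, [])),
    (96, (88, [(91, [118, 122, 126]), (92, [103, 147, 143])])), (144, (42, [(131, [47, 43]), (132,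
    [3, 257])])), (147, (135, [])), (148, (136, [])), (149, (137, [])), (146, (138, [(141, [218,
    222, 226]), (142, [203, 247, 243])])), (199, (188, [])), (198, (187, [])), (197, (186, [])),
    (249, (238, [])), (248, (237, [])), (247, (236, [])), (299, (288, [])), (298, (287, [])),
    (297, (286, [])), (343, (40, [(330, [50]), (333, [10, 14, 653]), (334, [6, 659]), (380,
    [150]), (383, [110, 114, 753]), (384, [758, 107, 755]), (430, [250, 655]), (433, [210, 214,
    853]), (434, [858, 207, 855])])), (349, (338, [])), (348, (337, [])), (347, (336, [])), (399,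
    (388, [])), (398, (387, [])), (397, (386, [])), (449, (438, [])), (448, (437, [])), (447,
    (436, [])), (345, (331, [(332, [656]), (335, [618, 622, 626]), (339, [639, 635, 631, 648]),
    (381, [748]), (382, [756]), (385, [703, 747, 743, 739, 735, 731, 727, 723, 719]), (431, [647,
    643, 849]), (432, [603, 857]), (435, [803, 847, 843, 839, 835, 831, 827, 823, 819])])), (193,
    (180, [(183, [352]), (184, [358]), (234, [454]), (233, [458]), (230, [452]), (280, [354]),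
    (283, [552]), (340, [751, 715, 711, 707, 651, 615, 611, 607, 851, 815, 811]), (284, [558, 807,
    555])])), (195, (181, [(182, [356]), (185, [318, 322, 326]), (189, [339, 335, 331, 348]),
    (231, [448]), (232, [456]), (235, [403, 447, 443, 439, 435, 431, 427, 423, 419]), (281, [347,
    343, 549]), (282, [303, 557]), (285, [503, 547, 543, 539, 535, 531, 527, 523, 519])]))])
def tb_x1 : TB :=
  (96, [(43, (83, [(84, [158])])), (44, (30, [(92, [154])])), (94, (80, [(91, [152])])), (99, (88,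
    [])), (144, (130, [])), (146, (133, [(134, [258]), (141, [252]), (142, [254])])), (149, (138,
    [])), (193, (180, [(234, [454]), (233, [458]), (230, [452]), (284, [554]), (283, [558]), (280,
    [552])])), (249, (238, [])), (248, (237, [])), (247, (236, [])), (299, (288, [])), (298, (287,
    [])), (297, (286, [])), (195, (181, [(182, [356]), (189, [348]), (190, [350]), (231, [448]),
    (235, [415, 411, 407, 403, 447, 443, 439, 435, 431, 427]), (232, [457, 423, 419, 450]), (281,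
    [549]), (285, [515, 511, 507, 503, 547, 543, 539, 535, 531, 527]), (282, [557, 523, 519,
    550])])), (197, (185, [])), (343, (330, [(384, [755]), (383, [759]), (380, [753]), (434,
    [855]), (433, [859]), (430, [853])])), (399, (388, [])), (398, (387, [])), (397, (386, [])),
    (449, (438, [])), (448, (437, [])), (447, (436, [])), (345, (331, [(332, [656]), (339, [648]),
    (340, [650]), (381, [748]), (385, [715, 711, 707, 703, 747, 743, 739, 735, 731, 727]), (382,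
    [757, 723, 719, 750]), (431, [849]), (435, [815, 811, 807, 803, 847, 843, 839, 835, 831,
    827]), (432, [857, 823, 819, 850])])), (347, (335, []))])
def tb_yS : TB :=
  (96, [(43, (83, [(84, [158])])), (44, (30, [(92, [154])])), (94, (80, [(91, [152])])), (99, (88,
    [])), (98, (87, [])), (97, (86, [])), (45, (31, [(32, [56]), (39, [48]), (81, [148]), (82,
    [156]), (85, [103, 147, 143, 139, 135, 131, 127, 123, 119])])), (144, (130, [(131, [249]),
    (132, [257])])), (147, (135, [])), (148, (136, [])), (149, (137, [])), (146, (133, [(134,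
    [258]), (138, [230, 234, 238]), (141, [218, 222, 226, 252]), (142, [203, 247, 243, 254])])),
    (193, (180, [(234, [454]), (233, [458]), (230, [452]), (284, [554]), (283, [558]), (280,
    [552])])), (249, (238, [])), (248, (237, [])), (247, (236, [])), (299, (288, [])), (298, (287,
    [])), (297, (286, [])), (195, (181, [(182, [356]), (189, [348]), (190, [350]), (231, [448]),
    (235, [415, 411, 407, 403, 447, 443, 439, 435, 431, 427]), (232, [457, 423, 419, 450]), (281,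
    [549]), (285, [515, 511, 507, 503, 547, 543, 539, 535, 531, 527]), (282, [557, 523, 519,
    550])])), (343, (40, [(330, [50]), (380, [150]), (383, [110, 114, 753]), (384, [758, 107,
    755]), (430, [251]), (433, [210, 214, 853]), (434, [858, 207, 855])])), (399, (388, [])),
    (398, (387, [])), (397, (386, [])), (449, (438, [])), (448, (437, [])), (447, (436, [])),
    (345, (331, [(332, [656]), (339, [648]), (340, [650]), (381, [748]), (385, [715, 711, 707,
    703, 747, 743, 739, 735, 731, 727]), (382, [757, 723, 719, 750]), (431, [849]), (435, [815,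
    811, 807, 803, 847, 843, 839, 835, 831, 827]), (432, [857, 823, 819, 850])]))])
def tb_yE : TB :=
  (96, [(43, (83, [(84, [158])])), (44, (30, [(92, [154])])), (46, (33, [(34, [58]), (41,
    [52])])), (94, (80, [(91, [152])])), (144, (42, [(130, [54])])), (146, (133, [(134, [258]),
    (141, [252]), (142, [254])])), (199, (188, [])), (198, (187, [])), (197, (186, [])), (249,
    (238, [])), (248, (237, [])), (247, (236, [])), (299, (288, [])), (298, (287, [])), (297,
    (286, [])), (195, (181, [(182, [356]), (185, [318, 322, 326]), (190, [306, 310, 314, 350]),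
    (232, [450]), (231, [456]), (235, [427, 423, 419, 415, 411, 407, 403, 447, 443]), (281, [347,
    343]), (282, [550, 303, 557]), (285, [527, 523, 519, 515, 511, 507, 503, 547, 543])])), (193,
    (180, [(183, [352]), (184, [358]), (189, [339, 335, 331, 348]), (230, [448]), (233, [431,
    452]), (234, [455, 439, 435, 458]), (280, [548, 354]), (283, [531, 552]), (284, [555, 539,
    535, 558])])), (349, (338, [])), (348, (337, [])), (347, (336, [])), (399, (388, [])), (398,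
    (387, [])), (397, (386, [])), (449, (438, [])), (448, (437, [])), (447, (436, [])), (345,
    (331, [(332, [656]), (335, [618, 622, 626]), (340, [606, 610, 614, 650]), (382, [750]), (381,
    [756]), (385, [727, 723, 719, 715, 711, 707, 703, 747, 743]), (431, [647, 643]), (432, [850,
    603, 857]), (435, [827, 823, 819, 815, 811, 807, 803, 847, 843])])), (343, (330, [(333,
    [653]), (334, [659]), (339, [639, 635, 631, 648]), (380, [748]), (383, [753, 730]), (384,
    [755, 739, 735, 758]), (430, [655, 849]), (433, [853, 830]), (434, [855, 839, 835, 858])]))])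

/-- the chart in which the ports of the kids are seen -/
def gkC : Gk → Option Chart
  | .py e _ | .ly e _ => yChart e [] []
  | _ => some c0

variable {Z : Type} [MetricSpace Z]

namespace Geo
variable (Γ : Geo Z)

theorem kid_arc (g : Γ.Fl) {t : TA} {m u v : ℕ} (e : vx.evA t = some (m, u, v)) :
    ∃ x y, Arc (Γ.Rg g m) x y ∧ Γ.Rg g u = {x} ∧ Γ.Rg g v = {y} := (Γ.Rg_ok g).evA glues e

theorem kid_oarc (g : Γ.Fl) (t : Bool) : ∃ x y, Arc (Γ.Rg g (jC t)) x y ∧
    Γ.Rg g (j0M t) = Γ.Rg g (jC t) \ {x, y} :=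
  (Γ.Rg_ok g).evAo glues (t := [if t then 102 else 226]) (by cases t <;> decide +kernel)

theorem h12_disc (g : Γ.Fl) : Disc (Γ.Rg g (h12 0 0)) (Γ.Rg g (kap 0 0)) :=
  (Γ.Rg_ok g).evD glues (t := (31, [(32, [56]), (39, [48]), (40, [50]), (81, [148]),
    (87, [115, 111, 107, 103, 147, 143, 139, 135, 131, 127]), (82, [157, 123, 119, 150]),
    (131, [249]), (137, [215, 211, 207, 203, 247, 243, 239, 235, 231, 227]),
    (132, [257, 223, 219, 250])])) (by decide +kernel)

theorem z_disc (g : Γ.Fl) : Disc (Γ.Rg g zM) (Γ.Rg g zC) :=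
  (Γ.Rg_ok g).evD glues (t := (81, [(82, [156]), (87, [118, 122, 126]), (137, [203, 247, 243])]))
    (by decide +kernel)

theorem pad_hit (g : Γ.Fl) : (Γ.K ∩ Γ.Rg g (fc 37 0 1)).Nonempty :=
  Γ.Rg_hit g (w := [.u]) (by decide +kernel)

theorem po_ok : Γ.po.Ok Γ.K := by
  have sb : ∀ (g : Γ.Fl) {a b : ℕ}, sub a b = true → Γ.Rg g a ⊆ Γ.Rg g b := fun g _ _ h =>
    (Γ.Rg_rl g).sub h
  have sl : ∀ (g : Γ.Fl) {a b c : ℕ}, sub (Nat.land a b) c = true →
      Γ.Rg g a ∩ Γ.Rg g b ⊆ Γ.Rg g c := fun g _ _ _ h => (Γ.Rg_rl g).and _ _ ▸ sb g h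
  have aI : ∀ f : Γ.Ft, Arc (Γ.po.I f) (Γ.po.e0 f) (Γ.po.e1 f) := fun ⟨g, t⟩ => by
    obtain ⟨x, y, a, b, c⟩ := Γ.kid_arc g (t := if t then [6, 10, 14, 18, 22, 26, 30, 34, 38, 42, 46]
      else [30, 34, 38, 42, 46, 2, 6, 10, 14, 18, 22]) (m := iM t) (u := kv 0 0 (i0 t))
      (v := kv 0 0 (i0 t + 11)) (by cases t <;> (try dsimp only [po]) <;> decide +kernel)
    rw [pnt_eq, singleton_eq_singleton_iff] at b c
    subst b c
    exact a
  refine ⟨fun f => ⟨Γ.h12_disc _, Γ.Rg_free _ (by decide +kernel),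
      (Γ.pad_hit f.1).mono (inter_subset_inter_right _ (sb _ (by decide +kernel)))⟩,
    fun f b => ?_, fun f => ?_, fun ⟨g, t⟩ => ?_, fun ⟨g, t⟩ => sb g (by cases t <;> (try dsimp only [po]) <;> decide +kernel),
    fun ⟨g, t⟩ => Γ.Rg_free g (by cases t <;> (try dsimp only [po]) <;> decide +kernel),
    fun ⟨g, t⟩ => sl g (by cases t <;> (try dsimp only [po]) <;> decide +kernel), fun ⟨g, t⟩ b => ?_, fun ⟨g, t⟩ => ?_, aI,
    fun ⟨g, t⟩ => sb g (by cases t <;> (try dsimp only [po]) <;> decide +kernel), fun ⟨g, t⟩ => ?_, fun ⟨g, t⟩ => ?_,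
    fun ⟨g, t⟩ => ⟨?_, ?_⟩, fun ⟨g, t⟩ => ⟨?_, ?_⟩, fun ⟨g, t⟩ => ⟨?_, ?_⟩, fun ⟨g, t⟩ b => ?_⟩
  · rw [pad_H, po_Ho]; exact sb _ (by revert b; decide +kernel)
  · rw [pad_H, pad_H]; exact (Γ.Rg_rl _).dis (by decide +kernel)
  · exact (Γ.Rg_ok g).evD glues (t := if t then (31, [(32, [56]), (39, [48]), (40, [50]), (131, [249])])
      else (32, [(40, [50]), (132, [251]), (131, [257]), (39, [249])])) (by cases t <;> (try dsimp only [po]) <;> decide +kernel)
  · rw [pad_H]; exact sl g (by cases t <;> cases b <;> (try dsimp only [po]) <;> decide +kernel)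
  · obtain ⟨b, d, a2, b2, c2⟩ := Γ.kid_arc g
      (t := if t then [257, 226, 230, 234, 238, 149, 130, 134, 138, 142]
        else [56, 102, 106, 110, 114, 150, 206, 210, 214, 218]) (m := lM t)
      (u := kv 0 0 (i0 t + 11)) (v := if t then kv 0 1 11 else kv 0 2 5) (by cases t <;> (try dsimp only [po]) <;> decide +kernel)
    obtain ⟨d', e, a3, b3, c3⟩ := Γ.kid_arc g (t := if t then [146] else [222]) (m := mM t)
      (u := if t then kv 0 1 11 else kv 0 2 5) (v := if t then kv 0 1 0 else kv 0 2 6)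
      (by cases t <;> (try dsimp only [po]) <;> decide +kernel)
    obtain ⟨e', a, a4, b4, c4⟩ := Γ.kid_arc g
      (t := if t then [102, 106, 110, 114, 150, 206, 210, 214, 250]
        else [226, 230, 234, 238, 149, 130, 134, 138, 49]) (m := rM t)
      (u := if t then kv 0 1 0 else kv 0 2 6) (v := kv 0 0 (i0 t)) (by cases t <;> (try dsimp only [po]) <;> decide +kernel)
    obtain rfl : d = d' := singleton_injective (c2.symm.trans b3)
    obtain rfl : e = e' := singleton_injective (c3.symm.trans b4)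
    have a1 := aI (g, t)
    obtain rfl : Γ.po.e1 (g, t) = b := singleton_injective ((Γ.pnt_eq _ _).symm.trans b2)
    obtain rfl : Γ.po.e0 (g, t) = a := singleton_injective ((Γ.pnt_eq _ _).symm.trans c4)
    have h := Γ.Rg_rl g
    refine ⟨⟨_, _, d, e, a1, a2, a3, a4, (h.inter ?_).trans b2, (h.inter ?_).trans b3,
      (h.inter ?_).trans b4, (h.inter ?_).trans c4⟩, h.dis ?_, h.dis ?_, ?_⟩
    rotate_right
    · simp only [po, ocM, orL, List.foldr, h.or, h.zero, union_empty, union_assoc]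
    all_goals cases t <;> dsimp only <;> decide +kernel
  · exact sb g (a := kv 0 0 (i0 t)) (by cases t <;> (try dsimp only [po]) <;> decide +kernel) ((Γ.pnt_eq _ _).ge rfl)
  · exact sb g (a := kv 0 0 (i0 t + 11)) (by cases t <;> (try dsimp only [po]) <;> decide +kernel) ((Γ.pnt_eq _ _).ge rfl)
  · obtain ⟨x, y, a, b⟩ := Γ.kid_oarc g t
    exact ⟨_, x, y, a, sb g (by cases t <;> (try dsimp only [po]) <;> decide +kernel), b.ge⟩
  · rw [pad_k]; exact sb g (by cases t <;> (try dsimp only [po]) <;> decide +kernel)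
  · obtain ⟨x, y, a, b⟩ := Γ.kid_oarc g (!t)
    exact ⟨_, x, y, a, sb g (by cases t <;> (try dsimp only [po]) <;> decide +kernel), b.ge⟩
  · rw [pad_k]; exact sb g (by cases t <;> (try dsimp only [po]) <;> decide +kernel)
  · simp only [po]
    rw [← (Γ.Rg_rl g).or, ← (Γ.Rg_rl g).df]
    exact sb g (by cases t <;> (try dsimp only [po]) <;> decide +kernel)
  · rw [pad_k]; exact sb g (by cases t <;> (try dsimp only [po]) <;> decide +kernel)
  · rw [po_Io]
    exact sb g (a := kv 0 0 (cutI t b)) (by cases t <;> cases b <;> (try dsimp only [po]) <;> decide +kernel) ((Γ.pnt_eq _ _).ge rfl)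

/-- the mark of a port, when ports with the same place have the same mark -/
theorem ob_M {g : Γ.Fl} {o : AO} {p : Pa × Option Bool} (hp : p ∈ o.P)
    (h : ∀ q ∈ o.P, Γ.pt g p.1 = Γ.pt g q.1 → p.2 = q.2) : (Γ.ob g o).M (Γ.pt g p.1) = p.2 := by
  simp only [ob]
  split_ifs with h1 h2
  · obtain ⟨q, hq, e, e'⟩ := h1
    exact ((h q hq e).trans e').symm
  · obtain ⟨q, hq, e, e'⟩ := h2
    exact ((h q hq e).trans e').symm
  · rcases e : p.2 with _ | _ | _
    exacts [rfl, (h2 ⟨p, hp, rfl, e⟩).elim, (h1 ⟨p, hp, rfl, e⟩).elim]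

omit [MetricSpace Z] in
theorem kid_mapO {α β : Type} {τ : α → Option β} {l : List α} {l' : List β}
    (e : mapO τ l = some l') : List.Forall₂ (fun a b => τ a = some b) l l' := by
  induction l generalizing l' with
  | nil => cases e; exact .nil
  | cons a l ih =>
    obtain ⟨y, e1, e2⟩ := Option.bind_eq_some_iff.1 e
    obtain ⟨k, e3, rfl⟩ := Option.map_eq_some_iff.1 e2
    exact .cons e1 (ih e3)

omit [MetricSpace Z] in
theorem kid_pairs {α : Type} {p : α → α → Bool} {l : List α} (h : pairs p l = true) :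
    l.Pairwise fun a b => p a b = true := by
  induction l with
  | nil => exact .nil
  | cons a l ih =>
    simp only [pairs, Bool.and_eq_true, List.all_eq_true] at h
    exact .cons h.1 (ih h.2)

/-- the foot named by a translated port -/
def sem (g : Γ.Fl) (q : TP) : Γ.Ft := (g * Γ.evS q.n.1, q.n.2)

/-- a translated object matches an object -/
structure Mat (g : Γ.Fl) (R' : ℕ → Set Z) (t : TO') (O : Ob Z Γ.Ft) : Prop where
  b : R' t.b = O.B
  s : R' t.s = O.S
  p : ∀ f, f ∈ O.P ↔ ∃ q ∈ t.p, f = Γ.sem g q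
  h : ∀ q ∈ t.p, R' q.h = Γ.po.H (Γ.sem g q) ∧ R' q.o = Γ.po.H (Γ.sem g q) \ Γ.po.k (Γ.sem g q)
  m : (∀ q ∈ t.p, ∀ q' ∈ t.p, Γ.sem g q = Γ.sem g q' → q.m = q'.m) →
    ∀ q ∈ t.p, O.M (Γ.sem g q) = q.m

variable {Γ} in
theorem At.mat {c : Chart} {g : Γ.Fl} {R' : ℕ → Set Z} (h : Γ.At c g R') {x : Wd × AO} {t : TO'}
    (e : c.obj x = some t) : Γ.Mat g R' t (Γ.ob (g * Γ.ev x.1) x.2) := by
  obtain ⟨b, e1, e⟩ := Option.bind_eq_some_iff.1 e
  obtain ⟨s, e2, e⟩ := Option.bind_eq_some_iff.1 e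
  obtain ⟨l, e3, rfl⟩ := Option.map_eq_some_iff.1 e
  have f := kid_mapO e3
  have k : ∀ p q, c.port x.1 p = some q → Γ.pt (g * Γ.ev x.1) p.1 = Γ.sem g q ∧ p.2 = q.m ∧
      R' q.h = Γ.po.H (Γ.sem g q) ∧ R' q.o = Γ.po.H (Γ.sem g q) \ Γ.po.k (Γ.sem g q) := by
    intro p q e
    obtain ⟨a, e1, e⟩ := Option.bind_eq_some_iff.1 e
    obtain ⟨o, e2, rfl⟩ := Option.map_eq_some_iff.1 e
    rw [po_Ho, h.tau _ _ _ e1, h.tau _ _ _ e2]
    simp only [sem, pt, po, ev_nf, ev_append, mul_assoc, and_self]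
  have l1 : ∀ p ∈ x.2.P, ∃ q ∈ l, c.port x.1 p = some q := fun p hp => by
    obtain ⟨i, hi, rfl⟩ := List.getElem_of_mem hp
    exact ⟨l[i]'(f.length_eq ▸ hi), List.getElem_mem _, f.get hi _⟩
  have l2 : ∀ q ∈ l, ∃ p ∈ x.2.P, c.port x.1 p = some q := fun q hq => by
    obtain ⟨i, hi, rfl⟩ := List.getElem_of_mem hq
    exact ⟨x.2.P[i]'(f.length_eq ▸ hi), List.getElem_mem _, f.get _ hi⟩
  refine ⟨h.tau _ _ _ e1, h.tau _ _ _ e2, fun a => ⟨?_, ?_⟩, fun q hq => ?_, fun u q hq => ?_⟩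
  · rintro ⟨p, hp, rfl⟩
    obtain ⟨q, hq, e⟩ := l1 p hp
    exact ⟨q, hq, (k p q e).1⟩
  · rintro ⟨q, hq, rfl⟩
    obtain ⟨p, hp, e⟩ := l2 q hq
    exact ⟨p, hp, (k p q e).1.symm⟩
  · obtain ⟨p, -, e⟩ := l2 q hq
    exact (k p q e).2.2
  · obtain ⟨p, hp, e⟩ := l2 q hq
    rw [← (k p q e).1, ← (k p q e).2.1]
    refine Γ.ob_M hp fun p' hp' e1 => ?_
    obtain ⟨q', hq', e'⟩ := l1 p' hp'
    rw [(k p q e).2.1, (k p' q' e').2.1]
    exact u q hq q' hq' (by rw [← (k p q e).1, ← (k p' q' e').1, e1])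

theorem kid_chk {g : Γ.Fl} {R' : ℕ → Set Z} (hR : Rl R') {t : TO'} {ts : List TO'}
    (e : kidChk t ts = true) {O : Ob Z Γ.Ft} {k : Fin ts.length → Ob Z Γ.Ft} (h : Γ.Mat g R' t O)
    (hk : ∀ m, Γ.Mat g R' ts[m] (k m)) (hb : ∀ m, Ball (k m).B (k m).S) : Kid Γ.po O k := by
  simp only [kidChk, Bool.and_eq_true, List.all_eq_true, Bool.or_eq_true, List.any_eq_true,
    TO'.has, beq_iff_eq] at e
  obtain ⟨⟨⟨⟨e1, e2⟩, e3⟩, e4⟩, e5⟩ := e
  have mk : ∀ (m : Fin ts.length), ∀ q ∈ ts[m].p, q ∈ ts.flatMap TO'.p := fun m q hq =>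
    List.mem_flatMap.2 ⟨_, List.getElem_mem _, hq⟩
  have hh : ∀ q ∈ t.p ++ ts.flatMap TO'.p, R' q.h = Γ.po.H (Γ.sem g q) ∧
      R' q.o = Γ.po.H (Γ.sem g q) \ Γ.po.k (Γ.sem g q) := fun q hq => by
    rcases List.mem_append.1 hq with hq | hq
    · exact h.h q hq
    · obtain ⟨a, ha, hq⟩ := List.mem_flatMap.1 hq
      obtain ⟨i, hi, rfl⟩ := List.getElem_of_mem ha
      exact (hk ⟨i, hi⟩).h q hq
  have sn : ∀ {q q' : TP}, q.n = q'.n → Γ.sem g q = Γ.sem g q' := fun e => by simp only [sem, e]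
  have a1 : ∀ q ∈ t.p ++ ts.flatMap TO'.p, ∀ q' ∈ t.p ++ ts.flatMap TO'.p,
      (q.n = q'.n → q.m = q'.m) ∧ (q.n ≠ q'.n → dis q.o q'.h = true ∧ dis q'.o q.h = true) :=
    fun _ hq _ hq' => @List.Pairwise.forall_of_forall _ (fun q q' : TP => (q.n = q'.n → q.m = q'.m) ∧
      (q.n ≠ q'.n → dis q.o q'.h = true ∧ dis q'.o q.h = true)) _
      ⟨fun _ _ a => ⟨fun e => (a.1 e.symm).symm, fun e => (a.2 e.symm).symm⟩⟩
      (fun _ _ => ⟨fun _ => rfl, fun e => (e rfl).elim⟩) ((kid_pairs e1).imp fun {q q'} a => by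
        by_cases c : q.n = q'.n
        · rw [if_pos c, beq_iff_eq] at a
          exact ⟨fun _ => a, fun n => (n c).elim⟩
        · rw [if_neg c, Bool.and_eq_true] at a
          exact ⟨fun e => (c e).elim, fun _ => a⟩) _ hq _ hq'
  have a2 : ∀ q ∈ t.p ++ ts.flatMap TO'.p, ∀ q' ∈ t.p ++ ts.flatMap TO'.p, Γ.sem g q ≠ Γ.sem g q' →
      Disjoint (Γ.po.H (Γ.sem g q) \ Γ.po.k (Γ.sem g q)) (Γ.po.H (Γ.sem g q')) :=
    fun q hq q' hq' n => by
      rw [← (hh q hq).2, ← (hh q' hq').1]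
      exact hR.dis ((a1 q hq q' hq').2 fun e => n (sn e)).1
  have a3 : ∀ q ∈ t.p ++ ts.flatMap TO'.p, ∀ q' ∈ t.p ++ ts.flatMap TO'.p, Γ.sem g q = Γ.sem g q' →
      q.m = q'.m := fun q hq q' hq' e => (a1 q hq q' hq').1 (by
    by_contra n
    have := hR.dis ((a1 q hq q' hq').2 n).1
    rw [(hh q hq).2, (hh q' hq').1, ← e] at this
    obtain ⟨x, hx⟩ := Γ.po_ok.inner (Γ.sem g q)
    exact disjoint_left.1 this hx hx.1)
  have r : ∀ (m : Fin ts.length), ∀ q ∈ ts[m].p, q ∈ t.p ++ ts.flatMap TO'.p := fun m q hq =>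
    List.mem_append_right _ (mk m q hq)
  have M : ∀ (m : Fin ts.length), ∀ q ∈ ts[m].p, (k m).M (Γ.sem g q) = q.m := fun m =>
    (hk m).m fun q hq q' hq' => a3 q (r m q hq) q' (r m q' hq')
  have e3' := fun m : Fin ts.length => e3 ts[m] (List.getElem_mem _)
  refine ⟨⟨fun m => ⟨hb m, fun f hf => ?_, fun f hf f' hf' n => ?_⟩, fun m m' n => ?_,
    fun m m' f hf => ?_, fun m m' f hf hf' => ?_⟩, fun m => ?_, fun m => ?_, fun m f hf => ?_,
    fun f hf => ?_⟩
  · obtain ⟨q, hq, rfl⟩ := ((hk m).p f).1 hf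
    rw [← ((hk m).h q hq).1, ← (hk m).s]
    exact hR.sub ((e3' m).1.2 q hq)
  · obtain ⟨q, hq, rfl⟩ := ((hk m).p f).1 hf
    obtain ⟨q', hq', rfl⟩ := ((hk m).p f').1 hf'
    exact a2 q (r m q hq) q' (r m q' hq') n
  · rw [← (hk m).b, ← (hk m').b, ← (hk m).s]
    have p := List.pairwise_iff_getElem.1 (kid_pairs e2)
    rcases lt_or_gt_of_ne n with l | l
    · have := hR.sub (p m m' m.2 m'.2 l)
      rw [hR.and, hR.and] at this
      exact this.trans inter_subset_left
    · have := hR.sub (p m' m m'.2 m.2 l)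
      rw [hR.and, hR.and, inter_comm] at this
      exact this.trans inter_subset_right
  · obtain ⟨q, hq, rfl⟩ := ((hk m).p f).1 hf
    refine ((e3' m').2 q (mk m q hq)).imp (fun d => ?_) fun ⟨q', hq', e⟩ =>
      ((hk m').p _).2 ⟨q', hq', sn e⟩
    rw [← ((hk m).h q hq).2, ← (hk m').b]
    exact hR.dis d
  · obtain ⟨q, hq, rfl⟩ := ((hk m).p f).1 hf
    obtain ⟨q', hq', e⟩ := ((hk m').p _).1 hf'
    rw [M m q hq, e, M m' q' hq']
    exact a3 q (r m q hq) q' (r m' q' hq') e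
  · rw [← (hk m).b, ← h.b]; exact hR.sub (e3' m).1.1.1
  · rw [← (hk m).b, ← h.s, ← (hk m).s, ← hR.and]; exact hR.sub (e3' m).1.1.2
  · obtain ⟨q, hq, rfl⟩ := ((hk m).p f).1 hf
    rcases e4 q (mk m q hq) with ⟨q', hq', e⟩ | d
    · refine .inl ⟨(h.p _).2 ⟨q', hq', sn e⟩, ?_⟩
      rw [M m q hq, sn e, h.m (fun a ha a' ha' => a3 a (List.mem_append_left _ ha) a'
        (List.mem_append_left _ ha')) q' hq']
      exact a3 q (r m q hq) q' (List.mem_append_left _ hq') (sn e)
    · rw [← ((hk m).h q hq).2, ← h.s]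
      exact .inr (hR.dis d)
  · obtain ⟨q, hq, rfl⟩ := (h.p f).1 hf
    obtain ⟨a, ha, q', hq', e⟩ := e5 q hq
    obtain ⟨i, hi, rfl⟩ := List.getElem_of_mem ha
    exact ⟨⟨i, hi⟩, ((hk ⟨i, hi⟩).p _).2 ⟨q', hq', sn e⟩⟩

omit [MetricSpace Z] in
theorem kid_cast {φ κ κ' : Type} {Z : Type} [MetricSpace Z] {π : Po Z φ} {o : Ob Z φ} {k : κ → Ob Z φ}
    (h : Kid π o k) (e : κ' ≃ κ) : Kid π o fun m => k (e m) :=
  ⟨h.geo.comap e.injective, fun _ => h.sub _, fun _ => h.rim _, fun _ => h.port _, fun g hg =>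
    (h.onto g hg).elim fun m hm => ⟨e.symm m, by rwa [e.apply_symm_apply]⟩⟩

theorem kid_ok {c : Chart} (hc : Γ.Val c) {o : AO} {ks : List (Wd × AO)} (e : kidOk c o ks = true)
    (hb : ∀ x ∈ ks, ∀ g, Ball (Γ.Rg g x.2.B) (Γ.Rg g x.2.S)) (g : Γ.Fl) :
    Kid Γ.po (Γ.ob g o) fun m : Fin ks.length => Γ.ob (g * Γ.ev ks[m].1) ks[m].2 := by
  obtain ⟨R', h⟩ := hc g
  unfold kidOk at e
  split at e
  swap
  · cases e
  rename_i t ts e1 e2
  have f := kid_mapO e2
  have m0 := h.mat e1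
  rw [ev, mul_one] at m0
  have lt : ∀ m : Fin ts.length, m.1 < ks.length := fun m => m.2.trans_eq f.length_eq.symm
  exact kid_cast (Γ.kid_chk h.ok.rl e (k := fun m => Γ.ob (g * Γ.ev (ks[m.1]'(lt m)).1)
    (ks[m.1]'(lt m)).2) m0 (fun m => h.mat (f.get (lt m) m.2))
    fun m => hb _ (List.getElem_mem _) _) (finCongr f.length_eq)

theorem up_ok {o o' : AO} (hB : o'.B = o.B) (hS : o'.S = o.S)
    (hP : o'.P = (pads (o.P.map Prod.fst)).map fun p => (p, none)) (g : Γ.Fl) :
    Up Γ.po (Γ.ob g o) (Γ.ob g o') := by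
  refine ⟨congrArg (Γ.Rg g) hB, congrArg (Γ.Rg g) hS, fun f => ?_, fun f _ => ?_⟩
  · simp only [ob, hP, pads, mem_ofPred_eq, List.mem_map, List.mem_flatMap, exists_exists_and_eq_and,
      List.mem_cons, List.not_mem_nil, or_false]
    constructor
    · rintro ⟨_, ⟨p, hp, rfl | rfl⟩, rfl⟩
      exacts [⟨_, ⟨p, hp, rfl⟩, true, Γ.pt_pad g p.1 true⟩, ⟨_, ⟨p, hp, rfl⟩, false, Γ.pt_pad g p.1 false⟩]
    · rintro ⟨_, ⟨p, hp, rfl⟩, b, rfl⟩
      exact ⟨(p.1.1 ++ pw b, b), ⟨p, hp, by cases b <;> simp⟩, (Γ.pt_pad g p.1 b).symm⟩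
  · have k : ∀ b, ¬ ∃ p ∈ o'.P, f = Γ.pt g p.1 ∧ p.2 = some b := by
      rintro b ⟨q, hq, -, h⟩
      obtain ⟨p, -, rfl⟩ := List.mem_map.1 (hP ▸ hq)
      cases h
    exact (if_neg (k true)).trans (if_neg (k false))

theorem gk_ball (k : Gk) (g : Γ.Fl) : Ball (Γ.Rg g k.B) (Γ.Rg g k.S) := by
  have x := (Γ.Rg_ok g).evB glues (t := tb_x1) (m := x1) (r := Nat.lor (h12 0 0) (h61 0 0))
    (by decide +kernel)
  have y : ∀ e, Ball (Γ.Rg g (yB e)) (Γ.Rg g (yR e)) := fun e =>
    (Γ.Rg_ok g).evB glues (t := if e then tb_yE else tb_yS) (by cases e <;> decide +kernel)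
  cases k
  exacts [(Γ.Rg_ok g).evB glues (t := tb_root) (by decide +kernel), x, x, y _, y _]

theorem gkC_val {k : Gk} {c : Chart} (e : gkC k = some c) : Γ.Val c := by
  cases k
  case ly => exact val_y e
  case py => exact val_y e
  all_goals cases e; exact val_c0

theorem gk_kid (k : Gk) (g : Γ.Fl) : Kid Γ.po (Γ.ob g k.ao)
    fun m : Fin (gkids k).length => Γ.ob (g * Γ.ev (gkids k)[m].1) (gkids k)[m].2.ao := by
  have d : (gkC k).any (fun c => kidOk c k.ao ((gkids k).map fun x => (x.1, x.2.ao))) = true := by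
    rcases k with _ | _ | ⟨_ | _, _ | _⟩ | ⟨_ | _, _ | _⟩ | ⟨_ | _, _ | _⟩ <;> decide +kernel
  obtain ⟨c, e1, e2⟩ := (Option.any_eq_true _ _).1 d
  have := kid_cast (Γ.kid_ok (Γ.gkC_val e1) e2 (fun x hx g => by
    obtain ⟨y, -, rfl⟩ := List.mem_map.1 hx
    exact Γ.gk_ball y.2 g) g) (finCongr (List.length_map _).symm)
  simpa using this

end Geo

end Pool.Agent.Lib.MP_b7d179_gt.L
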