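import Pool.Agent.Lib.MP_b7d179_gt.L.Md
import Pool.Agent.Lib.MP_b7d179_gt.L.Kid
import Pool.Agent.Lib.MP_b7d179_gt.C.Tr

/-! The meaning of the translated data. -/

namespace Pool.Agent.Lib.MP_b7d179_gt.L

open Set C Gen

variable {Z : Type} [MetricSpace Z] {ι φ : Type}

/-- the masks `t` describe the object `o` -/
structure IsT (π : Po Z φ) (R : ℕ → Set Z) (t : TO') (o : Ob Z φ) : Prop where
  b : R t.b = o.B
  s : R t.s = o.S
  fin : o.P.Finite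
  p1 : ∀ f ∈ o.P, ∃ p ∈ t.p, R p.w.1 = π.H f ∧ R p.w.2 = π.k f
  p2 : ∀ p ∈ t.p, ∃ f ∈ o.P, R p.w.1 = π.H f ∧ R p.w.2 = π.k f

/-- the kids as objects -/
noncomputable def Geo.kob (Γ : Geo Z) (g : Γ.Fl) (ks : List Kd) (m : Fin ks.length) : Ob Z Γ.Ft :=
  Γ.ob (g * Γ.ev ks[m].1) ks[m].2.1.ao

structure Ctx.Ok (Γ : Geo Z) (k : Gk) (ks : List Kd) (g : Γ.Fl) (X : Ctx) (n0 : ℕ) (R : ℕ → Set Z) :
    Prop where
  at' : Γ.At X.c g R
  top : IsT Γ.po R X.o (Γ.ob g k.ao)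
  len : X.ks.length = ks.length
  kid : ∀ m : Fin ks.length, ∃ e, X.ks[m.1]? = some e ∧ IsT Γ.po R e.1 (Γ.kob g ks m) ∧
    e.2.2 = ks[m].2.2 ∧ X.c.sp ks[m].1 ks[m].2.1 = some e.2.1
  fr : Disjoint (R X.fr) Γ.K
  nd : NdB R (ndOf X.c.A X.ks)
  ch : Chain R (ndOf X.c.A X.ks) n0 X.l X.o.b X.o.s
  geo : Kid Γ.po (Γ.ob g k.ao) (Γ.kob g ks)
  pad : R X.pad = ⋃ f ∈ (Γ.ob g k.ao).P, Γ.po.H f

variable {Γ : Geo Z} {c : Chart} {g : Γ.Fl} {R : ℕ → Set Z}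

theorem RL_shift (w : Wd) (l : List Ad) : Γ.RL g (shift w l) = Γ.RL (g * Γ.ev w) l := by
  ext x
  simp only [Geo.RL, Geo.Ra, shift, mem_ofPred_eq, List.mem_map, exists_exists_and_eq_and,
    Geo.ev_append, mul_assoc]
theorem obj_is (h : Γ.At c g R) {w : Wd} {o : AO} {t : TO'} (e : c.obj (w, o) = some t) :
    IsT Γ.po R t (Γ.ob (g * Γ.ev w) o) := by
  have m := h.mat e
  have k : ∀ q ∈ t.p, R q.w.1 = Γ.po.H (Γ.sem g q) ∧ R q.w.2 = Γ.po.k (Γ.sem g q) := fun q hq => by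
    refine ⟨(m.h q hq).1, ?_⟩
    change R (df q.h q.o) = _
    rw [h.ok.rl.df, (m.h q hq).1, (m.h q hq).2]
    exact sdiff_sdiff_cancel_left (Γ.po_ok.kd _).d.rim_sub
  refine ⟨m.b, m.s, ?_, fun f hf => ?_, fun q hq => ⟨_, (m.p _).2 ⟨q, hq, rfl⟩, k q hq⟩⟩
  · refine ((List.finite_toSet t.p).image (Γ.sem g)).subset fun f hf => ?_
    obtain ⟨q, hq, rfl⟩ := (m.p f).1 hf
    exact ⟨q, hq, rfl⟩
  · obtain ⟨q, hq, rfl⟩ := (m.p f).1 hf
    exact ⟨q, hq, k q hq⟩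
theorem sp_St (h : Γ.At c g R) {w : Wd} {md : Md} {sp : Sp ℕ} (e : c.sp w md = some sp)
    {rel : ι → ι → ι → Prop} {grp : ι → Bool} {a : ι → Set Z} :
    sp.St R rel grp a ↔ (Γ.sh (g * Γ.ev w) md).St rel grp a := by
  rw [Geo.sh, shOf_St]
  exact Sp.St_tr (τ := fun l => c.tauL (shift w l))
    (fun x y k => (h.tauL k).trans (RL_shift w x)) e

theorem coreA_val {k : Gk} {lb l : List Rf} (e : k.chart lb l = some c) : Γ.Val c := by
  cases k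
  case py => exact Geo.val_y e
  all_goals exact Geo.val_x e

theorem coreA_fr (k : Gk) : Disjoint (Γ.RL g k.fr) Γ.K := by
  refine disjoint_left.2 fun z ⟨a, ha, hz⟩ => disjoint_left.1 (Γ.Rg_free _ ?_) hz
  have f : sub free free = true := by decide +kernel
  have u : sub (pU 0) free = true := by decide +kernel
  cases k <;> simp only [Gk.fr, List.mem_cons, List.not_mem_nil, or_false] at ha
  case py =>
    rcases ha with rfl | rfl | rfl | rfl <;> dsimp only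
    exacts [f, u, u, u]
  all_goals subst ha; exact f

theorem coreA_ball (md : Md) (g : Γ.Fl) : Ball (Γ.ob g md.ao).B (Γ.ob g md.ao).S :=
  Γ.gk_ball md.gk g

theorem ctx_ok {k : Gk} {ks : List Kd} {x : Prog} {X : Ctx} (e : ctx k ks x = some X) (g : Γ.Fl) :
    ∃ R, X.Ok Γ k ks g x.n0 R := by
  obtain ⟨c, e1, e⟩ := Option.bind_eq_some_iff.1 e
  obtain ⟨o, e2, e⟩ := Option.bind_eq_some_iff.1 e
  obtain ⟨ks', e3, e⟩ := Option.bind_eq_some_iff.1 e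
  obtain ⟨fr, e4, e⟩ := Option.bind_eq_some_iff.1 e
  obtain ⟨⟨l, b, s⟩, e5, e⟩ := Option.bind_eq_some_iff.1 e
  split_ifs at e with d
  cases e
  simp only [Bool.and_eq_true] at d
  obtain ⟨⟨d1, d2⟩, d3⟩ := d
  obtain rfl : b = o.b := Nat.eq_of_beq_eq_true d1
  obtain rfl : s = o.s := Nat.eq_of_beq_eq_true d2
  have hv : Γ.Val c := coreA_val e1
  obtain ⟨R, h⟩ := hv g
  have top : IsT Γ.po R o (Γ.ob g k.ao) := by
    have := obj_is h e2
    rwa [Geo.ev, mul_one] at this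
  obtain ⟨-, -, len, get⟩ := mapO_mem e3
  have kid : ∀ m : Fin ks.length, ∃ e, ks'[m.1]? = some e ∧ IsT Γ.po R e.1 (Γ.kob g ks m) ∧
      e.2.2 = ks[m].2.2 ∧ c.sp ks[m].1 ks[m].2.1 = some e.2.1 := fun m => by
    obtain ⟨y, a1, a2⟩ := get m.1 ks[m] (List.getElem?_eq_getElem m.2)
    obtain ⟨t, a3, a4⟩ := Option.bind_eq_some_iff.1 a2
    obtain ⟨sp, a5, rfl⟩ := Option.map_eq_some_iff.1 a4
    exact ⟨_, a1, obj_is h a3, rfl, a5⟩
  refine ⟨R, h, top, len, kid, ?_, fun n b s a => ?_, shell_ok h.ok e5, ?_, ?_⟩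
  · exact (h.tauL e4).symm ▸ coreA_fr k
  · simp only [ndOf] at a
    split_ifs at a with hn
    · obtain ⟨y, a1, a2, -⟩ := kid ⟨n, len ▸ hn⟩
      rw [a1] at a
      cases a
      rw [a2.b, a2.s]
      exact coreA_ball _ _
    · exact h.ok.h3 _ _ _ a
  · have := Geo.kid_cast (Γ.kid_ok hv d3 (fun x hx g => by
      obtain ⟨y, -, rfl⟩ := List.mem_map.1 hx
      exact coreA_ball y.2.1 g) g) (finCongr (List.length_map _).symm)
    convert this using 2 with m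
    simp [Geo.kob]
  · ext z
    simp only [Ctx.pad, h.ok.rl.orL, mem_ofPred_eq, List.mem_map, exists_exists_and_eq_and,
      mem_iUnion, exists_prop]
    constructor
    · rintro ⟨p, hp, hz⟩
      obtain ⟨f, hf, a, -⟩ := top.p2 p hp
      exact ⟨f, hf, a ▸ hz⟩
    · rintro ⟨f, hf, hz⟩
      obtain ⟨p, hp, a, -⟩ := top.p1 f hf
      exact ⟨p, hp, a ▸ hz⟩

end Pool.Agent.Lib.MP_b7d179_gt.L
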