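import Pool.Agent.Lib.MP_b7d179_gt.L.CoreA
import Pool.Agent.Lib.MP_b7d179_gt.C.Fin

/-! From the end of a program to a step. -/

namespace Pool.Agent.Lib.MP_b7d179_gt.L

open Set C Gen

variable {Z : Type} [MetricSpace Z] {ι φ : Type}

theorem cb_apart {R : ℕ → Set Z} (hR : Rl R) {ps : List TP} {Ls : List ℕ}
    (e : apart ps Ls = true) {p : TP} (hp : p ∈ ps) {x y : Z} {a : Set Z}
    (h : Lands (setsA R Ls) x y) (i : a ∩ R p.h ⊆ {x, y}) : (a ∩ R p.h).Subsingleton := by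
  obtain ⟨_, ⟨m, hm, rfl⟩, _, ⟨m', hm', rfl⟩, ne, hx, hy⟩ := h
  have k : Ls.Pairwise fun L L' => Disjoint (R L) (R p.h) ∨ Disjoint (R L') (R p.h) :=
    (Geo.kid_pairs e).imp fun {L L'} c =>
      (Bool.or_eq_true_iff.1 (List.all_eq_true.1 c p hp)).imp hR.dis hR.dis
  have : Std.Symm fun L L' => Disjoint (R L) (R p.h) ∨ Disjoint (R L') (R p.h) :=
    ⟨fun _ _ => Or.symm⟩
  rcases k.forall hm hm' fun c => ne (c ▸ rfl) with d | d
  · exact (subsingleton_singleton (a := y)).anti fun z hz =>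
      (i hz).resolve_left fun c => disjoint_left.1 d hx (c ▸ hz.2)
  · exact (subsingleton_singleton (a := x)).anti fun z hz =>
      (i hz).resolve_right fun c => disjoint_left.1 d hy ((c : z = y) ▸ hz.2)

theorem cb_one {R : ℕ → Set Z} (hR : Rl R) {ps : List TP} {sp : Sp ℕ} (e : oneOk ps sp = true)
    {rel : ι → ι → ι → Prop} {grp : ι → Bool} {a : ι → Set Z} (h : sp.St R rel grp a) {p : TP}
    (hp : p ∈ ps) (s : ι) : (a s ∩ R p.h).Subsingleton := by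
  cases sp with
  | fa S D Y L0 L1 =>
    simp only [oneOk, Bool.and_eq_true, List.all_eq_true] at e
    rcases h.arc s with c | ⟨x, y, -, -, i, l⟩
    · simp [c]
    refine cb_apart hR (Ls := cond (grp s) L1 L0) ?_ hp l fun z hz =>
      i.le ⟨hz.1, Or.inl (hR.sub (e.1.1 p hp) hz.2)⟩
    cases grp s
    exacts [e.1.2, e.2]
  | di P c L0 L1 =>
    simp only [oneOk, Bool.and_eq_true, List.all_eq_true] at e
    rcases h.arc s with c | ⟨x, y, i, l⟩
    · simp [c]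
    refine cb_apart hR (Ls := cond (grp s) L1 L0) ?_ hp l fun z hz =>
      i.inter.le ⟨hz.1, hR.sub (e.1.1 p hp) ((hR.and _ _).ge ⟨i.sub hz.1, hz.2⟩)⟩
    cases grp s
    exacts [e.1.2, e.2]
  | pt L0 L1 =>
    rcases h.pt s with c | ⟨x, -, c⟩
    · simp [c]
    · exact c ▸ subsingleton_singleton.anti inter_subset_left

omit [MetricSpace Z] in
/-- the lollipops on a sphere are those of its ports -/
theorem cb_lam {π : Po Z φ} {R : ℕ → Set Z} {t : TO'} {o : Ob Z φ} (ht : IsT π R t o)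
    {ws : List (ℕ × ℕ)} {s : ℕ} (e : owns ws s t.p = true) {Λ : φ → Set Z} {Λ' : ℕ × ℕ → Set Z}
    (h : ∀ f ∈ o.P, ∀ w : ℕ × ℕ, R w.1 = π.H f → R w.2 = π.k f → Λ' w = Λ f) :
    lam ws Λ' s = ⋃ f ∈ o.P, Λ f := by
  simp only [owns, Bool.and_eq_true, List.all_eq_true, Bool.or_eq_true, List.contains_iff_mem,
    List.mem_map, Bool.not_eq_true'] at e
  ext z
  simp only [lam, mem_iUnion]
  constructor
  · rintro ⟨w, hw, c, hz⟩
    obtain ⟨p, hp, rfl⟩ := (e.2 w hw).resolve_left (by simp [c])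
    obtain ⟨f, hf, e1, e2⟩ := ht.p2 p hp
    exact ⟨f, hf, h f hf _ e1 e2 ▸ hz⟩
  · rintro ⟨f, hf, hz⟩
    obtain ⟨p, hp, e1, e2⟩ := ht.p1 f hf
    exact ⟨p.w, (e.1.2 p hp).1, (e.1.2 p hp).2, (h f hf _ e1 e2).symm ▸ hz⟩

omit [MetricSpace Z] in
theorem cb_fix {H : Z → Z} {B X V : Set Z} (i : InjOn H B) (hX : X ⊆ B) (hV : V ⊆ B)
    (fx : EqOn H id V) : H '' X ∩ V = X ∩ V := by
  ext z
  constructor
  · rintro ⟨⟨x, hx, rfl⟩, hz⟩
    have : H x = x := i (hV hz) (hX hx) (fx hz)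
    exact ⟨this.symm ▸ hx, hz⟩
  · exact fun hz => ⟨⟨z, hz.1, fx hz.2⟩, hz.2⟩

variable [Finite ι] {σ : Tw Z} {π : Po Z φ} {A : Atoms} {R : ℕ → Set Z} {o : Ob Z φ} {t : TO'}
  {fr pad n0 n : ℕ} {k : Fin n → Ob Z φ} {ks : List (TO' × Sp ℕ × Bool)} {real : Set ι}
  {rel : ι → ι → ι → Prop} {grp : ι → Bool} {a : ι → Set Z}

theorem core_step (ok : σ.Ok0) (hπ : π.Ok σ.K) (hA : A.Ok R Ball) (hk : Kid π o k) (hl : ks.length = n)
    (ht : IsT π R t o) (hks : ∀ m : Fin n, ∃ e, ks[m.1]? = some e ∧ IsT π R e.1 (k m))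
    (hf : Disjoint (R fr) σ.K) (hn : NdB R (ndOf A ks)) (hB : Ball o.B o.S) {y : PS}
    (hy : y.Ok R (ndOf A ks) n0 fr pad) (hp : R pad = ⋃ f ∈ o.P, π.H f) {bb : ℕ → ι → Set Z}
    (h : CS R (CC real) rel grp y.cs bb) {ex : List Ex} (e : finOk A fr n0 t ks y ex = true)
    {H : Z → Z} (hH : Mv σ.K H o.B) (ib : H '' o.B = R y.b) (is : H '' o.S = R y.s)
    (fx : EqOn H id (R pad)) (ha : ∀ i, a i ⊆ o.S) (im : ∀ i, H '' a i = whole bb i)
    (hd : ∀ Λ, LolP σ π o (tot real a) Λ →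
      Dumb σ.K o.S (⋃ f ∈ o.P, π.H f \ π.k f) (tot real a ∪ ⋃ f ∈ o.P, Λ f)) :
    ∃ a' : Fin n → ι → Set Z, Step σ π real o a k a' ∧
      ∀ (m : Fin n) e, ks[m.1]? = some e → e.2.1.St R rel (fun i => xor e.2.2 (grp i)) (a' m) := by
  subst hl
  have hR := hA.rl
  choose E hE hT using hks
  simp only [finOk, Bool.and_eq_true, List.all_eq_true, decide_eq_true_eq, beq_iff_eq] at e
  obtain ⟨⟨⟨⟨e1, e2⟩, e3⟩, e4⟩, e5⟩ := e
  set ws := ((ks.flatMap fun k => k.1.p).map TP.w).eraseDups with hws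
  have hx : ∀ m : Fin ks.length, ∃ x, (E m, x) ∈ ks.zip ex := fun m =>
    ⟨_, List.mem_of_getElem? (i := m.1) (List.getElem?_zip_eq_some.2
      ⟨hE m, List.getElem?_eq_getElem (m.2.trans_eq e4.symm)⟩)⟩
  choose F hx using hx
  have nd : ∀ m : Fin ks.length, ndOf A ks m.1 = some ((E m).1.b, (E m).1.s) := fun m => by
    rw [ndOf, if_pos m.2, hE m, Option.map_some]
  have X := fun m => exit_ok hA hy.wf h (hn _ _ _ (nd m)).sph (e5 _ (hx m)).2
  simp only [(hT _).s] at X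
  set a' : Fin ks.length → ι → Set Z := fun m => (F m).pc A R bb with ha'
  have k1 : ∀ T ∈ CC real, ∀ m, ∀ g ∈ (k m).P,
      tot T (a' m) ∩ π.H g = tot T (whole bb) ∩ π.H g := fun T hT m g hg => by
    rw [show tot T (a' m) = _ from ((X m).2.1 T hT).symm, inter_assoc,
      inter_eq_right.2 ((hk.geo.ok m).sub g hg)]
  have it : ∀ T, H '' tot T a = tot T (whole bb) := fun T => by
    simp only [tot, image_iUnion, im]
  have pd : ∀ g ∈ o.P, π.H g ⊆ R pad := fun g hg => hp ▸ subset_biUnion_of_mem (u := π.H) hg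
  have tr : ∀ T ∈ CC real, Tr π o (tot T a) k fun m => tot T (a' m) := fun T hT =>
    ⟨fun m m' g hg hg' => (k1 T hT m g hg).trans (k1 T hT m' g hg').symm, fun m g hg hg' => by
      rw [k1 T hT m g hg, ← it]
      exact cb_fix hH.1.2 (iUnion₂_subset fun i _ => (ha i).trans hB.rim_sub)
        (((hk.geo.ok m).hb hg).trans (hk.sub m)) (fx.mono (pd g hg'))⟩
  refine ⟨a', ⟨tr, fun m g hg s _ => ?_, fun i c m => ?_, fun Λ hΛ hS => ?_⟩, fun m e c => ?_⟩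
  · obtain ⟨p, hp, c, -⟩ := (hT m).p1 g hg
    exact c ▸ cb_one hR (e5 _ (hx m)).1.2 (X m).1 hp s
  · exact subset_eq_empty ((X m).2.2 i) (by rw [← im, c, image_empty])
  swap
  · obtain rfl : E m = e := Option.some.inj ((hE m).symm.trans c)
    exact (X m).1
  have hr : real ∈ CC real := mem_insert _ _
  have up := LolP.up hk (tr real hr) hΛ
  set Λ' : ℕ × ℕ → Set Z := fun w =>
    ⋃ f ∈ {f | ∃ m, f ∈ (k m).P ∧ R w.1 = π.H f ∧ R w.2 = π.k f}, Λ f with hΛ'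
  have uq : ∀ m, ∀ f ∈ (k m).P, ∀ w : ℕ × ℕ, R w.1 = π.H f → R w.2 = π.k f → Λ' w = Λ f := by
    intro m f hf w c1 c2
    refine Subset.antisymm (iUnion₂_subset ?_) (subset_biUnion_of_mem (u := Λ) ⟨m, hf, c1, c2⟩)
    rintro f' ⟨m', hf', d1, -⟩
    obtain rfl : f = f' := by
      by_contra ne
      obtain ⟨x, hx⟩ := hπ.inner f
      exact disjoint_left.1 (hk.geo.dj hf hf' ne) hx (d1 ▸ c1 ▸ hx.1)
    exact subset_rfl
  have l0 : lam ws Λ' y.s = ⋃ f ∈ o.P, Λ f := cb_lam ht e2 fun f hf =>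
    (hk.onto f hf).elim fun m c => uq m f c
  have iX : H '' (tot real a ∪ ⋃ f ∈ o.P, Λ f) = tot real (whole bb) ∪ lam ws Λ' y.s := by
    rw [image_union, it, l0]
    congr 1
    exact (image_congr fun x hx => fx (iUnion₂_subset
      (fun f hf => (up f hf).sub.1.trans (pd f hf)) hx)).trans (image_id _)
  simp only [owns, Bool.and_eq_true, List.all_eq_true, List.contains_iff_mem] at e2
  have key := fin_sol (Λ := Λ') ok hR hy hn hf h hr e1 e2.1.1 (fun w hw => ?_) ?_ fun j hj w sw c => ?_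
  · rw [← ib, ← iX, ← is] at key
    exact (SolU.mv ok hB (surg_sub (hd Λ up)) hH).2 key
  · obtain ⟨p, hp, rfl⟩ := List.mem_map.1 (List.mem_eraseDups.1 hw)
    obtain ⟨x, hx, hp⟩ := List.mem_flatMap.1 hp
    obtain ⟨j, hj⟩ := List.getElem?_of_mem hx
    obtain ⟨m, rfl⟩ : ∃ m, E m = x :=
      ⟨⟨j, (List.getElem?_eq_some_iff.1 hj).1⟩, Option.some.inj ((hE _).symm.trans hj)⟩
    obtain ⟨f, hf, c1, c2⟩ := (hT _).p2 p hp
    have l := hΛ _ f hf
    simp only [k1 real hr _ f hf] at l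
    rw [uq _ f hf _ c1 c2, c1, c2, show tot real (whole bb) ∩ π.k f = tot real (whole bb) ∩ π.H f
      from Subset.antisymm (inter_subset_inter_right _ (hπ.kd f).d.rim_sub)
        fun z hz => ⟨hz.1, l.2.1 hz⟩]
    exact l
  · rw [← iX, ← is]
    refine (C.Dumb.mv (hd Λ up) hH hB.rim_sub (fx.mono (iUnion₂_subset fun f hf =>
      sdiff_subset.trans (pd f hf)))).mono (iUnion₂_subset fun f hf z hz => ?_)
    obtain ⟨p, hp, c1, c2⟩ := ht.p1 f hf
    rw [hR.orL]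
    exact ⟨_, List.mem_map.2 ⟨p.w, (e2.1.2 p hp).1, rfl⟩, by rwa [hR.df, c1, c2]⟩
  · have o1 := (e5 _ (hx ⟨j, e3 j hj⟩)).1.1
    obtain ⟨rfl, rfl⟩ := Prod.mk.inj (Option.some.inj ((nd ⟨j, e3 j hj⟩).symm.trans c))
    rw [cb_lam (hT _) o1 (uq _), (hT _).b, (hT _).s, (X _).2.1 real hr]
    simp only [owns, Bool.and_eq_true] at o1
    exact ⟨o1.1.1, hS _⟩

end Pool.Agent.Lib.MP_b7d179_gt.L
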