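import Pool.Agent.Lib.MP_b7d179_gt.L.CoreB
import Pool.Agent.Lib.MP_b7d179_gt.C.Enter
import Pool.Agent.Lib.MP_b7d179_gt.C.Init

/-! Certified steps. -/

namespace Pool.Agent.Lib.MP_b7d179_gt.L

open Set C Gen

theorem coreC_entry {A : Atoms} {pad s : ℕ} {sp : Sp ℕ} {ob : TO} {ts : List TD} {cs : List Car}
    (e : entry A pad s sp ob ts = some cs) :
    ∃ D Y L0 L1, sp = .fa s D Y L0 L1 ∧ sub pad D = true := by
  unfold entry at e
  split at e
  swap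
  · cases e
  rename_i S D Y L0 L1 D' Y' eo
  split_ifs at e with c
  simp only [Bool.and_eq_true, Nat.beq_eq] at c
  exact ⟨D, Y, L0, L1, c.1.1.1.1 ▸ rfl, c.2⟩

theorem coreC_init {A : Atoms} {fr pad ob : ℕ} {ls hs : List ℕ} {x y : PS} {c : Ini}
    (e : initRun A fr pad ob ls hs x c = some y) : sub pad ob = true := by
  obtain ⟨w, -, e⟩ := Option.bind_eq_some_iff.1 e
  obtain ⟨ob', -, e⟩ := Option.bind_eq_some_iff.1 e
  obtain ⟨cs, -, e⟩ := Option.bind_eq_some_iff.1 e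
  split_ifs at e with k
  simp only [Bool.and_eq_true] at k
  exact k.1.1.1.1

variable {Z : Type} [MetricSpace Z] {ι φ : Type}

variable [Finite ι] {σ : Tw Z} {real : Set ι} {rel : ι → ι → ι → Prop} {grp : ι → Bool}
  {a : ι → Set Z}

theorem top_dumb {π : Po Z φ} {R : ℕ → Set Z} {o : Ob Z φ} {t : TO'} {fr : ℕ} {ls : List ℕ}
    {κ : Type} {k : κ → Ob Z φ} (hπ : π.Ok σ.K) (hR : Rl R) (ht : IsT π R t o) (hk : Kid π o k)
    (e : topOk fr t ls = true) (hf : Disjoint (R fr) σ.K) {Y : Set Z} (hp : ∀ f ∈ o.P, π.H f ⊆ Y)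
    (ha : ∀ i, a i = ∅ ∨ ∃ p q, Arc (a i) p q ∧ a i ⊆ o.S ∧ a i ∩ Y = {p, q} ∧ p ∈ R (orL ls) ∧
      q ∈ R (orL ls)) (dj : Pairwise (Function.onFun Disjoint a)) (Λ : φ → Set Z)
    (hΛ : LolP σ π o (tot real a) Λ) :
    Dumb σ.K o.S (⋃ f ∈ o.P, π.H f \ π.k f) (tot real a ∪ ⋃ f ∈ o.P, Λ f) := by
  simp only [topOk, Bool.and_eq_true, List.all_eq_true] at e
  obtain ⟨⟨e1, e2⟩, e3, e4⟩ := e
  have rim : ∀ z ∈ R (orL ls), z ∈ ⋃ f ∈ o.P, π.k f := fun z hz => by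
    obtain ⟨_, m, hz⟩ := (hR.orL _).le (hR.sub e2 hz)
    obtain ⟨_, m1, rfl⟩ := List.mem_map.1 m
    obtain ⟨p, m2, rfl⟩ := List.mem_map.1 m1
    obtain ⟨f, n, -, c⟩ := ht.p2 p m2
    exact mem_iUnion₂.2 ⟨f, n, c ▸ hz⟩
  have kH : (⋃ f ∈ o.P, π.k f) ⊆ ⋃ f ∈ o.P, π.H f := iUnion₂_mono fun f _ => (hπ.kd f).d.rim_sub
  refine dumb_arcs ht.fin (fun f n => ?_) (fun f n f' n' ne => ?_) (fun i _ => ?_) dj
    (fun f _ => (hπ.kd f).d.rim_sub) fun f n => ?_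
  · obtain ⟨p, m, c, -⟩ := ht.p1 f n
    rw [← c, ← ht.s]
    exact hR.sub (e3 _ (List.mem_map_of_mem m)).1
  · obtain ⟨p, m, c, -⟩ := ht.p1 f n
    obtain ⟨p', m', c', -⟩ := ht.p1 f' n'
    by_cases u : p = p'
    · obtain ⟨j, r⟩ := hk.onto f n
      obtain ⟨j', r'⟩ := hk.onto f' n'
      obtain ⟨x, hx⟩ := hπ.inner f
      exact (disjoint_left.1 (hk.geo.dj r r' ne) hx ((c.symm.trans (u ▸ c')).le hx.1)).elim
    · have d : (t.p.Pairwise fun p q => Disjoint (R p.h) (R q.h)) :=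
        (Geo.kid_pairs e1).imp fun d => hR.dis d
      have := @List.Pairwise.forall _ (fun p q : TP => Disjoint (R p.h) (R q.h)) _
        ⟨fun _ _ d => d.symm⟩ d _ m _ m' u
      exact disjoint_left.2 fun z a b => disjoint_left.1 this (c.ge a) (c'.ge b)
  · refine (ha i).imp_right fun ⟨p, q, r0, r1, r2, r3, r4⟩ => ⟨p, q, r0, r1, ?_, rim p r3, rim q r4, ?_⟩
    · refine Subset.antisymm (fun z hz => r2.le ⟨hz.1, iUnion₂_subset hp hz.2⟩) ?_
      exact insert_subset ⟨r0.left, kH (rim p r3)⟩ (singleton_subset_iff.2 ⟨r0.right, kH (rim q r4)⟩)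
    · refine disjoint_left.2 fun z hz zK => ?_
      by_cases c : z ∈ R (orL ((t.p.map TP.w).map Prod.fst))
      · obtain ⟨_, m, c⟩ := (hR.orL _).le c
        obtain ⟨_, m1, rfl⟩ := List.mem_map.1 m
        obtain ⟨x, m2, rfl⟩ := List.mem_map.1 m1
        obtain ⟨f, n, c', -⟩ := ht.p2 x m2
        have : z ∈ ⋃ f ∈ o.P, π.k f := by
          rcases r2.le ⟨hz, hp f n (c'.le c)⟩ with v | v
          · exact v ▸ rim p r3
          · exact (v : z = q) ▸ rim q r4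
        obtain ⟨f', -, v⟩ := mem_iUnion₂.1 this
        exact disjoint_left.1 (hπ.kd f').c v zK
      · exact disjoint_left.1 hf (hR.sub e4 ((hR.df _ _).ge ⟨ht.s.ge (r1 hz), c⟩)) zK
  · have l := hΛ f n
    have : tot real a ∩ π.k f = tot real a ∩ π.H f :=
      Subset.antisymm (inter_subset_inter_right _ (hπ.kd f).d.rim_sub) fun z hz => ⟨hz.1, l.2.1 hz⟩
    rwa [this]

variable {Γ : Geo Z}

theorem step_cert (ok : σ.Ok0) (hK : σ.K = Γ.K) {md : Md} {x : Cert} (e : certOk md x = true)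
    (g : Γ.Fl) (h : (Γ.sh g md).St rel grp a) :
    ∃ a' : Fin md.kids.length → ι → Set Z, Kid Γ.po (Γ.ob g md.gk.ao) (Γ.kob g md.kids) ∧
      Step σ Γ.po real (Γ.ob g md.gk.ao) a (Γ.kob g md.kids) a' ∧
      ∀ m, (Γ.sh (g * Γ.ev md.kids[m].1) md.kids[m].2.1).St rel
        (fun i => xor md.kids[m].2.2 (grp i)) (a' m) := by
  unfold certOk at e
  split at e
  swap
  · cases e
  rename_i X e1
  split at e
  swap
  · cases e
  rename_i y e2
  obtain ⟨R, o⟩ := ctx_ok (Γ := Γ) e1 g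
  obtain ⟨sp, e3, e2⟩ := Option.bind_eq_some_iff.1 e2
  obtain ⟨cs, e4, e2⟩ := Option.bind_eq_some_iff.1 e2
  split_ifs at e2 with c
  simp only [Bool.and_eq_true] at c
  obtain ⟨⟨c1, c2⟩, c3⟩ := c
  have hπ : Γ.po.Ok σ.K := hK ▸ Γ.po_ok
  have hA := o.at'.ok
  have hR := hA.rl
  have hf : Disjoint (R X.fr) σ.K := hK ▸ o.fr
  have hB := o.ch.ball o.nd
  have hs : sp.St R rel grp a := (sp_St o.at' e3).2 (by rwa [Geo.ev, mul_one])
  have hc : Disjoint (closure (R X.o.s \ R X.pad)) σ.K :=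
    clear_pads hR hB.sph hf (fun w m => by
      obtain ⟨x, m1, rfl⟩ := List.mem_map.1 m
      obtain ⟨f, -, c, c'⟩ := o.top.p2 x m1
      rw [c, c']
      exact (hπ.kd f).d) ((Bool.and_eq_true _ _).mp c1).2
  obtain ⟨bb, H, a0, a1, a2, a3, a4, a5, a6⟩ :=
    enter_run (𝒞 := CC real) hA o.nd o.ch ok.kcl hf hc e4 c2 c3 e2 hs
  obtain ⟨D, Y, L0, L1, rfl, c4⟩ := coreC_entry e4
  have hs' : Fam (R X.o.s) (R D ∪ R Y) (fun g => setsA R (cond g L1 L0)) rel grp a := hs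
  rw [o.top.s] at hs'
  rw [o.top.b] at a2 a3 hB
  rw [o.top.s] at a4 hB
  obtain ⟨a', s1, s2⟩ := core_step ok hπ hA o.geo o.len o.top
    (fun m => (o.kid m).imp fun _ u => ⟨u.1, u.2.1⟩) hf o.nd hB a0 o.pad a1 e a2 a3 a4 a5
    (fun i => (hs'.arc i).elim (fun u => u ▸ empty_subset _) fun ⟨_, _, z⟩ => z.2.1) a6
    (top_dumb hπ hR o.top o.geo c1 hf (Y := R D ∪ R Y)
      (fun f n z hz => Or.inl (hR.sub c4 (o.pad.ge (mem_iUnion₂.2 ⟨f, n, hz⟩))))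
      (fun i => (hs'.arc i).imp_right fun ⟨p, q, r0, r1, r2, r3⟩ => by
        obtain ⟨L, m, L', m', -, u, v⟩ := enter_lands r3
        have w : ∀ L ∈ cond (grp i) L1 L0, L ∈ L0 ++ L1 := fun L m => by
          revert m
          cases grp i
          exacts [List.mem_append_left _, List.mem_append_right _]
        exact ⟨p, q, r0, r1, r2, enter_orL hR (w L m) u, enter_orL hR (w L' m') v⟩) hs'.dj)
  refine ⟨a', o.geo, s1, fun m => ?_⟩
  obtain ⟨u, u1, -, u2, u3⟩ := o.kid m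
  exact (sp_St o.at' u3).1 (u2 ▸ s2 m u u1)

theorem init_cert (ok : σ.Ok0) (hK : σ.K = Γ.K) {k : Gk} {x : ICert} (e : icertOk k x = true)
    (g : Γ.Fl) {p q : ι → Z} (h : Raw (Γ.Rg g k.S) (Γ.RL g k.iOb) (setsA (Γ.RL g) k.iLs)
      (setsA (Γ.RL g) k.iHs) a p q) :
    ∃ (ρ : Type) (_ : Finite ρ) (grp : Fin k.ikids.length → ρ → Bool)
      (a' : Fin k.ikids.length → ρ → Set Z), Kid Γ.po (Γ.ob g k.ao) (Γ.kob g k.ikids) ∧
      Tr Γ.po (Γ.ob g k.ao) (tot univ a) (Γ.kob g k.ikids) (fun m => tot univ (a' m)) ∧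
      Lift σ Γ.po (Γ.ob g k.ao) (tot univ a) (Γ.kob g k.ikids) (fun m => tot univ (a' m)) ∧
      ∀ m, (Γ.sh (g * Γ.ev k.ikids[m].1) k.ikids[m].2.1).St (fun _ _ _ => False) (grp m) (a' m) := by
  unfold icertOk at e
  split at e
  swap
  · cases e
  rename_i X e1
  split at e
  swap
  · cases e
  rename_i ob ls hs t1 t2 t3
  obtain ⟨c1, e⟩ := (Bool.and_eq_true _ _).mp e
  split at e
  swap
  · cases e
  rename_i z e2
  obtain ⟨y, e3, e4⟩ := Option.bind_eq_some_iff.1 e2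
  obtain ⟨R, o⟩ := ctx_ok (Γ := Γ) e1 g
  have hπ : Γ.po.Ok σ.K := hK ▸ Γ.po_ok
  have hA := o.at'.ok
  have hR := hA.rl
  have hf : Disjoint (R X.fr) σ.K := hK ▸ o.fr
  have hB := o.ch.ball o.nd
  have h' : Raw (R X.o.s) (R ob) (sets R ls) (sets R hs) a p q := by
    rw [o.top.s, o.at'.tauL t1, show sets R ls = _ from setsA_tr (fun _ _ => o.at'.tauL) t2,
      show sets R hs = _ from setsA_tr (fun _ _ => o.at'.tauL) t3]
    exact h
  obtain ⟨ρ, fin, bb, H, a0, a1, a2, a3, a4, a5, a6⟩ :=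
    init_run (x := ⟨X.l, X.o.b, X.o.s, []⟩) hA o.nd ok.kcl hf o.ch e3 e4 h'
  have c4 := coreC_init e3
  rw [o.top.s] at h'
  dsimp only at a2 a3 a4
  rw [o.top.b] at a2 a3 hB
  rw [o.top.s] at a4 hB
  have cc : CC (univ : Set ρ) = {univ} := by simp [CC]
  have tt : tot univ (fun i => tot univ a ∩ H ⁻¹' whole bb i) = tot univ a := by
    refine Subset.antisymm (iUnion₂_subset fun _ _ => inter_subset_left) fun z hz => ?_
    obtain ⟨i, m, u⟩ := mem_iUnion₂.1 (a6.le ⟨z, hz, rfl⟩)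
    exact mem_iUnion₂.2 ⟨i, m, hz, u⟩
  obtain ⟨a', s1, s2⟩ := core_step (a := fun i => tot univ a ∩ H ⁻¹' whole bb i) (real := univ)
    ok hπ hA o.geo o.len o.top (fun m => (o.kid m).imp fun _ u => ⟨u.1, u.2.1⟩) hf o.nd hB a0 o.pad
    (cc.symm ▸ a1) e a2 a3 a4 a5
    (fun i => inter_subset_left.trans (iUnion₂_subset fun j m => h'.arcs.sub j m))
    (fun i => by
      rw [image_inter_preimage, a6]
      exact inter_eq_right.2 fun z hz => mem_iUnion₂.2 ⟨i, trivial, hz⟩)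
    (by
      rw [tt]
      refine top_dumb hπ hR o.top o.geo c1 hf (Y := R ob)
        (fun f n z hz => hR.sub c4 (o.pad.ge (mem_iUnion₂.2 ⟨f, n, hz⟩))) (fun i => Or.inr ?_)
        fun i j ne => h'.arcs.disj trivial trivial ne
      obtain ⟨⟨_, ⟨L, m, rfl⟩, u⟩, _, ⟨L', m', rfl⟩, v⟩ := h'.land i
      exact ⟨p i, q i, h'.arcs.arc i trivial, h'.arcs.sub i trivial, h'.arcs.inter i trivial,
        enter_orL hR m u, enter_orL hR m' v⟩)
  refine ⟨ρ, fin, fun m _ => xor k.ikids[m].2.2 false, a', o.geo,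
    tt ▸ s1.tr univ (mem_insert _ _), tt ▸ s1.sol, fun m => ?_⟩
  obtain ⟨u, u1, -, u2, u3⟩ := o.kid m
  have := s2 m u u1
  rw [u2] at this
  exact (sp_St o.at' u3).1 this

end Pool.Agent.Lib.MP_b7d179_gt.L
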