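import Pool.Agent.Lib.MP_b7d179_gt.L.MachD
import Pool.Agent.Lib.MP_b7d179_gt.L.CoreA
import Pool.Agent.Lib.MP_b7d179_gt.C.Enter
import Pool.Agent.Lib.MP_b7d179_gt.C.Shell
import Pool.Agent.Lib.MP_b7d179_gt.U.SolB

/-! The lane under one arc of a lens. -/

namespace Pool.Agent.Lib.MP_b7d179_gt.L

open Set C Gen

/-- ball and rim of the kids -/
def lpK (k : Gk) : Option (List (ℕ × ℕ)) :=
  mapO (fun x : Wd × Gk => (actW x.1 x.2.B).bind fun b => (actW x.1 x.2.S).map fun r => (b, r))
    (gkids k)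
def lpN (l : List (ℕ × ℕ)) (n : ℕ) : Option (ℕ × ℕ) :=
  if n < l.length then l[n]? else vx.a3 (n - l.length)
/-- faces that meet `K` -/
def lpH : List ℕ := [36, 37].flatMap fun t => [0, 1, 2].flatMap fun a => [0, 1, 2].map (fc t a)
/-- a checked chain of kids and empty cells -/
def lpC (l : List (ℕ × ℕ)) (c : ℕ × List (ℕ × TD)) : Option (ℕ × ℕ) :=
  (shell vx (lpN l) c.1 c.2).bind fun r =>
    if gOk free lpH r.1 && (full free c.1 r.1).all (· < l.length) then some r.2 else none
def lpP : List (ℕ × ℕ) :=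
  [(fc 36 1 0, kap 1 0), (fc 36 2 0, kap 2 0), (fc 37 0 1, kap 0 1), (fc 37 0 2, kap 0 2)]

structure LP where
  ob : TO
  ts : List TD
  l : ℕ × List (ℕ × TD)
  r : ℕ × List (ℕ × TD)
  t : TD
  d : TD
  h : ℕ

def lpOk (a b : Bool) (x : LP) : Bool :=
  match lpK .lens, c0.sp [] (.xq a b .PAR) with
  | some l, some sp =>
    match entry vx (orL (lpP.map Prod.fst)) Gk.lens.S sp x.ob x.ts, lpC l x.l, lpC l x.r, vx.evD x.t,
      vx.evD x.d, lpH[x.h]? with
    | some [⟨q, _, [L, L'], false⟩, ⟨_, _, _, true⟩], some (bl, sl), some (br, sr), some (t, c),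
        some (d, c'), some h =>
      Nat.beq c' c && (Nat.beq sl (Nat.lor t d) && Nat.beq sr (Nat.lor (df Gk.lens.S t) d) &&
        Nat.beq (Nat.land bl Gk.lens.S) t && Nat.beq (Nat.land bl br) d &&
        Nat.beq (Nat.land d Gk.lens.S) c && Nat.beq x1 (Nat.lor br bl) && sub c free && sub h d) &&
        sub q t && sub (fc 36 (sd a) 0) t && sub (padM b) t &&
        sub (df t (Nat.lor (fc 36 (sd a) 0) (padM b))) free && sub L (fc 36 (sd a) 0) &&
        sub L' (padM b)
    | _, _, _, _, _, _ => false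
  | _, _ => false

def lpD : Bool → Bool → LP
  | true, true =>
    ⟨((87, []), [([156], (137, [])), ([256, 2, 6, 659], (336, [])), ([359], (186, []))]), [(31,
    [(32, [56]), (39, [48]), (33, [30]), (34, [39, 35, 58]), (41, [18, 22, 26, 52])]), (42, [(131,
    [47, 43]), (334, [655])])], (0, [(4, (236, [])), (2, (237, [])), (51, (83, [(84, [158]), (190,
    [406, 410, 414])])), (52, (30, [(92, [154]), (181, [447, 443]), (182, [350, 403, 357])]))]),
    (1, [(6, (386, [])), (7, (436, [])), (3, (437, [])), (5, (287, [])), (201, (283, [(284, [558]),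
    (340, [806, 810, 814])])), (102, (142, [(230, [554]), (381, [847, 843]), (382, [750, 803,
    757])])), (351, (339, [(380, [748]), (433, [830]), (434, [855, 839, 835, 858])])), (152, (141,
    [(280, [552]), (430, [853]), (431, [849, 827]), (432, [857, 823, 819, 850])]))]), (31, [(32,
    [56]), (39, [48]), (33, [30]), (34, [39, 35, 58]), (41, [18, 22, 26, 52]), (87, [103, 147, 143,
    139, 135, 131]), (186, [306, 310, 314, 318, 322, 326])]), (80, [(91, [152]), (134, [254]),
    (133, [258]), (130, [252]), (231, [426]), (189, [448]), (180, [348]), (232, [457, 423, 419,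
    450]), (233, [431, 452]), (234, [455, 439, 435, 458]), (281, [549]), (286, [515, 511, 507, 503,
    547, 543, 539, 535, 531, 527]), (282, [557, 523, 519, 550]), (332, [650]), (331, [656]), (330,
    [648]), (383, [753]), (387, [731, 727, 723, 719, 715, 711, 707, 703, 747, 743]), (384, [755,
    739, 735, 758])]), 5⟩
  | true, false =>
    ⟨((87, []), [([156], (137, [])), ([57, 23, 19, 15, 11, 659], (336, [])), ([359], (186, []))]),
    [(33, [(34, [58]), (39, [30, 34, 38]), (42, [54]), (131, [47, 43, 249]), (132, [3, 257])]),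
    (32, [(40, [50]), (334, [6])])], (0, [(5, (286, [])), (3, (287, [])), (51, (133, [(134, [258]),
    (190, [506, 510, 514])])), (152, (130, [(141, [252]), (281, [526]), (282, [557, 523, 519,
    550])]))]), (2, [(4, (237, [])), (6, (387, [])), (1, (386, [])), (7, (436, [])), (52, (92,
    [(331, [747, 743]), (332, [656, 702])])), (201, (180, [(234, [454]), (233, [458]), (340, [650,
    706, 710, 714])])), (102, (91, [(230, [452]), (381, [726]), (382, [757, 723, 719, 750])])),
    (351, (330, [(339, [648]), (380, [748]), (383, [753, 730]), (384, [755, 739, 735, 758])]))]),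
    (33, [(34, [58]), (39, [30, 34, 38]), (42, [54]), (131, [47, 43, 249]), (132, [3, 257]), (137,
    [218, 222, 226, 230, 234, 238]), (186, [315, 311, 307, 303, 347, 343])]), (30, [(84, [154]),
    (83, [158]), (80, [152]), (142, [254]), (182, [350]), (181, [356]), (231, [547, 543]), (232,
    [450, 503, 457]), (236, [427, 423, 419, 415, 411, 407, 403, 447, 443]), (189, [348, 439, 435,
    431, 448]), (280, [549]), (283, [531, 552]), (284, [555, 539, 535, 558]), (432, [851]), (431,
    [857]), (430, [849]), (433, [853]), (437, [831, 827, 823, 819, 815, 811, 807, 803, 847, 843]),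
    (434, [855, 839, 835, 858])]), 4⟩
  | false, true =>
    ⟨((87, []), [([156], (137, [])), ([256, 47, 43, 39, 35, 58], (186, [])), ([358], (336, []))]),
    [(31, [(32, [56]), (40, [50]), (41, [18, 22, 26]), (333, [10, 14, 653]), (334, [6, 659])]),
    (33, [(39, [30]), (131, [249])])], (1, [(6, (386, [])), (2, (387, [])), (351, (339, [(383,
    [730]), (384, [759, 734, 738])])), (52, (92, [(330, [755]), (331, [648, 742, 746]), (332, [656,
    702])]))]), (0, [(4, (236, [])), (5, (286, [])), (3, (287, [])), (7, (437, [])), (51, (133,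
    [(134, [258]), (190, [506, 510, 514])])), (201, (189, [(283, [530]), (284, [539, 535, 558])])),
    (102, (80, [(142, [254]), (230, [554]), (231, [448, 542, 546]), (232, [450, 503, 457])])),
    (152, (130, [(141, [252]), (280, [552]), (281, [549, 527]), (282, [557, 523, 519, 550])]))]),
    (31, [(32, [56]), (40, [50]), (41, [18, 22, 26]), (87, [115, 111, 107, 103, 147, 143]), (333,
    [10, 14, 653]), (334, [6, 659]), (336, [618, 622, 626, 630, 634, 638])]), (30, [(84, [154]),
    (83, [158]), (91, [152]), (182, [350]), (181, [356]), (180, [348]), (233, [452]), (237, [431,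
    427, 423, 419, 415, 411, 407, 403, 447, 443]), (234, [455, 439, 435, 458]), (340, [650, 706,
    710, 714]), (380, [753]), (381, [726, 748]), (382, [757, 723, 719, 750]), (432, [851]), (431,
    [857]), (430, [849]), (433, [853]), (436, [831, 827, 823, 819, 815, 811, 807, 803, 847, 843]),
    (434, [855, 839, 835, 858])]), 8⟩
  | false, false =>
    ⟨((87, []), [([57, 26, 30, 58], (186, [])), ([156], (137, [])), ([358], (336, []))]), [(40,
    [(132, [251]), (42, [2]), (131, [42, 46, 257]), (333, [10, 14]), (334, [658, 7, 655])]), (32,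
    [(41, [18, 22]), (33, [52])])], (1, [(7, (436, [])), (3, (437, [])), (351, (339, [(433, [830]),
    (434, [859, 834, 838])])), (152, (141, [(430, [853]), (431, [849, 827]), (432, [857, 823,
    819])]))]), (0, [(4, (236, [])), (2, (237, [])), (5, (286, [])), (6, (387, [])), (51, (83,
    [(84, [158]), (190, [406, 410, 414])])), (52, (30, [(92, [154]), (181, [447, 443]), (182, [350,
    403, 357])])), (201, (180, [(189, [348]), (233, [430]), (234, [455, 439, 435, 458])])), (102,
    (80, [(91, [152]), (230, [452]), (231, [426, 448]), (232, [457, 423, 419, 450])]))]), (40,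
    [(132, [251]), (42, [2]), (131, [42, 46, 257]), (137, [206, 210, 214, 218, 222, 226]), (333,
    [10, 14]), (334, [658, 7, 655]), (336, [603, 647, 643, 639, 635, 631])]), (130, [(133, [252]),
    (134, [258]), (142, [254]), (282, [551]), (281, [557]), (280, [549]), (283, [552]), (287, [531,
    527, 523, 519, 515, 511, 507, 503, 547, 543]), (284, [555, 539, 535, 558]), (340, [851, 815,
    811, 807]), (332, [650]), (331, [656]), (330, [648]), (380, [855]), (381, [748, 842, 846]),
    (382, [750, 803, 757]), (383, [753]), (386, [731, 727, 723, 719, 715, 711, 707, 703, 747,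
    743]), (384, [755, 739, 735, 758])]), 7⟩

theorem lpD_ok : ∀ a b, lpOk a b (lpD a b) = true := by decide +kernel

variable {Z : Type} [MetricSpace Z] {Γ : Geo Z} {σ : Tw Z} {Q : Gk → Γ.Fl → Prop}

theorem lp_hit (g : Γ.Fl) : ∀ m ∈ lpH, (Γ.K ∩ Γ.Rg g m).Nonempty := by
  have d : lpH.all (fun m => ([0, 5].flatMap fun k => [0, 1, 2].flatMap fun a =>
    [0, 1, 2].map fun b => wd a b k).any fun w => actW w (fc 37 0 0) == some m) = true := by
    decide +kernel
  intro m hm
  obtain ⟨w, -, e⟩ := List.any_eq_true.1 (List.all_eq_true.1 d m hm)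
  exact Γ.Rg_hit g (beq_iff_eq.1 e)

theorem lp_chain (ok : σ.Ok0) (hK : σ.K = Γ.K) (hQ : Γ.Reach σ Q) {k : Gk} {g : Γ.Fl} (hg : Q k g)
    {l : List (ℕ × ℕ)} (hl : lpK k = some l) {c : ℕ × List (ℕ × TD)} {b r : ℕ}
    (e : lpC l c = some (b, r)) : G σ (Γ.Rg g b) (Γ.Rg g r) := by
  have kid : ∀ n w sw, n < l.length → lpN l n = some (w, sw) → G σ (Γ.Rg g w) (Γ.Rg g sw) := by
    intro n w sw hn e
    rw [lpN, if_pos hn] at e
    obtain ⟨x, hx, e⟩ := (mapO_mem hl).2.1 _ (List.mem_of_getElem? e)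
    obtain ⟨b, e1, e⟩ := Option.bind_eq_some_iff.1 e
    obtain ⟨r, e2, e⟩ := Option.map_eq_some_iff.1 e
    cases e
    rw [← Γ.actW_ok g e1, ← Γ.actW_ok g e2]
    exact hQ.good _ _ (hQ.kid _ _ hg x hx)
  obtain ⟨⟨t, b', r'⟩, e1, e⟩ := Option.bind_eq_some_iff.1 e
  split_ifs at e with k
  cases e
  rw [Bool.and_eq_true, List.all_eq_true] at k
  refine (shell_ok (Γ.Rg_ok g) e1).good (Γ.Rg_rl g) (fun n w sw e => ?_)
    (hK ▸ Γ.Rg_free g (by decide +kernel)) (hK ▸ lp_hit g) k.1
    fun n hn w sw => kid n w sw (of_decide_eq_true (k.2 n hn))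
  by_cases hn : n < l.length
  · exact (kid n w sw hn e).ball ok
  · rw [lpN, if_neg hn] at e
    exact (Γ.Rg_ok g).h3 _ _ _ e

theorem lane_par (ok : σ.Ok0) (hK : σ.K = Γ.K) (hQ : Γ.Reach σ Q) {g : Γ.Fl} (hg : Q .lens g)
    (a b : Bool) {X : Set Z}
    (h : (Γ.sh g (.xq a b .PAR)).St (fun _ _ _ : Unit => False) (fun _ => false) fun _ => X)
    (hn : X.Nonempty) : SolU σ (Γ.Rg g x1) (Γ.Rg g Gk.lens.S)
      (X ∪ Γ.Rg (g * Γ.ev [s]) (padM a) ∪ Γ.Rg g (padM b)) := by
  have e := lpD_ok a b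
  generalize lpD a b = x at e
  unfold lpOk at e
  split at e
  swap
  · cases e
  rename_i l sp e1 e2
  split at e
  swap
  · cases e
  rename_i q c0' L L' q' c1 ls bl sl br sr t c d c' hh e3 e4 e5 e6 e7 e8
  obtain ⟨e, k7⟩ := Bool.and_eq_true_iff.1 e
  obtain ⟨e, k6⟩ := Bool.and_eq_true_iff.1 e
  obtain ⟨e, k5⟩ := Bool.and_eq_true_iff.1 e
  obtain ⟨e, k4⟩ := Bool.and_eq_true_iff.1 e
  obtain ⟨e, k3⟩ := Bool.and_eq_true_iff.1 e
  obtain ⟨e, k2⟩ := Bool.and_eq_true_iff.1 e
  obtain ⟨k0, k1⟩ := Bool.and_eq_true_iff.1 e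
  obtain rfl := Nat.eq_of_beq_eq_true k0
  have A := Γ.Rg_ok g
  have rl := Γ.Rg_rl g
  have hf : Disjoint (Γ.Rg g free) σ.K := hK ▸ Γ.Rg_free g (by decide +kernel)
  have hB := (hQ.good _ _ hg).ball ok
  have dT := A.evD glues e6
  have sol := sol_cert rl (lp_chain ok hK hQ hg e1 e4) (lp_chain ok hK hQ hg e1 e5) dT
    (A.evD glues e7) hf (hK ▸ lp_hit g hh (List.mem_of_getElem? e8)) k1
  have dP : ∀ h ∈ lpP, Disc (Γ.Rg g h.1) (Γ.Rg g h.2) := fun h hh => by
    obtain ⟨n, -, e⟩ := List.any_eq_true.1 (List.all_eq_true.1 (show lpP.all (fun h =>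
      [186, 336, 87, 137].any fun n => vx.a2 n == some h) = true by decide +kernel) h hh)
    exact A.h2 _ _ _ (beq_iff_eq.1 e)
  have h' := (sp_St (Geo.at_c0 g) e2).2 (by rwa [Geo.ev, mul_one])
  obtain ⟨bb, H, cs, mv, ib, is, fx, im⟩ := enter (𝒞 := ∅) A hB ok.kcl
    (clear_pads rl hB.sph hf dP (by decide +kernel)) e3 h'
  have st : ∀ a b, actW [s] (padM a) = some (fc 36 (sd a) 0) ∧ (fc 36 (sd a) 0, kap (sd a) 0) ∈ lpP ∧
      (padM b, kap 0 (sd b)) ∈ lpP ∧
      sub (Nat.lor (fc 36 (sd a) 0) (padM b)) (orL (lpP.map Prod.fst)) = true ∧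
      sub (Nat.lor (fc 36 (sd a) 0) (padM b)) Gk.lens.S = true := by decide +kernel
  obtain ⟨s1, s2, s3, s4, s5⟩ := st a b
  rw [Γ.actW_ok g s1, union_assoc, ← rl.or]
  have e0 : H '' X = bb 0 () := by
    rw [im ()]
    refine subset_antisymm (iUnion_subset fun n => ?_) (subset_iUnion (fun n => bb n ()) 0)
    match n with
    | 0 => exact Subset.rfl
    | 1 => exact ((cs.cc 1 _ rfl ()).resolve_right fun k => by cases k.1).le.trans (empty_subset _)
    | n + 2 => exact (cs.nil _ _ (by simp)).le.trans (empty_subset _)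
  obtain ⟨-, y, z, cc, M, hM, M', hM', ne, hy, hz⟩ := (cs.cc 0 _ rfl ()).resolve_left
    (e0 ▸ (hn.image H).ne_empty)
  have xs : X ⊆ Γ.Rg g Gk.lens.S := by
    have : H '' X ⊆ H '' Γ.Rg g Gk.lens.S := by
      rw [e0, is]
      exact cc.sub.trans ((rl.sub k2).trans (sol.facts.2.2 _ rfl).2.1)
    rcases (show Fam _ _ _ _ _ _ from h).arc () with k | ⟨p, q, -, k, -⟩
    · exact k.le.trans (empty_subset _)
    · rintro x hx
      obtain ⟨_, hm, k⟩ := k hx
      obtain rfl := List.mem_singleton.1 hm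
      simpa only [Geo.Ra, Geo.ev, mul_one] using k
  refine (SolU.mv ok hB (union_subset xs (rl.sub s5)) mv).2 ?_
  rw [ib, is, image_union, e0, (fx.mono (rl.sub s4)).image_eq, image_id]
  have sub' : bb 0 () ∪ Γ.Rg g (Nat.lor (fc 36 (sd a) 0) (padM b)) ⊆ Γ.Rg g t :=
    union_subset (cc.sub.trans (rl.sub k2)) (rl.or _ _ ▸ union_subset (rl.sub k3) (rl.sub k4))
  refine sol.spine ok (by rwa [biUnion_singleton]) ?_
  rintro _ rfl
  refine ⟨?_, fun x hx => .inr (by_contra fun n => disjoint_left.1 hf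
    (rl.sub k5 (rl.df _ _ ▸ ⟨hx.2, n⟩)) hx.1)⟩
  have m : (bb 0 () ∩ Γ.Rg g (fc 36 (sd a) 0)).Nonempty ∧ (bb 0 () ∩ Γ.Rg g (padM b)).Nonempty := by
    simp only [List.mem_cons, List.not_mem_nil, or_false] at hM hM'
    rcases hM with rfl | rfl <;> rcases hM' with rfl | rfl
    · exact (ne rfl).elim
    · exact ⟨⟨y, cc.arc.left, rl.sub k6 hy⟩, z, cc.arc.right, rl.sub k7 hz⟩
    · exact ⟨⟨z, cc.arc.right, rl.sub k6 hz⟩, y, cc.arc.left, rl.sub k7 hy⟩
    · exact (ne rfl).elim
  rw [inter_eq_left.2 sub', rl.or, union_union_distrib_left]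
  exact ⟨⟨y, .inl (.inl cc.arc.left)⟩, (cc.arc.conn.union' m.1 (dP _ s2).conn).union y
    (.inl cc.arc.left) (.inl cc.arc.left) (cc.arc.conn.union' m.2 (dP _ s3).conn)⟩

end Pool.Agent.Lib.MP_b7d179_gt.L
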