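import Pool.Agent.Lib.MP_b7d179_gt.L.Post
import Pool.Agent.Lib.MP_b7d179_gt.L.LaneP

/-! The lanes of the leaves, from the lanes under one arc. -/

namespace Pool.Agent.Lib.MP_b7d179_gt.L

open Set C Gen

variable {Z : Type} [MetricSpace Z] {Γ : Geo Z} {σ : Tw Z} {Q : Gk → Γ.Fl → Prop} {g : Γ.Fl}
  {A : Set Z} {α : Γ.Ft → Z → Set Z} {q : Γ.Ft → Z → Z}

omit [MetricSpace Z] in
theorem tot_unit (A : Set Z) : tot univ (fun _ : Unit => A) = A := by simp [tot, iUnion_const]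

theorem lane_nil (hQ : Γ.Reach σ Q) {md : Md} (hg : Q md.gk g) :
    SolU σ (Γ.ob g md.ao).B (Γ.ob g md.ao).S (ext Γ.po (Γ.ob g md.ao).P α ∅ ∪
      ⋃ f ∈ {f ∈ (Γ.ob g md.ao).P | (∅ ∩ Γ.po.H f).Nonempty}, Γ.po.H (Γ.po.pd f (Γ.po.t f))) := by
  simp only [ext_empty, empty_inter, Set.not_nonempty_empty, and_false, ofPred_false,
    mem_empty_iff_false, iUnion_of_empty, iUnion_empty, union_empty]
  exact solU_empty.2 (hQ.good _ _ hg)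

theorem laneX (hc : Certs) (ok : σ.Ok0) (hK : σ.K = Γ.K) (hQ : Γ.Reach σ Q) {a b : Bool}
    (hg : Q (.lx a b) g)
    (h : (Γ.sh g (.xp a b false)).St (fun _ _ _ : Unit => False) (fun _ => false) fun _ => A)
    (hα : AcP Γ.po (Γ.ob g (Md.xp a b false).ao) (fun _ => none) A α q) :
    SolU σ (Γ.ob g (Md.xp a b false).ao).B (Γ.ob g (Md.xp a b false).ao).S
      (ext Γ.po (Γ.ob g (Md.xp a b false).ao).P α A ∪
        ⋃ f ∈ {f ∈ (Γ.ob g (Md.xp a b false).ao).P | (A ∩ Γ.po.H f).Nonempty},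
          Γ.po.H (Γ.po.pd f (Γ.po.t f))) := by
  rcases A.eq_empty_or_nonempty with rfl | ⟨e, he⟩
  · exact lane_nil hQ (md := .xp a b false) hg
  have G := Γ.xg g hc a b false
  have hw : ∀ x ∈ A, ∀ j, x ∈ Γ.po.H (Γ.pt g (xF a b j)) := fun x hx j => by
    rcases (show FamP _ _ _ _ from h).pt () with n | ⟨y, hy, n⟩ <;> rw [show A = _ from n] at hx
    exacts [hx.elim, G.wh Γ.po_ok j ((Γ.xKo_eq g a b).le ((hx : x = y) ▸ hy)).1]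
  have F := Γ.x_fam g (m := .PAR) (by simp) rfl (fam_rel (rel := fun _ _ _ => False)
    (G.core (L1 := fun b => setsA (Γ.RL g) (cond b _ _)) (grp' := fun _ => false) Γ.po_ok h
      (fun _ _ _ => False.elim) (fun x => ?_) ((tot_unit A).symm ▸ hα) fun _ x hx _ =>
      (Γ.x_lo g a b false).lands (Γ.x_lo g a b true) (fun z hz => (G.hh hz).1)
        ((hα _ ((G.P _).2 ⟨false, rfl⟩)).no rfl x ⟨hx, hw x hx _⟩)
        ((hα _ ((G.P _).2 ⟨true, rfl⟩)).no rfl x ⟨hx, hw x hx _⟩)) fun _ _ _ => False.elim)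
  swap
  · cases x
    · exact ⟨(Γ.xKo_eq g a b).le, (Γ.xKo_eq g a b).symm ▸ (G.ins false).arc.conn_open⟩
    · exact ⟨(Γ.RL_nil g).le.trans (empty_subset _), (Γ.RL_nil g).symm ▸ isPreconnected_empty⟩
  have k := lane_par ok hK hQ (hQ.nx _ _ hg) a b F ⟨e, .inl he⟩
  have hB : (Γ.ob g (Md.xp a b false).ao).B = Γ.Rg g x1 :=
    congrArg (Γ.Rg g) (by clear * -; revert a b; decide +kernel : (Md.xp a b false).ao.B = x1)
  have hS : (Γ.ob g (Md.xp a b false).ao).S = Γ.Rg g Gk.lens.S :=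
    congrArg (Γ.Rg g) (by clear * -; revert a b; decide +kernel : (Md.xp a b false).ao.S = Gk.lens.S)
  have hP : ⋃ f ∈ {f ∈ (Γ.ob g (Md.xp a b false).ao).P | (A ∩ Γ.po.H f).Nonempty},
      Γ.po.H (Γ.po.pd f (Γ.po.t f)) = Γ.Rg (g * Γ.ev [s]) (padM a) ∪ Γ.Rg g (padM b) := by
    have e0 : {f ∈ (Γ.ob g (Md.xp a b false).ao).P | (A ∩ Γ.po.H f).Nonempty} =
        {Γ.pt g (xF a b false), Γ.pt g (xF a b true)} := Set.ext fun f => by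
      constructor
      · rintro ⟨hf, -⟩
        obtain ⟨_ | _, rfl⟩ := (G.P f).1 hf
        exacts [.inl rfl, .inr rfl]
      · rintro (rfl | rfl) <;> exact ⟨(G.P _).2 ⟨_, rfl⟩, e, he, hw e he _⟩
    rw [e0, biUnion_pair, Γ.pad_H, Γ.pad_H]
    simp only [Geo.pt, xF, cond, Geo.po, Geo.ev, mul_one]
  rwa [hB, hS, hP, ← union_assoc]

variable (Γ σ Q) in
/-- the lane under one arc of a tripod -/
def LaneY : Prop := ∀ (e t : Bool) (g : Γ.Fl), Q (.py e t) g → ∀ i j : Fin 3, i ≠ j →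
  ∀ (X : Set Z) (p q : Z), Arc X p q → X ⊆ Γ.Rg g (yR e) →
    X ∩ (Γ.RL g (yD e t) ∪ Γ.RL g (yY e t)) = {p, q} →
    p ∈ Γ.Rg (g * Γ.ev (fw e t i)) (b0M t) → q ∈ Γ.Rg (g * Γ.ev (fw e t j)) (b0M t) →
    SolU σ (Γ.Rg g (yB e)) (Γ.Rg g (yR e))
      (X ∪ Γ.Rg (g * Γ.ev (fw e t i)) (padM t) ∪ Γ.Rg (g * Γ.ev (fw e t j)) (padM t))

variable (Γ σ Q) in
/-- the same for connected sets in the access discs and the visible disc -/
def LaneY2 : Prop := ∀ (e t : Bool) (g : Γ.Fl), Q (.py e t) g → ∀ i j : Fin 3, i ≠ j →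
  ∀ Y : Set Z, IsConnected Y → Y ⊆ Γ.Rg (g * Γ.ev (fw e t i)) (Nat.lor (oM t) (padM t)) ∪
      Γ.Rg g (visM e t) ∪ Γ.Rg (g * Γ.ev (fw e t j)) (Nat.lor (oM t) (padM t)) →
    Γ.Rg (g * Γ.ev (fw e t i)) (padM t) ∪ Γ.Rg (g * Γ.ev (fw e t j)) (padM t) ⊆ Y →
    SolU σ (Γ.Rg g (yB e)) (Γ.Rg g (yR e)) Y

theorem laneYp (hc : Certs) (hQ : Γ.Reach σ Q) (hy : LaneY Γ σ Q ∨ LaneY2 Γ σ Q) {e t : Bool}
    (hg : Q (.ly e t) g)
    (h : (Γ.sh g (.yp e t none)).St (fun _ _ _ : Unit => False) (fun _ => false) fun _ => A)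
    (hα : AcP Γ.po (Γ.ob g (Md.yp e t none).ao) (fun _ => none) A α q) :
    SolU σ (Γ.ob g (Md.yp e t none).ao).B (Γ.ob g (Md.yp e t none).ao).S
      (ext Γ.po (Γ.ob g (Md.yp e t none).ao).P α A ∪
        ⋃ f ∈ {f ∈ (Γ.ob g (Md.yp e t none).ao).P | (A ∩ Γ.po.H f).Nonempty},
          Γ.po.H (Γ.po.pd f (Γ.po.t f))) := by
  have G := Γ.yg g hc e t none
  obtain ⟨l0, l1, e1, e2⟩ := Γ.y_st g h
  have ap := Γ.y_apart g e t e1
  rcases e2.arc () with rfl | ⟨z, z', cc, l⟩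
  · exact lane_nil hQ (md := .yp e t none) hg
  obtain ⟨j, j', n, hz, hz'⟩ := ap _ _ _ l
  have key : ∀ x k, x ∈ A → x ∈ Γ.po.H (Γ.pt g (fw e t k, t)) → (x = z ∧ k = j) ∨ (x = z' ∧ k = j') :=
    fun x k hx hk => (cc.inter.le ⟨hx, (G.vh k ⟨cc.sub hx, hk⟩).1⟩).imp
      (fun m => ⟨m, G.eq ((m : x = z) ▸ hk) (G.wh Γ.po_ok j hz.1)⟩)
      fun m => ⟨m, G.eq ((m : x = z') ▸ hk) (G.wh Γ.po_ok j' hz'.1)⟩
  have F := G.core (L1 := fun _ => setsA (Γ.RL g) [[(fw e t j, b0M t)], [(fw e t j', b0M t)]])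
    (grp' := fun _ => false) Γ.po_ok e2 ap ((tot_unit A).symm ▸ hα) fun _ x x' k k' m c' _ hx hx' => by
      have cv : ∀ x k, x ∈ A → x ∈ Γ.po.H (Γ.pt g (fw e t k, t)) → Cov Γ.po (Γ.pt g (fw e t k, t))
          (Γ.po.J0 (Γ.pt g (fw e t k, t)))
          (setsA (Γ.RL g) [[(fw e t j, b0M t)], [(fw e t j', b0M t)]]) := fun x k h1 h2 => by
        rcases key x k h1 h2 with ⟨-, rfl⟩ | ⟨-, rfl⟩ <;> exact Γ.cov_j0 g (.inr (by simp))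
      have m1 := G.wh Γ.po_ok k hx.1
      have m2 := G.wh Γ.po_ok k' hx'.1
      exact (cv x k c'.arc.left m1).lands (cv x' k' c'.arc.right m2) (G.hk m)
        ((hα _ ((G.P _).2 ⟨k, rfl⟩)).no rfl x ⟨c'.arc.left, m1⟩)
        ((hα _ ((G.P _).2 ⟨k', rfl⟩)).no rfl x' ⟨c'.arc.right, m2⟩)
  have hP : ⋃ f ∈ {f ∈ (Γ.ob g (Md.yp e t none).ao).P | (A ∩ Γ.po.H f).Nonempty},
      Γ.po.H (Γ.po.pd f (Γ.po.t f)) =
      Γ.Rg (g * Γ.ev (fw e t j)) (padM t) ∪ Γ.Rg (g * Γ.ev (fw e t j')) (padM t) := by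
    have e0 : {f ∈ (Γ.ob g (Md.yp e t none).ao).P | (A ∩ Γ.po.H f).Nonempty} =
        {Γ.pt g (fw e t j, t), Γ.pt g (fw e t j', t)} := Set.ext fun f => by
      constructor
      · rintro ⟨hf, x, hx⟩
        obtain ⟨k, rfl⟩ := (G.P f).1 hf
        rcases key x k hx.1 hx.2 with ⟨-, rfl⟩ | ⟨-, rfl⟩
        exacts [.inl rfl, .inr rfl]
      · rintro (rfl | rfl)
        exacts [⟨(G.P _).2 ⟨_, rfl⟩, z, cc.arc.left, G.wh Γ.po_ok j hz.1⟩,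
          ⟨(G.P _).2 ⟨_, rfl⟩, z', cc.arc.right, G.wh Γ.po_ok j' hz'.1⟩]
    rw [e0, biUnion_pair, Γ.pad_H, Γ.pad_H]
    rfl
  obtain ⟨x, y, a1, a2, a3, _, ⟨m, hm, rfl⟩, _, ⟨m', hm', rfl⟩, d, b1, b2⟩ :=
    (F.arc ()).resolve_left (Nonempty.ne_empty ⟨z, .inl cc.arc.left⟩)
  rw [hP, ← union_assoc]
  have fin : ∀ x y, Arc (ext Γ.po (Γ.ob g (Md.yp e t none).ao).P α A) x y →
      ext Γ.po (Γ.ob g (Md.yp e t none).ao).P α A ∩ (Γ.RL g (yD e t) ∪ Γ.RL g (yY e t)) = {x, y} →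
      x ∈ Γ.Rg (g * Γ.ev (fw e t j)) (b0M t) → y ∈ Γ.Rg (g * Γ.ev (fw e t j')) (b0M t) →
      SolU σ (Γ.Rg g (yB e)) (Γ.Rg g (yR e)) (ext Γ.po (Γ.ob g (Md.yp e t none).ao).P α A ∪
        Γ.Rg (g * Γ.ev (fw e t j)) (padM t) ∪ Γ.Rg (g * Γ.ev (fw e t j')) (padM t)) := by
    intro x y c1 c2 c3 c4
    rcases hy with hy | hy
    · exact hy e t g (hQ.nx _ _ hg) j j' n _ x y c1 a2 c2 c3 c4
    have pc : ∀ g' : Γ.Fl, IsPreconnected (Γ.Rg g' (padM t)) ∧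
        Γ.Rg g' (b0M t) ⊆ Γ.Rg g' (padM t) := fun g' =>
      ⟨Γ.pad_H (g', t) t ▸ (Γ.po_ok.kd _).d.conn,
        (Γ.Rg_rl _).sub (by clear * -; revert t; decide +kernel)⟩
    refine hy e t g (hQ.nx _ _ hg) j j' n _ ⟨⟨x, .inl (.inl c1.left)⟩,
      (c1.conn.union x c1.left ((pc _).2 c3) (pc _).1).union y (.inl c1.right) ((pc _).2 c4)
        (pc _).1⟩ ?_ (union_subset_union_left _ subset_union_right)
    rw [(Γ.Rg_rl _).or, (Γ.Rg_rl _).or]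
    rintro w (((m | m) | m) | m)
    · exact .inl (.inr (cc.sub m))
    · simp only [mem_iUnion, exists_prop] at m
      obtain ⟨f, hf, v, hv, m⟩ := m
      have o := ((hα f hf).cc v hv).sub m
      obtain ⟨k, rfl⟩ := (G.P f).1 hf
      rcases key v k hv.1 hv.2 with ⟨-, rfl⟩ | ⟨-, rfl⟩
      exacts [.inl (.inl (.inl o)), .inr (.inl o)]
    · exact .inl (.inl (.inr m))
    · exact .inr (.inr m)
  simp only [List.mem_cons, List.not_mem_nil, or_false] at hm hm'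
  rcases hm with rfl | rfl <;> rcases hm' with rfl | rfl <;> rw [Γ.RL_sg] at b1 b2
  exacts [(d rfl).elim, fin x y a1 a3 b1 b2, fin y x a1.symm (a3.trans (pair_comm _ _)) b2 b1,
    (d rfl).elim]

theorem laneS_of (hc : Certs) (ok : σ.Ok0) (hK : σ.K = Γ.K) (hQ : Γ.Reach σ Q)
    (hy : LaneY Γ σ Q) : Γ.LaneS σ Q := by
  intro md g h hg A α q hs hα
  rcases md with _ | _ | ⟨a, b, _ | _⟩ | ⟨e, t, _ | _⟩ <;> try cases h
  exacts [laneX hc ok hK hQ hg hs hα, laneYp hc hQ (.inl hy) hg hs hα]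

theorem laneS_of2 (hc : Certs) (ok : σ.Ok0) (hK : σ.K = Γ.K) (hQ : Γ.Reach σ Q)
    (hy : LaneY2 Γ σ Q) : Γ.LaneS σ Q := by
  intro md g h hg A α q hs hα
  rcases md with _ | _ | ⟨a, b, _ | _⟩ | ⟨e, t, _ | _⟩ <;> try cases h
  exacts [laneX hc ok hK hQ hg hs hα, laneYp hc hQ (.inr hy) hg hs hα]

end Pool.Agent.Lib.MP_b7d179_gt.L
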