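import Pool.Agent.Lib.MP_b7d179_gt.U.Surg
import Pool.Agent.Lib.MP_b7d179_gt.U.SolB

/-! Two lanes are joined through a bud; the spine is changed inside a disc. -/

namespace Pool.Agent.Lib.MP_b7d179_gt.L

open Set

variable {Z : Type} [MetricSpace Z] {σ : Tw Z}

/-- two connected spines of the same disc -/
theorem lane_swap (ok : σ.Ok0) {B S X T2 C2 Y : Set Z} (hB : Ball B S) (h : SolU σ B S X)
    (n : NSU S X) (cX : IsConnected X) (dT : Disc T2 C2) (hs : T2 ⊆ S) (hc : Disjoint C2 σ.K)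
    (x : X ⊆ T2) (k : σ.K ∩ T2 ⊆ X) (cY : IsConnected Y) (y : Y ⊆ T2) (kY : σ.K ∩ T2 ⊆ Y) :
    SolU σ B S Y := by
  obtain ⟨O, hO, eO⟩ := hB.sph.open dT hs
  obtain ⟨T, t, d, s1, s2, s3⟩ := hB.sph.disc_nbhd dT hs
    (ok.kcl.inter (hB.sph.compact.isClosed.sdiff hO)) (disjoint_left.2 fun z hz m =>
      hz.2.2 (eO.ge ⟨m, fun c => disjoint_left.1 hc c hz.1⟩).1)
  have kT : σ.K ∩ T ⊆ σ.K ∩ T2 := fun z hz => ⟨hz.1, by_contra fun m =>
    disjoint_left.1 s3 hz.2 ⟨hz.1, s2 hz.2, fun o => m (eO.le ⟨o, s2 hz.2⟩).1⟩⟩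
  have sT : T2 ⊆ T := s1.trans sdiff_subset
  have f : Fit σ.K S X {(T, t)} := ⟨finite_singleton _, by rintro _ rfl; exact d,
    by rintro _ rfl; exact s2, by rintro _ rfl; rwa [inter_eq_left.2 (x.trans sT)],
    by rintro _ rfl; exact disjoint_left.2 fun z hz m => (s1 (kT ⟨m, d.rim_sub hz⟩).2).2 hz,
    by rintro _ rfl; exact kT.trans k, pairwiseDisjoint_singleton _ _,
    by rw [biUnion_singleton]; exact x.trans s1⟩
  refine (h.indep ok n f).spine ok (by rw [biUnion_singleton]; exact y.trans sT) ?_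
  rintro _ rfl
  exact ⟨by rwa [inter_eq_left.2 (y.trans sT)], kT.trans kY⟩

theorem lane_join (ok : σ.Ok0) {B S L R T D C k1 k2 l1 l2 T2 C2 Y : Set Z} {p q : Z}
    (hB : Ball B S) (hL : G σ L (T ∪ D)) (hR : G σ R ((S \ T) ∪ D)) (hT : Disc T C)
    (hD : KD σ.K D C) (ls : L ∩ S = T) (lr : L ∩ R = D) (ds : D ∩ S = C) (u : B = R ∪ L)
    (fT : Disjoint T σ.K) (a1 : Pop σ.K D C p l1) (a2 : Pop σ.K D C q l2) (dl : Disjoint l1 l2)
    (b1 : Pop σ.K ((S \ T) ∪ C) C p k1) (b2 : Pop σ.K ((S \ T) ∪ C) C q k2) (dk : Disjoint k1 k2)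
    (h : SolU σ R ((S \ T) ∪ D) (l1 ∪ k1 ∪ (l2 ∪ k2))) (dT : Disc T2 C2) (hs : T2 ⊆ S)
    (hc : Disjoint C2 σ.K) (x : k1 ∪ T ∪ k2 ⊆ T2) (k : σ.K ∩ T2 ⊆ k1 ∪ k2) (cY : IsConnected Y)
    (y : Y ⊆ T2) (kY : σ.K ∩ T2 ⊆ Y) : SolU σ B S Y := by
  have sd : SolD σ B S {(T, C)} R ((S \ T) ∪ D) (fun _ => L) fun _ => D :=
    ⟨finite_singleton _, hR, by rintro _ rfl; exact hL,
      by rintro _ rfl; exact hT, by rintro _ rfl; exact hD, by rintro _ rfl; exact ls,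
      by rintro _ rfl; exact lr, by rintro _ rfl; exact ds, pairwiseDisjoint_singleton _ _,
      by rw [biUnion_singleton]; exact u, by rw [biUnion_singleton, biUnion_singleton]⟩
  obtain ⟨r, hr⟩ := hT.exists_cc a1.1 a2.1 fun e =>
    disjoint_left.1 dl (surg_left a1) (e ▸ surg_left a2)
  have m := merge2 ok sd fT hr a1 a2 dl b1 b2 dk h
  have i : ∀ {e k}, Pop σ.K ((S \ T) ∪ C) C e k → e ∈ r → r ∩ k = {e} := fun b he =>
    subset_antisymm (fun z hz => b.facts.2.1.le ⟨hz.2, (b.facts.1 hz.2).resolve_left fun c =>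
      c.2 (hr.sub hz.1)⟩) (singleton_subset_iff.2 ⟨he, surg_left b⟩)
  have x' : k1 ∪ r ∪ k2 ⊆ T2 :=
    (union_subset_union_left _ (union_subset_union_right _ hr.sub)).trans x
  obtain ⟨W, w, W', w', b, p', q', be, -, -, -, -, e⟩ := b1.bell b2 hr.arc (fT.mono_left hr.sub)
    (i b1 hr.arc.left) (i b2 hr.arc.right) dk
  exact lane_swap ok hB m (e ▸ surg_bell hB.sph be (e ▸ x'.trans hs))
    ⟨⟨p, .inl (.inl (surg_left b1))⟩, (b1.facts.2.2.2.1.isPreconnected.union p (surg_left b1)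
      hr.arc.left hr.arc.conn).union q (.inr hr.arc.right) (surg_left b2)
      b2.facts.2.2.2.1.isPreconnected⟩ dT hs hc x'
    (k.trans (union_subset_union_left _ subset_union_left)) cY y kY

end Pool.Agent.Lib.MP_b7d179_gt.L
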