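import Pool.Agent.Lib.MP_b7d179_gt.L.LaneYD
import Pool.Agent.Lib.MP_b7d179_gt.L.LaneA
import Pool.Agent.Lib.MP_b7d179_gt.L.Lane
import Pool.Agent.Lib.MP_b7d179_gt.C.Fin

/-! The lane under one arc of a tripod. -/

namespace Pool.Agent.Lib.MP_b7d179_gt.L

open Set C Gen

variable {Z : Type} [MetricSpace Z] {Γ : Geo Z} {σ : Tw Z} {Q : Gk → Γ.Fl → Prop} {c : Chart}
  {g : Γ.Fl} {R : ℕ → Set Z} {e t : Bool}

omit [MetricSpace Z] in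
theorem ly_beq (R : ℕ → Set Z) {a b : ℕ} (h : Nat.beq a b = true) : R a = R b := by rw [Nat.eq_of_beq_eq_true h]

theorem pop_cert {K : Set Z} (hR : Rl R) {fr D C : ℕ} {W : ℕ × ℕ} {a : ℕ × ℕ × ℕ} {x y : Z}
    (hf : Disjoint (R fr) K) (hW : KD K (R W.1) (R W.2)) (ha : Arc (R a.1) y x)
    (hy : R a.2.1 = {y}) (hx : R a.2.2 = {x}) (h : popOk fr D C W a = true) :
    Pop K (R D) (R C) y (R (Nat.lor W.1 a.1)) := by
  simp only [popOk, Bool.and_eq_true] at h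
  obtain ⟨⟨⟨⟨⟨h1, h2⟩, h3⟩, h4⟩, h5⟩, h6⟩ := h
  have i := (hR.inter h6).trans hy
  exact ⟨(i.ge rfl).2, _, _, _, x, ⟨ha, hW.d, (hR.inter h1).trans hx, hR.sub h2 (hx.ge rfl)⟩, hW,
    hR.df _ _ ▸ hR.sub h3, hf.mono_left (hR.sub h4), hR.sub h5, i, hR.or _ _⟩

theorem padT_ok (h : Γ.At c g R) {x : Wd × Bool} {W : ℕ × ℕ} (k : padT c x = some W) :
    KD Γ.K (R W.1) (R W.2) ∧ R W.1 = Γ.Rg (g * Γ.ev x.1) (padM x.2) := by
  obtain ⟨m, e1, k⟩ := Option.bind_eq_some_iff.1 k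
  obtain ⟨r, e2, k⟩ := Option.map_eq_some_iff.1 k
  cases k
  have := Γ.po_ok.kd (Γ.po.pd (g * Γ.ev x.1, true) x.2)
  rw [Γ.pad_H, Γ.pad_k, ← h.tau _ _ _ e1, ← h.tau _ _ _ e2] at this
  exact ⟨this, h.tau _ _ _ e1⟩

theorem ly_leg : ∀ (e t : Bool) (j : Fin 3),
    (gkids (.py e t))[ord e t j.1]? = some (lyW e t j, .lens) := by decide

theorem leg_ok (ok : σ.Ok0) (hK : σ.K = Γ.K) (hQ : Γ.Reach σ Q) (hg : Q (.py e t) g)
    (h : Γ.At c g R) {fr D D' C l k po : ℕ} (hf : Disjoint (R fr) σ.K) {j : Fin 3} {x : TA × TA}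
    (hx : legOk c e t fr D D' C j x = some (l, k, po)) :
    (∃ p, Pop σ.K (R D) (R C) p (R l) ∧ Pop σ.K (R D') (R C) p (R k)) ∧
      R po = Γ.Rg (g * Γ.ev (fw e t j)) (padM t) ∧ ∀ w sw,
        ndK c (gkids (.py e t)) (ord e t j.1) = some (w, sw) →
        NSU (R sw) (R (Nat.lor l k)) ∧ SolU σ (R w) (R sw) (R (Nat.lor l k)) := by
  unfold legOk at hx
  split at hx
  swap
  · cases hx
  rename_i pi po' ai ao S' X Y L0 L1 P1 P2 e1 e2 e3 e4 e5 e6 e7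
  split_ifs at hx with m
  cases hx
  simp only [Bool.and_eq_true] at m
  obtain ⟨⟨⟨⟨⟨⟨⟨m1, m2⟩, m3⟩, m4⟩, m5⟩, m6⟩, m7⟩, m8⟩ := m
  have rl := h.ok.rl
  obtain ⟨p, xi, a1, hp, hi⟩ := h.ok.evA glues e3
  obtain ⟨p', xo, a2, hp', ho⟩ := h.ok.evA glues e4
  obtain rfl : p' = p := singleton_injective (hp'.symm.trans ((ly_beq R m3).trans hp))
  have p1 := pop_cert rl hf (hK ▸ (padT_ok h e1).1) a1 hp hi m1
  have p2 := pop_cert rl hf (hK ▸ (padT_ok h e2).1) a2 hp' ho m2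
  have lk := (rl.inter m4).trans hp
  refine ⟨⟨_, p1, p2⟩, (padT_ok h e2).2, fun w sw en => ?_⟩
  obtain ⟨hn, e8⟩ := List.getElem?_eq_some_iff.1 (ly_leg e t j)
  obtain ⟨b1, b2⟩ := h.ndK hn en
  rw [e8] at b1 b2
  have hl : Q .lens (g * Γ.ev (lyW e t j)) := hQ.kid _ _ hg _ (List.mem_of_getElem? (ly_leg e t j))
  have ar : Arc (R (Nat.lor ai.1 ao.1)) xi xo := by
    rw [rl.or]
    refine a1.symm.cat a2 (subset_antisymm (fun z hz => lk.le ?_)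
      (singleton_subset_iff.2 ⟨a1.left, a2.left⟩))
    rw [rl.or, rl.or]
    exact ⟨.inr hz.1, .inr hz.2⟩
  have sol := lane_par ok hK hQ hl t t (X := R (Nat.lor ai.1 ao.1)) ((sp_St h e5).1
    ⟨fun _ => .inr ⟨xi, xo, ar, rl.sub m6, ?_, ?_⟩, Subsingleton.pairwise, fun _ _ _ => False.elim⟩)
    ⟨_, ar.left⟩
  · rw [mul_assoc, ← Γ.ev_append, ← h.tau _ _ _ e6, ← h.tau _ _ _ e7, ← rl.or, ← rl.or,
      ← ly_beq R m5] at sol
    rw [b1, b2]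
    obtain ⟨W, w, W', w', b, p, q, bl, -, -, eq⟩ := p1.bell0 p2 lk
    rw [← rl.or] at eq
    exact ⟨eq ▸ surg_bell ((hQ.good _ _ hl).ball ok).sph bl (eq ▸ sol.sub), sol⟩
  · rw [← rl.or, rl.inter m7, rl.or, hi, ho]; rfl
  · obtain ⟨L, hL, m8⟩ := List.any_eq_true.1 m8
    obtain ⟨L', hL', m8⟩ := List.any_eq_true.1 m8
    simp only [Bool.and_eq_true] at m8
    have u := rl.sub m8.1.1 (hi.ge rfl)
    exact ⟨_, ⟨L, hL, rfl⟩, _, ⟨L', hL', rfl⟩, fun k => disjoint_left.1 (rl.dis m8.2) u (k ▸ u), u,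
      rl.sub m8.1.2 (ho.ge rfl)⟩

theorem lane_nx (ok : σ.Ok0) (hK : σ.K = Γ.K) (hQ : Γ.Reach σ Q) (hg : Q (.py e t) g) (i : Fin 3)
    {Y : Set Z} (cY : IsConnected Y)
    (hY : Y ⊆ Γ.Rg (g * Γ.ev (fw e t i)) (Nat.lor (oM t) (padM t)) ∪ Γ.Rg g (visM e t) ∪
      Γ.Rg (g * Γ.ev (fw e t (i + 1))) (Nat.lor (oM t) (padM t)))
    (hP : Γ.Rg (g * Γ.ev (fw e t i)) (padM t) ∪ Γ.Rg (g * Γ.ev (fw e t (i + 1))) (padM t) ⊆ Y) :
    SolU σ (Γ.Rg g (yB e)) (Γ.Rg g (yR e)) Y := by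
  have k := lyD_ok e t
  generalize lyD e t = x at k
  unfold lyOk at k
  split at k
  · cases k
  rename_i c e0
  obtain ⟨R, h⟩ := Geo.val_y (Γ := Γ) e0 g
  dsimp only at k
  split at k
  swap
  · cases k
  rename_i b s0 fr ll bl sl lr br sr T C D C' e1 e2 e3 e4 e5 e6 e7
  simp only [Bool.and_eq_true] at k
  obtain ⟨⟨⟨⟨⟨⟨⟨⟨⟨⟨⟨⟨⟨⟨k1, k2⟩, k3⟩, k4⟩, k5⟩, k6⟩, k7⟩, k8⟩, k9⟩, k10⟩, k11⟩, k12⟩, k13⟩, k14⟩,
    k⟩ := k
  obtain rfl := Nat.eq_of_beq_eq_true k5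
  have rl := h.ok.rl
  have one : ∀ {m m'}, c.tau [] m = some m' → R m' = Γ.Rg g m := fun e => by
    rw [h.tau _ _ _ e, Geo.ev, mul_one]
  have hf : Disjoint (R fr) σ.K := by rw [h.tauL e3, hK]; exact coreA_fr _
  have hh : ∀ m ∈ lpH.filterMap (c.tau []), (σ.K ∩ R m).Nonempty := fun m hm => by
    obtain ⟨m', hm, e⟩ := List.mem_filterMap.1 hm
    rw [one e, hK]; exact lp_hit g _ hm
  have len : (gkids (.py e t)).length = 5 := by cases e <;> rfl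
  have kid : ∀ n < 5, ∀ w sw, ndK c (gkids (.py e t)) n = some (w, sw) → G σ (R w) (R sw) :=
    fun n hn w sw e => by
      obtain ⟨a, b⟩ := h.ndK (len ▸ hn) e
      rw [a, b]
      exact hQ.good _ _ (hQ.kid _ _ hg _ (List.getElem_mem _))
  have nb := h.ndB (gkids (.py e t))
  have gL := (shell_ok h.ok e4).good rl nb hf hh k1 fun n hn =>
    kid n (of_decide_eq_true (List.all_eq_true.1 k2 n hn))
  have cR := shell_ok h.ok e5
  have gR := cR.good rl nb hf hh k3 fun n hn =>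
    kid n (of_decide_eq_true (List.all_eq_true.1 k4 n hn))
  have hB : Ball (R b) (R s0) := by rw [one e1, one e2]; exact (hQ.good _ _ hg).ball ok
  have k := List.all_eq_true.1 k i ((by decide : ∀ i : Fin 3, i ∈ [0, 1, 2]) i)
  unfold pairOk at k
  dsimp only at k
  split at k
  swap
  · cases k
  rename_i l k0 po l' k0' po' T1 C1 T2 C2 T3 C3 M M' V f1 f2 f3 f4 f5 f6 f7 f8
  obtain ⟨_, -, f1⟩ := Option.bind_eq_some_iff.1 f1
  obtain ⟨_, -, f2⟩ := Option.bind_eq_some_iff.1 f2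
  obtain ⟨_, -, f3⟩ := Option.bind_eq_some_iff.1 f3
  obtain ⟨_, -, f4⟩ := Option.bind_eq_some_iff.1 f4
  obtain ⟨_, -, f5⟩ := Option.bind_eq_some_iff.1 f5
  simp only [Bool.and_eq_true] at k
  obtain ⟨⟨⟨⟨⟨⟨⟨⟨⟨⟨⟨⟨⟨⟨⟨⟨m1, m2⟩, m3⟩, m4⟩, m5⟩, m6⟩, m7⟩, m8⟩, m9⟩, m10⟩, m11⟩, m12⟩, m13⟩, m14⟩,
    m15⟩, m16⟩, m17⟩ := k
  obtain ⟨⟨p, a1, b1⟩, q1, s1⟩ := leg_ok ok hK hQ hg h hf f1
  obtain ⟨⟨q, a2, b2⟩, q2, s2⟩ := leg_ok ok hK hQ hg h hf f2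
  have sol := (cR.off ok rl nb hf hh k3 Subset.rfl m1 fun n hn w sw en => by
    have m := List.all_eq_true.1 m3 n hn
    rw [en] at m
    simp only [Bool.or_eq_true, Bool.and_eq_true, beq_iff_eq] at m
    rcases m with (m | ⟨rfl, m⟩) | ⟨rfl, m⟩ <;> rw [rl.inter m]
    · rw [rl.zero]
      exact ⟨nsu_empty, solU_empty.2
        (kid n (of_decide_eq_true (List.all_eq_true.1 k4 n hn)) _ _ en)⟩
    exacts [s1 _ _ en, s2 _ _ en]).2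
  rw [inter_eq_left.2 (rl.sub m2), ly_beq R k7, rl.or, rl.or, rl.or, rl.or, rl.df] at sol
  rw [ly_beq R k6, rl.or] at gL
  rw [ly_beq R k7, rl.or, rl.df] at gR
  rw [rl.or, rl.df] at b1 b2
  obtain ⟨m, hm, k13⟩ := List.any_eq_true.1 k13
  have kp : ∀ {X}, sub (df X (Nat.lor po po')) fr = true → σ.K ∩ R X ⊆ R (Nat.lor po po') :=
    fun e z hz => by_contra fun n => disjoint_left.1 hf (rl.sub e (rl.df _ _ ▸ ⟨hz.2, n⟩)) hz.1
  have d1 := h.ok.evD glues f3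
  have sol := lane_join ok hB gL gR (h.ok.evD glues e6) ⟨h.ok.evD glues e7,
    hf.mono_left (rl.sub k12), (hh m hm).mono (inter_subset_inter_right _ (rl.sub k13))⟩
    (rl.inter k8) (rl.inter k9) (rl.inter k10) (by rw [ly_beq R k11, rl.or])
    (hf.mono_left (rl.sub k14)) a1 a2 (rl.dis m4) b1 b2 (rl.dis m5) sol (h.ok.evD glues f4)
    (rl.sub m6) (hf.mono_left (rl.sub m7)) (by rw [← rl.or, ← rl.or]; exact rl.sub m8)
    ((kp m9).trans (rl.or k0 k0' ▸ rl.sub m10)) (rq_conn d1) (rl.sub m11)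
    ((kp m9).trans (rl.sub m13))
  rw [← one e1, ← one e2]
  rw [← h.tau _ _ _ f6, ← h.tau _ _ _ f7, ← one f8, ← rl.or, ← rl.or] at hY
  rw [← q1, ← q2, ← rl.or] at hP
  exact lane_swap ok hB sol (rq_ns hB.sph d1 ((rl.sub m12).trans (rl.sub m14))).nsu (rq_conn d1)
    (h.ok.evD glues f5) (rl.sub m14) (hf.mono_left (rl.sub m15)) (rl.sub m12)
    ((kp m16).trans (rl.sub m13)) cY (hY.trans (rl.sub m17)) ((kp m16).trans hP)

theorem lane_y (ok : σ.Ok0) (hK : σ.K = Γ.K) (hQ : Γ.Reach σ Q) : LaneY2 Γ σ Q := by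
  intro e t g hg i j n Y cY hY hP
  rcases (by decide : ∀ i j : Fin 3, i ≠ j → j = i + 1 ∨ i = j + 1) i j n with rfl | rfl
  · exact lane_nx ok hK hQ hg i cY hY hP
  · exact lane_nx ok hK hQ hg j cY (fun z hz => (hY hz).elim (fun k => k.elim .inr fun k => .inl (.inr k))
      fun k => .inl (.inl k))
      (by rwa [union_comm])

theorem laneS (hc : Certs) (ok : σ.Ok0) (hK : σ.K = Γ.K) (hQ : Γ.Reach σ Q) : Γ.LaneS σ Q :=
  laneS_of2 hc ok hK hQ (lane_y ok hK hQ)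

end Pool.Agent.Lib.MP_b7d179_gt.L
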