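import Pool.Agent.Lib.MP_b7d179_gt.L.PostM

/-! The leaves before and after the access arcs. -/

namespace Pool.Agent.Lib.MP_b7d179_gt.L

open Set C Gen Function

variable {Z : Type} [MetricSpace Z] {ι : Type}

omit [MetricSpace Z] in
theorem setsA_nil {α : Type} (ρ : α → Set Z) : setsA ρ [] = ∅ := by ext x; simp [setsA]

namespace Geo
variable (Γ : Geo Z) (g : Γ.Fl)

theorem xKo_eq (a b : Bool) : Γ.RL g [([], ko 0 0 (xSt a b) (xLen a b))] =
    Γ.Rg g (ka 0 0 (xSt a b) (xLen a b)) \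
      {Γ.pm g (kv 0 0 (xSt a b)), Γ.pm g (kv 0 0 (xSt a b + xLen a b))} := by
  rw [RL_at, ko, Γ.open_pm g (t := kT 0 0 (xSt a b) (xLen a b)) (by revert a b; decide +kernel)]

theorem y_mem {e t : Bool} {L : Set Z} (h : L ∈ setsA (Γ.RL g) [[([], yKo e t 0 0 6)],
    [([], yKo e t 1 0 6)], [([], yKo e t 2 0 6)]]) :
    ∃ j, L = Γ.Rg g (yW e t j) \ {Γ.pm g (yP e t j 0), Γ.pm g (yP e t j 6)} := by
  obtain ⟨m, hm, rfl⟩ := h
  simp only [List.mem_cons, List.not_mem_nil, or_false] at hm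
  rcases hm with rfl | rfl | rfl <;> exact ⟨_, (Γ.RL_at g _).trans (Γ.yKo_eq g e t _)⟩

theorem pre0 (hc : Certs) {md : Md} (h : md.ph 0 = true) : (Γ.sh g md).Pre0 := by
  rcases md with _ | _ | ⟨a, b, _ | _⟩ | ⟨e, t, _ | _⟩ <;> try cases h
  · exact ⟨Γ.RL_nil g, _, _, _, ((Γ.xg g hc a b false).ins false).arc, Γ.xKo_eq g a b⟩
  · have G := Γ.yg g hc e t none
    refine ⟨?_, setsA_nil _, fun L hL => ?_⟩
    · rw [RL_at, RL_at]; exact G.tri.disc
    · obtain ⟨j, rfl⟩ := Γ.y_mem g hL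
      refine ⟨_, _, _, G.tri.aw j, ?_, rfl⟩
      rw [RL_at, G.tri.u]
      exact subset_iUnion_of_subset j subset_union_left

variable {rel : ι → ι → ι → Prop} {grp : ι → Bool} {a : ι → Set Z}

theorem y_st {e t : Bool} {c : Option (Fin 3)} (h : (Γ.sh g (.yp e t c)).St rel grp a) :
    ∃ l0 l1, (Md.yp e t c).spec = .di [([], visM e t)] [([], visC e t)] l0 l1 ∧
      FamD (Γ.Rg g (visM e t)) (Γ.Rg g (visC e t)) (fun x => setsA (Γ.RL g) (cond x l1 l0))
        rel grp a := by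
  rw [← RL_at, ← RL_at]
  cases c <;> exact ⟨_, _, rfl, h⟩

theorem y_apart (e t : Bool) {l0 l1 : List (List Ad)} {c : Option (Fin 3)}
    (h : (Md.yp e t c).spec = .di [([], visM e t)] [([], visC e t)] l0 l1) :
    Apart (fun j => Γ.Rg g (yW e t j)) (fun j => Γ.pm g (yP e t j 0)) (fun j => Γ.pm g (yP e t j 6))
      fun x => setsA (Γ.RL g) (cond x l1 l0) := by
  have two : ∀ (m m' : ℕ) (j j' : Fin 3), j ≠ j' → sub m (yKo e t j 0 6) = true →
      sub m' (yKo e t j' 0 6) = true → ∀ z z', Lands (setsA (Γ.RL g) [[([], m)], [([], m')]]) z z' →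
      ∃ j j', j ≠ j' ∧ z ∈ Γ.Rg g (yW e t j) \ {Γ.pm g (yP e t j 0), Γ.pm g (yP e t j 6)} ∧
        z' ∈ Γ.Rg g (yW e t j') \ {Γ.pm g (yP e t j' 0), Γ.pm g (yP e t j' 6)} := by
    rintro m m' j j' n s s' z z' ⟨_, ⟨x, hx, rfl⟩, _, ⟨y, hy, rfl⟩, d, hz, hz'⟩
    replace s := ((Γ.Rg_rl g).sub s).trans (Γ.yKo_eq g e t j).le
    replace s' := ((Γ.Rg_rl g).sub s').trans (Γ.yKo_eq g e t j').le
    simp only [List.mem_cons, List.not_mem_nil, or_false] at hx hy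
    rcases hx with rfl | rfl <;> rcases hy with rfl | rfl <;> rw [RL_at] at hz hz'
    exacts [(d rfl).elim, ⟨j, j', n, s hz, s' hz'⟩, ⟨j', j, n.symm, s' hz, s hz'⟩, (d rfl).elim]
  rcases c with _ | b <;> cases h <;> intro x <;> cases x
  · rintro z z' ⟨L, l, L', l', n, m, m'⟩
    obtain ⟨j, rfl⟩ := Γ.y_mem g l
    obtain ⟨j', rfl⟩ := Γ.y_mem g l'
    exact ⟨j, j', fun k => n (k ▸ rfl), m, m'⟩
  · rintro z z' ⟨L, l, -⟩
    exact ((setsA_nil _).le l).elim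
  · exact two _ _ b (b + 2) (by clear * -; revert b; decide)
      (by clear * -; revert e t b; decide +kernel) (by clear * -; revert e t b; decide +kernel)
  · exact two _ _ b (b + 1) (by clear * -; revert b; decide)
      (by clear * -; revert e t b; decide +kernel) (by clear * -; revert e t b; decide +kernel)

theorem base (hc : Certs) {md : Md} (h : md.ph 0 = true ∨ md.ph 3 = true)
    (hs : (Γ.sh g md).St rel grp a) (i : ι) : ∀ f ∈ (Γ.ob g md.ao).P,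
      a i ∩ Γ.po.H f ⊆ Γ.po.Io f ∧ (a i ∩ Γ.po.H f).Subsingleton := by
  rcases md with _ | _ | ⟨x, y, c⟩ | ⟨e, t, c⟩
  · simp [Md.ph] at h
  · simp [Md.ph] at h
  · cases c
    · refine (Γ.xg g hc x y false).base hs (fun b => ?_) i
      cases b
      exacts [(Γ.xKo_eq g x y).le.trans sdiff_subset, (Γ.RL_nil g).le.trans (empty_subset _)]
    · refine (Γ.xg g hc x y true).base hs (fun b => ?_) i
      cases b <;> exact (Γ.RL_at g _).le.trans
        ((Γ.Rg_rl g).sub (by clear * -; revert x y; decide +kernel))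
  · obtain ⟨l0, l1, e1, e2⟩ := Γ.y_st g hs
    exact (Γ.yg g hc e t c).base Γ.po_ok e2 (Γ.y_apart g e t e1) i

theorem x_fam {x y c : Bool} {m : XM} (hm : m ≠ .M) {l0 l1 : List (List Ad)}
    (e : (Md.xq x y m).spec = .fa [([], Gk.lens.S)] xD (xY x y m) l0 l1)
    (h : Fam (Γ.ob g (Md.xp x y c).ao).S (Γ.RL g xD ∪ Γ.RL g (xY x y .N))
      (fun b => setsA (Γ.RL g) (cond b l1 l0)) rel grp a) : (Γ.sh g (.xq x y m)).St rel grp a := by
  have h0 : (Γ.ob g (Md.xp x y c).ao).S = Γ.Rg g Gk.lens.S :=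
    congrArg (Γ.Rg g) (by clear * -; revert x y c; decide +kernel : (Md.xp x y c).ao.S = Gk.lens.S)
  have h1 : xY x y m = xY x y .N := by simp [xY, xArc, hm]
  rw [h0, ← RL_at, ← h1] at h
  rw [sh, e]
  exact h

theorem y_fam {e t : Bool} {c : Option (Fin 3)} {m : YM} {l0 l1 : List (List Ad)}
    (k : (Md.yq e t m).spec = .fa [([], yR e)] (yD e t) (yY e t) l0 l1)
    (h : Fam (Γ.ob g (Md.yp e t c).ao).S (Γ.RL g (yD e t) ∪ Γ.RL g (yY e t))
      (fun b => setsA (Γ.RL g) (cond b l1 l0)) rel grp a) : (Γ.sh g (.yq e t m)).St rel grp a := by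
  have h0 : (Γ.ob g (Md.yp e t c).ao).S = Γ.RL g [([], yR e)] := (Γ.RL_at g _).symm
  rw [h0] at h
  rw [sh, k]
  exact h

theorem x_all (x y j : Bool) : CovAll Γ.po (Γ.pt g (xF x y j)) (setsA (Γ.RL g)
    [[([s], b0M x)], [([s], j1M x)], [([], b0M y)], [([], j1M y)]]) := by
  cases j <;> exact Γ.cov_all g (by simp) (by simp)

theorem x_lo (x y j : Bool) : Cov Γ.po (Γ.pt g (xF x y j)) (Γ.po.J0 (Γ.pt g (xF x y j)))
    (setsA (Γ.RL g) [[([s], b0M x)], [([], b0M y)]]) := by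
  cases j <;> exact Γ.cov_j0 g (.inr (by simp))

theorem x_hi (x y j : Bool) : Cov Γ.po (Γ.pt g (xF x y j)) (Γ.po.J1 (Γ.pt g (xF x y j)))
    (setsA (Γ.RL g) [[([s], j1M x)], [([], j1M y)]]) := by
  cases j <;> exact Γ.cov_j1 g (by simp)

theorem y_all (e t : Bool) (j : Fin 3) : CovAll Γ.po (Γ.pt g (fw e t j, t)) (setsA (Γ.RL g)
    [[(fw e t 0, b0M t)], [(fw e t 0, j1M t)], [(fw e t 1, b0M t)], [(fw e t 1, j1M t)],
      [(fw e t 2, b0M t)], [(fw e t 2, j1M t)]]) := by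
  fin_cases j <;> exact Γ.cov_all g (by simp) (by simp)

variable {th : Γ.Ft → Option Z} {α : Γ.Ft → Z → Set Z} {q : Γ.Ft → Z → Z}

theorem post1 (hc : Certs) {md : Md} (h : md.ph 0 = true) {t : ι} (hr : ∀ i j s, rel i j s → i ≠ j)
    (hs : (Γ.sh g md).St rel grp a) (hα : AcP Γ.po (Γ.ob g md.ao) th (tot univ a) α q)
    (ht : ∀ f ∈ (Γ.ob g md.ao).P, ∀ x ∈ a t ∩ Γ.po.H f, th f = some x) :
    ∃ md' : Md, md'.ph 1 = true ∧ md'.gk = md.gk.nx ∧ ∃ grp',
      (Γ.sh g md').St rel grp' fun i => ext Γ.po (Γ.ob g md.ao).P α (del t a i) := by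
  rcases md with _ | _ | ⟨x, y, _ | _⟩ | ⟨e, u, _ | _⟩ <;> try cases h
  · rcases (Γ.xg g hc x y false).post1 (L1 := fun b => setsA (Γ.RL g) (cond b _ _))
      (LP := fun b => setsA (Γ.RL g) (cond b _ _)) Γ.po_ok hs hr (Γ.xKo_eq g x y) (Γ.RL_nil g) hα ht
      (Γ.x_all g x y) (Γ.x_lo g x y) (Γ.x_hi g x y) with k | ⟨_, k⟩
    exacts [⟨.xq x y .N, rfl, rfl, _, Γ.x_fam g (by simp) rfl k⟩,
      ⟨.xq x y .PAR, rfl, rfl, _, Γ.x_fam g (by simp) rfl k⟩]
  · obtain ⟨l0, l1, e1, e2⟩ := Γ.y_st g hs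
    cases e1
    rcases (Γ.yg g hc e u none).post1 (L1 := fun b => setsA (Γ.RL g) (cond b _ _))
      (LT := fun b x => setsA (Γ.RL g) (cond x [[(fw e u b, j1M u)], [(fw e u (b + 1), j0M u)]]
        [[(fw e u b, j0M u)], [(fw e u (b + 1), j1M u)], [(fw e u (b + 2), b0M u)],
          [(fw e u (b + 2), j1M u)]])) Γ.po_ok e2 hr (setsA_nil _) (fun L => Γ.y_mem g) hα ht
      (Γ.y_all g e u) (fun b => ⟨Γ.cov_j0 g (.inl (by simp)), Γ.cov_j1 g (by simp),
        Γ.cov_all g (by simp) (by simp), Γ.cov_j1 g (by simp), Γ.cov_j0 g (.inl (by simp))⟩)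
      with k | ⟨b, _, k⟩
    exacts [⟨.yq e u .N, rfl, rfl, _, Γ.y_fam g rfl k⟩,
      ⟨.yq e u (.T b), rfl, rfl, _, Γ.y_fam g rfl k⟩]

theorem x_mark (hc : Certs) (x y j : Bool) :
    (Γ.ob g (Md.xp x y true).ao).M (Γ.pt g (xF x y j)) = some j := by
  have n : Γ.pt g (xF x y false) ≠ Γ.pt g (xF x y true) := fun k => by
    obtain ⟨z, hz⟩ := Γ.po_ok.inner (Γ.pt g (xF x y false))
    exact hz.2 ((Γ.xg g hc x y true).hh ⟨hz.1, k ▸ hz.1⟩).1
  have P : (Md.xp x y true).ao.P = [(xF x y false, some false), (xF x y true, some true)] := rfl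
  refine Γ.ob_M (p := (xF x y j, some j)) (by rw [P]; cases j <;> simp) fun p hp k => ?_
  simp only [P, List.mem_cons, List.not_mem_nil, or_false] at hp
  cases j <;> rcases hp with rfl | rfl
  exacts [rfl, (n k).elim, (n k.symm).elim, rfl]

theorem y_mark (hc : Certs) (e t : Bool) (b j : Fin 3) :
    (Γ.ob g (Md.yp e t (some b)).ao).M (Γ.pt g (fw e t j, t)) = if j = b then some e else none := by
  have P : ∀ p, p ∈ (Md.yp e t (some b)).ao.P ↔
      ∃ j, p = ((fw e t j, t), if j = b then some e else none) := fun p => by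
    simp [Md.ao, Md.gk, Gk.am, Gk.P, lyP, fw, Fin.exists_fin_succ, Md.mk', Fin.ext_iff]
  refine Γ.ob_M (p := ((fw e t j, t), _)) ((P _).2 ⟨j, rfl⟩) fun p hp k => ?_
  obtain ⟨j', rfl⟩ := (P p).1 hp
  obtain ⟨z, hz⟩ := Γ.po_ok.inner (Γ.pt g (fw e t j, t))
  obtain rfl := (Γ.yg g hc e t (some b)).eq (j := j) (j' := j') hz.1 (k ▸ hz.1)
  rfl

theorem post2 (hc : Certs) {md : Md} (h : md.ph 3 = true) (hr : ∀ i j s, rel i j s → i ≠ j)
    (hs : (Γ.sh g md).St rel grp a) (hα : AcP Γ.po (Γ.ob g md.ao) th (tot univ a) α q)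
    (ht : ∀ f ∈ (Γ.ob g md.ao).P, th f = ((Γ.ob g md.ao).M f).map (Γ.po.cut f)) :
    ∃ md' : Md, md'.ph 4 = true ∧ md'.gk = md.gk.nx ∧ ∃ grp',
      (Γ.sh g md').St rel grp' fun i => ext Γ.po (Γ.ob g md.ao).P α (a i) := by
  have r := Γ.Rg_rl g
  rcases md with _ | _ | ⟨x, y, _ | _⟩ | ⟨e, u, _ | b⟩
  · cases h
  · cases h
  · exact ⟨.xq x y .N, rfl, rfl, _, Γ.x_fam g (by simp) rfl
      ((Γ.xg g hc x y false).postN (L1 := fun b => setsA (Γ.RL g) (cond b _ _)) Γ.po_ok hs hr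
        (Γ.xKo_eq g x y) (Γ.RL_nil g) hα (Γ.x_all g x y))⟩
  · obtain rfl : x = y := by simpa [Md.ph] using h
    have G := Γ.xg g hc x x true
    have sp := Γ.spl_pm g (show kSpl 0 0 (xSt x x) 1 1 = true by clear * -; revert x; decide +kernel)
    have o1 : Γ.RL g [([], ko 0 0 (xSt x x) 1)] = _ := (Γ.RL_at g _).trans
      (Γ.open_pm g (t := kT 0 0 (xSt x x) 1) (by clear * -; revert x; decide +kernel))
    have o2 : Γ.RL g [([], ko 0 0 (xSt x x + 1) 1)] = _ := (Γ.RL_at g _).trans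
      (Γ.open_pm g (t := kT 0 0 (xSt x x + 1) 1) (by clear * -; revert x; decide +kernel))
    have l2 : xLen x x = 1 + 1 := if_pos rfl
    refine ⟨.xq x x .PAR, rfl, rfl, _, Γ.x_fam g (by simp) rfl
      (G.postP (L1 := fun b => setsA (Γ.RL g) (cond b _ _)) Γ.po_ok hs hr (fun b => ⟨?_, ?_⟩) hα
        (fun j => ⟨Γ.pm g (kv 0 0 (xSt x x + 1)), ?_, ?_⟩) (Γ.x_lo g x x) (Γ.x_hi g x x))⟩
    · rw [← xKo_eq, RL_at]
      cases b <;> exact (Γ.RL_at g _).le.trans (r.sub (by clear * -; revert x; decide +kernel))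
    · cases b
      exacts [o1 ▸ sp.a1.conn_open, o2 ▸ sp.a2.conn_open]
    · rw [ht _ ((G.P _).2 ⟨j, rfl⟩), Γ.x_mark g hc]
      exact congrArg some (Γ.pnt_pm g (i := cutI (xF x x j).2 j)
        (by clear * -; revert x j; decide +kernel))
    · obtain ⟨U, W, s1, s2, s3⟩ := (G.ins j).sides Γ.po_ok (l2 ▸ sp)
      exact ⟨U, W, s1, fun z hz => s2 ⟨(o1.le hz).1, fun l => (o1.le hz).2 (.inr l)⟩,
        fun z hz => s3 ⟨(o2.le hz).1, fun l => (o2.le hz).2 (.inl l)⟩⟩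
  · obtain ⟨l0, l1, e1, e2⟩ := Γ.y_st g hs
    have ap := Γ.y_apart g e u e1
    cases e1
    exact ⟨.yq e u .N, by cases e <;> rfl, rfl, _, Γ.y_fam g rfl
      ((Γ.yg g hc e u none).postN (L1 := fun b => setsA (Γ.RL g) (cond b _ _)) Γ.po_ok e2 ap
        (setsA_nil _) hα (Γ.y_all g e u))⟩
  · obtain ⟨l0, l1, e1, e2⟩ := Γ.y_st g hs
    have ap := Γ.y_apart g e u e1
    cases e1
    have G := Γ.yg g hc e u (some b)
    have sp := Γ.spl_pm g (show kSpl (yA e u b) (yB' e u b) (ySt e u) (yCut e) (6 - yCut e) = true by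
      clear * -; revert e u b; decide +kernel)
    have l6 : yCut e + (6 - yCut e) = 6 := by cases e <;> rfl
    rw [l6] at sp
    obtain ⟨U, W, s1, s2, s3⟩ := (G.ins b).sides Γ.po_ok sp
    have pz : Γ.Rg g (yP e u b (yCut e)) = {Γ.pm g (yP e u b (yCut e))} :=
      (Γ.arc_pm g (t := kT (yA e u b) (yB' e u b) (ySt e u) (yCut e))
        (m := ka (yA e u b) (yB' e u b) (ySt e u) (yCut e)) (u := yP e u b 0)
        (by clear * -; revert e u b; decide +kernel)).2.2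
    have tm := fun j => (ht _ ((G.P _).2 ⟨j, rfl⟩)).trans (congrArg _ (Γ.y_mark g hc e u b j))
    have key : ∀ l0 l1 : List (List Ad), [(fw e u b, j0M u)] ∈ l0 →
        [(fw e u (b + 2), j0M u)] ∈ l0 ∨ [(fw e u (b + 2), b0M u)] ∈ l0 → [(fw e u b, j1M u)] ∈ l1 →
        [(fw e u (b + 1), j0M u)] ∈ l1 → Fam (Γ.ob g (Md.yp e u (some b)).ao).S
          (Γ.RL g (yD e u) ∪ Γ.RL g (yY e u)) (fun x => setsA (Γ.RL g) (cond x l1 l0)) rel grp
          fun i => ext Γ.po (Γ.ob g (Md.yp e u (some b)).ao).P α (a i) := fun l0 l1 m1 m2 m3 m4 => by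
      refine G.postU (b := b) (x := Γ.pm g (yP e u b (yCut e))) (lo := Γ.Rg g (yKo e u b 0 (yCut e)))
        (hi := Γ.Rg g (yKo e u b (yCut e) (6 - yCut e))) Γ.po_ok e2 ap hα ?_ ?_
        ⟨U, W, s1, Subset.trans ?_ s2, Subset.trans ?_ s3⟩ ?_ ?_ ?_ (Γ.cov_j0 g (.inl m1))
        (Γ.cov_j0 g m2) (Γ.cov_j1 g m3) (Γ.cov_j0 g (.inl m4))
      iterate 2
        · rintro _ ⟨m, hm, rfl⟩
          simp only [cond, List.mem_cons, List.not_mem_nil, or_false] at hm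
          rcases hm with rfl | rfl <;> rw [RL_at]
          exacts [.inl subset_rfl, .inr ((Γ.yKo_eq g e u _).le.trans sdiff_subset)]
      iterate 2
        · refine Subset.trans (r.sub ?_) ((r.df _ _).trans (congrArg _ pz)).le
          clear * -; revert e u b; decide +kernel
      · rw [tm, if_pos rfl]
        exact congrArg some (Γ.pnt_pm g (i := cutI u e)
          (by clear * -; revert e u b; decide +kernel))
      · rw [tm, if_neg (by clear * -; revert b; decide)]; rfl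
      · rw [tm, if_neg (by clear * -; revert b; decide)]; rfl
    cases e
    · exact ⟨.yq false u (.T b), rfl, rfl, _,
        Γ.y_fam g rfl (key _ _ (by simp) (by simp) (by simp) (by simp))⟩
    · exact ⟨.yq true u (.U b), rfl, rfl, _,
        Γ.y_fam g rfl (key _ _ (by simp) (by simp) (by simp) (by simp))⟩

theorem pre0S (hc : Certs) : Γ.Pre0S := fun _ g h => Γ.pre0 g hc h
theorem baseS (hc : Certs) : Γ.BaseS := fun _ g h _ _ _ _ hs => Γ.base g hc (.inr h) hs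
theorem post1S (hc : Certs) : Γ.Post1S := fun _ g h _ _ _ _ _ _ _ _ _ => Γ.post1 g hc h
theorem post2S (hc : Certs) : Γ.Post2S := fun _ g h _ _ _ _ _ _ _ _ => Γ.post2 g hc h

end Geo

end Pool.Agent.Lib.MP_b7d179_gt.L
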