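import Pool.Agent.Lib.MP_b7d179_gt.L.TowG
import Pool.Agent.Lib.MP_b7d179_gt.F.Final

/-! The tower is good, given the routing property. -/

namespace Pool.Agent.Lib.MP_b7d179_gt.L

open Set C

/-- the check that the kids and the prisms form a tree -/
def tRun (k : Gk) (ch : ℕ × List (ℕ × TD)) : Bool :=
  match gkC k with
  | some c =>
    match c.obj ([], k.ao), mapO c.obj ((gkids k).map fun x => (x.1, x.2.ao)), c.tau [] free,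
        shell c.A (ndK c (gkids k)) ch.1 ch.2 with
    | some o, some ks, some fr, some (l, b, s) =>
      let ps := ks.flatMap TO'.p
      Nat.beq b o.b && Nat.beq s o.s && tOk fr (ps.map TP.o) l &&
        ((full fr ch.1 l).all fun n => n < (gkids k).length) &&
        ((List.range (gkids k).length).all fun n => (full fr ch.1 l).contains n) &&
        ((o :: ks).all fun t => ps.all fun q => sub q.o t.s == t.has q) &&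
        o.p.all fun p => ps.any fun q => p.n == q.n
    | _, _, _, _ => false
  | none => false

variable {Z : Type} [MetricSpace Z]

namespace Geo
variable {Γ : Geo Z}

theorem O_B (x : Γ.Pl) : (Γ.O x).B = Γ.Rg x.2 x.1.B := rfl
theorem O_S (x : Γ.Pl) : (Γ.O x).S = Γ.Rg x.2 x.1.S := rfl

/-- the feet of level `m` that are ports of `x` -/
def Fm (m : ℕ) (x : Γ.Pl) : Set Γ.tw.φ := {f | f.1.1 = m ∧ f.1.2 ∈ (Γ.O x).P}

theorem tree_step {m : ℕ} {x : Γ.Pl} {ch : ℕ × List (ℕ × TD)} {V : Γ.Pl → Set Γ.tw.β}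
    (e : tRun x.1 ch = true) (hr : ∀ y ∈ Γ.kids x, ∀ f ∈ (Γ.O y).P, ∃ z ∈ Γ.Lv m, f ∈ (Γ.O z).P)
    (hT : ∀ y ∈ Γ.kids x, Tree Γ.tw false (Γ.O y).B (Γ.O y).S (Fm m y) (V y)) :
    Tree Γ.tw false (Γ.O x).B (Γ.O x).S (Fm m x) (⋃ y ∈ Γ.kids x, V y) := by
  obtain ⟨k, g⟩ := x
  unfold tRun at e
  split at e
  swap
  · cases e
  rename_i c ec
  split at e
  swap
  · cases e
  rename_i o ks fr l b s e1 e2 e3 e4
  simp only [Bool.and_eq_true, List.all_eq_true, decide_eq_true_eq, List.mem_range,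
    List.contains_iff_mem, beq_iff_eq, List.any_eq_true] at e
  obtain ⟨⟨⟨⟨⟨⟨k1, k2⟩, k3⟩, k4⟩, k5⟩, k6⟩, k7⟩ := e
  obtain rfl := Nat.eq_of_beq_eq_true k1
  obtain rfl := Nat.eq_of_beq_eq_true k2
  obtain ⟨R', h⟩ := Γ.gkC_val ec g
  have f := kid_mapO e2
  have ln : ks.length = (gkids k).length := by rw [← f.length_eq, List.length_map]
  let y : ∀ n, n < (gkids k).length → Γ.Pl := fun n hn => ((gkids k)[n].2, g * Γ.ev (gkids k)[n].1)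
  have hy : ∀ n hn, y n hn ∈ Γ.kids (k, g) := fun n hn => ⟨_, List.getElem_mem hn, rfl⟩
  have ob : ∀ n (hn : n < (gkids k).length),
      c.obj ((gkids k)[n].1, (gkids k)[n].2.ao) = some (ks[n]'(ln ▸ hn)) := fun n hn => by
    simpa using f.get (i := n) (by simpa using hn) (ln ▸ hn)
  have m0 := h.mat e1
  rw [ev, mul_one] at m0
  have mk : ∀ n hn, Γ.Mat g R' (ks[n]'(ln ▸ hn)) (Γ.O (y n hn)) := fun n hn => h.mat (ob n hn)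
  have ps : ∀ q ∈ ks.flatMap TO'.p, ∃ n, ∃ hn : n < (gkids k).length,
      q ∈ (ks[n]'(ln ▸ hn)).p := fun q hq => by
    obtain ⟨a, ha, hq⟩ := List.mem_flatMap.1 hq
    obtain ⟨n, hn, rfl⟩ := List.getElem_of_mem ha
    exact ⟨n, ln ▸ hn, hq⟩
  let fs : ℕ → Set Γ.tw.φ := fun a =>
    {f | f.1.1 = m ∧ ∃ q ∈ ks.flatMap TO'.p, q.o = a ∧ f.1.2 = Γ.sem g q}
  have ft : ∀ t ∈ o :: ks, ∀ z : Γ.Pl, Γ.Mat g R' t (Γ.O z) →
      (∀ p ∈ t.p, ∃ q ∈ ks.flatMap TO'.p, p.n = q.n) →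
      ftOf ((ks.flatMap TO'.p).map TP.o) fs t.s = Fm m z := fun t ht z hm hp => by
    have k := fun q hq => (Bool.eq_iff_iff.1 (k6 t ht q hq)).trans
      (show t.has q = true ↔ ∃ p ∈ t.p, q.n = p.n by simp [TO'.has])
    ext f
    constructor
    · rintro ⟨_, -, hs, hl, q, hq, rfl, e⟩
      obtain ⟨p, hp, n⟩ := (k q hq).1 hs
      exact ⟨hl, (hm.p _).2 ⟨p, hp, by rw [e, sem, sem, n]⟩⟩
    · rintro ⟨hl, hf⟩
      obtain ⟨p, hp', e⟩ := (hm.p _).1 hf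
      obtain ⟨q, hq, n⟩ := hp p hp'
      exact ⟨q.o, List.mem_map_of_mem hq, (k q hq).2 ⟨p, hp', n.symm⟩, hl, q, hq, rfl,
        by rw [e, sem, sem, n]⟩
  have := (shell_ok h.ok e4).treeS (σ := Γ.tw) e4 tw_ok0 h.ok.rl (h.ndB _) (fr := fr)
    (by rw [h.tau _ _ _ e3]; exact Γ.Rg_free _ (by decide +kernel))
    (hs := (ks.flatMap TO'.p).map TP.o) (fs := fs)
    (V := fun n => ⋃ hn : n < (gkids k).length, V (y n hn)) (fun a ha => ?_) k3 fun n hn w sw e => ?_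
  · rw [m0.b, m0.s, ft o (List.mem_cons_self ..) (k, g) m0 k7] at this
    refine (?_ : ⋃ y ∈ Γ.kids (k, g), V y =
      ⋃ n ∈ full fr ch.1 l, ⋃ hn : n < (gkids k).length, V (y n hn)) ▸ this
    ext w
    simp only [mem_iUnion]
    constructor
    · rintro ⟨_, ⟨a, ha, rfl⟩, hw⟩
      obtain ⟨n, hn, rfl⟩ := List.getElem_of_mem ha
      exact ⟨n, k5 n hn, hn, hw⟩
    · exact fun ⟨n, _, hn, hw⟩ => ⟨_, hy n hn, hw⟩
  · obtain ⟨q, hq, rfl⟩ := List.mem_map.1 ha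
    obtain ⟨n, hn, hq'⟩ := ps q hq
    refine ⟨⟨⟨(m, Γ.sem g q), hr _ (hy n hn) _ (((mk n hn).p _).2 ⟨q, hq', rfl⟩)⟩, rfl, q, hq, rfl, rfl⟩,
      fun f ⟨_, q', hq', e, e'⟩ => ⟨?_, ?_⟩⟩
    · obtain ⟨n, hn, hq'⟩ := ps q' hq'
      rw [← e, ((mk n hn).h q' hq').2, ← e']
      exact z_sub _
    · exact (Γ.pad_hit _).mono (inter_subset_right.trans ((Γ.Rg_rl _).sub (by decide +kernel)))
  · have hn := k4 n hn
    obtain ⟨rfl, rfl⟩ : w = (ks[n]'(ln ▸ hn)).b ∧ sw = (ks[n]'(ln ▸ hn)).s := by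
      obtain ⟨b, e1, e'⟩ := Option.bind_eq_some_iff.1 (ob n hn)
      obtain ⟨s, e2, e'⟩ := Option.bind_eq_some_iff.1 e'
      obtain ⟨p, -, e'⟩ := Option.map_eq_some_iff.1 e'
      simp only [ndK, List.getElem?_eq_getElem hn] at e
      rw [show c.tau _ (gkids k)[n].2.B = _ from e1, show c.tau _ (gkids k)[n].2.S = _ from e2] at e
      cases e
      rw [← e']
      exact ⟨rfl, rfl⟩
    rw [(mk n hn).b, (mk n hn).s, ft _ (List.mem_cons_of_mem _ (List.getElem_mem _)) _ (mk n hn)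
      fun p hp => ⟨p, List.mem_flatMap.2 ⟨_, List.getElem_mem _, hp⟩, rfl⟩]
    simp only [hn, iUnion_true]
    exact hT _ (hy n hn)

theorem tree_lf {m : ℕ} {x : Γ.Pl} (h : x ∈ Γ.Lv m) :
    Tree Γ.tw false (Γ.O x).B (Γ.O x).S (Fm m x) {w | w.1 = (m, x)} := by
  rw [show {w : Γ.tw.β | w.1 = (m, x)} = {⟨(m, x), h⟩} from
    Set.ext fun _ => ⟨fun e => Subtype.ext e, fun e => congrArg Subtype.val e⟩]
  exact Tree.leaf (σ := Γ.tw) ⟨(m, x), h⟩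

theorem sub_eq (v : Γ.tw.β) : (⋃ f ∈ Γ.tw.F v, Γ.tw.sub f) = Fm (v.1.1 + 1) (Γ.nx v.1.2) := by
  ext g
  simp only [mem_iUnion, Fm, mem_ofPred_eq, (O_up (Lv_leaf v.2)).p]
  exact ⟨fun ⟨f, hf, e, h⟩ => ⟨e.trans (congrArg (· + 1) hf.1), _, hf.2, h⟩,
    fun ⟨e, f, hf, h⟩ => ⟨⟨(v.1.1, f), _, v.2, hf⟩, ⟨rfl, hf⟩, e, h⟩⟩

theorem tw_s2 (v : Γ.tw.β) :
    Tree Γ.tw false (Γ.tw.B v) (Γ.tw.S v) (⋃ f ∈ Γ.tw.F v, Γ.tw.sub f) (Γ.tw.ch v) := by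
  have dl : tRun .lens chLens = true := by decide +kernel
  rw [sub_eq]
  obtain ⟨⟨m, x⟩, hx⟩ := v
  have := tree_step (m := m + 1) (x := Γ.nx x)
    (ch := match x.1 with | .ly e _ => chPy e | _ => chLens)
    (V := fun y => ⋃ z ∈ Γ.kids y, {w | w.1 = (m + 1, z)}) ?_ (fun y hy f => nx_port hx hy)
    fun y hy => ?_
  · rw [(O_up (Lv_leaf hx)).b, (O_up (Lv_leaf hx)).s] at this
    refine (?_ : Γ.tw.ch ⟨(m, x), hx⟩ = ⋃ y ∈ Γ.kids (Γ.nx x), ⋃ z ∈ Γ.kids y,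
      {w | w.1 = (m + 1, z)}) ▸ this
    ext w
    simp only [mem_iUnion]
    exact ⟨fun ⟨e, y, hy, hz⟩ => ⟨y, hy, _, hz, Prod.ext e rfl⟩,
      fun ⟨y, hy, z, hz, e⟩ => ⟨congrArg Prod.fst e, y, hy, (congrArg Prod.snd e).symm ▸ hz⟩⟩
  · have := Lv_leaf hx
    obtain ⟨_ | _ | _ | ⟨e, t⟩ | _, g⟩ := x
    · cases this
    · cases this
    · exact dl
    · exact (by decide +kernel : ∀ e t, tRun (.py e t) (chPy e) = true) e t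
    · cases this
  · have lv : ∀ z ∈ Γ.kids y, z ∈ Γ.Lv (m + 1) := fun z hz => ⟨x, hx, y, hy, hz⟩
    rcases kids_kind hy with l | ⟨l, -⟩
    · simp only [kids_leaf l, iUnion_iUnion_eq_left]
      exact tree_lf (lv y ((kids_leaf l).2 rfl))
    · exact tree_step (ch := chLens) (l ▸ dl) (fun z hz f hf => ⟨z, lv z hz, hf⟩)
        fun z hz => tree_lf (lv z hz)

theorem tow_in {g : Γ.Fl} {w : Wd} {p : Pa} {s : ℕ}
    (e : (actW (w ++ p.1) hoM).any (fun a => dis a s) = true) :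
    Disjoint (Γ.po.H (Γ.pt (g * Γ.ev w) p) \ Γ.po.k (Γ.pt (g * Γ.ev w) p)) (Γ.Rg g s) := by
  obtain ⟨a, e1, e2⟩ := (Option.any_eq_true _ _).1 e
  rw [po_Ho, pt, mul_assoc, ← ev_append, Γ.actW_ok g e1]
  exact (Γ.Rg_rl g).dis e2

theorem lens_one {g : Γ.Fl} {z : Γ.Pl} (hz : z ∈ Γ.kids (.lens, g)) {f : Γ.Ft} (hf : f ∈ (Γ.O z).P)
    (n : ¬ Disjoint (Γ.po.H f \ Γ.po.k f) (Γ.O (.lens, g)).S) :
    ∃ e t, z.1 = .ly e t ∧ f = Γ.pt z.2 (bw e 0, t) := by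
  have d : ∀ a ∈ gkids .lens, ∀ p ∈ a.2.P,
      (actW (a.1 ++ p.1) hoM).any (fun a => dis a Gk.lens.S) = true ∨
        ∃ e t, a.2 = .ly e t ∧ p = (bw e 0, t) := by decide +kernel
  obtain ⟨a, ha, rfl⟩ := hz
  obtain ⟨p, hp, rfl⟩ := O_P.1 hf
  obtain ⟨e, t, h, rfl⟩ := (d a ha p hp).resolve_left fun k => n (by rw [O_S]; exact tow_in k)
  exact ⟨e, t, h, rfl⟩

theorem ch_pad {x z : Γ.Pl} (h : x.1.leaf = true) (hz : z ∈ Γ.ch x) {f : Γ.Ft} (hf : f ∈ (Γ.O z).P)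
    (hx : f ∈ (Γ.O (Γ.nx x)).P) (ok : (Γ.O (Γ.nx x)).Ok Γ.po) :
    ∃ e t, z.1 = .ly e t ∧ f = Γ.pt z.2 (bw e 0, t) := by
  obtain ⟨y, hy, hz⟩ := hz
  obtain ⟨p, hp⟩ := Γ.po_ok.inner f
  have hs := ok.sub f hx hp.1
  rcases kids_kind hy with l | ⟨l, -⟩
  · obtain rfl := (kids_leaf l).1 hz
    obtain ⟨_ | _ | _ | ⟨e, t⟩ | _, g⟩ := x
    · cases h
    · cases h
    · exact lens_one hy hf fun d => disjoint_left.1 d hp hs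
    · have d : ∀ e t, ∀ a ∈ gkids (.py e t), a.2.leaf = true → ∀ p ∈ a.2.P,
          (actW (a.1 ++ p.1) hoM).any (fun a => dis a (yR e)) = true := by decide +kernel
      obtain ⟨a, ha, rfl⟩ := hy
      obtain ⟨q, hq, rfl⟩ := O_P.1 hf
      exact (disjoint_left.1 (tow_in (d e t a ha l q hq)) hp hs).elim
    · cases h
  · obtain ⟨k, g⟩ := y
    obtain rfl : k = .lens := l
    exact lens_one hz hf fun d => disjoint_left.1 d hp ((O_kid _).rim ⟨_, hy⟩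
      ⟨(O_kid _).sub ⟨_, hz⟩ (((O_kid _).geo.ok ⟨_, hz⟩).hb hf hp.1), hs⟩)

/-- depth of the place and of the legs -/
def Dp (m : ℕ) (x : Γ.Pl) : Prop :=
  Desc Γ.u Γ.v Γ.r m x.2 ∧ ∀ e t, x.1 = .ly e t → ∀ a ∈ gkids (.py e t), a.2 = .lens →
    Desc Γ.u Γ.v Γ.r m (x.2 * Γ.ev a.1 : Γ.Fl)

theorem tow_nf {w : Wd} {a b j : ℕ} (e : nf w = [(a, b, j)]) :
    (Γ.ev w : Z ≃ₜ Z) = Γ.v ^ a * Γ.u ^ b * Γ.r ^ j := by
  rw [← ev_nf, e, evS, evS, one_mul]; rfl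

instance : DecidablePred fun t : Tp => chL t.1 t.2.1 t.2.2 := fun _ => by unfold chL; infer_instance

theorem dp_lens {m : ℕ} {g : Γ.Fl} (h : Desc Γ.u Γ.v Γ.r m g) : ∀ z ∈ Γ.kids (.lens, g), Dp (m + 1) z := by
  have k : ∀ w : Wd, (∃ t ∈ nf w, nf w = [t] ∧ chL t.1 t.2.1 t.2.2) →
      Desc Γ.u Γ.v Γ.r (m + 1) (g * Γ.ev w : Γ.Fl) := fun w ⟨t, _, e, c⟩ => by
    rw [Subgroup.coe_mul, tow_nf e]; exact h.succ c
  have d : ∀ a ∈ gkids .lens, (∃ t ∈ nf a.1, nf a.1 = [t] ∧ chL t.1 t.2.1 t.2.2) ∧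
      ∀ e t, a.2 = .ly e t → ∀ b ∈ gkids (.py e t), b.2 = .lens →
        ∃ t ∈ nf (a.1 ++ b.1), nf (a.1 ++ b.1) = [t] ∧ chL t.1 t.2.1 t.2.2 := by decide +kernel
  rintro _ ⟨a, ha, rfl⟩
  refine ⟨k _ (d a ha).1, fun e t c b hb l => ?_⟩
  rw [mul_assoc, ← ev_append]
  exact k _ ((d a ha).2 e t c b hb l)

theorem ch_lens {m : ℕ} {x z : Γ.Pl} (l : x.1.leaf = true) (h : Dp m x) (hz : z ∈ Γ.ch x) :
    ∃ g : Γ.Fl, Desc Γ.u Γ.v Γ.r m g ∧ z ∈ Γ.kids (.lens, g) := by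
  obtain ⟨y, hy, hz⟩ := hz
  rcases kids_kind hy with k | ⟨k, e, t, c⟩
  · obtain rfl := (kids_leaf k).1 hz
    obtain ⟨_ | _ | _ | ⟨e, t⟩ | _, g⟩ := x
    · cases l
    · cases l
    · exact ⟨g, h.1, hy⟩
    · obtain ⟨a, ha, rfl⟩ := hy
      exact ⟨g, h.1, a, (by decide : ∀ e t, ∀ a ∈ gkids (.py e t), a.2.leaf = true →
        a ∈ gkids .lens) e t a ha k, rfl⟩
    · cases l
  · obtain ⟨a, ha, rfl⟩ := hy
    obtain ⟨_ | _ | _ | ⟨e, t⟩ | _, g⟩ := x <;> cases c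
    · exact ⟨_, h.2 _ _ rfl a ha k, k ▸ hz⟩
    · cases l

theorem Lv_dp {m : ℕ} {x : Γ.Pl} (h : x ∈ Γ.Lv m) : Dp m x := by
  induction m generalizing x with
  | zero =>
    have k : ∀ w : Wd, (∃ t ∈ nf w, nf w = [t]) → Desc Γ.u Γ.v Γ.r 0 (1 * Γ.ev w : Γ.Fl) :=
      fun w ⟨t, _, e⟩ => by rw [one_mul, tow_nf e]; exact .zero _ _ _
    have d : ∀ a ∈ gkids .root, (∃ t ∈ nf a.1, nf a.1 = [t]) ∧
        ∀ e t, a.2 = .ly e t → ∀ b ∈ gkids (.py e t), b.2 = .lens →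
          ∃ t ∈ nf (a.1 ++ b.1), nf (a.1 ++ b.1) = [t] := by decide +kernel
    obtain ⟨a, ha, rfl⟩ := h
    refine ⟨k _ (d a ha).1, fun e t c b hb l => ?_⟩
    rw [mul_assoc, ← ev_append]
    exact k _ ((d a ha).2 e t c b hb l)
  | succ m ih =>
    obtain ⟨y, hy, hx⟩ := h
    obtain ⟨g, a, b⟩ := ch_lens (Lv_leaf hy) (ih hy) hx
    exact dp_lens a _ b

theorem Lv_small {n m : ℕ} (l : n + 1 ≤ m) {x : Γ.Pl} (h : x ∈ Γ.Lv m) :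
    ∃ g : Γ.Fl, Desc Γ.u Γ.v Γ.r n g ∧ (Γ.O x).B ⊆ Γ.Rg g x1 := by
  induction m, l using Nat.le_induction generalizing x with
  | base =>
    obtain ⟨y, hy, hx⟩ := h
    obtain ⟨g, a, b⟩ := ch_lens (Lv_leaf hy) (Lv_dp hy) hx
    exact ⟨g, a, ((O_kid _).sub ⟨_, b⟩).trans_eq (O_B _)⟩
  | succ m _ ih =>
    obtain ⟨y, hy, hx⟩ := h
    exact (ih hy).imp fun g k => ⟨k.1, (ch_sub (Lv_leaf hy) hx).1.trans k.2⟩

theorem tow_cov {g : Γ.Fl} {a b : ℕ} (h : sub a (Nat.lor b free) = true) :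
    Γ.K ∩ Γ.Rg g a ⊆ Γ.Rg g b := fun x hx => by
  have := (Γ.Rg_rl g).sub h hx.2
  rw [(Γ.Rg_rl _).or] at this
  exact this.resolve_right fun k => disjoint_left.1 (Γ.Rg_free _ (by decide +kernel)) k hx.1

theorem tw_ok (h5 : S5 Γ.tw) : Γ.tw.Ok := by
  have fin : ∀ v, ∀ f ∈ Γ.tw.F v, Γ.tw.A f ⊆ Γ.tw.S v := fun v f hf =>
    ((z_sub _).trans sdiff_subset).trans (((Lv_geo v.1.1).ok ⟨_, v.2⟩).sub _ hf.2)
  have pad : ∀ f : Γ.tw.φ, ∀ b, ∃ g ∈ Γ.tw.sub f, g.1.2 = Γ.po.pd f.1.2 b := fun f b =>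
    f.2.elim fun y hy => ⟨⟨(_, _), pad_rch hy.1 hy.2 b⟩, ⟨rfl, b, rfl⟩, rfl⟩
  have one : ∀ v, ∀ w ∈ Γ.tw.ch v, ∀ f ∈ Γ.tw.F w ∩ ⋃ f ∈ Γ.tw.F v, Γ.tw.sub f,
      ∃ e t, w.1.2.1 = .ly e t ∧ f.1.2 = Γ.pt w.1.2.2 (bw e 0, t) := fun v w hw f hf => by
    rw [sub_eq] at hf
    exact ch_pad (Lv_leaf v.2) hw.2 hf.1.2 hf.2.2 ((Lv_up (Lv_geo v.1.1)).ok ⟨_, v.2⟩)
  refine ⟨tw_ok0, fun f => ⟨Γ.z_disc _, Γ.Rg_free _ (by decide +kernel), (Γ.pad_hit _).mono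
      (inter_subset_inter_right _ ((Γ.Rg_rl _).sub (by decide +kernel)))⟩, fun f => ?_, tw_fdj,
    fun f => ?_, fun f => ?_, fun f g hg => ⟨hg.1, ?_⟩, fun f x hx => ?_, fun v => ?_,
    fun v f hf => ⟨hf.1, fin v f hf⟩, fun v x hx => ?_, fun v => ?_, fun v w hw => hw.1,
    fun v w e n => disjoint_left.2 fun z hz hz' => ?_, fun ε hε => ?_, tw_s2,
    fun v w hw f hf f' hf' => ?_, fun v w hw f hf => ?_, fun v => ?_, h5⟩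
  · obtain ⟨x, y, a, b⟩ := Γ.kid_oarc f.1.2.1 f.1.2.2
    exact ⟨_, x, y, a, (Γ.Rg_rl _).sub (by cases f.1.2.2 <;> decide +kernel), b⟩
  · refine Finite.of_finite_image (f := Subtype.val) ((finite_range fun b =>
      (f.1.1 + 1, Γ.po.pd f.1.2 b)).subset ?_) Subtype.val_injective.injOn
    rintro _ ⟨g, ⟨e, b, e'⟩, rfl⟩
    exact ⟨b, (Prod.ext e e').symm⟩
  · obtain ⟨g, hg, e⟩ := pad f true
    obtain ⟨g', hg', e'⟩ := pad f false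
    refine ⟨g, hg, g', hg', fun c => ?_⟩
    rw [c, e'] at e
    cases congrArg Prod.snd e
  · obtain ⟨-, b, e⟩ := hg
    exact (z_sub _).trans (e ▸ (tw_link.pad f b).2)
  · have := tow_cov (b := Nat.lor (padM true) (padM false)) (by decide +kernel) hx
    rw [(Γ.Rg_rl _).or, ← pad_H, ← pad_H] at this
    obtain ⟨b, h⟩ : ∃ b, x ∈ Γ.po.H (Γ.po.pd f.1.2 b) := this.elim (⟨_, ·⟩) (⟨_, ·⟩)
    obtain ⟨g, hg, e⟩ := pad f b
    exact mem_iUnion₂.2 ⟨g, hg, tow_cov (a := h12 0 0) (by decide +kernel) ⟨hx.1, by rwa [← e] at h⟩⟩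
  · refine Finite.of_finite_image (f := Subtype.val) (((List.finite_toSet v.1.2.1.P).image fun p =>
      (v.1.1, Γ.pt v.1.2.2 p)).subset ?_) Subtype.val_injective.injOn
    rintro _ ⟨g, ⟨e, h⟩, rfl⟩
    obtain ⟨p, hp, e'⟩ := O_P.1 h
    exact ⟨p, hp, (Prod.ext e e').symm⟩
  · have d : ∀ k : Gk, k.leaf = true → (c0.tauL (k.P.map fun p => (p.1, h12 0 0))).any
        (fun a => sub k.S (Nat.lor a free)) = true := by
      rintro (_ | _ | ⟨_ | _, _ | _⟩ | ⟨_ | _, _ | _⟩ | ⟨_ | _, _ | _⟩) <;> decide +kernel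
    obtain ⟨a, e1, e2⟩ := (Option.any_eq_true _ _).1 (d _ (Lv_leaf v.2))
    have := tow_cov e2 hx
    rw [(at_c0 _).tauL e1] at this
    obtain ⟨_, hq, h⟩ := this
    obtain ⟨p, hp, rfl⟩ := List.mem_map.1 hq
    exact mem_iUnion₂.2 ⟨⟨(v.1.1, Γ.pt _ p), _, v.2, O_P.2 ⟨p, hp, rfl⟩⟩, ⟨rfl, O_P.2 ⟨p, hp, rfl⟩⟩,
      tow_cov (g := v.1.2.2 * Γ.ev p.1) (a := h12 0 0) (by decide +kernel)
        ⟨hx.1, by simpa only [Ra] using h⟩⟩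
  · have d : ∀ k : Gk, k.leaf = true → sub (fc 37 1 1) k.B = true ∧
        sub (Nat.land (fc 37 1 1) k.S) free = true := by
      rintro (_ | _ | ⟨_ | _, _ | _⟩ | ⟨_ | _, _ | _⟩ | ⟨_ | _, _ | _⟩) <;> decide +kernel
    obtain ⟨x, hx, hx'⟩ := Γ.Rg_hit v.1.2.2 (w := wd 1 1 0) (m := fc 37 1 1) (by decide +kernel)
    have hb := (Γ.Rg_rl _).sub (d _ (Lv_leaf v.2)).1 hx'
    refine ⟨x, ⟨hx, hb⟩, ?_⟩
    rintro ⟨⟨m, f⟩, y, hy, hf⟩ (rfl : m = v.1.1) k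
    rcases (Lv_geo _).own ⟨y, hy⟩ ⟨_, v.2⟩ f hf with c | c
    · exact disjoint_left.1 c (z_sub f k) hb
    · refine disjoint_left.1 (Γ.Rg_free v.1.2.2 (d _ (Lv_leaf v.2)).2) ?_ hx
      rw [(Γ.Rg_rl _).and]
      exact ⟨hx', fin v ⟨(_, f), y, hy, hf⟩ ⟨rfl, c⟩ k⟩
  · obtain ⟨⟨m, v⟩, hv⟩ := v
    obtain ⟨⟨_, w⟩, hw⟩ := w
    cases e
    obtain ⟨p, hp, np⟩ := ball_inner (tw_ok0.ball z)
    have a := ch_sub (Lv_leaf hv) hz.2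
    exact np (a.2 ⟨hp, (Lv_geo m).sep ⟨v, hv⟩ ⟨w, hw⟩ (fun c => n (by cases c; rfl))
      ⟨a.1 hp, (ch_sub (Lv_leaf hw) hz'.2).1 hp⟩⟩)
  · obtain ⟨n, hn⟩ := Γ.mesh ε hε
    have k : ∀ v : Γ.tw.β, n + 1 ≤ Γ.tw.lv v → ∀ x ∈ Γ.tw.B v, ∀ y ∈ Γ.tw.B v, dist x y < ε :=
      fun v l x hx y hy => (Lv_small l v.2).elim fun g h => hn _ h.1 x (h.2 hx) y (h.2 hy)
    refine ⟨n + 1, k, fun f l x hx y hy => ?_⟩
    obtain ⟨z, hz, hf⟩ := f.2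
    have := (fin ⟨(_, z), hz⟩ f ⟨rfl, hf⟩).trans (tw_ok0.ball _).rim_sub
    exact k ⟨(_, z), hz⟩ l x (this hx) y (this hy)
  · obtain ⟨e, t, a, b⟩ := one v w hw f hf
    obtain ⟨e', t', a', b'⟩ := one v w hw f' hf'
    rw [a] at a'
    cases a'
    exact Subtype.ext (Prod.ext (hf.1.1.trans hf'.1.1.symm) (b.trans b'.symm))
  · obtain ⟨e, t, a, b⟩ := one v w hw f hf
    obtain ⟨⟨m, k, g⟩, h⟩ := w
    cases a
    have := Rch.cap (.inl h)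
    simp only [tw, b]
    exact this
  · obtain ⟨⟨m, x⟩, hx⟩ := v
    have l := Lv_leaf hx
    have d : ∀ k : Gk, k.leaf = true → ∃ a ∈ gkids k.nx, ∃ e t, a.2 = .ly e t := by
      rintro (_ | _ | ⟨_ | _, _ | _⟩ | ⟨_ | _, _ | _⟩ | ⟨_ | _, _ | _⟩) <;> decide
    obtain ⟨⟨w, k⟩, ha, e, t, rfl⟩ := d _ l
    have c : (Gk.ly e t, x.2 * Γ.ev w) ∈ Γ.ch x := ⟨_, ⟨_, ha, rfl⟩, (kids_leaf rfl).2 rfl⟩
    exact ⟨⟨(m + 1, _), x, hx, c⟩, ⟨rfl, c⟩, Rch.bud (m := m + 1) (.inl ⟨x, hx, c⟩)⟩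

end Geo

theorem lEx_of (h : ∀ Γ : Geo Stmt.S3, S5 Γ.tw) : F.LEx := fun Γ =>
  ⟨Γ.tw, rfl, Geo.tw_ok (h Γ), Geo.tw_root⟩

end Pool.Agent.Lib.MP_b7d179_gt.L
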