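import Pool.Agent.Lib.MP_b7d179_gt.L.Mach
import Pool.Agent.Lib.MP_b7d179_gt.L.Post
import Pool.Agent.Lib.MP_b7d179_gt.L.Certs
import Pool.Agent.Lib.MP_b7d179_gt.L.TowO
import Pool.Agent.Lib.MP_b7d179_gt.L.LaneY

/-! The export of the side of the limit set. -/

namespace Pool.Agent.Lib.MP_b7d179_gt.L

theorem lEx : F.LEx :=
  lEx_of fun Γ => s5_tw certs (Γ.pre0S certs) (Γ.baseS certs) (Γ.post1S certs) (Γ.post2S certs)
    (laneS certs Geo.tw_ok0 rfl tw_reach)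

end Pool.Agent.Lib.MP_b7d179_gt.L
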