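import Pool.Agent.Lib.MP_b7d179_gt.L.Tow
import Pool.Agent.Lib.MP_b7d179_gt.U.SolB

/-! Reachable objects are good balls; caps and buds. -/

namespace Pool.Agent.Lib.MP_b7d179_gt.L

open Set C

/-- the kids come first, then the cells of the table -/
def ndK (c : Chart) (ks : List (Wd × Gk)) (n : ℕ) : Option (ℕ × ℕ) :=
  match ks[n]? with
  | some a => (c.tau a.1 a.2.B).bind fun b => (c.tau a.1 a.2.S).map fun s => (b, s)
  | none => c.A.a3 (n - ks.length)

/-- the faces `fc 37 a b` and `fc 36 a b` -/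
def hitL : List ℕ := ([0, 1, 2].flatMap fun a => [0, 1, 2].flatMap fun b =>
  [wd a b 0, wd a b 5]).filterMap fun w => actW w (fc 37 0 0)

/-- a checked chain of good balls and free cells -/
def gRun (ks : List (Wd × Gk)) (ch : ℕ × List (ℕ × TD)) : Option (ℕ × ℕ) :=
  (shell vx (ndK c0 ks) ch.1 ch.2).bind fun r =>
    if gOk free hitL r.1 && (full free ch.1 r.1).all fun n => n < ks.length then some r.2 else none

/-- the check of `sol_cert` for two chains -/
def sRun (ks : List (Wd × Gk)) (cl cr : ℕ × List (ℕ × TD)) (tt td : TD) (b s t c : ℕ) : Bool :=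
  match gRun ks cl, gRun ks cr, vx.evD tt, vx.evD td with
  | some (bl, sl), some (br, sr), some (t', c'), some (d, c'') =>
    Nat.beq t' t && Nat.beq c' c && Nat.beq c'' c && hitL.any fun h =>
      Nat.beq sl (Nat.lor t d) && Nat.beq sr (Nat.lor (df s t) d) && Nat.beq (Nat.land bl s) t &&
      Nat.beq (Nat.land bl br) d && Nat.beq (Nat.land d s) c && Nat.beq b (Nat.lor br bl) &&
      sub c free && sub h d
  | _, _, _, _ => false

def chRoot : ℕ × List (ℕ × TD) :=
  (0, [(6, (36, [])), (3, (37, [])), (7, (86, [])), (4, (87, [])), (8, (136, [])), (5, (137, [])),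
    (9, (187, [])), (10, (237, [])), (11, (287, [])), (12, (337, [])), (13, (387, [])), (14, (437,
    [])), (358, (40, [(333, [10, 14]), (334, [6, 659]), (383, [110, 114]), (384, [106, 759]),
    (433, [210, 214]), (434, [206, 859])])), (2, (336, [(339, [630, 634, 638]), (386, [730, 734,
    738]), (436, [830, 834, 838])])), (208, (183, [(184, [358]), (340, [606, 610, 614]), (233,
    [710, 714]), (234, [458, 707]), (283, [810, 814]), (284, [558, 807])])), (1, (186, [(189,
    [330, 334, 338]), (236, [430, 434, 438]), (286, [530, 534, 538])])), (59, (31, [(32, [56]),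
    (41, [18, 22, 26]), (92, [103, 147, 143]), (330, [652, 50, 755]), (331, [626, 648, 742, 746]),
    (332, [618, 622, 656, 702]), (180, [352, 650, 455]), (181, [326, 348, 442, 446]), (182, [318,
    322, 356, 402])])), (109, (81, [(82, [156]), (91, [118, 122, 126]), (142, [203, 247, 243]),
    (380, [752, 150, 855]), (381, [726, 748, 842, 846]), (382, [718, 722, 756, 802]), (230, [452,
    750, 555]), (231, [426, 448, 542, 546]), (232, [418, 422, 456, 502])])), (159, (42, [(131,
    [47, 43]), (132, [3, 257]), (141, [218, 222, 226]), (430, [654, 251, 853]), (431, [647, 643,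
    849, 827]), (432, [603, 857, 823, 819]), (280, [354, 851, 553]), (281, [347, 343, 549, 527]),
    (282, [303, 557, 523, 519])]))])
def chLens : ℕ × List (ℕ × TD) :=
  (0, [(4, (236, [])), (2, (237, [])), (5, (286, [])), (3, (287, [])), (6, (387, [])), (7, (437,
    [])), (51, (83, [(84, [158]), (190, [406, 410, 414]), (133, [510, 514]), (134, [258, 507])])),
    (201, (189, [(233, [430]), (234, [439, 435, 458]), (283, [530]), (284, [539, 535, 558])])),
    (1, (340, [(386, [706, 710, 714]), (436, [806, 810, 814])])), (351, (339, [(383, [730]), (384,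
    [759, 734, 738]), (433, [830]), (434, [859, 834, 838])])), (52, (30, [(92, [154]), (180,
    [454]), (181, [348, 442, 446]), (182, [350, 403, 357]), (330, [755]), (331, [648, 742, 746]),
    (332, [650, 703, 657])])), (102, (80, [(91, [152]), (142, [254]), (232, [423, 419, 450, 503]),
    (231, [427, 456, 547, 543]), (230, [453, 448, 554]), (382, [723, 719, 750, 803]), (381, [727,
    756, 847, 843]), (380, [753, 748, 854])])), (152, (130, [(141, [252]), (280, [552]), (281,
    [549, 527]), (282, [557, 523, 519, 550]), (430, [853]), (431, [849, 827]), (432, [857, 823,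
    819, 850])]))])
def chPyS : ℕ × List (ℕ × TD) :=
  (1, [(3, (237, [])), (2, (387, [])), (48, (83, [(84, [158]), (190, [406, 410, 414])])), (198,
    (189, [(233, [430]), (234, [439, 435, 458]), (340, [706, 710, 714])])), (4, (133, [(134,
    [258]), (287, [506, 510, 514]), (283, [530]), (284, [539, 535, 558]), (437, [806, 810,
    814])])), (348, (339, [(383, [730]), (384, [759, 734, 738]), (433, [830]), (434, [859, 834,
    838])])), (49, (30, [(92, [154]), (180, [454]), (181, [348, 442, 446]), (182, [350, 403,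
    357]), (330, [755]), (331, [648, 742, 746]), (332, [650, 703, 657])])), (99, (80, [(91,
    [152]), (142, [254]), (232, [423, 419, 450, 503]), (231, [427, 456, 547, 543]), (230, [453,
    448, 554]), (382, [723, 719, 750, 803]), (381, [727, 756, 847, 843]), (380, [753, 748,
    854])])), (149, (130, [(141, [252]), (280, [552]), (281, [549, 527]), (282, [557, 523, 519,
    550]), (430, [853]), (431, [849, 827]), (432, [857, 823, 819, 850])])), (0, (31, [(32, [56]),
    (39, [48]), (40, [50]), (81, [148]), (87, [115, 111, 107, 103, 147, 143, 139, 135, 131, 127]),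
    (82, [157, 123, 119, 150]), (131, [249]), (137, [215, 211, 207, 203, 247, 243, 239, 235, 231,
    227]), (132, [257, 223, 219, 250])]))])
def chPyE : ℕ × List (ℕ × TD) :=
  (1, [(3, (236, [])), (2, (286, [])), (48, (83, [(84, [158]), (190, [406, 410, 414]), (133, [510,
    514]), (134, [258, 507])])), (198, (189, [(233, [430]), (234, [439, 435, 458]), (283, [530]),
    (284, [539, 535, 558])])), (4, (340, [(386, [706, 710, 714]), (436, [806, 810, 814])])), (348,
    (339, [(383, [730]), (384, [759, 734, 738]), (433, [830]), (434, [859, 834, 838])])), (49,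
    (30, [(92, [154]), (180, [454]), (181, [348, 442, 446]), (182, [350, 403, 357]), (330, [755]),
    (331, [648, 742, 746]), (332, [650, 703, 657])])), (99, (80, [(91, [152]), (142, [254]), (232,
    [423, 419, 450, 503]), (231, [427, 456, 547, 543]), (230, [453, 448, 554]), (382, [723, 719,
    750, 803]), (381, [727, 756, 847, 843]), (380, [753, 748, 854])])), (149, (130, [(141, [252]),
    (280, [552]), (281, [549, 527]), (282, [557, 523, 519, 550]), (430, [853]), (431, [849, 827]),
    (432, [857, 823, 819, 850])])), (0, (33, [(34, [58]), (41, [52]), (42, [54]), (183, [352]),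
    (186, [331, 327, 323, 319, 315, 311, 307, 303, 347, 343]), (184, [355, 339, 335, 358]), (333,
    [653]), (336, [631, 627, 623, 619, 615, 611, 607, 603, 647, 643]), (334, [655, 639, 635,
    658])]))])
def budLS : ℕ × List (ℕ × TD) :=
  (3, [(49, (92, []))])
def budRS : ℕ × List (ℕ × TD) :=
  (0, [(4, (137, [])), (1, (287, [])), (2, (437, [])), (48, (39, [(133, [230]), (134, [239, 235,
    258]), (190, [506, 510, 514])])), (198, (189, [(283, [530]), (284, [539, 535, 558]), (340,
    [806, 810, 814])])), (348, (40, [(433, [210, 214]), (339, [830]), (434, [206, 859, 834,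
    838])])), (99, (80, [(81, [148]), (82, [156]), (142, [203, 247, 243, 254]), (230, [554]),
    (231, [448, 542, 546]), (232, [450, 503, 457]), (380, [150, 855]), (381, [748, 842, 846]),
    (382, [750, 803, 757])])), (149, (130, [(131, [249]), (132, [257]), (141, [218, 222, 226,
    252]), (280, [552]), (281, [549, 527]), (282, [557, 523, 519, 550]), (430, [251, 853]), (431,
    [849, 827]), (432, [857, 823, 819, 850])]))])
def budTS : TD :=
  (41, [])
def budDS : TD :=
  (30, [(31, [48]), (32, [56]), (84, [154]), (83, [158]), (87, [103, 147, 143, 139, 135, 131]),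
    (91, [118, 122, 126, 152]), (182, [350]), (181, [356]), (180, [348]), (233, [452]), (237,
    [431, 427, 423, 419, 415, 411, 407, 403, 447, 443]), (234, [455, 439, 435, 458]), (330, [50]),
    (331, [648]), (383, [110, 114, 753]), (384, [758, 107, 755]), (387, [747, 743, 739, 735, 731,
    727, 723, 719, 715, 711, 707]), (332, [650, 703, 657])])
def budLE : ℕ × List (ℕ × TD) :=
  (3, [(48, (190, []))])
def budRE : ℕ × List (ℕ × TD) :=
  (0, [(4, (336, [])), (1, (386, [])), (2, (436, [])), (198, (183, [(184, [358]), (340, [606, 610,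
    614]), (233, [710, 714]), (234, [458, 707]), (283, [810, 814]), (284, [558, 807])])), (348,
    (333, [(334, [659]), (339, [630, 634, 638]), (383, [730]), (384, [759, 734, 738]), (433,
    [830]), (434, [859, 834, 838])])), (49, (41, [(180, [352]), (92, [454]), (332, [623, 619, 650,
    703]), (331, [627, 656, 747, 743]), (330, [653, 648, 754])])), (99, (91, [(230, [452]), (142,
    [554]), (382, [723, 719, 750, 803]), (381, [727, 756, 847, 843]), (380, [753, 748, 854])])),
    (149, (42, [(280, [354]), (141, [552]), (432, [602, 851, 818, 822]), (431, [642, 646, 857,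
    826]), (430, [655, 849, 852])]))])
def budTE : TD :=
  (39, [])
def budDE : TD :=
  (30, [(33, [52]), (34, [58]), (84, [154]), (83, [158]), (80, [152]), (130, [54]), (133, [252]),
    (182, [350]), (181, [356]), (186, [306, 310, 314, 318, 322, 326]), (189, [339, 335, 331,
    348]), (231, [448]), (236, [415, 411, 407, 403, 447, 443, 439, 435, 431, 427]), (232, [457,
    423, 419, 450]), (281, [347, 343, 549]), (282, [550, 303, 557]), (286, [503, 547, 543, 539,
    535, 531, 527, 523, 519, 515, 511]), (134, [258, 507, 255])])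

def chPy (e : Bool) : ℕ × List (ℕ × TD) := if e then chPyE else chPyS

variable {Z : Type} [MetricSpace Z]

namespace Geo
variable {Γ : Geo Z}

theorem hitL_ok (g : Γ.Fl) : ∀ m ∈ hitL, (Γ.K ∩ Γ.Rg g m).Nonempty := fun m hm => by
  obtain ⟨w, -, e⟩ := List.mem_filterMap.1 hm
  exact Γ.Rg_hit g e

theorem At.ndK {c : Chart} {g : Γ.Fl} {R' : ℕ → Set Z} (h : Γ.At c g R') {ks : List (Wd × Gk)}
    {n w s : ℕ} (hn : n < ks.length) (e : ndK c ks n = some (w, s)) :
    R' w = Γ.Rg (g * Γ.ev ks[n].1) ks[n].2.B ∧ R' s = Γ.Rg (g * Γ.ev ks[n].1) ks[n].2.S := by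
  simp only [L.ndK, List.getElem?_eq_getElem hn] at e
  obtain ⟨b, e1, e⟩ := Option.bind_eq_some_iff.1 e
  obtain ⟨s, e2, e⟩ := Option.map_eq_some_iff.1 e
  cases e
  exact ⟨h.tau _ _ _ e1, h.tau _ _ _ e2⟩

theorem At.ndB {c : Chart} {g : Γ.Fl} {R' : ℕ → Set Z} (h : Γ.At c g R') (ks : List (Wd × Gk)) :
    NdB R' (L.ndK c ks) := fun n w s e => by
  by_cases hn : n < ks.length
  · rw [(h.ndK hn e).1, (h.ndK hn e).2]; exact Γ.gk_ball _ _
  · simp only [L.ndK, List.getElem?_eq_none (not_lt.1 hn)] at e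
    exact h.ok.h3 _ _ _ e

theorem g_chain {g : Γ.Fl} {ks : List (Wd × Gk)} {ch : ℕ × List (ℕ × TD)} {b s : ℕ}
    (h : ∀ a ∈ ks, G Γ.tw (Γ.Rg (g * Γ.ev a.1) a.2.B) (Γ.Rg (g * Γ.ev a.1) a.2.S))
    (e : gRun ks ch = some (b, s)) : G Γ.tw (Γ.Rg g b) (Γ.Rg g s) := by
  obtain ⟨⟨l, b', s'⟩, e1, e⟩ := Option.bind_eq_some_iff.1 e
  split_ifs at e with k
  cases e
  simp only [Bool.and_eq_true, List.all_eq_true, decide_eq_true_eq] at k
  refine (shell_ok (Γ.Rg_ok g) e1).good (Γ.Rg_rl g) ((at_c0 g).ndB ks) (Γ.Rg_free g (m := free)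
    (by decide +kernel)) (hitL_ok g) k.1 fun n hn w sw e => ?_
  obtain ⟨a, b⟩ := (at_c0 g).ndK (k.2 n hn) e
  rw [a, b]
  exact h _ (List.getElem_mem _)

theorem s_chain {g : Γ.Fl} {ks : List (Wd × Gk)} {cl cr : ℕ × List (ℕ × TD)} {tt td : TD}
    {b s t c : ℕ} (h : ∀ a ∈ ks, G Γ.tw (Γ.Rg (g * Γ.ev a.1) a.2.B) (Γ.Rg (g * Γ.ev a.1) a.2.S))
    (e : sRun ks cl cr tt td b s t c = true) :
    Sol Γ.tw (Γ.Rg g b) (Γ.Rg g s) {(Γ.Rg g t, Γ.Rg g c)} := by
  unfold sRun at e
  split at e
  swap
  · cases e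
  rename_i bl sl br sr t' c' d c'' e1 e2 e3 e4
  rw [Bool.and_eq_true, Bool.and_eq_true, Bool.and_eq_true, List.any_eq_true] at e
  obtain ⟨⟨⟨k1, k2⟩, k3⟩, m, hm, k⟩ := e
  obtain rfl := Nat.eq_of_beq_eq_true k1
  obtain rfl := Nat.eq_of_beq_eq_true k2
  obtain rfl := Nat.eq_of_beq_eq_true k3
  exact sol_cert (Γ.Rg_rl g) (g_chain h e1) (g_chain h e2) ((Γ.Rg_ok g).evD glues e3)
    ((Γ.Rg_ok g).evD glues e4) (Γ.Rg_free g (m := free) (by decide +kernel)) (hitL_ok g m hm) k

theorem tw_leaf {m : ℕ} {x : Γ.Pl} (h : x ∈ Γ.Lv m) : G Γ.tw (Γ.Rg x.2 x.1.B) (Γ.Rg x.2 x.1.S) :=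
  G.leaf (σ := Γ.tw) ⟨(m, x), h⟩

theorem Rch.good {m : ℕ} {k : Gk} {g : Γ.Fl} (h : Γ.Rch m k g) :
    G Γ.tw (Γ.Rg g k.B) (Γ.Rg g k.S) := by
  rcases id h with h' | ⟨n, rfl, x, hx, h' | h'⟩
  · exact tw_leaf h'
  · cases h'
    have := tw_leaf hx
    obtain ⟨k, g⟩ := x
    cases k <;> exact this
  · rcases kids_kind h' with l | ⟨l, -⟩
    · exact tw_leaf (h.lv l)
    · obtain rfl : k = .lens := l
      refine g_chain (ks := gkids .lens) (ch := chLens) (fun a ha => tw_leaf ((h.kid ha).lv ?_))
        (by decide +kernel)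
      revert a
      decide

theorem tw_root : G Γ.tw (Γ.R root) (Γ.R (br 43 0 0)) := by
  rw [← Rg_one, ← Rg_one]
  exact g_chain (ks := gkids .root) (ch := chRoot)
    (fun a ha => tw_leaf (m := 0) (x := (a.2, 1 * Γ.ev a.1)) ⟨a, ha, rfl⟩) (by decide +kernel)

theorem Rch.cap {m : ℕ} {e t : Bool} {g : Γ.Fl} (h : Γ.Rch m (.ly e t) g) :
    SolU Γ.tw (Γ.Rg g (yB e)) (Γ.Rg g (yR e)) (Γ.Rg (g * Γ.ev (bw e 0)) zM) := by
  have s := s_chain (ks := gkids (.py e t)) (cl := (0, [])) (cr := ((chPy e).1, (chPy e).2.dropLast))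
    (tt := (if e then 38 else 35, [])) (td := ((chPy e).2.getLastD (0, 0, [])).2) (b := yB e) (s := yR e)
    (t := fc (if e then 38 else 35) 0 0) (c := kap 0 0)
    (fun a ha => ((h.nx rfl).kid ha).good) (by cases e <;> cases t <;> decide +kernel)
  rw [← Γ.actW_ok g (w := bw e 0) (m := h12 0 0) (m' := fc (if e then 38 else 35) 0 0)
    (by cases e <;> decide +kernel)] at s
  have a : Γ.Rg (g * Γ.ev (bw e 0)) zM ⊆ Γ.Rg (g * Γ.ev (bw e 0)) (h12 0 0) :=
    (Γ.Rg_rl _).sub (by decide +kernel)
  refine s.spine tw_ok0 (by rwa [biUnion_singleton]) ?_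
  rintro _ rfl
  rw [inter_eq_left.2 a]
  refine ⟨⟨(Γ.pad_hit _).mono (inter_subset_right.trans ((Γ.Rg_rl _).sub (by decide +kernel))),
    (Γ.z_disc _).conn⟩, fun x hx => ?_⟩
  have := (Γ.Rg_rl _).sub (b := Nat.lor zM free) (by decide +kernel) hx.2
  rw [(Γ.Rg_rl _).or] at this
  exact this.resolve_right fun k => disjoint_left.1 (Γ.Rg_free _ (by decide +kernel)) k hx.1

theorem Rch.bud {m : ℕ} {e t : Bool} {g : Γ.Fl} (h : Γ.Rch m (.ly e t) g) :
    ∃ E C, Disjoint E Γ.K ∧ Sol Γ.tw (Γ.Rg g (yB e)) (Γ.Rg g (yR e)) {(E, C)} :=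
  ⟨_, _, Γ.Rg_free g (by cases e <;> decide +kernel),
    s_chain (ks := gkids (.py e t)) (cl := if e then budLE else budLS) (cr := if e then budRE else budRS)
      (tt := if e then budTE else budTS) (td := if e then budDE else budDS)
      (t := fc (if e then 39 else 41) 0 0) (c := L.fr (if e then 39 else 41) 0 0)
      (fun a ha => ((h.nx rfl).kid ha).good) (by cases e <;> cases t <;> decide +kernel)⟩

end Geo

end Pool.Agent.Lib.MP_b7d179_gt.L
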