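import Pool.Agent.Lib.MP_b7d179_gt.L.LaneP
import Pool.Agent.Lib.MP_b7d179_gt.L.TowG

/-! The lane under one arc of a tripod: the check. -/

namespace Pool.Agent.Lib.MP_b7d179_gt.L

open C Gen

/-- the word of the leg at the foot number `j` -/
def lyW (e t : Bool) (j : Fin 3) : Wd := cond e (wd 0 (ord e t j.1) 5) (wd (ord e t j.1) 0 1)
/-- a pad with its rim -/
def padT (c : Chart) (x : Wd × Bool) : Option (ℕ × ℕ) :=
  (c.tau x.1 (padM x.2)).bind fun m => (c.tau x.1 (kap 0 (sd x.2))).map fun r => (m, r)
def popOk (fr D C : ℕ) (W : ℕ × ℕ) (a : ℕ × ℕ × ℕ) : Bool :=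
  Nat.beq (Nat.land a.1 W.1) a.2.2 && sub a.2.2 W.2 && sub W.1 (df D C) && sub a.1 fr &&
    sub a.1 D && Nat.beq (Nat.land a.1 C) a.2.1

/-- inner lollipop, outer lollipop and outer pad of a leg -/
def legOk (c : Chart) (e t : Bool) (fr D D' C : ℕ) (j : Fin 3) (x : TA × TA) :
    Option (ℕ × ℕ × ℕ) :=
  match padT c (cond e (lyW e t j) (lyW e t j ++ [s]), t), padT c (fw e t j, t), c.A.evA x.1,
    c.A.evA x.2, c.sp (lyW e t j) (.xq t t .PAR), c.tau (lyW e t j ++ [s]) (padM t),
    c.tau (lyW e t j) (padM t) with
  | some pi, some po, some ai, some ao, some (.fa S' X Y L0 _), some P1, some P2 =>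
    if popOk fr D C pi ai && popOk fr D' C po ao && Nat.beq ao.2.1 ai.2.1 &&
        Nat.beq (Nat.land (Nat.lor pi.1 ai.1) (Nat.lor po.1 ao.1)) ai.2.1 &&
        Nat.beq (Nat.lor (Nat.lor pi.1 ai.1) (Nat.lor po.1 ao.1))
          (Nat.lor (Nat.lor (Nat.lor ai.1 ao.1) P1) P2) &&
        sub (Nat.lor ai.1 ao.1) S' &&
        Nat.beq (Nat.land (Nat.lor ai.1 ao.1) (Nat.lor X Y)) (Nat.lor ai.2.2 ao.2.2) &&
        L0.any fun L => L0.any fun L' => sub ai.2.2 L && sub ao.2.2 L' && dis L L' then
      some (Nat.lor pi.1 ai.1, Nat.lor po.1 ao.1, po.1)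
    else none
  | _, _, _, _, _, _, _ => none

structure LY where
  l : List Rf
  cl : ℕ × List (ℕ × TD)
  cr : ℕ × List (ℕ × TD)
  t : TD
  d : TD
  ar : List (TA × TA)
  pr : List (TD × TD × TD)

/-- the translated data -/
structure LZ where
  s : ℕ
  fr : ℕ
  lr : List Stp
  sr : ℕ
  T : ℕ
  D : ℕ
  C : ℕ

/-- the check for the feet `i` and `i + 1` -/
def pairOk (c : Chart) (e t : Bool) (x : LY) (z : LZ) (i : Fin 3) : Bool :=
  let lg (j : Fin 3) := (x.ar[j.1]?).bind (legOk c e t z.fr z.D (Nat.lor (df z.s z.T) z.C) z.C j)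
  match lg i, lg (i + 1), (x.pr[i.1]?).bind (c.A.evD ·.1), (x.pr[i.1]?).bind (c.A.evD ·.2.1),
    (x.pr[i.1]?).bind (c.A.evD ·.2.2), c.tau (fw e t i) (Nat.lor (oM t) (padM t)),
    c.tau (fw e t (i + 1)) (Nat.lor (oM t) (padM t)), c.tau [] (visM e t) with
  | some (l, k, po), some (l', k', po'), some (T1, _), some (T2, C2), some (T3, C3), some M,
      some M', some V =>
    let xm := Nat.lor (Nat.lor l k) (Nat.lor l' k')
    (z.lr.all fun y => dis xm y.d && (!sub y.w z.fr || dis xm y.w)) && sub xm z.sr &&
    ((full z.fr x.cr.1 z.lr).all fun n =>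
      match ndK c (gkids (.py e t)) n with
      | some (_, sw) => Nat.beq (Nat.land xm sw) 0 ||
          (n == ord e t i.1 && Nat.beq (Nat.land xm sw) (Nat.lor l k)) ||
          (n == ord e t (i + 1).1 && Nat.beq (Nat.land xm sw) (Nat.lor l' k'))
      | none => false) &&
    dis l l' && dis k k' && sub T2 z.s && sub C2 z.fr &&
    sub (Nat.lor (Nat.lor k z.T) k') T2 && sub (df T2 (Nat.lor po po')) z.fr &&
    sub (Nat.lor po po') (Nat.lor k k') && sub T1 T2 && sub T1 T3 && sub (Nat.lor po po') T1 &&
    sub T3 z.s && sub C3 z.fr && sub (df T3 (Nat.lor po po')) z.fr &&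
    sub (Nat.lor (Nat.lor M V) M') T3
  | _, _, _, _, _, _, _, _ => false

def lyOk (e t : Bool) (x : LY) : Bool :=
  match yChart e [] x.l with
  | none => false
  | some c =>
    let nd := ndK c (gkids (.py e t))
    let hit := lpH.filterMap (c.tau [])
    match c.tau [] (yB e), c.tau [] (yR e), c.tauL (Gk.py e t).fr,
      shell c.A nd x.cl.1 x.cl.2, shell c.A nd x.cr.1 x.cr.2, c.A.evD x.t, c.A.evD x.d with
    | some b, some s0, some fr, some (ll, bl, sl), some (lr, br, sr), some (T, C), some (D, C') =>
      gOk fr hit ll && (full fr x.cl.1 ll).all (· < 5) && gOk fr hit lr &&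
      (full fr x.cr.1 lr).all (· < 5) && Nat.beq C' C && Nat.beq sl (Nat.lor T D) &&
      Nat.beq sr (Nat.lor (df s0 T) D) && Nat.beq (Nat.land bl s0) T && Nat.beq (Nat.land bl br) D &&
      Nat.beq (Nat.land D s0) C && Nat.beq b (Nat.lor br bl) && sub C fr && hit.any (sub · D) &&
      sub T fr && [0, 1, 2].all (pairOk c e t x ⟨s0, fr, lr, sr, T, D, C⟩)
    | _, _, _, _, _, _, _ => false

def lyD : Bool → Bool → LY
  | false, true =>
    ⟨[.dg 32 [18, 22, 56] [50, 103], .dg 182 [318, 322, 356] [350, 403], .dg 332 [618, 622, 656]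
    [650, 703]], (3, [(48, (83, [(84, [158])])), (198, (233, [(234, [458])])), (348, (383, [(384,
    [759])])), (49, (30, [(92, [154]), (180, [454]), (330, [755])])), (99, (80, [(91, [152]), (230,
    [452]), (380, [753])]))]), (4, [(0, (137, [])), (1, (287, [])), (2, (437, [])), (149, (131,
    [(132, [257]), (141, [218, 222, 226]), (281, [526]), (282, [557, 523, 519]), (431, [826]),
    (432, [857, 823, 819])]))]), (33, [(34, [58]), (41, [52]), (183, [352]), (184, [358]), (333,
    [653]), (334, [659])]), (31, [(32, [56]), (39, [48]), (81, [148]), (82, [156]), (87, [147, 143,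
    139, 135, 131, 127, 123, 119]), (130, [249]), (133, [231, 252]), (134, [239, 235, 258]), (142,
    [203, 247, 243, 254]), (190, [551, 515, 511, 507]), (231, [547, 543]), (189, [448]), (181,
    [348]), (232, [450, 503, 457]), (237, [447, 443, 439, 435, 431, 427, 423, 419, 415, 411, 407]),
    (280, [549]), (283, [531, 552]), (284, [555, 539, 535, 558]), (340, [851, 815, 811, 807]),
    (381, [847, 843]), (339, [748]), (331, [648]), (382, [750, 803, 757]), (387, [747, 743, 739,
    735, 731, 727, 723, 719, 715, 711, 707]), (430, [849]), (433, [853, 830]), (434, [855, 839,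
    835, 858]), (1801, [3600, 102]), (40, [251, 215, 211, 207, 151, 115, 111, 107, 51]), (1803,
    [350, 403]), (182, [3604, 357]), (1805, [650, 703]), (332, [3608, 657])]), [([3600], [956]),
    ([3604], [1856]), ([3608], [2756])], [((33, [(41, [52]), (183, [352]), (333, [653]), (481,
    [18]), (482, [10, 14, 956]), (537, [1003, 1047, 1043]), (931, [318]), (932, [310, 314, 1856]),
    (987, [1903, 1947, 1943])]), (33, [(34, [58]), (41, [52]), (183, [352]), (184, [358]), (333,
    [653]), (334, [659]), (481, [18]), (482, [10, 14, 956]), (537, [1003, 1047, 1043]), (931,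
    [318]), (932, [310, 314, 1856]), (987, [1903, 1947, 1943])]), (33, [(41, [52]), (183, [352]),
    (333, [653]), (481, [18]), (482, [10, 14, 956]), (489, [31, 27, 23, 948]), (490, [950]), (537,
    [1015, 1011, 1007, 1003, 1047, 1043, 1039, 1035, 1031]), (581, [1149]), (931, [318]), (932,
    [310, 314, 1856]), (939, [331, 327, 323, 1848]), (940, [1850]), (987, [1915, 1911, 1907, 1903,
    1947, 1943, 1939, 1935, 1931]), (1031, [2049])])), ((33, [(41, [52]), (183, [352]), (333,
    [653]), (931, [318]), (932, [310, 314, 1856]), (987, [1903, 1947, 1943]), (1381, [618]), (1382,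
    [610, 614, 2756]), (1437, [2803, 2847, 2843])]), (33, [(34, [58]), (41, [52]), (183, [352]),
    (184, [358]), (333, [653]), (334, [659]), (931, [318]), (932, [310, 314, 1856]), (987, [1903,
    1947, 1943]), (1381, [618]), (1382, [610, 614, 2756]), (1437, [2803, 2847, 2843])]), (33, [(41,
    [52]), (183, [352]), (333, [653]), (931, [318]), (932, [310, 314, 1856]), (939, [331, 327, 323,
    1848]), (940, [1850]), (987, [1915, 1911, 1907, 1903, 1947, 1943, 1939, 1935, 1931]), (1031,
    [2049]), (1381, [618]), (1382, [610, 614, 2756]), (1389, [631, 627, 623, 2748]), (1390,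
    [2750]), (1437, [2815, 2811, 2807, 2803, 2847, 2843, 2839, 2835, 2831]), (1481, [2949])])),
    ((33, [(41, [52]), (183, [352]), (333, [653]), (481, [18]), (482, [10, 14, 956]), (537, [1003,
    1047, 1043]), (1381, [618]), (1382, [610, 614, 2756]), (1437, [2803, 2847, 2843])]), (33, [(34,
    [58]), (41, [52]), (183, [352]), (184, [358]), (333, [653]), (334, [659]), (481, [18]), (482,
    [10, 14, 956]), (537, [1003, 1047, 1043]), (1381, [618]), (1382, [610, 614, 2756]), (1437,
    [2803, 2847, 2843])]), (33, [(41, [52]), (183, [352]), (333, [653]), (481, [18]), (482, [10,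
    14, 956]), (489, [31, 27, 23, 948]), (490, [950]), (537, [1015, 1011, 1007, 1003, 1047, 1043,
    1039, 1035, 1031]), (581, [1149]), (1381, [618]), (1382, [610, 614, 2756]), (1389, [631, 627,
    623, 2748]), (1390, [2750]), (1437, [2815, 2811, 2807, 2803, 2847, 2843, 2839, 2835, 2831]),
    (1481, [2949])]))]⟩
  | false, false =>
    ⟨[.dg 131 [42, 46, 257] [249, 227], .dg 431 [642, 646, 857] [849, 827], .dg 281 [342, 346, 557]
    [549, 527]], (4, [(348, (433, [(434, [859])])), (198, (283, [(284, [558])])), (48, (133, [(134,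
    [258])])), (149, (130, [(141, [252]), (280, [552]), (430, [853])])), (99, (80, [(142, [254]),
    (230, [554]), (380, [855])]))]), (3, [(0, (87, [])), (49, (31, [(32, [56]), (92, [103, 147,
    143])])), (1, (181, [(182, [356]), (237, [403, 447, 443])])), (2, (331, [(332, [656]), (387,
    [703, 747, 743])]))]), (33, [(34, [58]), (42, [54]), (184, [354]), (183, [358]), (334, [655]),
    (333, [659])]), (30, [(39, [48]), (81, [148]), (82, [156]), (40, [150]), (83, [130]), (84,
    [155, 139, 135, 158]), (91, [118, 122, 126, 152]), (132, [251]), (137, [223, 219, 215, 211,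
    207, 203, 247, 243, 239, 235, 231]), (190, [350, 406, 410, 414]), (231, [426]), (189, [448]),
    (180, [348]), (232, [457, 423, 419, 450]), (233, [431, 452]), (234, [455, 439, 435, 458]),
    (282, [551]), (287, [523, 519, 515, 511, 507, 503, 547, 543, 539, 535, 531]), (330, [50]),
    (340, [650, 706, 710, 714]), (381, [726]), (382, [757, 723, 719, 750]), (383, [110, 114, 753]),
    (384, [758, 107, 755]), (339, [648, 739, 735, 731, 748]), (432, [851]), (437, [823, 819, 815,
    811, 807, 803, 847, 843, 839, 835, 831]), (1801, [249, 227]), (131, [257, 3601]), (1803, [849,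
    827]), (431, [857, 3605]), (1805, [549, 527]), (281, [557, 3609])]), [([3600], [1157]),
    ([3604], [2957]), ([3608], [2057])], [((34, [(42, [54]), (184, [354]), (334, [655]), (581, [34,
    38]), (582, [43, 1157]), (587, [1118, 1122, 1126]), (1481, [634, 638]), (1482, [643, 2957]),
    (1487, [2918, 2922, 2926])]), (33, [(34, [58]), (42, [54]), (184, [354]), (183, [358]), (334,
    [655]), (333, [659]), (581, [34, 38]), (582, [43, 1157]), (587, [1118, 1122, 1126]), (1481,
    [634, 638]), (1482, [643, 2957]), (1487, [2918, 2922, 2926])]), (34, [(42, [54]), (184, [354]),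
    (334, [655]), (490, [7, 3, 47]), (482, [950]), (581, [34, 38]), (489, [1149]), (582, [1150, 43,
    1157]), (587, [1106, 1110, 1114, 1118, 1122, 1126, 1130, 1134, 1138]), (1390, [607, 603, 647]),
    (1382, [2750]), (1481, [634, 638]), (1389, [2949]), (1482, [2950, 643, 2957]), (1487, [2906,
    2910, 2914, 2918, 2922, 2926, 2930, 2934, 2938])])), ((34, [(42, [54]), (184, [354]), (334,
    [655]), (1031, [334, 338]), (1032, [343, 2057]), (1037, [2018, 2022, 2026]), (1481, [634,
    638]), (1482, [643, 2957]), (1487, [2918, 2922, 2926])]), (33, [(34, [58]), (42, [54]), (184,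
    [354]), (183, [358]), (334, [655]), (333, [659]), (1031, [334, 338]), (1032, [343, 2057]),
    (1037, [2018, 2022, 2026]), (1481, [634, 638]), (1482, [643, 2957]), (1487, [2918, 2922,
    2926])]), (34, [(42, [54]), (184, [354]), (334, [655]), (940, [307, 303, 347]), (932, [1850]),
    (1031, [334, 338]), (939, [2049]), (1032, [2050, 343, 2057]), (1037, [2006, 2010, 2014, 2018,
    2022, 2026, 2030, 2034, 2038]), (1390, [607, 603, 647]), (1382, [2750]), (1481, [634, 638]),
    (1389, [2949]), (1482, [2950, 643, 2957]), (1487, [2906, 2910, 2914, 2918, 2922, 2926, 2930,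
    2934, 2938])])), ((34, [(42, [54]), (184, [354]), (334, [655]), (581, [34, 38]), (582, [43,
    1157]), (587, [1118, 1122, 1126]), (1031, [334, 338]), (1032, [343, 2057]), (1037, [2018, 2022,
    2026])]), (33, [(34, [58]), (42, [54]), (184, [354]), (183, [358]), (334, [655]), (333, [659]),
    (581, [34, 38]), (582, [43, 1157]), (587, [1118, 1122, 1126]), (1031, [334, 338]), (1032, [343,
    2057]), (1037, [2018, 2022, 2026])]), (34, [(42, [54]), (184, [354]), (334, [655]), (490, [7,
    3, 47]), (482, [950]), (581, [34, 38]), (489, [1149]), (582, [1150, 43, 1157]), (587, [1106,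
    1110, 1114, 1118, 1122, 1126, 1130, 1134, 1138]), (940, [307, 303, 347]), (932, [1850]), (1031,
    [334, 338]), (939, [2049]), (1032, [2050, 343, 2057]), (1037, [2006, 2010, 2014, 2018, 2022,
    2026, 2030, 2034, 2038])]))]⟩
  | true, true =>
    ⟨[.dg 34 [39, 35, 58] [54, 306], .dg 84 [139, 135, 158] [154, 406], .dg 134 [239, 235, 258]
    [254, 506]], (3, [(49, (181, [(182, [356])])), (99, (231, [(232, [456])])), (149, (281, [(282,
    [557])])), (48, (30, [(190, [350]), (80, [450]), (130, [551])])), (198, (180, [(189, [348]),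
    (230, [448]), (280, [549])]))]), (4, [(0, (336, [])), (1, (386, [])), (2, (436, [])), (348,
    (333, [(334, [659]), (339, [630, 634, 638]), (383, [730]), (384, [759, 734, 738]), (433,
    [830]), (434, [859, 834, 838])]))]), (31, [(32, [56]), (39, [48]), (81, [148]), (82, [156]),
    (131, [249]), (132, [257])]), (33, [(34, [58]), (41, [52]), (183, [352]), (184, [358]), (186,
    [310, 314, 318, 322, 326, 330, 334, 338]), (330, [653]), (92, [755]), (234, [454]), (233,
    [458]), (91, [452]), (83, [152]), (236, [403, 447, 443, 439, 435, 431, 427, 423, 419, 415,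
    411]), (331, [626, 648, 742, 746]), (332, [618, 622, 656, 702]), (340, [606, 610, 614, 650,
    706, 710, 714]), (283, [810, 814]), (141, [552]), (133, [252]), (134, [258]), (284, [558,
    807]), (286, [510, 514, 518, 522, 526, 530, 534, 538]), (380, [753]), (381, [726, 748]), (382,
    [757, 723, 719, 750]), (430, [853]), (431, [849, 827]), (432, [857, 823, 819, 850]), (1801,
    [3600, 307]), (42, [655, 642, 646, 602, 355, 342, 346, 302, 55]), (1803, [154, 406]), (84,
    [158, 3605]), (1805, [3608, 507]), (142, [855, 842, 846, 802, 555, 542, 546, 502, 255])]),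
    [([3600], [956]), ([3608], [2756]), ([3604], [1856])], [((31, [(39, [48]), (81, [148]), (131,
    [249]), (481, [42]), (482, [34, 38, 956]), (537, [1003, 1047, 1043]), (1381, [242]), (1382,
    [234, 238, 2756]), (1437, [2803, 2847, 2843])]), (31, [(32, [56]), (39, [48]), (81, [148]),
    (82, [156]), (131, [249]), (132, [257]), (481, [42]), (482, [34, 38, 956]), (537, [1003, 1047,
    1043]), (1381, [242]), (1382, [234, 238, 2756]), (1437, [2803, 2847, 2843])]), (31, [(39,
    [48]), (81, [148]), (131, [249]), (481, [42]), (482, [34, 38, 956]), (489, [47, 948]), (490,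
    [26, 30, 950]), (537, [1015, 1011, 1007, 1003, 1047, 1043, 1039, 1035, 1031]), (581, [1149]),
    (1381, [242]), (1382, [234, 238, 2756]), (1389, [247, 2748]), (1390, [226, 230, 2750]), (1437,
    [2815, 2811, 2807, 2803, 2847, 2843, 2839, 2835, 2831]), (1481, [2949])])), ((31, [(39, [48]),
    (81, [148]), (131, [249]), (931, [142]), (932, [134, 138, 1856]), (987, [1903, 1947, 1943]),
    (1381, [242]), (1382, [234, 238, 2756]), (1437, [2803, 2847, 2843])]), (31, [(32, [56]), (39,
    [48]), (81, [148]), (82, [156]), (131, [249]), (132, [257]), (931, [142]), (932, [134, 138,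
    1856]), (987, [1903, 1947, 1943]), (1381, [242]), (1382, [234, 238, 2756]), (1437, [2803, 2847,
    2843])]), (31, [(39, [48]), (81, [148]), (131, [249]), (931, [142]), (932, [134, 138, 1856]),
    (939, [147, 1848]), (940, [126, 130, 1850]), (987, [1915, 1911, 1907, 1903, 1947, 1943, 1939,
    1935, 1931]), (1031, [2049]), (1381, [242]), (1382, [234, 238, 2756]), (1389, [247, 2748]),
    (1390, [226, 230, 2750]), (1437, [2815, 2811, 2807, 2803, 2847, 2843, 2839, 2835, 2831]),
    (1481, [2949])])), ((31, [(39, [48]), (81, [148]), (131, [249]), (481, [42]), (482, [34, 38,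
    956]), (537, [1003, 1047, 1043]), (931, [142]), (932, [134, 138, 1856]), (987, [1903, 1947,
    1943])]), (31, [(32, [56]), (39, [48]), (81, [148]), (82, [156]), (131, [249]), (132, [257]),
    (481, [42]), (482, [34, 38, 956]), (537, [1003, 1047, 1043]), (931, [142]), (932, [134, 138,
    1856]), (987, [1903, 1947, 1943])]), (31, [(39, [48]), (81, [148]), (131, [249]), (481, [42]),
    (482, [34, 38, 956]), (489, [47, 948]), (490, [26, 30, 950]), (537, [1015, 1011, 1007, 1003,
    1047, 1043, 1039, 1035, 1031]), (581, [1149]), (931, [142]), (932, [134, 138, 1856]), (939,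
    [147, 1848]), (940, [126, 130, 1850]), (987, [1915, 1911, 1907, 1903, 1947, 1943, 1939, 1935,
    1931]), (1031, [2049])]))]⟩
  | true, false =>
    ⟨[.dg 333 [15, 11, 659] [653, 630], .dg 433 [215, 211, 859] [853, 830], .dg 383 [115, 111, 759]
    [753, 730]], (4, [(149, (431, [(432, [857])])), (99, (381, [(382, [756])])), (49, (331, [(332,
    [656])])), (348, (330, [(339, [648]), (380, [748]), (430, [849])])), (198, (180, [(340, [650]),
    (230, [750]), (280, [851])]))]), (3, [(0, (186, [])), (48, (33, [(34, [58]), (190, [306, 310,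
    314])])), (1, (83, [(84, [158]), (236, [406, 410, 414])])), (2, (133, [(134, [258]), (286,
    [506, 510, 514])]))]), (31, [(32, [56]), (40, [50]), (82, [150]), (81, [156]), (132, [251]),
    (131, [257])]), (30, [(41, [52]), (92, [154]), (182, [323, 319, 350, 403]), (181, [327, 356,
    447, 443]), (183, [352]), (184, [358]), (42, [354]), (130, [54]), (141, [252]), (234, [454]),
    (233, [458]), (91, [452]), (80, [152]), (142, [254]), (232, [423, 419, 450, 503]), (231, [427,
    456, 547, 543]), (282, [302, 551, 518, 522]), (281, [342, 346, 557, 526]), (189, [548, 339,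
    335, 331, 348, 439, 435, 431, 448]), (283, [531, 552]), (284, [555, 539, 535, 558]), (334,
    [655]), (336, [627, 623, 619, 615, 611, 607, 603, 647, 643, 639, 635]), (384, [755]), (386,
    [727, 723, 719, 715, 711, 707, 703, 747, 743, 739, 735]), (434, [855]), (436, [827, 823, 819,
    815, 811, 807, 803, 847, 843, 839, 835]), (1801, [653, 630]), (333, [659, 3601]), (1803, [853,
    830]), (433, [859, 3605]), (1805, [753, 730]), (383, [759, 3609])]), [([3600], [1157]),
    ([3608], [2057]), ([3604], [2957])], [((32, [(40, [50]), (82, [150]), (132, [251]), (581, [10,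
    14]), (582, [19, 1157]), (587, [1118, 1122, 1126]), (1031, [110, 114]), (1032, [119, 2057]),
    (1037, [2018, 2022, 2026])]), (31, [(32, [56]), (40, [50]), (82, [150]), (81, [156]), (132,
    [251]), (131, [257]), (581, [10, 14]), (582, [19, 1157]), (587, [1118, 1122, 1126]), (1031,
    [110, 114]), (1032, [119, 2057]), (1037, [2018, 2022, 2026])]), (32, [(40, [50]), (82, [150]),
    (132, [251]), (489, [2, 6]), (490, [22]), (482, [950]), (581, [15, 11, 1149]), (582, [1150, 19,
    1157]), (587, [1106, 1110, 1114, 1118, 1122, 1126, 1130, 1134, 1138]), (939, [102, 106]), (940,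
    [122]), (932, [1850]), (1031, [115, 111, 2049]), (1032, [2050, 119, 2057]), (1037, [2006, 2010,
    2014, 2018, 2022, 2026, 2030, 2034, 2038])])), ((32, [(40, [50]), (82, [150]), (132, [251]),
    (1031, [110, 114]), (1032, [119, 2057]), (1037, [2018, 2022, 2026]), (1481, [210, 214]), (1482,
    [219, 2957]), (1487, [2918, 2922, 2926])]), (31, [(32, [56]), (40, [50]), (82, [150]), (81,
    [156]), (132, [251]), (131, [257]), (1031, [110, 114]), (1032, [119, 2057]), (1037, [2018,
    2022, 2026]), (1481, [210, 214]), (1482, [219, 2957]), (1487, [2918, 2922, 2926])]), (32, [(40,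
    [50]), (82, [150]), (132, [251]), (939, [102, 106]), (940, [122]), (932, [1850]), (1031, [115,
    111, 2049]), (1032, [2050, 119, 2057]), (1037, [2006, 2010, 2014, 2018, 2022, 2026, 2030, 2034,
    2038]), (1389, [202, 206]), (1390, [222]), (1382, [2750]), (1481, [215, 211, 2949]), (1482,
    [2950, 219, 2957]), (1487, [2906, 2910, 2914, 2918, 2922, 2926, 2930, 2934, 2938])])), ((32,
    [(40, [50]), (82, [150]), (132, [251]), (581, [10, 14]), (582, [19, 1157]), (587, [1118, 1122,
    1126]), (1481, [210, 214]), (1482, [219, 2957]), (1487, [2918, 2922, 2926])]), (31, [(32,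
    [56]), (40, [50]), (82, [150]), (81, [156]), (132, [251]), (131, [257]), (581, [10, 14]), (582,
    [19, 1157]), (587, [1118, 1122, 1126]), (1481, [210, 214]), (1482, [219, 2957]), (1487, [2918,
    2922, 2926])]), (32, [(40, [50]), (82, [150]), (132, [251]), (489, [2, 6]), (490, [22]), (482,
    [950]), (581, [15, 11, 1149]), (582, [1150, 19, 1157]), (587, [1106, 1110, 1114, 1118, 1122,
    1126, 1130, 1134, 1138]), (1389, [202, 206]), (1390, [222]), (1382, [2750]), (1481, [215, 211,
    2949]), (1482, [2950, 219, 2957]), (1487, [2906, 2910, 2914, 2918, 2922, 2926, 2930, 2934,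
    2938])]))]⟩

theorem lyD_ff : lyOk false false (lyD false false) = true := by decide +kernel
theorem lyD_ft : lyOk false true (lyD false true) = true := by decide +kernel
theorem lyD_tf : lyOk true false (lyD true false) = true := by decide +kernel
theorem lyD_tt : lyOk true true (lyD true true) = true := by decide +kernel

theorem lyD_ok : ∀ e t, lyOk e t (lyD e t) = true
  | false, false => lyD_ff
  | false, true => lyD_ft
  | true, false => lyD_tf
  | true, true => lyD_tt

end Pool.Agent.Lib.MP_b7d179_gt.L
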