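import Pool.Agent.Lib.MP_b7d179_gt.L.Lane
import Pool.Agent.Lib.MP_b7d179_gt.L.LaneA
import Pool.Agent.Lib.MP_b7d179_gt.C.Fin

/-! The lane under one arc of a tripod. -/

namespace Pool.Agent.Lib.MP_b7d179_gt.L

open Set C Gen

/-- word of the leg number `a` -/
def lw (e : Bool) (a : ℕ) : Wd := cond e (wd 0 a 5) (wd a 0 1)
/-- the inner and the outer side of a leg -/
def wi (e : Bool) : Wd := cond e [] [s]
def wo (e : Bool) : Wd := cond e [s] []
def sE (t : Bool) : ℕ := kv 0 0 (cond t 6 0)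
def qM (t : Bool) : ℕ := cond t (kv 0 1 0) (kv 0 2 6)
def fatM (t : Bool) : ℕ := orL [oM t, padM t, stU 0 1]
def fatT (t : Bool) : TD :=
  cond t (31, [(32, [56]), (39, [48]), (40, [50]), (81, [148]), (87, [115, 111, 107, 103, 147,
    143, 139, 135, 131, 127]), (82, [157, 123, 119, 150]), (131, [249])]) (32, [(40, [50]), (82,
    [150]), (81, [156]), (39, [148]), (131, [249]), (137, [215, 211, 207, 203, 247, 243, 239, 235,
    231, 227]), (132, [257, 223, 219, 250])])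
def fatC (t : Bool) : ℕ := ((vx.evD (fatT t)).getD (0, 0)).2
def zt (w : Wd) (m : ℕ) : ℕ := (actW w m).getD 0

def zS (e t : Bool) : List (List Ad × List Ad × List Ad) :=
  [([(wi e, sE t)], [(wi e, sE t)], [(wo e, iM t)]),
    ([(wi e, seamM !t)], [(wo e, h12 0 0)], [(wi e, sE t)]),
    ([(wi e, seamM !t)], [(wi e, seamM !t)], [([], Gk.lens.S)]),
    ([(wi e, seamM !t)], xD ++ xY t t .N, [(wi e, qM t)]),
    ([(wi e, qM t)], [(wi e, qM t)], xD), ([(wo e, qM t)], [(wo e, qM t)], xD),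
    ([(wi e, b0M t)], [(wo e, b0M t)], [])]
theorem zS_ok : ∀ e t, siOk .lens (zS e t) = true := by decide +kernel

structure LZ where
  l : ℕ × List (ℕ × TD)
  r : ℕ × List (ℕ × TD)
  t : TD
  d : TD

def lzD : Bool → Bool → LZ
  | false, true =>
    ⟨(3, [(48, (83, [(84, [158])])), (198, (233, [(234, [458])])), (348, (383, [(384, [759])])),
    (49, (30, [(92, [154]), (180, [454]), (330, [755])])), (99, (80, [(91, [152]), (230, [452]),
    (380, [753])]))]), (0, [(4, (137, [])), (1, (287, [])), (2, (437, [])), (149, (131, [(132,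
    [257]), (141, [218, 222, 226]), (281, [526]), (282, [557, 523, 519]), (431, [826]), (432,
    [857, 823, 819])]))]), (33, [(34, [58]), (41, [52]), (183, [352]), (184, [358]), (333, [653]),
    (334, [659])]), (31, [(32, [56]), (39, [48]), (40, [50]), (81, [148]), (87, [115, 111, 107,
    103, 147, 143, 139, 135, 131, 127]), (82, [157, 123, 119, 150]), (130, [249]), (133, [231,
    252]), (134, [239, 235, 258]), (142, [203, 247, 243, 254]), (190, [551, 515, 511, 507]), (182,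
    [350]), (181, [356]), (231, [547, 543]), (232, [450, 503, 457]), (237, [427, 423, 419, 415,
    411, 407, 403, 447, 443]), (189, [348, 439, 435, 431, 448]), (280, [549]), (283, [531, 552]),
    (284, [555, 539, 535, 558]), (340, [851, 815, 811, 807]), (332, [650]), (331, [656]), (381,
    [847, 843]), (382, [750, 803, 757]), (387, [727, 723, 719, 715, 711, 707, 703, 747, 743]),
    (339, [648, 739, 735, 731, 748]), (434, [207, 855, 839, 835]), (433, [215, 211, 859, 831]),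
    (430, [251, 853, 848])])⟩
  | false, false =>
    ⟨(4, [(48, (133, [(134, [258])])), (198, (283, [(284, [558])])), (348, (433, [(434, [859])])),
    (99, (80, [(142, [254]), (230, [554]), (380, [855])])), (149, (130, [(141, [252]), (280,
    [552]), (430, [853])]))]), (0, [(3, (87, [])), (1, (237, [])), (2, (387, [])), (49, (31, [(32,
    [56]), (92, [103, 147, 143]), (181, [447, 443]), (182, [356, 402]), (331, [747, 743]), (332,
    [656, 702])]))]), (33, [(34, [58]), (42, [54]), (184, [354]), (183, [358]), (334, [655]),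
    (333, [659])]), (30, [(39, [48]), (81, [148]), (82, [156]), (40, [150]), (83, [130]), (84,
    [155, 139, 135, 158]), (91, [118, 122, 126, 152]), (131, [249]), (137, [215, 211, 207, 203,
    247, 243, 239, 235, 231, 227]), (132, [257, 223, 219, 250]), (190, [350, 406, 410, 414]),
    (231, [426]), (189, [448]), (180, [348]), (232, [457, 423, 419, 450]), (233, [431, 452]),
    (234, [455, 439, 435, 458]), (281, [549]), (287, [515, 511, 507, 503, 547, 543, 539, 535, 531,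
    527]), (282, [557, 523, 519, 550]), (330, [50]), (340, [650, 706, 710, 714]), (381, [726]),
    (382, [757, 723, 719, 750]), (383, [110, 114, 753]), (384, [758, 107, 755]), (339, [648, 739,
    735, 731, 748]), (431, [849]), (437, [815, 811, 807, 803, 847, 843, 839, 835, 831, 827]),
    (432, [857, 823, 819, 850])])⟩
  | true, true =>
    ⟨(3, [(48, (190, [])), (198, (189, [])), (49, (30, [(182, [350]), (181, [356]), (180,
    [348])])), (99, (80, [(232, [450]), (231, [456]), (230, [448])])), (149, (130, [(282, [551]),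
    (281, [557]), (280, [549])]))]), (0, [(4, (336, [])), (1, (386, [])), (2, (436, [])), (348,
    (333, [(334, [659]), (339, [630, 634, 638]), (383, [730]), (384, [759, 734, 738]), (433,
    [830]), (434, [859, 834, 838])]))]), (31, [(32, [56]), (39, [48]), (81, [148]), (82, [156]),
    (131, [249]), (132, [257])]), (33, [(34, [58]), (41, [52]), (42, [54]), (183, [352]), (186,
    [331, 327, 323, 319, 315, 311, 307, 303, 347, 343]), (184, [355, 339, 335, 358]), (330,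
    [653]), (92, [755]), (84, [154]), (83, [158]), (91, [152]), (233, [452]), (236, [431, 427,
    423, 419, 415, 411, 407, 403, 447, 443]), (234, [455, 439, 435, 458]), (331, [626, 648, 742,
    746]), (332, [618, 622, 656, 702]), (340, [606, 610, 614, 650, 706, 710, 714]), (283, [810,
    814]), (141, [552]), (133, [252]), (134, [258]), (284, [558, 807]), (286, [506, 510, 514, 518,
    522, 526, 530, 534, 538]), (142, [254, 503, 547, 543, 554]), (382, [723, 719, 750, 803]),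
    (381, [727, 756, 847, 843]), (380, [753, 748, 854]), (432, [602, 851, 818, 822]), (431, [642,
    646, 857, 826]), (430, [655, 849, 852])])⟩
  | true, false =>
    ⟨(4, [(198, (340, [])), (348, (339, [])), (49, (180, [(332, [650]), (331, [656]), (330,
    [648])])), (99, (230, [(382, [750]), (381, [756]), (380, [748])])), (149, (280, [(432, [851]),
    (431, [857]), (430, [849])]))]), (0, [(3, (186, [])), (1, (236, [])), (2, (286, [])), (48,
    (33, [(34, [58]), (190, [306, 310, 314]), (83, [410, 414]), (84, [158, 407]), (133, [510,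
    514]), (134, [258, 507])]))]), (31, [(32, [56]), (40, [50]), (82, [150]), (81, [156]), (132,
    [251]), (131, [257])]), (30, [(41, [52]), (92, [154]), (182, [323, 319, 350, 403]), (181,
    [327, 356, 447, 443]), (183, [352]), (184, [358]), (42, [354]), (130, [54]), (141, [252]),
    (234, [454]), (233, [458]), (91, [452]), (80, [152]), (142, [254]), (232, [423, 419, 450,
    503]), (231, [427, 456, 547, 543]), (282, [302, 551, 518, 522]), (281, [342, 346, 557, 526]),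
    (189, [548, 339, 335, 331, 348, 439, 435, 431, 448]), (283, [531, 552]), (284, [555, 539, 535,
    558]), (333, [653]), (336, [631, 627, 623, 619, 615, 611, 607, 603, 647, 643]), (334, [655,
    639, 635, 658]), (383, [753]), (386, [731, 727, 723, 719, 715, 711, 707, 703, 747, 743]),
    (384, [755, 739, 735, 758]), (433, [853]), (436, [831, 827, 823, 819, 815, 811, 807, 803, 847,
    843]), (434, [855, 839, 835, 858])])⟩

/-- the room of the lane in the leg `a` -/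
def zX (e t : Bool) (a : ℕ) : ℕ :=
  orL [zt (lw e a ++ wi e) (padM t), zt (lw e a ++ wi e) (seamM !t), zt (bw e a) hoM]
def zW (e t : Bool) (a : ℕ) : ℕ := ka (cond e 0 a) (cond e a 0) (ySt e t) 6

def zLeg (e t : Bool) (l : List (ℕ × ℕ)) (T D C : ℕ) (a : ℕ) : Bool :=
  let w := lw e a ++ wi e
  ([padM t, seamM !t, sE t].all fun m => (actW w m).isSome) &&
  ([hoM, h12 0 0, iM t].all fun m => (actW (bw e a) m).isSome) &&
  ([x1, Gk.lens.S].all fun m => (actW (lw e a) m).isSome) &&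
  (nf (bw e a) == nf (lw e a ++ wo e) && (gkids (.py e t)).contains (lw e a, .lens) &&
    lpN l a == some (zt (lw e a) x1, zt (lw e a) Gk.lens.S)) &&
  (sub (zt w (padM t)) (df D C) && sub (zt w (seamM !t)) D &&
    Nat.beq (Nat.land (zt w (seamM !t)) C) (zt w (sE t)) && sub (zt w (sE t)) (visC e t) &&
    sub (zt (bw e a) hoM) (df (df (yR e) T) C)) &&
  (Nat.beq (Nat.land (zt (bw e a) (h12 0 0)) (visM e t)) (zW e t a) &&
    sub (zW e t a) (zt (bw e a) (iM t)) && sub (zW e t a) (visC e t) &&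
    ((vx.evA (kT (cond e 0 a) (cond e a 0) (ySt e t) 6)).map Prod.fst == some (zW e t a)) &&
    sub (zt (bw e a) (h12 0 0)) (yR e)) &&
  sub (zX e t a) (zt (lw e a) Gk.lens.S) &&
  [0, 1, 2].all fun b => a == b || (dis (zX e t a) (zX e t b) &&
    dis (zt (bw e a) (h12 0 0)) (zt (bw e b) (h12 0 0)))

def zOk (e t : Bool) (x : LZ) : Bool :=
  match lpK (.py e t) with
  | some l =>
    match lpC l x.l, shell vx (lpN l) x.r.1 x.r.2, vx.evD x.t, vx.evD x.d with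
    | some (bl, sl), some (ch, br, sr), some (T, C), some (D, C') =>
      let xm := orL ([0, 1, 2].map (zX e t))
      (Nat.beq C' C && Nat.beq sl (Nat.lor T D) && Nat.beq sr (Nat.lor (df (yR e) T) D) &&
        Nat.beq (Nat.land bl (yR e)) T && Nat.beq (Nat.land bl br) D &&
        Nat.beq (Nat.land D (yR e)) C && Nat.beq (yB e) (Nat.lor br bl)) &&
      (sub T free && vx.evD (visT e t) == some (visM e t, visC e t) && sub (visM e t) T &&
        sub (Nat.land (visM e t) C) (visC e t)) &&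
      (gOk free lpH ch && (ch.all fun y => dis xm y.d && (!sub y.w free || dis xm y.w)) &&
        (full free x.r.1 ch).all fun n => n < l.length && [0, 1, 2].all fun a =>
          n == a || dis (zX e t a) ((lpN l n).getD (0, 0)).2) &&
      [0, 1, 2].all (zLeg e t l T D C)
    | _, _, _, _ => false
  | none => false

theorem lzD_ok : ∀ e t, zOk e t (lzD e t) = true := by decide +kernel

variable {Z : Type} [MetricSpace Z] {Γ : Geo Z} {σ : Tw Z} {Q : Gk → Γ.Fl → Prop}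

theorem lz_tr (g : Γ.Fl) {w : Wd} {m : ℕ} (h : (actW w m).isSome = true) :
    Γ.Rg (g * Γ.ev w) m = Γ.Rg g (zt w m) := by
  obtain ⟨k, e⟩ := Option.isSome_iff_exists.1 h
  rw [zt, e]
  exact Γ.actW_ok g e

theorem lz_stick (g : Γ.Fl) (t : Bool) :
    Arc (Γ.Rg g (seamM !t)) (Γ.pm g (sE t)) (Γ.pm g (qM t)) ∧ Γ.Rg g (sE t) = {Γ.pm g (sE t)} ∧
      Γ.Rg g (qM t) = {Γ.pm g (qM t)} :=
  Γ.arc_pm g (t := [cond t 56 257]) (by cases t <;> decide +kernel)

theorem lz_kd (g : Γ.Fl) (t : Bool) : KD Γ.K (Γ.Rg g (padM t)) (Γ.Rg g (kap 0 (sd t))) := by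
  have := Γ.po_ok.kd (Γ.po.pd (g, t) t)
  rwa [Γ.pad_H, Γ.pad_k] at this

/-- the standard lane in a leg -/
theorem lz_leg (ok : σ.Ok0) (hK : σ.K = Γ.K) (hQ : Γ.Reach σ Q) {g : Γ.Fl} (hg : Q .lens g)
    (e t : Bool) {gi go : Γ.Fl} (hi : gi = g * Γ.ev (wi e)) (ho : go = g * Γ.ev (wo e)) :
    ∃ η, Cc (Γ.Rg go (oM t)) (Γ.Rg go (ocM t)) η (Γ.pm gi (sE t)) (Γ.pm go (qM t)) ∧
      SolU σ (Γ.Rg g x1) (Γ.Rg g Gk.lens.S)
        (Γ.Rg gi (padM t) ∪ Γ.Rg gi (seamM !t) ∪ (Γ.Rg go (padM t) ∪ η)) := by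
  have k := fun {x y z} h => Γ.si_ok g (a := x) (b := y) (d := z) (zS_ok e t) h
  have k1 := k (.head _)
  have k2 := k (.tail _ (.head _))
  have k3 := k (.tail _ (.tail _ (.head _)))
  have k4 := k (.tail _ (.tail _ (.tail _ (.head _))))
  have k5 := k (.tail _ (.tail _ (.tail _ (.tail _ (.head _)))))
  have k6 := k (.tail _ (.tail _ (.tail _ (.tail _ (.tail _ (.head _))))))
  have k7 := k (.tail _ (.tail _ (.tail _ (.tail _ (.tail _ (.tail _ (.head _)))))))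
  simp only [Γ.RL_sg, inter_self, Γ.RL_nil, ← hi, ← ho] at k1 k2 k3 k4 k5 k6 k7
  rw [Γ.RL_app] at k4
  obtain ⟨a1, a2, a3⟩ := lz_stick gi t
  obtain ⟨-, -, b3⟩ := lz_stick go t
  have r := Γ.Rg_rl go
  have hx := k1 (a2.ge rfl)
  have pg : PG Γ.po (Γ.RL g [([], Gk.lens.S)]) (Γ.RL g xD) (Γ.RL g (xY t t .N)) (go, t) := by
    have := Γ.pg_ok g (xL_ok t t) (p := xF t t (!e)) (S := [([], Gk.lens.S)]) (D := xD)
      (Y := xY t t .N) (by cases e <;> exact fun x hx => by simp only [xL, List.mem_cons, List.mem_append]; simp at hx; simp [hx])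
    rw [ho]
    cases e <;> exact this
  obtain ⟨η, cc⟩ := (Γ.po_ok.od (go, t)).exists_cc (p := Γ.pm gi (sE t)) (q := Γ.pm go (qM t))
    (r.sub (a := iM t) (b := ocM t) (by cases t <;> decide +kernel) hx)
    (r.sub (a := qM t) (b := ocM t) (by cases t <;> decide +kernel) (b3.ge rfl))
    fun m => disjoint_left.1 (r.dis (a := iM t) (b := qM t) (by cases t <;> decide +kernel)) hx
      (b3.ge m)
  refine ⟨η, cc, ?_⟩
  have hH : η ⊆ Γ.Rg go (h12 0 0) := cc.sub.trans (Γ.po_ok.os (go, t))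
  have ar := glues.cat a1.symm cc.arc (subset_antisymm (fun z hz => a2.le (k2 ⟨hz.1, hH hz.2⟩))
    (singleton_subset_iff.2 ⟨a1.left, cc.arc.left⟩))
  have m1 : Γ.pm gi (qM t) ∈ Γ.Rg gi (b0M t) :=
    (Γ.Rg_rl gi).sub (by cases t <;> decide +kernel) (a3.ge rfl)
  have m2 : Γ.pm go (qM t) ∈ Γ.Rg go (b0M t) := r.sub (by cases t <;> decide +kernel) (b3.ge rfl)
  have F : Fam (Γ.RL g [([], Gk.lens.S)]) (Γ.RL g xD ∪ Γ.RL g (xY t t .N))
      (fun b => setsA (Γ.RL g) (cond b [[([s], j1M t)], [([], j1M t)]]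
        [[([s], b0M t)], [([], b0M t)]])) (fun _ _ _ : Unit => False) (fun _ => false)
      fun _ => Γ.Rg gi (seamM !t) ∪ η := by
    refine ⟨fun _ => .inr ⟨_, _, ar, union_subset ((Γ.RL_sg g _ _).symm ▸ k3) (hH.trans pg.hs),
      subset_antisymm ?_ ?_, Γ.RL g [(wi e, b0M t)], ⟨_, by cases e <;> simp [wi], rfl⟩,
      Γ.RL g [(wo e, b0M t)], ⟨_, by cases e <;> simp [wo], rfl⟩, ?_, ?_, ?_⟩,
      Subsingleton.pairwise, fun _ _ _ => False.elim⟩
    · rintro z ⟨hz | hz, m⟩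
      · exact .inl (a3.le (k4 ⟨hz, m⟩))
      · rcases cc.inter.le ⟨hz, pg.oo ⟨cc.sub hz, m⟩⟩ with rfl | rfl
        · exact (a1.ne (a3.le (k4 ⟨a1.left, m⟩))).elim
        · exact .inr rfl
    · rintro z (rfl | rfl)
      exacts [⟨ar.left, .inl (k5 (a3.ge rfl))⟩, ⟨ar.right, .inl (k6 (b3.ge rfl))⟩]
    · rw [Γ.RL_sg, Γ.RL_sg, ← hi, ← ho]
      exact fun m => k7 ⟨m1, m ▸ m1⟩
    · rwa [Γ.RL_sg, ← hi]
    · rwa [Γ.RL_sg, ← ho]
  have := lane_par ok hK hQ hg t t (X := Γ.Rg gi (seamM !t) ∪ η) F ⟨_, ar.left⟩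
  convert this using 1
  rw [hi, ho]
  cases e <;> simp only [wi, wo, cond, Geo.ev, mul_one] <;> ext z <;> simp only [mem_union] <;> tauto

/-- the lane in the leg `a`, seen from the tripod -/
theorem lz_one (ok : σ.Ok0) (hK : σ.K = Γ.K) (hQ : Γ.Reach σ Q) {e t : Bool} {g : Γ.Fl}
    (hg : Q (.py e t) g) {l : List (ℕ × ℕ)} {T D C a : ℕ} (h : zLeg e t l T D C a = true)
    (ds : Γ.Rg g D ∩ Γ.Rg g (yR e) = Γ.Rg g C) :
    (∃ p l1 k1, Pop σ.K (Γ.Rg g D) (Γ.Rg g C) p l1 ∧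
      Pop σ.K ((Γ.Rg g (yR e) \ Γ.Rg g T) ∪ Γ.Rg g C) (Γ.Rg g C) p k1 ∧ p ∈ Γ.Rg g (visC e t) ∧
      l1 ∪ k1 ⊆ Γ.Rg g (zX e t a) ∧ Γ.Rg (g * Γ.ev (bw e a)) (padM t) ⊆ k1 ∧
      k1 ⊆ Γ.Rg (g * Γ.ev (bw e a)) (fatM t) ∧ ∀ w sw, lpN l a = some (w, sw) →
        l1 ∪ k1 ⊆ Γ.Rg g sw ∧ NSU (Γ.Rg g sw) (l1 ∪ k1) ∧ SolU σ (Γ.Rg g w) (Γ.Rg g sw) (l1 ∪ k1)) ∧
    (∃ x y, Arc (Γ.Rg g (zW e t a)) x y) ∧
    Γ.Rg (g * Γ.ev (bw e a)) (fatM t) ∩ Γ.Rg g (visM e t) = Γ.Rg g (zW e t a) ∧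
    Γ.Rg g (zW e t a) ⊆ Γ.Rg (g * Γ.ev (bw e a)) (fatC t) ∩ Γ.Rg g (visC e t) ∧
    Γ.Rg (g * Γ.ev (bw e a)) (fatM t) ⊆ Γ.Rg g (zt (bw e a) (h12 0 0)) ∩ Γ.Rg g (yR e) ∧
    ∀ b < 3, a ≠ b → dis (zX e t a) (zX e t b) = true ∧
      dis (zt (bw e a) (h12 0 0)) (zt (bw e b) (h12 0 0)) = true := by
  simp only [zLeg, Bool.and_eq_true, List.all_cons, List.all_nil, and_true, beq_iff_eq,
    Bool.or_eq_true, List.contains_iff_mem] at h
  obtain ⟨⟨⟨⟨⟨⟨⟨⟨i1, i2, i3⟩, o1, o2, o3⟩, n1, n2⟩, ⟨w1, w2⟩, w3⟩, ⟨⟨⟨c1, c2⟩, c3⟩, c4⟩, c5⟩,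
    ⟨⟨⟨d1, d2⟩, d3⟩, d4⟩, d5⟩, x1'⟩, y0, y1, y2⟩ := h
  have r := Γ.Rg_rl g
  have eo : g * Γ.ev (bw e a) = g * Γ.ev (lw e a) * Γ.ev (wo e) := by
    rw [Γ.ev_of_nf w1, Γ.ev_append, mul_assoc]
  have ei : g * Γ.ev (lw e a ++ wi e) = g * Γ.ev (lw e a) * Γ.ev (wi e) := by
    rw [Γ.ev_append, mul_assoc]
  obtain ⟨η, cc, sol⟩ := lz_leg ok hK hQ (hQ.kid _ _ hg _ w2) e t ei eo
  replace i1 := lz_tr g i1
  replace i2 := lz_tr g i2
  replace i3 := lz_tr g i3
  replace o1 := lz_tr g o1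
  replace o2 := lz_tr g o2
  replace o3 := lz_tr g o3
  rw [lz_tr g n1, lz_tr g n2] at sol
  generalize g * Γ.ev (bw e a) = go at *
  generalize g * Γ.ev (lw e a ++ wi e) = gi at *
  have ro := Γ.Rg_rl go
  have ri := Γ.Rg_rl gi
  obtain ⟨a1, a2, a3⟩ := lz_stick gi t
  obtain ⟨-, -, b3⟩ := lz_stick go t
  have fs : Γ.Rg go (fatM t) ⊆ Γ.Rg go (h12 0 0) := ro.sub (by cases t <;> decide +kernel)
  have sC : Γ.Rg gi (seamM !t) ∩ Γ.Rg g C = {Γ.pm gi (sE t)} := by rw [i2, r.inter c3, ← i3, a2]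
  have pC := (sC.ge rfl).2
  have hO : Γ.Rg go hoM ⊆ ((Γ.Rg g (yR e) \ Γ.Rg g T) ∪ Γ.Rg g C) \ Γ.Rg g C := fun z hz => by
    have := r.sub c5 (o1.le hz)
    rw [r.df, r.df] at this
    exact ⟨.inl this.1, this.2⟩
  have qp : Γ.pm go (qM t) ∈ Γ.Rg go (kap 0 (sd t)) :=
    ro.sub (by cases t <;> decide +kernel) (b3.ge rfl)
  have po' : Γ.Rg go (padM t) ⊆ Γ.Rg go hoM := ro.sub (by cases t <;> decide +kernel)
  have pk : Γ.Rg go (kap 0 (sd t)) ⊆ Γ.Rg go (padM t) := (lz_kd go t).d.rim_sub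
  have hη : ∀ z ∈ η, z = Γ.pm gi (sE t) ∨ z ∈ Γ.Rg go hoM := fun z hz => by
    by_cases m : z ∈ Γ.Rg go (ocM t)
    · exact (cc.inter.le ⟨hz, m⟩).imp_right fun k => po' (pk ((k : z = _) ▸ qp))
    · exact .inr (ro.sub (a := df (oM t) (ocM t)) (by cases t <;> decide +kernel)
        ((ro.df _ _).ge ⟨cc.sub hz, m⟩))
  have pi' : Γ.pm gi (sE t) ∉ Γ.Rg go hoM := fun m => (hO m).2 pC
  have P1 : Pop σ.K (Γ.Rg g D) (Γ.Rg g C) (Γ.pm gi (sE t))
      (Γ.Rg gi (padM t) ∪ Γ.Rg gi (seamM !t)) :=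
    ⟨pC, _, _, _, _, ⟨a1, (lz_kd gi t).d,
      (ri.inter (c := qM t) (by cases t <;> decide +kernel)).trans a3,
      ri.sub (by cases t <;> decide +kernel) (a3.ge rfl)⟩, hK ▸ lz_kd gi t,
      by rw [i1, ← r.df]; exact r.sub c1, hK ▸ Γ.Rg_free gi (by cases t <;> decide +kernel),
      i2 ▸ r.sub c2, sC, rfl⟩
  have P2 : Pop σ.K ((Γ.Rg g (yR e) \ Γ.Rg g T) ∪ Γ.Rg g C) (Γ.Rg g C) (Γ.pm gi (sE t))
      (Γ.Rg go (padM t) ∪ η) :=
    ⟨pC, _, _, _, _, ⟨cc.arc, (lz_kd go t).d, subset_antisymm (fun z hz =>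
        (cc.inter.le ⟨hz.1, ro.sub (a := Nat.land (oM t) (padM t)) (by cases t <;> decide +kernel)
          ((ro.and _ _).ge ⟨cc.sub hz.1, hz.2⟩)⟩).resolve_left fun k => pi' (po' ((k : z = _) ▸ hz.2)))
        (singleton_subset_iff.2 ⟨cc.arc.right, pk qp⟩), qp⟩, hK ▸ lz_kd go t, po'.trans hO,
      (hK ▸ Γ.Rg_free go (by cases t <;> decide +kernel) : Disjoint (Γ.Rg go (oM t)) σ.K).mono_left
        cc.sub, fun z hz => (hη z hz).elim (fun k => .inr (k ▸ pC)) fun k => (hO k).1,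
      subset_antisymm (fun z hz => (hη z hz.1).resolve_right fun k => (hO k).2 hz.2)
        (singleton_subset_iff.2 ⟨cc.arc.left, pC⟩), rfl⟩
  have hX : Γ.Rg gi (padM t) ∪ Γ.Rg gi (seamM !t) ∪ (Γ.Rg go (padM t) ∪ η) ⊆ Γ.Rg g (zX e t a) := by
    rw [zX, r.orL]
    simp only [List.mem_cons, List.not_mem_nil, or_false, exists_eq_or_imp, exists_eq_left]
    rw [← i1, ← i2, ← o1]
    rintro z ((m | m) | m | m)
    exacts [.inl m, .inr (.inl m), .inr (.inr (po' m)),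
      (hη z m).elim (fun k => .inr (.inl (k ▸ a1.left))) fun k => .inr (.inr k)]
  have wI : Γ.Rg g (zW e t a) ⊆ Γ.Rg go (fatC t) :=
    (r.sub d2).trans (o3.ge.trans (ro.sub (by cases t <;> decide +kernel)))
  refine ⟨⟨_, _, _, P1, P2, r.sub c4 (i3.le (a2.ge rfl)), hX, subset_union_left,
    union_subset (ro.sub (by cases t <;> decide +kernel))
      (cc.sub.trans (ro.sub (by cases t <;> decide +kernel))), fun w sw m => ?_⟩, ?_, ?_,
    subset_inter wI (r.sub d3), subset_inter (fs.trans o2.le) (fs.trans (o2.le.trans (r.sub d5))),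
    fun b hb n => ?_⟩
  · rw [w3] at m
    cases m
    have s1 := hX.trans (r.sub x1')
    obtain ⟨W, w, W', w', b, p, q, hb, -, -, eq⟩ := P1.bell0 P2 (subset_antisymm (fun z hz =>
      P1.facts.2.1.le ⟨hz.1, (P2.facts.1 hz.2).elim (fun m => ds.le ⟨P1.facts.1 hz.1, m.1⟩) id⟩)
      (singleton_subset_iff.2 ⟨surg_left P1, surg_left P2⟩))
    exact ⟨s1, eq ▸ surg_bell (sol.good.ball ok).sph hb (eq ▸ s1), sol⟩
  · obtain ⟨⟨m, u, v⟩, e1, e2⟩ := Option.map_eq_some_iff.1 d4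
    obtain ⟨x, y, k, -⟩ := Γ.kid_arc g e1
    exact ⟨x, y, (show m = _ from e2) ▸ k⟩
  · refine subset_antisymm (fun z hz => (r.inter d1).le ⟨o2.le (fs hz.1), hz.2⟩) fun z hz =>
      ⟨ro.sub (by cases t <;> decide +kernel) (wI hz), ((r.inter d1).ge hz).2⟩
  · interval_cases b
    exacts [y0.resolve_left n, y1.resolve_left n, y2.resolve_left n]

theorem lz_join (ok : σ.Ok0) {B S L R T D C k1 k2 l1 l2 r T2 C2 Y : Set Z} {p q : Z}
    (hB : Ball B S) (hL : G σ L (T ∪ D)) (hT : Disc T C)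
    (hD : KD σ.K D C) (ls : L ∩ S = T) (lr : L ∩ R = D) (ds : D ∩ S = C) (u : B = R ∪ L)
    (fT : Disjoint T σ.K) (hr : Cc T C r p q) (a1 : Pop σ.K D C p l1) (a2 : Pop σ.K D C q l2)
    (dl : Disjoint l1 l2) (b1 : Pop σ.K ((S \ T) ∪ C) C p k1) (b2 : Pop σ.K ((S \ T) ∪ C) C q k2)
    (dk : Disjoint k1 k2) (h : SolU σ R ((S \ T) ∪ D) (l1 ∪ k1 ∪ (l2 ∪ k2))) (dT : Disc T2 C2)
    (hs : T2 ⊆ S) (hc : Disjoint C2 σ.K) (x' : k1 ∪ r ∪ k2 ⊆ T2) (k : σ.K ∩ T2 ⊆ k1 ∪ k2)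
    (cY : IsConnected Y) (y : Y ⊆ T2) (kY : σ.K ∩ T2 ⊆ Y) : SolU σ B S Y := by
  have sd : SolD σ B S {(T, C)} R ((S \ T) ∪ D) (fun _ => L) fun _ => D :=
    ⟨finite_singleton _, h.good, by rintro _ rfl; exact hL,
      by rintro _ rfl; exact hT, by rintro _ rfl; exact hD, by rintro _ rfl; exact ls,
      by rintro _ rfl; exact lr, by rintro _ rfl; exact ds, pairwiseDisjoint_singleton _ _,
      by rw [biUnion_singleton]; exact u, by rw [biUnion_singleton, biUnion_singleton]⟩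
  have m := merge2 ok sd fT hr a1 a2 dl b1 b2 dk h
  have i : ∀ {e k}, Pop σ.K ((S \ T) ∪ C) C e k → e ∈ r → r ∩ k = {e} := fun b he =>
    subset_antisymm (fun z hz => b.facts.2.1.le ⟨hz.2, (b.facts.1 hz.2).resolve_left fun c =>
      c.2 (hr.sub hz.1)⟩) (singleton_subset_iff.2 ⟨he, surg_left b⟩)
  obtain ⟨W, w, W', w', b, p', q', be, -, -, -, -, e⟩ := b1.bell b2 hr.arc (fT.mono_left hr.sub)
    (i b1 hr.arc.left) (i b2 hr.arc.right) dk
  exact lane_swap ok hB m (e ▸ surg_bell hB.sph be (e ▸ x'.trans hs))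
    ⟨⟨p, .inl (.inl (surg_left b1))⟩, (b1.facts.2.2.2.1.isPreconnected.union p (surg_left b1)
      hr.arc.left hr.arc.conn).union q (.inr hr.arc.right) (surg_left b2)
      b2.facts.2.2.2.1.isPreconnected⟩ dT hs hc x'
    (k.trans (union_subset_union_left _ subset_union_left)) cY y kY

theorem lz_fat (g : Γ.Fl) (t : Bool) : Disc (Γ.Rg g (fatM t)) (Γ.Rg g (fatC t)) ∧
    Disjoint (Γ.Rg g (fatC t)) Γ.K ∧ Γ.K ∩ Γ.Rg g (fatM t) ⊆ Γ.Rg g (padM t) ∧
    Γ.Rg g (Nat.lor (oM t) (padM t)) ⊆ Γ.Rg g (fatM t) :=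
  ⟨(Γ.Rg_ok g).evD glues (t := fatT t) (by cases t <;> decide +kernel),
    Γ.Rg_free g (by cases t <;> decide +kernel), fun z hz => by_contra fun n => disjoint_left.1
      (Γ.Rg_free g (m := df (fatM t) (padM t)) (by cases t <;> decide +kernel))
      (((Γ.Rg_rl g).df _ _).ge ⟨hz.2, n⟩) hz.1, (Γ.Rg_rl g).sub (by cases t <;> decide +kernel)⟩

theorem lane_z (ok : σ.Ok0) (hK : σ.K = Γ.K) (hQ : Γ.Reach σ Q) {e t : Bool} {g : Γ.Fl}
    (hg : Q (.py e t) g) {a b : ℕ} (ha : a < 3) (hb : b < 3) (n : a ≠ b) {Y : Set Z}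
    (cY : IsConnected Y) (y1 : Y ⊆ Γ.Rg (g * Γ.ev (bw e a)) (Nat.lor (oM t) (padM t)) ∪
      Γ.Rg g (visM e t) ∪ Γ.Rg (g * Γ.ev (bw e b)) (Nat.lor (oM t) (padM t)))
    (y2 : Γ.Rg (g * Γ.ev (bw e a)) (padM t) ∪ Γ.Rg (g * Γ.ev (bw e b)) (padM t) ⊆ Y) :
    SolU σ (Γ.Rg g (yB e)) (Γ.Rg g (yR e)) Y := by
  have E := lzD_ok e t
  generalize lzD e t = x at E
  unfold zOk at E
  split at E
  swap
  · cases E
  rename_i l e1
  split at E
  swap
  · cases E
  rename_i bl sl ch br sr T C D C' e2 e3 e4 e5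
  simp only [Bool.and_eq_true, List.all_eq_true, beq_iff_eq, Bool.or_eq_true, decide_eq_true_eq]
    at E
  obtain ⟨⟨⟨⟨⟨⟨⟨⟨⟨q1, q2⟩, q3⟩, q4⟩, q5⟩, q6⟩, q7⟩, ⟨⟨v1, v2⟩, v3⟩, v4⟩, ⟨u1, u2⟩, u3⟩, E⟩ := E
  obtain rfl := Nat.eq_of_beq_eq_true q1
  obtain rfl := Nat.eq_of_beq_eq_true q2
  obtain rfl := Nat.eq_of_beq_eq_true q3
  have A := Γ.Rg_ok g
  have r := Γ.Rg_rl g
  have mem : ∀ {a}, a < 3 → a ∈ [0, 1, 2] := fun h => by simp; omega
  have ds := r.inter q6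
  obtain ⟨⟨p, l1, k1, a1, b1, pv, x1', p1, f1, s1⟩, ⟨w1, w2, aw⟩, i1, j1, h1, d1⟩ :=
    lz_one ok hK hQ hg (E a (mem ha)) ds
  obtain ⟨⟨q, l2, k2, a2, b2, qv, x2', p2, f2, s2⟩, ⟨w3, w4, bw'⟩, i2, j2, h2, -⟩ :=
    lz_one ok hK hQ hg (E b (mem hb)) ds
  obtain ⟨d1, d2⟩ := d1 b hb n
  have dX : Disjoint (l1 ∪ k1) (l2 ∪ k2) := (r.dis d1).mono x1' x2'
  have dH := (r.dis d2).mono (h1.trans inter_subset_left) (h2.trans inter_subset_left)
  have hf : Disjoint (Γ.Rg g free) σ.K := hK ▸ Γ.Rg_free g (by decide +kernel)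
  have kid : ∀ n w sw, n < l.length → lpN l n = some (w, sw) → G σ (Γ.Rg g w) (Γ.Rg g sw) :=
    fun n w sw hn e => lp_chain ok hK hQ hg e1 (c := (n, []))
      (by simp [lpC, shell, e, shellGo, gOk, full, hn])
  have off := (shell_ok A e3).off (X := l1 ∪ k1 ∪ (l2 ∪ k2)) (xm := orL ([0, 1, 2].map (zX e t)))
    ok r (fun n w sw e => by
      by_cases hn : n < l.length
      · exact (kid n w sw hn e).ball ok
      · rw [lpN, if_neg hn] at e
        exact A.h3 _ _ _ e) hf (hK ▸ lp_hit g) u1 (by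
      rw [r.orL]
      exact union_subset (fun z hz => ⟨_, List.mem_map_of_mem (mem ha), x1' hz⟩)
        fun z hz => ⟨_, List.mem_map_of_mem (mem hb), x2' hz⟩)
    (by simpa only [List.all_eq_true, Bool.and_eq_true, Bool.or_eq_true] using u2)
    fun m hm w sw em => by
      obtain ⟨hl, o⟩ := u3 m hm
      have oa := o a (mem ha)
      have ob := o b (mem hb)
      simp only [em, Option.getD_some] at oa ob
      rw [union_inter_distrib_right]
      by_cases ca : m = a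
      · subst ca
        obtain ⟨z1, z2, z3⟩ := s1 w sw em
        rw [inter_eq_left.2 z1, ((r.dis (ob.resolve_left n)).mono_left x2').inter_eq, union_empty]
        exact ⟨z2, z3⟩
      rw [((r.dis (oa.resolve_left ca)).mono_left x1').inter_eq, empty_union]
      by_cases cb : m = b
      · subst cb
        obtain ⟨z1, z2, z3⟩ := s2 w sw em
        rw [inter_eq_left.2 z1]
        exact ⟨z2, z3⟩
      rw [((r.dis (ob.resolve_left cb)).mono_left x2').inter_eq]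
      exact ⟨nsu_empty, solU_empty.2 (kid m w sw hl em)⟩
  have dD := A.evD glues e5
  have sD : ∀ {p l k}, Pop σ.K (Γ.Rg g D) (Γ.Rg g C') p l →
      Pop σ.K ((Γ.Rg g (yR e) \ Γ.Rg g T) ∪ Γ.Rg g C') (Γ.Rg g C') p k →
      l ∪ k ⊆ (Γ.Rg g (yR e) \ Γ.Rg g T) ∪ Γ.Rg g D := fun a b => union_subset
    (a.facts.1.trans subset_union_right) (b.facts.1.trans (union_subset_union_right _ dD.rim_sub))
  rw [r.or, r.df, inter_eq_left.2 (union_subset (sD a1 b1) (sD a2 b2))] at off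
  have dT := A.evD glues e4
  have dV := A.evD glues v2
  have fT : Disjoint (Γ.Rg g T) σ.K := hf.mono_left (r.sub v1)
  have sT : Γ.Rg g T ⊆ Γ.Rg g (yR e) := fun z hz => ((r.inter q4).ge hz).2
  obtain ⟨ρ, cr⟩ := dV.exists_cc pv qv fun m =>
    disjoint_left.1 dX (.inl (surg_left a1)) (.inl (m ▸ surg_left a2))
  obtain ⟨g1, g2, g3, g4⟩ := lz_fat (g * Γ.ev (bw e a)) t
  obtain ⟨g5, g6, g7, g8⟩ := lz_fat (g * Γ.ev (bw e b)) t
  have wa : Γ.Rg g (zW e t a) ⊆ Γ.Rg (g * Γ.ev (bw e a)) (fatM t) := fun z hz => (i1.ge hz).1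
  have wb : Γ.Rg g (zW e t b) ⊆ Γ.Rg (g * Γ.ev (bw e b)) (fatM t) := fun z hz => (i2.ge hz).1
  have D1 := g1.glue' dV aw i1 (j1.trans inter_subset_left) (j1.trans inter_subset_right)
  have D2 := D1.glue' g5 bw' (by rw [union_inter_distrib_right, dH.inter_eq, empty_union,
      inter_comm, i2])
    (fun z hz => ⟨.inr (j2 hz).2, fun m => disjoint_left.1 dH (wa m.1) (wb hz)⟩)
    (j2.trans inter_subset_left)
  have fV : Disjoint (Γ.Rg g (visM e t)) σ.K := fT.mono_left (r.sub v3)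
  have kT : σ.K ∩ (Γ.Rg (g * Γ.ev (bw e a)) (fatM t) ∪ Γ.Rg g (visM e t) ∪
      Γ.Rg (g * Γ.ev (bw e b)) (fatM t)) ⊆
      Γ.Rg (g * Γ.ev (bw e a)) (padM t) ∪ Γ.Rg (g * Γ.ev (bw e b)) (padM t) := by
    rintro z ⟨m, (k | k) | k⟩
    exacts [.inl (g3 ⟨hK ▸ m, k⟩), (disjoint_left.1 fV k m).elim, .inr (g7 ⟨hK ▸ m, k⟩)]
  have hB : Ball (Γ.Rg g (yB e)) (Γ.Rg g (yR e)) := (hQ.good _ _ hg).ball ok
  refine lz_join ok hB (r.or _ _ ▸ lp_chain ok hK hQ hg e1 e2) dT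
    ⟨dD, fT.mono_left dT.rim_sub, a1.facts.2.2.2.2.mono (inter_subset_inter_right _ a1.facts.1)⟩
    (r.inter q4) (r.inter q5) ds (by rw [Nat.eq_of_beq_eq_true q7, r.or]) fT
    ⟨cr.arc, cr.sub.trans (r.sub v3), subset_antisymm (fun z hz => cr.inter.le
      ⟨hz.1, r.sub v4 ((r.and _ _).ge ⟨cr.sub hz.1, hz.2⟩)⟩) ?_⟩ a1 a2
    (dX.mono subset_union_left subset_union_left) b1 b2
    (dX.mono subset_union_right subset_union_right) off.2 D2
    (union_subset (union_subset (h1.trans inter_subset_right) ((r.sub v3).trans sT))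
      (h2.trans inter_subset_right)) ?_
    (union_subset_union (union_subset_union f1 cr.sub) f2) (kT.trans (union_subset_union p1 p2)) cY
    (y1.trans (union_subset_union (union_subset_union_left _ g4) g8)) (kT.trans y2)
  · rintro z (rfl | rfl)
    exacts [⟨cr.arc.left, a1.1⟩, ⟨cr.arc.right, a2.1⟩]
  · refine disjoint_left.2 ?_
    rintro z ⟨⟨k | k, -⟩ | k, -⟩ m
    exacts [disjoint_left.1 g2 k (hK ▸ m), disjoint_left.1 fV (dV.rim_sub k) m,
      disjoint_left.1 g6 k (hK ▸ m)]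

theorem laneY2 (ok : σ.Ok0) (hK : σ.K = Γ.K) (hQ : Γ.Reach σ Q) : LaneY2 Γ σ Q :=
  fun e t _ hg i j n _ cY y1 y2 => lane_z ok hK hQ hg (a := ord e t i.1) (b := ord e t j.1)
    (by clear * -; revert e t i; decide) (by clear * -; revert e t j; decide)
    (by clear * - n; revert e t i j; decide) cY y1 y2

theorem laneS (hc : Certs) (ok : σ.Ok0) (hK : σ.K = Γ.K) (hQ : Γ.Reach σ Q) : Γ.LaneS σ Q :=
  laneS_of2 hc ok hK hQ (laneY2 ok hK hQ)

end Pool.Agent.Lib.MP_b7d179_gt.L
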