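import Pool.Agent.Lib.MP_b7d179_gt.L.Cfg
import Pool.Agent.Lib.MP_b7d179_gt.C.Sep

/-! Change of labels, phantoms. -/

namespace Pool.Agent.Lib.MP_b7d179_gt.L

open Set C Function

variable {Z : Type} [MetricSpace Z] {ι ι' ρ : Type} {sh : Sh Z} {rel rel' : ι → ι → ι → Prop}
  {grp : ι → Bool} {a : ι → Set Z} {i j s : ι}

theorem Sh.St.dj (h : sh.St rel grp a) : Pairwise (onFun Disjoint a) := by
  cases sh
  exacts [Fam.dj h, FamD.dj h, FamP.dj h]

theorem Sh.St.mono (h : sh.St rel grp a) (e : ∀ i j s, rel' i j s → rel i j s) :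
    sh.St rel' grp a := by
  cases sh
  exacts [⟨Fam.arc h, h.dj, fun i j s r => Fam.sep h i j s (e i j s r)⟩,
    ⟨FamD.arc h, h.dj, fun i j s r => FamD.sep h i j s (e i j s r)⟩,
    ⟨FamP.pt h, h.dj, fun i j s r => FamP.sep h i j s (e i j s r)⟩]

/-- new labels, no relation -/
theorem Sh.St.re (h : sh.St rel grp a) {grp' : ι' → Bool} {a' : ι' → Set Z}
    (e : ∀ j, a' j = ∅ ∨ ∃ i, a' j = a i ∧ grp' j = grp i) (d : Pairwise (onFun Disjoint a')) :
    sh.St (fun _ _ _ => False) grp' a' := by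
  cases sh <;> refine ⟨fun j => (e j).elim .inl ?_, d, fun _ _ _ r => r.elim⟩ <;>
    rintro ⟨i, e1, e2⟩ <;> rw [e1, e2]
  exacts [Fam.arc h i, FamD.arc h i, FamP.pt h i]

theorem Sh.St.grp_false (h : sh.St rel grp a) (h0 : sh.Pre0) (n : a i ≠ ∅) : grp i = false := by
  by_contra c
  rw [Bool.not_eq_false] at c
  cases sh with
  | q => exact h0
  | d =>
    obtain ⟨p, q, -, L, hL, -⟩ := (FamD.arc h i).resolve_left n
    rw [c, h0.2.1] at hL
    exact hL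
  | p =>
    obtain ⟨e, he, -⟩ := (FamP.pt h i).resolve_left n
    rw [c, h0.1] at he
    exact he

theorem ph_sub {J : Set Z} {x y e e' : Z} (hJ : Arc J x y) (he : e ∈ J \ {x, y})
    (he' : e' ∈ J \ {x, y}) (n : e ≠ e') : ∃ w ⊆ J \ {x, y}, Arc w e e' := by
  obtain ⟨w, s, k⟩ := hJ.sub he.1 he'.1 n
  exact ⟨w, hJ.sub_of_conn k s hJ.conn_open sdiff_subset he he', k⟩

/-- without the separating label one of the two pieces is empty -/
theorem Sh.St.uniq (h : sh.St rel grp a) (h0 : sh.Pre0) (r : rel i j s) (n : i ≠ j) (e : a s = ∅) :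
    a i = ∅ ∨ a j = ∅ := by
  by_contra c
  obtain ⟨ci, cj⟩ := not_or.1 c
  have gi := h.grp_false h0 ci
  have gj := h.grp_false h0 cj
  cases sh with
  | q => exact h0
  | d =>
    obtain ⟨p, q, k, -⟩ := (FamD.arc h i).resolve_left ci
    obtain ⟨p', q', k', -⟩ := (FamD.arc h j).resolve_left cj
    obtain ⟨x, hx, -⟩ := (FamD.sep h i j s r (gi.trans gj.symm)).nonempty h0.1 k k'
    exact (e ▸ hx : x ∈ (∅ : Set Z))
  | p =>
    obtain ⟨p, hp, k⟩ := (FamP.pt h i).resolve_left ci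
    obtain ⟨p', hp', k'⟩ := (FamP.pt h j).resolve_left cj
    obtain ⟨-, J, x, y, hJ, eJ⟩ := h0
    have S := FamP.sep h i j s r (gi.trans gj.symm)
    rw [gi, eJ] at hp S
    rw [gj, eJ] at hp'
    obtain ⟨w, b, d⟩ := ph_sub hJ hp hp' fun o =>
      disjoint_left.1 (h.dj n) (k.ge rfl) (k'.ge o)
    obtain ⟨z, -, hz⟩ := S w p p' d b (k.ge rfl) (k'.ge rfl)
    exact (e ▸ hz : z ∈ (∅ : Set Z))

omit [MetricSpace Z] in
theorem ph_dj [DecidableEq ι] (d : Pairwise (onFun Disjoint a)) {A : Set Z}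
    (h : ∀ k, Disjoint A (a k)) : Pairwise (onFun Disjoint (update a s A)) := fun x y n => by
  rcases eq_or_ne x s with rfl | hx
  · simpa only [onFun, update_self, update_of_ne n.symm] using h y
  · rcases eq_or_ne y s with rfl | hy
    · simpa only [onFun, update_self, update_of_ne n] using (h x).symm
    · simpa only [onFun, update_of_ne hx, update_of_ne hy] using d n

theorem ph_cut {P c u v D E U U' : Set Z} {p q : Z} [Finite ι] (h : Cut P c u v (a i) D E p q)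
    (cl : ∀ k, IsClosed (a k)) (d : Pairwise (onFun Disjoint a)) (n : i ≠ j) (hj : a j ⊆ D)
    (hU : U ∈ nhds p) (hU' : U' ∈ nhds q) : ∃ A p' q', Cc P c A p' q' ∧ p' ∈ U ∧ q' ∈ U' ∧
      (∀ k, Disjoint A (a k)) ∧ Sep (P \ c) A (a i) (a j) := by
  obtain ⟨A, p', q', u', v', D', E', k, a1, a2, -, -, s1, s2, s3⟩ := parallel h
    (A := ⋃ k ∈ {k | k ≠ i}, a k) ((toFinite _).isClosed_biUnion fun k _ => cl k)
    (disjoint_iUnion₂_left.2 fun k hk => d hk) hU hU'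
  have m : ∀ k, k ≠ i → a k ⊆ ⋃ k ∈ {k | k ≠ i}, a k := fun k hk =>
    subset_biUnion_of_mem (u := a) (show k ∈ {k | k ≠ i} from hk)
  refine ⟨A, p', q', k.cc, a1, a2, fun l => disjoint_left.2 fun x hx hl => ?_,
    (sep_of_cut k (a := a j) (a' := a i) (fun x hx => (k.union.ge hx.2).resolve_right fun e =>
      disjoint_left.1 s3 ⟨e, hj hx.1⟩ (m j n.symm hx.1)) fun x hx =>
      (s2 (h.inter.ge hx.1).2).1).symm.mono sdiff_subset subset_rfl subset_rfl inter_subset_left⟩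
  obtain ⟨x1, x2⟩ := k.inter.ge hx
  rcases eq_or_ne l i with rfl | c
  exacts [(s1 x1).2 hl, disjoint_left.1 s3 ⟨x2, (s1 x1).1⟩ (m l c hl)]

/-- one more phantom -/
theorem Sh.St.add [Finite ι] [DecidableEq ι] (h : sh.St rel grp a) (h0 : sh.Pre0) (n : i ≠ j)
    (si : i ≠ s) (sj : j ≠ s) (hr : ∀ x y z, rel x y z → x ≠ s ∧ y ≠ s ∧ z ≠ s) (g : grp s = grp i) :
    ∃ A, (a i = ∅ → A = ∅) ∧
      sh.St (fun x y z => rel x y z ∨ (x = i ∧ y = j ∧ z = s)) grp (update a s A) := by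
  have key : ∀ {O : ι → Set Z} {A : Set Z},
      (∀ x y z, rel x y z → grp x = grp y → Sep (O x) (a z) (a x) (a y)) →
      Sep (O i) A (a i) (a j) → ∀ x y z, rel x y z ∨ (x = i ∧ y = j ∧ z = s) → grp x = grp y →
      Sep (O x) (update a s A z) (update a s A x) (update a s A y) := by
    rintro O A k1 k2 x y z (r | ⟨rfl, rfl, rfl⟩) e
    · obtain ⟨b1, b2, b3⟩ := hr x y z r
      rw [update_of_ne b1, update_of_ne b2, update_of_ne b3]
      exact k1 x y z r e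
    · rwa [update_self, update_of_ne si, update_of_ne sj]
  have up : ∀ {Q : ι → Set Z → Prop} {A : Set Z}, (∀ x, Q x (a x)) → Q s A →
      ∀ x, Q x (update a s A x) := fun {Q A} k1 k2 x => by
    rcases eq_or_ne x s with rfl | c
    · rwa [update_self]
    · rw [update_of_ne c]; exact k1 x
  by_cases c : a i = ∅ ∨ a j = ∅
  · have S : ∀ O : Set Z, Sep O ∅ (a i) (a j) := fun O =>
      c.elim (fun e => by rw [e]; exact sep_empty_left) fun e => by rw [e]; exact sep_empty_right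
    have d := ph_dj (s := s) h.dj fun k => empty_disjoint (a k)
    refine ⟨∅, fun _ => rfl, ?_⟩
    cases sh with
    | q => exact h0.elim
    | d P c Ls => exact ⟨up (Q := fun x A => A = ∅ ∨ ∃ p q, Cc P c A p q ∧ Lands (Ls (grp x)) p q)
        (FamD.arc h) (.inl rfl), d, key (O := fun _ => P \ c) (FamD.sep h) (S _)⟩
    | p L => exact ⟨up (Q := fun x A => A = ∅ ∨ ∃ e ∈ L (grp x), A = {e}) (FamP.pt h) (.inl rfl), d,
        key (O := fun x => L (grp x)) (FamP.sep h) (S _)⟩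
  obtain ⟨ci, cj⟩ := not_or.1 c
  have gi := h.grp_false h0 ci
  have gj := h.grp_false h0 cj
  cases sh with
  | q => exact h0.elim
  | d P c Ls =>
    obtain ⟨p, q, k, L, hL, L', hL', nL, pL, qL⟩ := (FamD.arc h i).resolve_left ci
    obtain ⟨p', q', k', -⟩ := (FamD.arc h j).resolve_left cj
    obtain ⟨hP, -, hO⟩ := h0
    obtain ⟨J, x, y, hJ, s1, e1⟩ := hO L (gi ▸ hL)
    obtain ⟨J', x', y', hJ', s2, e2⟩ := hO L' (gi ▸ hL')
    obtain ⟨U, o1, u1⟩ := hP.rim_rel_open hJ s1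
    obtain ⟨U', o2, u2⟩ := hP.rim_rel_open hJ' s2
    rw [← e1] at u1
    rw [← e2] at u2
    have cl : ∀ l, IsClosed (a l) := fun l => (FamD.arc h l).elim (fun e => e ▸ isClosed_empty)
      fun ⟨_, _, b, _⟩ => b.arc.compact.isClosed
    obtain ⟨u, v, t⟩ := hP.exists_two (k.inter.ge (.inl rfl)).2 (k.inter.ge (.inr rfl)).2 k.arc.ne
    obtain ⟨D, E, ct⟩ := hP.cut t k
    have m1 := o1.mem_nhds (u1.ge pL).1
    have m2 := o2.mem_nhds (u2.ge qL).1
    obtain ⟨A, x1, x2, b1, b2, b3, b4, b5⟩ : ∃ A p' q', Cc P c A p' q' ∧ p' ∈ U ∧ q' ∈ U' ∧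
        (∀ k, Disjoint A (a k)) ∧ Sep (P \ c) A (a i) (a j) := by
      rcases ct.union.ge (k'.sub k'.arc.left) with e | e
      · exact ph_cut ct cl h.dj n
          (ct.side1 k'.arc.conn k'.sub (h.dj n.symm) ⟨_, k'.arc.left, e⟩).1 m1 m2
      · exact ph_cut ct.symm cl h.dj n
          (ct.symm.side1 k'.arc.conn k'.sub (h.dj n.symm) ⟨_, k'.arc.left, e⟩).1 m1 m2
    exact ⟨A, fun e => (ci e).elim,
      up (Q := fun x A => A = ∅ ∨ ∃ p q, Cc P c A p q ∧ Lands (Ls (grp x)) p q) (FamD.arc h)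
        (.inr ⟨x1, x2, b1, L, g ▸ hL, L', g ▸ hL', nL, u1.le ⟨b2, (b1.inter.ge (.inl rfl)).2⟩,
          u2.le ⟨b3, (b1.inter.ge (.inr rfl)).2⟩⟩), ph_dj h.dj b4,
      key (O := fun _ => P \ c) (FamD.sep h) b5⟩
  | p L =>
    obtain ⟨p, hp, k⟩ := (FamP.pt h i).resolve_left ci
    obtain ⟨p', hp', k'⟩ := (FamP.pt h j).resolve_left cj
    obtain ⟨-, J, x, y, hJ, eJ⟩ := h0
    rw [gi, eJ] at hp
    rw [gj, eJ] at hp'
    obtain ⟨w, b, d⟩ := ph_sub hJ hp hp' fun o => disjoint_left.1 (h.dj n) (k.ge rfl) (k'.ge o)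
    obtain ⟨z, hz, hz'⟩ := d.exists_notMem (E := ⋃ l, a l) (finite_iUnion fun l =>
      (FamP.pt h l).elim (fun e => e ▸ finite_empty) fun ⟨_, _, e⟩ => e ▸ finite_singleton _)
    refine ⟨{z}, fun e => (ci e).elim,
      up (Q := fun x A => A = ∅ ∨ ∃ e ∈ L (grp x), A = {e}) (FamP.pt h)
        (.inr ⟨z, by rw [g, gi, eJ]; exact b hz, rfl⟩),
      ph_dj h.dj fun l => disjoint_singleton_left.2 fun o => hz' (mem_iUnion.2 ⟨l, o⟩),
      key (O := fun x => L (grp x)) (FamP.sep h) fun W x1 x2 c1 c2 c3 c4 => ⟨z, ?_, rfl⟩⟩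
    rw [gi, eJ] at c2
    rw [k] at c3
    rw [k'] at c4
    exact hJ.sub_of_conn d (b.trans sdiff_subset) c1.conn (c2.trans sdiff_subset)
      ((c3 : x1 = p) ▸ c1.left) ((c4 : x2 = p') ▸ c1.right) hz

/-- the phantom `(i, j)` separates `i` from `j` -/
def relP (T : Set (ρ × ρ)) (x y s : ρ ⊕ ρ × ρ) : Prop :=
  ∃ z ∈ T, z.1 ≠ z.2 ∧ x = .inl z.1 ∧ y = .inl z.2 ∧ s = .inr z

theorem phantoms [Finite ρ] {grp : ρ → Bool} {a : ρ → Set Z} (h0 : sh.Pre0)
    (h : sh.St (fun _ _ _ => False) grp a) : ∃ b : ρ ⊕ ρ × ρ → Set Z, (∀ i, b (.inl i) = a i) ∧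
      (∀ z, a z.1 = ∅ → b (.inr z) = ∅) ∧
      sh.St (relP univ) (Sum.elim grp fun z => grp z.1) b := by
  classical
  suffices k : ∀ T : Set (ρ × ρ), ∃ b : ρ ⊕ ρ × ρ → Set Z, (∀ i, b (.inl i) = a i) ∧
      (∀ z, a z.1 = ∅ → b (.inr z) = ∅) ∧ sh.St (relP T) (Sum.elim grp fun z => grp z.1) b from k _
  intro T
  induction T, toFinite T using Set.Finite.induction_on with
  | empty =>
    refine ⟨Sum.elim a fun _ => ∅, fun _ => rfl, fun _ _ => rfl, (h.re ?_ ?_).mono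
      fun _ _ _ ⟨_, e, _⟩ => e⟩
    · rintro (i | z)
      exacts [.inr ⟨i, rfl, rfl⟩, .inl rfl]
    · rintro (i | z) (j | z') n
      exacts [h.dj fun e => n (e ▸ rfl), disjoint_empty _, empty_disjoint _, empty_disjoint _]
  | @insert z T hz _ ih =>
    obtain ⟨b, b1, b2, b3⟩ := ih
    by_cases c : z.1 = z.2
    · exact ⟨b, b1, b2, b3.mono fun _ _ _ ⟨w, e, n, k⟩ =>
        ⟨w, e.resolve_left fun o => n (o ▸ c), n, k⟩⟩
    obtain ⟨A, a1, a2⟩ := b3.add (i := .inl z.1) (j := .inl z.2) (s := .inr z) h0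
      (fun e => c (Sum.inl.inj e)) nofun nofun
      (by rintro _ _ _ ⟨w, e, -, rfl, rfl, rfl⟩
          exact ⟨nofun, nofun, fun o => hz (Sum.inr.inj o ▸ e)⟩) rfl
    refine ⟨_, fun i => (update_of_ne Sum.inl_ne_inr _ _).trans (b1 i), fun w e => ?_, a2.mono ?_⟩
    · rcases eq_or_ne w z with rfl | n
      · rw [update_self]; exact a1 ((b1 _).trans e)
      · rw [update_of_ne fun o => n (Sum.inr.inj o)]; exact b2 w e
    · rintro _ _ _ ⟨w, rfl | e, n, k⟩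
      exacts [.inr k, .inl ⟨w, e, n, k⟩]

end Pool.Agent.Lib.MP_b7d179_gt.L
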