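import Pool.Agent.Lib.MP_b7d179_gt.L.Acc
import Pool.Agent.Lib.MP_b7d179_gt.L.Ph

/-! The rounds of the machine and the routing axiom. -/

namespace Pool.Agent.Lib.MP_b7d179_gt.L

open Set C Function

variable {Z : Type} [MetricSpace Z] {φ ι N : Type} {σ : Tw Z} {π : Po Z φ} {M : Mach Z φ}
  {real D : Set ι} {rel : ι → ι → ι → Prop}

/-- a configuration in phase `j`; the phantoms off `D` are empty -/
structure Cf (π : Po Z φ) (M : Mach Z φ) (real : Set ι) (rel : ι → ι → ι → Prop) (D : Set ι)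
    (j : ℕ) (p : N → M.Pos) (a : N → ι → Set Z) : Prop where
  cl : ∀ n, p n ∈ M.C j
  geo : GeoC π fun n => M.ob (p n)
  mu : MU π real (fun n => M.ob (p n)) a
  st : ∀ n, ∃ grp, (M.sh (p n)).St rel grp (a n)
  nil : ∀ s, s ∉ real → s ∉ D → ∀ n, a n s = ∅

/-- all configurations in phase `j` are solvable -/
def All (σ : Tw Z) (π : Po Z φ) (M : Mach Z φ) (real : Set ι) (rel : ι → ι → ι → Prop) (D : Set ι)
    (j : ℕ) : Prop :=
  ∀ (N : Type) [Finite N] (p : N → M.Pos) (a : N → ι → Set Z), Cf π M real rel D j p a →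
    Solv σ π (fun n => M.ob (p n)) fun n => tot real (a n)

theorem Cf.ends [Finite ι] (hM : M.Ok σ π) {j : ℕ} (hj : j = 0 ∨ j = 3) {p : N → M.Pos}
    {a : N → ι → Set Z} (h : Cf π M real rel D j p a) (n : N) :
    (∀ i, ∀ f ∈ (M.ob (p n)).P, a n i ∩ π.H f ⊆ π.Io f ∧ (a n i ∩ π.H f).Subsingleton) ∧
      ∀ T, ∀ f ∈ (M.ob (p n)).P, tot T (a n) ∩ π.H f ⊆ π.Io f ∧ (tot T (a n) ∩ π.H f).Finite := by
  obtain ⟨grp, s⟩ := h.st n
  have b := hM.base (p n) (hj.elim (fun e => .inl (e ▸ h.cl n)) fun e => .inr (e ▸ h.cl n))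
    ι rel grp (a n) s
  refine ⟨b, fun T f hf => ?_⟩
  rw [tot, iUnion₂_inter]
  exact ⟨iUnion₂_subset fun i _ => (b i f hf).1,
    (toFinite T).biUnion fun i _ => (b i f hf).2.finite⟩

variable [Finite ι] (hπ : π.Ok σ.K) (hM : M.Ok σ π)
include hπ hM

theorem all_stage {j : ℕ} (hj : j = 1 ∨ j = 2 ∨ j = 4 ∨ j = 5)
    (h : All σ π M real rel D ((j + 1) % 6)) : All σ π M real rel D j := by
  intro N _ p a c
  have k : ∀ n, ∃ (κ : Type) (_ : Finite κ) (k : κ → M.Pos) (a' : κ → ι → Set Z),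
      Kid π (M.ob (p n)) (fun m => M.ob (k m)) ∧
      Step σ π real (M.ob (p n)) (a n) (fun m => M.ob (k m)) a' ∧
      ∀ m, k m ∈ M.C ((j + 1) % 6) ∧ ∃ grp, (M.sh (k m)).St rel grp (a' m) := fun n => by
    obtain ⟨grp, s⟩ := c.st n
    rcases hM.stage j hj (p n) (c.cl n) with e | e
    · exact ⟨Unit, inferInstance, fun _ => p n, fun _ => a n, .refl (c.geo.ok n),
        .refl fun g hg s hs => by simpa only [union_self] using c.mu.ph n n g hg hg s hs,
        fun _ => ⟨e, grp, s⟩⟩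
    · obtain ⟨κ, f, k, grp', a', h1, h2, h3⟩ := e ι real rel grp (a n) s
      exact ⟨κ, f, k, a', h1, h2, fun m => ⟨(h3 m).1, _, (h3 m).2⟩⟩
  choose κ f k a' h1 h2 h3 using k
  exact solv_step h1 (fun n => (h2 n).tr real (mem_insert _ _)) (fun n => (h2 n).sol)
    (h (Σ n, κ n) (fun x => k x.1 x.2) (fun x => a' x.1 x.2) ⟨fun x => (h3 x.1 x.2).1,
      geoC_step hπ c.geo h1, mu_step hπ c.geo h1 h2 c.mu, fun x => (h3 x.1 x.2).2,
      fun s a b x => (h2 x.1).nil s (c.nil s a b x.1) x.2⟩)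

omit hM [Finite ι] in
/-- passage through the access arcs -/
theorem all_acc {j : ℕ} (h : All σ π M real rel D j) [Finite N] {p p' : N → M.Pos}
    {a : N → ι → Set Z} {th : φ → Option Z} {α : φ → Z → Set Z} {q : φ → Z → Z}
    (geo : GeoC π fun n => M.ob (p n)) (mu : MU π real (fun n => M.ob (p n)) a)
    (nil : ∀ s, s ∉ real → s ∉ D → ∀ n, a n s = ∅)
    (e : ∀ n T, ∀ f ∈ (M.ob (p n)).P,
      tot T (a n) ∩ π.H f ⊆ π.Io f ∧ (tot T (a n) ∩ π.H f).Finite)
    (hα : ∀ n, AcP π (M.ob (p n)) th (tot univ (a n)) α q)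
    (hp : ∀ n, p' n ∈ M.C j ∧ ∃ grp', Up π (M.ob (p n)) (M.ob (p' n)) ∧
      (M.sh (p' n)).St rel grp' fun i => ext π (M.ob (p n)).P α (a n i)) :
    Solv σ π (fun n => M.ob (p n)) fun n => tot real (a n) := by
  have u := fun n => (hp n).2.choose_spec.1
  have := h N p' (fun n i => ext π (M.ob (p n)).P α (a n i)) ⟨fun n => (hp n).1, geo.up hπ u,
    acc_mu hπ geo u mu (fun n i f hf x hx => ((e n {i} f hf).1 (by rwa [tot_single])).1) hα,
    fun n => (hp n).2.imp fun _ k => k.2, fun s b c n => by rw [nil s b c n, ext_empty]⟩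
  simp only [ext_tot] at this
  exact acc_solv hπ geo u mu.re (fun n f hf => ⟨(e n real f hf).1.trans sdiff_subset,
    (e n real f hf).2⟩) (fun n => (hα n).mono (biUnion_subset_biUnion_left (subset_univ _))) this

theorem all_cut (hr : ∀ i j s, rel i j s → i ≠ j) (h : All σ π M real rel D 4) :
    All σ π M real rel D 3 := by
  classical
  intro N _ p a c
  let th : φ → Option Z := fun f =>
    if e : ∃ n, f ∈ (M.ob (p n)).P then ((M.ob (p e.choose)).M f).map (π.cut f) else none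
  have t1 : ∀ n, ∀ f ∈ (M.ob (p n)).P, th f = ((M.ob (p n)).M f).map (π.cut f) := fun n f hf => by
    have e : ∃ n, f ∈ (M.ob (p n)).P := ⟨n, hf⟩
    simp only [th, dif_pos e]
    rw [c.geo.mark _ n f e.choose_spec hf]
  have t2 : ∀ f x, th f = some x → x ∈ π.Io f := fun f x e => by
    simp only [th] at e
    split at e
    · obtain ⟨b, -, rfl⟩ := Option.map_eq_some_iff.1 e
      exact hπ.cut f b
    · cases e
  have e := fun n => (c.ends hM (.inr rfl) n).2
  obtain ⟨α, q, hα⟩ := acc_ex (o := fun n => M.ob (p n)) hπ (fun n => e n univ) t2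
  choose p' hp using fun n => (c.st n).elim fun grp s =>
    hM.post2 (p n) (c.cl n) ι rel grp (a n) th α q hr s (hα n) (t1 n)
  exact all_acc hπ h c.geo c.mu c.nil e hα hp

theorem all_ph (hr : ∀ i j s, rel i j s → i ≠ j) {t : ι} (ht : t ∉ real)
    (h : All σ π M real rel D 1) : All σ π M real rel (insert t D) 0 := by
  classical
  intro N _ p a c
  let th : φ → Option Z := fun f =>
    if e : ∃ x, ∃ n, f ∈ (M.ob (p n)).P ∧ x ∈ a n t ∩ π.H f then some e.choose else none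
  have e := c.ends hM (.inl rfl)
  have t1 : ∀ n, ∀ f ∈ (M.ob (p n)).P, ∀ x ∈ a n t ∩ π.H f, th f = some x := fun n f hf x hx => by
    have k : ∃ x, ∃ n, f ∈ (M.ob (p n)).P ∧ x ∈ a n t ∩ π.H f := ⟨x, n, hf, hx⟩
    obtain ⟨n', b1, b2⟩ := k.choose_spec
    simp only [th, dif_pos k]
    rw [c.mu.ph n' n f b1 hf t ht ⟨.inl b2.1, b2.2⟩ ⟨.inr hx.1, hx.2⟩]
  have t2 : ∀ f x, th f = some x → x ∈ π.Io f := fun f x k => by
    simp only [th] at k
    split at k
    · rename_i k'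
      obtain ⟨n, b1, b2⟩ := k'.choose_spec
      exact Option.some.inj k ▸ ((e n).1 t f b1).1 b2
    · cases k
  obtain ⟨α, q, hα⟩ := acc_ex (o := fun n => M.ob (p n)) hπ (fun n => (e n).2 univ) t2
  choose p' hp using fun n => (c.st n).elim fun grp s =>
    hM.post1 (p n) (c.cl n) ι rel grp (a n) t th α q hr s (hα n) (t1 n)
  have s : ∀ n i, del t (a n) i ⊆ a n i := fun n i x hx => hx.1
  have s' : ∀ n T, tot T (del t (a n)) ⊆ tot T (a n) := fun n T => iUnion₂_mono fun i _ => s n i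
  have r : ∀ n, tot real (del t (a n)) = tot real (a n) := fun n => iUnion₂_congr fun i hi =>
    subset_antisymm (s n i) fun x hx => ⟨hx, fun o => ht (o ▸ hi)⟩
  have := all_acc (a := fun n => del t (a n)) hπ h c.geo
    ⟨fun n n' g b1 b2 => by rw [r, r]; exact c.mu.re n n' g b1 b2,
      fun n n' g b1 b2 i hi => (c.mu.ph n n' g b1 b2 i hi).anti
        (inter_subset_inter_left _ (union_subset_union (s n i) (s n' i)))⟩
    (fun i b1 b2 n => eq_empty_of_forall_notMem fun x hx =>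
      (c.nil i b1 (fun o => o.elim hx.2 b2) n ▸ hx.1 : x ∈ (∅ : Set Z)))
    (fun n T f hf => ⟨(inter_subset_inter_left _ (s' n T)).trans ((e n).2 T f hf).1,
      ((e n).2 T f hf).2.subset (inter_subset_inter_left _ (s' n T))⟩)
    (fun n => (hα n).mono (s' n univ)) hp
  simpa only [r] using this

theorem all_end (hrel : ∀ i ∈ real, ∀ j ∈ real, i ≠ j → ∃ s, s ∉ real ∧ rel i j s) :
    All σ π M real rel ∅ 0 := by
  intro N _ p a c
  have e := c.ends hM (.inl rfl)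
  have one : ∀ n, tot real (a n) = ∅ ∨ ∃ i, a n i ≠ ∅ ∧ tot real (a n) = a n i := fun n => by
    obtain ⟨grp, s⟩ := c.st n
    rcases (tot real (a n)).eq_empty_or_nonempty with k | ⟨x, k⟩
    · exact .inl k
    obtain ⟨i, hi, hx⟩ := mem_iUnion₂.1 k
    have ni : a n i ≠ ∅ := nonempty_iff_ne_empty.1 ⟨x, hx⟩
    refine .inr ⟨i, ni, subset_antisymm (iUnion₂_subset fun j hj => ?_) (subset_biUnion_of_mem hi)⟩
    rcases eq_or_ne i j with rfl | o
    · exact subset_rfl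
    · obtain ⟨z, z1, z2⟩ := hrel i hi j hj o
      exact ((s.uniq (hM.pre0 _ (c.cl n)) z2 o (c.nil z z1 id n)).resolve_left ni).le.trans
        (empty_subset _)
  obtain ⟨α, q, hα⟩ := acc_ex (o := fun n => M.ob (p n)) (ths := fun _ => none) hπ
    (fun n => (e n).2 real) nofun
  have u : ∀ n, ∀ f ∈ (M.ob (p n)).P, (⋃ n ∈ {n | f ∈ (M.ob (p n)).P}, tot real (a n) ∩ π.H f) =
      tot real (a n) ∩ π.H f := fun n f hf =>
    subset_antisymm (iUnion₂_subset fun n' hn' => (c.mu.re n' n f hn' hf).le)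
      (subset_biUnion_of_mem (u := fun n => tot real (a n) ∩ π.H f)
        (show n ∈ {n | f ∈ (M.ob (p n)).P} from hf))
  refine ⟨fun f => ⋃ e ∈ ⋃ n ∈ {n | f ∈ (M.ob (p n)).P}, tot real (a n) ∩ π.H f,
    π.H (π.pd f (π.t f)) ∪ α f e, fun n => ⟨fun f hf => ?_, ?_⟩⟩
  · beta_reduce
    rw [u n f hf]
    refine (hα n f hf).last hπ ?_ (((e n).2 real f hf).1.trans sdiff_subset)
    rcases one n with k | ⟨i, -, k⟩ <;> rw [k]
    exacts [by simp, ((e n).1 i f hf).2]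
  · obtain ⟨grp, s⟩ := c.st n
    have := hM.lane (p n) (c.cl n) (tot real (a n)) α q (s.re (fun _ => (one n).imp id
      fun ⟨i, b1, b2⟩ => ⟨i, b2, (s.grp_false (hM.pre0 _ (c.cl n)) b1).symm⟩)
      Subsingleton.pairwise) (hα n)
    rw [SolP, iUnion₂_congr fun f hf => by rw [u n f hf]]
    convert this using 1
    ext x
    simp only [ext, mem_iUnion, mem_union, mem_ofPred_eq]
    constructor
    · rintro (k | ⟨f, hf, y, hy, k | k⟩)
      exacts [.inl (.inl k), .inr ⟨f, ⟨hf, y, hy⟩, k⟩, .inl (.inr ⟨f, hf, y, hy, k⟩)]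
    · rintro ((k | ⟨f, hf, y, hy, k⟩) | ⟨f, ⟨hf, y, hy⟩, k⟩)
      exacts [.inl k, .inr ⟨f, hf, y, hy, .inr k⟩, .inr ⟨f, hf, y, hy, .inl k⟩]

theorem all_zero (hr : ∀ i j s, rel i j s → i ≠ j)
    (hrel : ∀ i ∈ real, ∀ j ∈ real, i ≠ j → ∃ s, s ∉ real ∧ rel i j s) :
    All σ π M real rel realᶜ 0 := by
  suffices k : ∀ D : Set ι, D ⊆ realᶜ → All σ π M real rel D 0 from k _ subset_rfl
  intro D
  induction D, toFinite D using Set.Finite.induction_on with
  | empty => exact fun _ => all_end hπ hM hrel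
  | @insert t D _ _ ih =>
    exact fun s => all_ph hπ hM hr (s (mem_insert _ _)) (all_stage hπ hM (by simp)
      (all_stage hπ hM (by simp) (all_cut hπ hM hr (all_stage hπ hM (by simp)
        (all_stage hπ hM (by simp) (ih ((subset_insert _ _).trans s)))))))

omit hπ hM [Finite ι]

/-- a family with labels moved along `f` -/
def push {ι' : Type} (f : ι → ι') (a : ι → Set Z) (j : ι') : Set Z := {y | ∃ i, j = f i ∧ y ∈ a i}

omit [MetricSpace Z] in
theorem tot_push {ι' : Type} (f : ι → ι') (a : ι → Set Z) : tot univ (push f a) = tot univ a := by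
  ext x
  simp only [tot, push, mem_iUnion, mem_ofPred_eq]
  exact ⟨fun ⟨_, _, i, _, h⟩ => ⟨i, trivial, h⟩, fun ⟨i, _, h⟩ => ⟨_, trivial, i, rfl, h⟩⟩

theorem Sh.St.push {ι' : Type} {f : ι → ι'} (hf : Injective f) {sh : Sh Z} {grp : ι → Bool}
    {a : ι → Set Z} (h : sh.St rel grp a) :
    ∃ grp', sh.St (fun _ _ _ => False) grp' (push f a) := by
  refine ⟨extend f grp fun _ => false, h.re (fun j => ?_) fun j j' n => disjoint_left.2 ?_⟩
  · by_cases c : ∃ i, j = f i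
    · obtain ⟨i, rfl⟩ := c
      exact .inr ⟨i, subset_antisymm (fun x ⟨i', e, k⟩ => hf e ▸ k) fun x k => ⟨i, rfl, k⟩,
        hf.extend_apply _ _ _⟩
    · exact .inl (eq_empty_of_forall_notMem fun x ⟨i, e, _⟩ => c ⟨i, e⟩)
  · rintro x ⟨i, rfl, k⟩ ⟨i', rfl, k'⟩
    exact disjoint_left.1 (h.dj fun e => n (congrArg f e)) k k'

include hπ hM

theorem all_real [Finite ι] : All σ π M (univ : Set ι) (fun _ _ _ => False) ∅ 0 := by
  intro N _ p a c
  choose b b1 b2 b3 using fun n => (c.st n).elim fun grp s =>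
    (s.push (f := Prod.mk n) (Prod.mk_right_injective n)).elim fun grp' s' =>
      (phantoms (hM.pre0 _ (c.cl n)) s').imp fun b k =>
        (⟨k.1, k.2.1, _, k.2.2⟩ : _ ∧ _ ∧ ∃ g, (M.sh (p n)).St (relP univ) g b)
  have r : ∀ n, tot (range Sum.inl) (b n) = tot univ (a n) := fun n => by
    rw [tot, biUnion_range, iUnion_congr (b1 n), ← tot_push (Prod.mk n), tot, biUnion_univ]
  have := all_zero (real := range Sum.inl) (rel := relP univ) hπ hM
    (by rintro _ _ _ ⟨z, -, n, rfl, rfl, -⟩; exact fun e => n (Sum.inl.inj e))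
    (by rintro _ ⟨i, rfl⟩ _ ⟨j, rfl⟩ n
        exact ⟨.inr (i, j), by simp, (i, j), trivial, fun e => n (congrArg _ e), rfl, rfl, rfl⟩)
    N p b ⟨c.cl, c.geo, ⟨fun n n' g h1 h2 => by rw [r, r]; exact c.mu.re n n' g h1 h2,
      fun n n' g h1 h2 s hs => ?_⟩, b3, fun s h1 h2 => (h2 h1).elim⟩
  · simpa only [r] using this
  · have one : ∀ n, g ∈ (M.ob (p n)).P → (b n s ∩ π.H g).Subsingleton := fun n h =>
      (b3 n).elim fun grp k => (hM.base _ (.inl (c.cl n)) _ _ grp _ k s g h).2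
    obtain i | z := s
    · exact (hs ⟨i, rfl⟩).elim
    have e : ∀ n, z.1.1 ≠ n → b n (.inr z) = ∅ := fun n o => b2 n z
      (eq_empty_of_forall_notMem fun x ⟨i, k, _⟩ => o (congrArg Prod.fst k))
    rcases eq_or_ne n n' with rfl | o
    · simpa only [union_self] using one n h1
    · rcases eq_or_ne z.1.1 n with k | k
      · simpa only [e n' (k ▸ o), union_empty] using one n h1
      · simpa only [e n k, empty_union] using one n' h2

theorem s5_of {ft : σ.φ → φ} {o : σ.β → Ob Z φ} (hl : Link σ π ft o) (hi : Init σ π M o) :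
    S5 σ := by
  intro m V E X hV h
  have := hV.to_subtype
  choose κ ρ f1 f2 k grp a h1 h2 h3 h4 using fun v : V => hi v E (X v) (h v v.2).2
  have geo : GeoC π fun v : V => o v := (hl.geo m).comap
    (f := fun v : V => ⟨v.1, (h v v.2).1⟩) fun _ _ e => Subtype.ext (congrArg (·.1) e)
  have lev : ∀ v ∈ V, ∀ f ∈ σ.F v, σ.lf f = m := fun v hv f hf => (hl.lev v f hf).trans (h v hv).1
  have uq : ∀ v ∈ V, ∀ f ∈ σ.F v, ∀ v' ∈ V, ∀ f' ∈ σ.F v', ∀ x ∈ σ.A f, x ∈ σ.A f' → f = f' :=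
    fun v hv f hf v' hv' f' hf' x b1 b2 => by_contra fun c => disjoint_left.1
      (hl.fdj f f' ((lev v hv f hf).trans (lev v' hv' f' hf').symm) c) b1 b2
  have eE : ∀ v ∈ V, ∀ f ∈ σ.F v, E f = X v ∩ σ.A f ∧ E f ⊆ σ.J f := fun v hv f hf => by
    obtain ⟨ι, -, b, x, y, g, g', k1, -, k2, k3⟩ := (h v hv).2
    refine ⟨k3 f hf, fun z hz => ?_⟩
    rw [k3 f hf, k2] at hz
    obtain ⟨i, hz'⟩ := mem_iUnion.1 hz.1
    obtain ⟨-, -, c1, c2, c3, c4, c5, -⟩ := k1 i
    have s : ∀ g, σ.J g ⊆ σ.A g := fun g => (hl.j g).2.elim fun b k => k.trans (hl.pad g b).1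
    rcases c5.le ⟨hz', mem_biUnion hf hz.2⟩ with rfl | rfl
    exacts [uq v hv _ c1 v hv f hf _ (s _ c3) hz.2 ▸ c3, uq v hv _ c2 v hv f hf _ (s _ c4) hz.2 ▸ c4]
  have tr : ∀ v ∈ V, ∀ f ∈ σ.F v, ∀ b, X v ∩ π.H (π.pd (ft f) b) = E f ∩ π.H (π.pd (ft f) b) :=
    fun v hv f hf b => by rw [(eE v hv f hf).1, inter_assoc, inter_eq_right.2 (hl.pad f b).1]
  have mt : ∀ v v' : V, ∀ g ∈ (o v).P, g ∈ (o v').P → X v ∩ π.H g = X v' ∩ π.H g :=
    fun v v' g b1 b2 => by
      obtain ⟨f, hf, b, e⟩ := (hl.p v g).1 b1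
      obtain ⟨f', hf', b', e'⟩ := (hl.p v' g).1 b2
      obtain ⟨x, hx⟩ := hπ.inner g
      obtain rfl := uq v v.2 f hf v' v'.2 f' hf' x ((hl.pad f b).1 (e ▸ hx.1))
        ((hl.pad f' b').1 (e' ▸ hx.1))
      rw [e, tr v v.2 f hf, tr v' v'.2 f hf']
  have s := all_stage hπ hM (j := 5) (by simp) (all_real (ι := Σ v, ρ v) hπ hM) (Σ v, κ v)
    (fun x => k x.1 x.2) (fun x => push (Sigma.mk x.1) (a x.1 x.2)) ⟨fun x => (h4 x.1 x.2).1,
      geoC_step hπ geo h1, ⟨fun x y => by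
        simpa only [tot_push] using match_step hπ geo h1 h2 mt x y,
        fun _ _ _ _ _ s hs => (hs trivial).elim⟩,
      fun x => (h4 x.1 x.2).2.push sigma_mk_injective, fun s hs => (hs trivial).elim⟩
  simp only [tot_push] at s
  obtain ⟨Λ, hΛ⟩ := solv_step h1 h2 h3 s
  refine ⟨fun f => ⋃ b, Λ (π.pd (ft f) b), fun v hv f hf => ?_, fun v hv => ?_⟩
  · have L := lols_union (D := σ.A f) (C := σ.C f) (M := univ) (t := univ) finite_univ univ_nonempty
      (fun b _ => ⟨(hΛ ⟨v, hv⟩).1 _ ((hl.p v _).2 ⟨f, hf, b, rfl⟩), (hl.pad f b).1,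
        subset_inter (subset_univ _) (hl.pad f b).2, by
          rw [tr v hv f hf]
          exact inter_subset_left.trans ((eE v hv f hf).2.trans (hl.j f).1)⟩)
      fun _ _ _ _ c => hπ.pad_dj (ft f) c
    simp only [biUnion_univ, tr v hv f hf] at L
    rwa [← inter_iUnion, inter_eq_left.2 ((hl.j f).2.elim fun b k => ((eE v hv f hf).2.trans k).trans
      (subset_iUnion (fun b => π.H (π.pd (ft f) b)) b))] at L
  · have := (hΛ ⟨v, hv⟩).2
    rw [SolP, hl.b, hl.s] at this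
    convert this using 2
    ext x
    simp only [mem_iUnion, hl.p]
    exact ⟨fun ⟨f, hf, b, k⟩ => ⟨_, ⟨f, hf, b, rfl⟩, k⟩,
      fun ⟨_, ⟨f, hf, b, e⟩, k⟩ => ⟨f, hf, b, e ▸ k⟩⟩

end Pool.Agent.Lib.MP_b7d179_gt.L
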