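import Pool.Agent.Lib.MP_b7d179_gt.L.MachD
import Pool.Agent.Lib.MP_b7d179_gt.L.CoreC
import Pool.Agent.Lib.MP_b7d179_gt.L.Round
import Pool.Agent.Lib.MP_b7d179_gt.L.TowG

/-! The machine of states works. -/

namespace Pool.Agent.Lib.MP_b7d179_gt.L

open Set C Gen

def bb2 : List (Bool × Bool) := [(false, false), (false, true), (true, false), (true, true)]
def allMd : List Md := bb2.flatMap fun x =>
  [.xq x.1 x.2 .N, .xq x.1 x.2 .PAR, .xq x.1 x.2 .M, .yq x.1 x.2 .N, .yq x.1 x.2 (.T 0),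
    .yq x.1 x.2 (.T 1), .yq x.1 x.2 (.T 2), .yq x.1 x.2 (.U 0), .yq x.1 x.2 (.U 1),
    .yq x.1 x.2 (.U 2), .xp x.1 x.2 false, .xp x.1 x.2 true, .yp x.1 x.2 none,
    .yp x.1 x.2 (some 0), .yp x.1 x.2 (some 1), .yp x.1 x.2 (some 2)]

theorem mem_allMd (md : Md) : md ∈ allMd := by
  rcases md with ⟨a, b, _ | _ | _⟩ | ⟨a, b, _ | c | c⟩ | ⟨a, b, c⟩ | ⟨a, b, _ | c⟩ <;>
    (try revert c) <;> revert a b <;> decide

def Md.bad : Md → Bool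
  | .xq a b .M => a == b
  | _ => false

/-- the states with a certificate -/
def Md.cert : Md → Bool
  | .xq a b m => !Md.bad (.xq a b m)
  | .yq e _ (.U _) => e
  | .yq _ _ _ => true
  | _ => false

/-- the kids are good places in phase `j` -/
def kidsOk (k : Gk) (j : ℕ) (ks : List Kd) : Bool :=
  ks.all fun x => x.2.1.ph j && !x.2.1.bad && (gkids k).contains (x.1, x.2.1.gk)

theorem bad_iff {md : Md} : md.bad = false ↔ ∀ a, md ≠ .xq a a .M := by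
  have : ∀ md ∈ allMd, md.bad = false ↔ ∀ a, md ≠ .xq a a .M := by decide +kernel
  exact this md (mem_allMd md)

theorem stage_chk : ∀ j ∈ [1, 2, 4, 5], ∀ md ∈ allMd, md.ph j = true → md.bad = false →
    md.ph ((j + 1) % 6) = true ∨ (md.cert = true ∧ kidsOk md.gk ((j + 1) % 6) md.kids = true) := by
  decide +kernel

theorem ph03 : ∀ md ∈ allMd, md.ph 0 = true → md.ph 3 = true := by decide +kernel
theorem ph14 : ∀ md ∈ allMd, md.ph 1 = true ∨ md.ph 4 = true → md.bad = false ∧ md.cert = true := by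
  decide +kernel

theorem cert_ao {md : Md} (h : md.cert = true) : md.ao = md.gk.ao := by
  cases md
  case xq => rfl
  case yq => rfl
  all_goals cases h

theorem Certs.get (h : Certs) {md : Md} (e : md.cert = true) : ∃ x, certOk md x = true := by
  cases md
  case xq a b m => exact h.x a b m (by rintro rfl rfl; cases a <;> cases e)
  case yq a b m => exact h.y a b m (by rintro c rfl; exact e)
  all_goals cases e

variable {Z : Type} [MetricSpace Z] {Γ : Geo Z} {σ : Tw Z} {Q : Gk → Γ.Fl → Prop}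

theorem up_md {md md' : Md} (h : md.ph 3 = true) (h' : md'.cert = true) (e : md'.gk = md.gk.nx)
    (g : Γ.Fl) : Up Γ.po (Γ.ob g md.ao) (Γ.ob g md'.ao) := by
  rw [cert_ao h', e]
  cases md
  case xp => exact Γ.up_ok (by rfl) (by rfl) (by rfl) g
  case yp => exact Γ.up_ok (by rfl) (by rfl) (by rfl) g
  all_goals cases h

/-- the kids as positions -/
def kpos (hQ : Γ.Reach σ Q) {k : Gk} {g : Γ.Fl} (q : Q k g) {j : ℕ} {ks : List Kd}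
    (h : kidsOk k j ks = true) (m : Fin ks.length) : (Γ.mach Q).Pos :=
  ⟨(ks[m].2.1, g * Γ.ev ks[m].1), by
    have := List.all_eq_true.1 h _ (List.getElem_mem m.2)
    simp only [Bool.and_eq_true, Bool.not_eq_true', List.contains_iff_mem] at this
    exact ⟨hQ.kid k g q _ this.2, bad_iff.1 this.1.2⟩⟩

theorem kpos_mem (hQ : Γ.Reach σ Q) {k : Gk} {g : Γ.Fl} (q : Q k g) {j : ℕ} {ks : List Kd}
    (h : kidsOk k j ks = true) (m : Fin ks.length) : kpos hQ q h m ∈ (Γ.mach Q).C j := by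
  have := List.all_eq_true.1 h _ (List.getElem_mem m.2)
  simp only [Bool.and_eq_true] at this
  exact this.1.1

theorem mach_ok (ok : σ.Ok0) (hK : σ.K = Γ.K) (hQ : Γ.Reach σ Q) (hc : Certs) (h0 : Γ.Pre0S)
    (hb : Γ.BaseS) (h1 : Γ.Post1S) (h2 : Γ.Post2S) (hl : Γ.LaneS σ Q) :
    (Γ.mach Q).Ok σ Γ.po where
  pre0 p hp := h0 _ _ hp
  base p hp := hb _ _ (hp.elim (ph03 _ (mem_allMd _)) id)
  post1 p hp ι _ rel grp a t th α q r s ac ht := by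
    obtain ⟨md', e1, e2, grp', h⟩ := h1 _ _ hp ι rel grp a t th α q r s ac ht
    have c := ph14 _ (mem_allMd md') (.inl e1)
    exact ⟨⟨(md', p.1.2), e2 ▸ hQ.nx _ _ p.2.1, bad_iff.1 c.1⟩, e1, grp',
      up_md (ph03 _ (mem_allMd _) hp) c.2 e2 _, h⟩
  post2 p hp ι _ rel grp a th α q r s ac ht := by
    obtain ⟨md', e1, e2, grp', h⟩ := h2 _ _ hp ι rel grp a th α q r s ac ht
    have c := ph14 _ (mem_allMd md') (.inr e1)
    exact ⟨⟨(md', p.1.2), e2 ▸ hQ.nx _ _ p.2.1, bad_iff.1 c.1⟩, e1, grp', up_md hp c.2 e2 _, h⟩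
  stage j hj p hp := by
    refine (stage_chk j (by simpa using hj) _ (mem_allMd _) hp (bad_iff.2 p.2.2)).imp id ?_
    rintro ⟨c, k⟩ ι _ real rel grp a s
    obtain ⟨x, e⟩ := hc.get c
    obtain ⟨a', u1, u2, u3⟩ := step_cert (real := real) ok hK e p.1.2 s
    rw [← cert_ao c] at u1 u2
    exact ⟨_, inferInstance, kpos hQ p.2.1 k, _, a', u1, u2, fun m => ⟨kpos_mem _ _ _ _, u3 m⟩⟩
  lane p hp := hl _ _ hp p.2.1

/-! ### The first step -/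

theorem raw_of {φ : Type} {π : Po Z φ} {K : Set Z} (hπ : π.Ok K) {ft : σ.φ → φ}
    {o : σ.β → Ob Z φ} (hl : Link σ π ft o) {v : σ.β} {E : σ.φ → Set Z} {X : Set Z}
    (h : Ess σ (σ.S v) (σ.F v) E X) {Y : Set Z} {Ls hs : Set (Set Z)}
    (h1 : Y ⊆ ⋃ f ∈ σ.F v, σ.A f) (h2 : ∀ f ∈ σ.F v, σ.J f ⊆ Y) (h3 : ∀ f ∈ σ.F v, σ.J f ∈ Ls)
    (h4 : (∀ f ∈ σ.F v, σ.A f ∈ hs) ∨
      ∀ f ∈ σ.F v, ∀ k ∈ σ.F v, ∀ l ∈ σ.F v, ft k = ft f ∨ ft l = ft f ∨ σ.A k = σ.A l) :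
    ∃ (ι : Type) (_ : Finite ι) (a : ι → Set Z) (p q : ι → Z),
      Raw (σ.S v) Y Ls hs a p q ∧ X = tot univ a := by
  obtain ⟨ι, _, a, p, q, f, g, h, dj, rfl, -⟩ := h
  have ja : ∀ f, σ.J f ⊆ σ.A f := fun f => (hl.j f).2.elim fun b hb => hb.trans (hl.pad f b).1
  have fd : ∀ f ∈ σ.F v, ∀ k ∈ σ.F v, f ≠ k → Disjoint (σ.A f) (σ.A k) := fun f hf k hk e =>
    hl.fdj f k ((hl.lev v f hf).trans (hl.lev v k hk).symm) e
  have pt : ∀ f ∈ σ.F v, ∃ x ∈ π.H (π.pd (ft f) true), x ∈ σ.A f ∧ x ∈ σ.S v := fun f hf => by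
    obtain ⟨x, hx⟩ := hπ.inner (π.pd (ft f) true)
    exact ⟨x, hx.1, (hl.pad f true).1 hx.1, hl.s v ▸
      ((hl.geo _).ok ⟨v, rfl⟩).sub _ ((hl.p v _).2 ⟨f, hf, true, rfl⟩) hx.1⟩
  have ne : ∀ f ∈ σ.F v, ∀ k ∈ σ.F v, f ≠ k → σ.A f ≠ σ.A k ∧ ft f ≠ ft k := fun f hf k hk e => by
    obtain ⟨x, x0, x1, -⟩ := pt f hf
    exact ⟨fun e' => disjoint_left.1 (fd f hf k hk e) x1 (e' ▸ x1), fun e' =>
      disjoint_left.1 (fd f hf k hk e) x1 ((hl.pad k true).1 (e' ▸ x0))⟩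
  refine ⟨ι, ‹_›, a, p, q, ⟨⟨toFinite _, fun i _ => (h i).1, fun i _ => (h i).2.1, fun i _ => ?_,
    fun i _ j _ e => dj e⟩, fun i => ?_, fun i => ?_⟩, by simp [tot]⟩
  all_goals obtain ⟨a1, a2, hf, hg, hp, hq, e, es⟩ := h i
  · refine (e ▸ inter_subset_inter_right _ h1 :).antisymm ?_
    rintro x (rfl | rfl)
    exacts [⟨(e.ge (.inl rfl)).1, h2 _ hf hp⟩, ⟨(e.ge (.inr rfl)).1, h2 _ hg hq⟩]
  · exact ⟨⟨_, h3 _ hf, hp⟩, _, h3 _ hg, hq⟩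
  · by_cases c : f i = g i
    swap
    · exact .inl ⟨_, h3 _ hf, _, h3 _ hg, fun e' =>
        disjoint_left.1 (fd _ hf _ hg c) (ja _ hp) (ja _ (e' ▸ hp)), hp, hq⟩
    obtain ⟨k, hk, l, hl', k1, l1, sp⟩ := es c
    rcases h4 with h4 | h4
    · exact .inr ⟨_, h4 _ hf, _, h4 _ hk, _, h4 _ hl', (ne _ hk _ hf k1).1, (ne _ hl' _ hf l1).1,
        ja _ hp, ja _ (c ▸ hq), sp⟩
    · exfalso
      have kl := ((h4 _ hf _ hk _ hl').resolve_left (ne _ hk _ hf k1).2).resolve_left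
        (ne _ hl' _ hf l1).2
      obtain ⟨x, -, x1, x2⟩ := pt k hk
      have n1 : x ∉ σ.A (f i) := disjoint_left.1 (fd _ hk _ hf k1) x1
      have n2 : x ∉ a i := fun hx => by
        rcases e.le ⟨hx, mem_biUnion hk x1⟩ with rfl | rfl
        exacts [n1 (ja _ hp), n1 (ja _ (c ▸ hq))]
      rcases sp {x} isPreconnected_singleton (singleton_subset_iff.2 ⟨x2, not_or.2 ⟨n1, n2⟩⟩)
        with d | d
      exacts [disjoint_left.1 d rfl x1, disjoint_left.1 d rfl (kl ▸ x1)]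

/-- the leaves and feet of the tower in terms of addresses -/
structure Geo.Leaves (Γ : Geo Z) (σ : Tw Z) (Q : Gk → Γ.Fl → Prop) (ft : σ.φ → Γ.Ft)
    (o : σ.β → Ob Z Γ.Ft) : Prop where
  a : ∀ f, σ.A f = Γ.Rg (ft f).1 zM
  j : ∀ f, σ.J f = Γ.Rg (ft f).1 (j0M (ft f).2)
  leaf : ∀ v, ∃ (k : Gk) (g : Γ.Fl), k.leaf = true ∧ Q k g ∧ o v = Γ.ob g k.nx.ao ∧
    (∀ f ∈ σ.F v, ∃ p ∈ k.P, ft f = Γ.pt g p) ∧ ∀ p ∈ k.P, ∃ f ∈ σ.F v, ft f = Γ.pt g p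

theorem RL_one (g : Γ.Fl) (w : Wd) (m : ℕ) : Γ.RL g [(w, m)] = Γ.Rg (g * Γ.ev w) m := by
  simp [Geo.RL, Geo.Ra]

/-- the static facts on the start data of a leaf -/
def leafChk (k : Gk) : Bool :=
  (k.nx.iOb.all fun a => sub a.2 zM && k.P.any fun p => p.1 == a.1) &&
  (k.P.all fun p => (k.nx.iOb.any fun a => a.1 == p.1 && sub (j0M p.2) a.2) &&
    k.nx.iLs.contains [(p.1, j0M p.2)]) &&
  ((k.P.all fun p => k.nx.iHs.contains [(p.1, zM)]) ||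
    k.P.all fun p => k.P.all fun p' => k.P.all fun p'' => p' == p || p'' == p || p' == p'') &&
  kidsOk k.nx 5 k.nx.ikids

theorem leaf_chk {k : Gk} (h : k.leaf = true) : leafChk k = true := by
  rcases k with _ | _ | ⟨_ | _, _ | _⟩ | ⟨_ | _, _ | _⟩ | _
  all_goals first | exact absurd h Bool.false_ne_true | decide +kernel

theorem Certs.ini (h : Certs) {k : Gk} (e : k.leaf = true) : ∃ x, icertOk k.nx x = true := by
  cases k
  case lx => exact h.il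
  case ly => exact h.iy _ _
  all_goals cases e

theorem init_ok (ok : σ.Ok0) (hK : σ.K = Γ.K) (hQ : Γ.Reach σ Q) (hc : Certs) {ft : σ.φ → Γ.Ft}
    {o : σ.β → Ob Z Γ.Ft} (hl : Link σ Γ.po ft o) (hv : Γ.Leaves σ Q ft o) :
    Init σ Γ.po (Γ.mach Q) o := by
  intro v E X h
  obtain ⟨k, g, lf, q, eo, f1, f2⟩ := hv.leaf v
  have c := leaf_chk lf
  simp only [leafChk, Bool.and_eq_true, Bool.or_eq_true, List.all_eq_true, List.any_eq_true,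
    beq_iff_eq, List.contains_iff_mem] at c
  obtain ⟨⟨⟨c1, c2⟩, c3⟩, c4⟩ := c
  obtain ⟨ι, _, a, p, q', r, rfl⟩ := raw_of Γ.po_ok hl h (Y := Γ.RL g k.nx.iOb)
    (Ls := setsA (Γ.RL g) k.nx.iLs) (hs := setsA (Γ.RL g) k.nx.iHs) (by
      rintro x ⟨y, hy, hx⟩
      obtain ⟨s1, p, hp, e⟩ := c1 y hy
      obtain ⟨f, hf, e'⟩ := f2 p hp
      refine mem_biUnion hf ?_
      rw [hv.a, e', Geo.pt, e]
      exact (Γ.Rg_rl _).sub s1 hx) (fun f hf x hx => by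
      obtain ⟨p, hp, e⟩ := f1 f hf
      obtain ⟨y, hy, e1, s1⟩ := (c2 p hp).1
      rw [hv.j, e, Geo.pt, ← e1] at hx
      exact ⟨y, hy, (Γ.Rg_rl _).sub s1 hx⟩) (fun f hf => by
      obtain ⟨p, hp, e⟩ := f1 f hf
      exact ⟨_, (c2 p hp).2, by rw [hv.j, e, RL_one]; rfl⟩) (c3.imp (fun c f hf => by
      obtain ⟨p, hp, e⟩ := f1 f hf
      exact ⟨_, c p hp, by rw [hv.a, e, RL_one]; rfl⟩) fun c f hf f' hf' f'' hf'' => by
      obtain ⟨p, hp, e⟩ := f1 f hf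
      obtain ⟨p', hp', e'⟩ := f1 f' hf'
      obtain ⟨p'', hp'', e''⟩ := f1 f'' hf''
      rw [hv.a, hv.a, e, e', e'']
      rcases c p hp p' hp' p'' hp'' with (rfl | rfl) | rfl
      exacts [.inl rfl, .inr (.inl rfl), .inr (.inr rfl)])
  obtain ⟨x, e⟩ := hc.ini lf
  rw [← hl.s, eo] at r
  obtain ⟨ρ, _, grp, a', u1, u2, u3, u4⟩ := init_cert ok hK e g r
  rw [eo]
  exact ⟨_, ρ, inferInstance, ‹_›, kpos hQ (hQ.nx _ _ q) c4, grp, a', u1, u2, u3,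
    fun m => ⟨kpos_mem _ _ _ _, u4 m⟩⟩

/-- the routing axiom of the tower -/
theorem s5_geo (ok : σ.Ok0) (hK : σ.K = Γ.K) (hQ : Γ.Reach σ Q) (hc : Certs) (h0 : Γ.Pre0S)
    (hb : Γ.BaseS) (h1 : Γ.Post1S) (h2 : Γ.Post2S) (hn : Γ.LaneS σ Q) {ft : σ.φ → Γ.Ft}
    {o : σ.β → Ob Z Γ.Ft} (hl : Link σ Γ.po ft o) (hv : Γ.Leaves σ Q ft o) : S5 σ :=
  s5_of (hK ▸ Γ.po_ok) (mach_ok ok hK hQ hc h0 hb h1 h2 hn) hl (init_ok ok hK hQ hc hl hv)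

/-- the places of the tower -/
def Geo.twQ (Γ : Geo Z) (k : Gk) (g : Γ.Fl) : Prop := ∃ m, Γ.Rch m k g

theorem tw_reach : Γ.Reach Γ.tw Γ.twQ where
  kid _ _ h _ hx := h.imp fun _ h => h.kid hx
  nx k g := by
    rintro ⟨m, h⟩
    cases k
    case lx => exact ⟨_, h.nx rfl⟩
    case ly => exact ⟨_, h.nx rfl⟩
    all_goals exact ⟨m, h⟩
  good _ _ h := h.elim fun _ h => h.good

theorem tw_leaves : Γ.Leaves Γ.tw Γ.twQ (fun f => f.1.2) fun v => Γ.O (Γ.nx v.1.2) where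
  a _ := rfl
  j _ := rfl
  leaf v := ⟨v.1.2.1, v.1.2.2, Geo.Lv_leaf v.2, ⟨_, .inl v.2⟩, rfl, fun _ hf => Geo.O_P.1 hf.2,
    fun p hp => ⟨⟨(v.1.1, Γ.pt v.1.2.2 p), _, v.2, Geo.O_P.2 ⟨p, hp, rfl⟩⟩,
      ⟨rfl, Geo.O_P.2 ⟨p, hp, rfl⟩⟩, rfl⟩⟩

theorem s5_tw (hc : Certs) (h0 : Γ.Pre0S) (hb : Γ.BaseS) (h1 : Γ.Post1S) (h2 : Γ.Post2S)
    (hn : Γ.LaneS Γ.tw Γ.twQ) : S5 Γ.tw :=
  s5_geo Geo.tw_ok0 rfl tw_reach hc h0 hb h1 h2 hn Geo.tw_link tw_leaves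

end Pool.Agent.Lib.MP_b7d179_gt.L
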