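import Pool.Agent.Lib.MP_b7d179_gt.L.Md

/-! The machine of states: positions and the statements that make it work. -/

namespace Pool.Agent.Lib.MP_b7d179_gt.L

open Set C Gen

/-- all programs are certified -/
structure Certs : Prop where
  x : ∀ a b m, (m = XM.M → a ≠ b) → ∃ x, certOk (.xq a b m) x = true
  y : ∀ e t m, (∀ b, m = YM.U b → e = true) → ∃ x, certOk (.yq e t m) x = true
  il : ∃ x, icertOk .lens x = true
  iy : ∀ e t, ∃ x, icertOk (.py e t) x = true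

variable {Z : Type} [MetricSpace Z]

namespace Geo
variable (Γ : Geo Z) (σ : Tw Z)

/-- a class of good places that is closed under kids -/
structure Reach (Q : Gk → Γ.Fl → Prop) : Prop where
  kid : ∀ k g, Q k g → ∀ x ∈ gkids k, Q x.2 (g * Γ.ev x.1)
  nx : ∀ k g, Q k g → Q k.nx g
  good : ∀ k g, Q k g → G σ (Γ.Rg g k.B) (Γ.Rg g k.S)

noncomputable def mach (Q : Gk → Γ.Fl → Prop) : Mach Z Γ.Ft where
  Pos := {p : Md × Γ.Fl // Q p.1.gk p.2 ∧ ∀ a, p.1 ≠ .xq a a .M}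
  ob p := Γ.ob p.1.2 p.1.1.ao
  sh p := Γ.sh p.1.2 p.1.1
  C j := {p | p.1.1.ph j = true}

def Pre0S : Prop := ∀ (md : Md) g, md.ph 0 = true → (Γ.sh g md).Pre0

def BaseS : Prop := ∀ (md : Md) g, md.ph 3 = true → ∀ (ι : Type) (rel : ι → ι → ι → Prop)
  (grp : ι → Bool) (a : ι → Set Z), (Γ.sh g md).St rel grp a → ∀ i, ∀ f ∈ (Γ.ob g md.ao).P,
    a i ∩ Γ.po.H f ⊆ Γ.po.Io f ∧ (a i ∩ Γ.po.H f).Subsingleton

def Post1S : Prop := ∀ (md : Md) g, md.ph 0 = true → ∀ (ι : Type) [Finite ι]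
  (rel : ι → ι → ι → Prop) (grp : ι → Bool) (a : ι → Set Z) (t : ι) (th : Γ.Ft → Option Z)
  (α : Γ.Ft → Z → Set Z) (q : Γ.Ft → Z → Z), (∀ i j s, rel i j s → i ≠ j) →
    (Γ.sh g md).St rel grp a → AcP Γ.po (Γ.ob g md.ao) th (tot univ a) α q →
    (∀ f ∈ (Γ.ob g md.ao).P, ∀ x ∈ a t ∩ Γ.po.H f, th f = some x) →
    ∃ md' : Md, md'.ph 1 = true ∧ md'.gk = md.gk.nx ∧ ∃ grp',
      (Γ.sh g md').St rel grp' fun i => ext Γ.po (Γ.ob g md.ao).P α (del t a i)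

def Post2S : Prop := ∀ (md : Md) g, md.ph 3 = true → ∀ (ι : Type) [Finite ι]
  (rel : ι → ι → ι → Prop) (grp : ι → Bool) (a : ι → Set Z) (th : Γ.Ft → Option Z)
  (α : Γ.Ft → Z → Set Z) (q : Γ.Ft → Z → Z), (∀ i j s, rel i j s → i ≠ j) →
    (Γ.sh g md).St rel grp a → AcP Γ.po (Γ.ob g md.ao) th (tot univ a) α q →
    (∀ f ∈ (Γ.ob g md.ao).P, th f = ((Γ.ob g md.ao).M f).map (Γ.po.cut f)) →
    ∃ md' : Md, md'.ph 4 = true ∧ md'.gk = md.gk.nx ∧ ∃ grp',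
      (Γ.sh g md').St rel grp' fun i => ext Γ.po (Γ.ob g md.ao).P α (a i)

def LaneS (Q : Gk → Γ.Fl → Prop) : Prop := ∀ (md : Md) g, md.ph 0 = true → Q md.gk g →
  ∀ (A : Set Z) (α : Γ.Ft → Z → Set Z) (q : Γ.Ft → Z → Z),
    (Γ.sh g md).St (fun _ _ _ : Unit => False) (fun _ => false) (fun _ => A) →
    AcP Γ.po (Γ.ob g md.ao) (fun _ => none) A α q →
    SolU σ (Γ.ob g md.ao).B (Γ.ob g md.ao).S (ext Γ.po (Γ.ob g md.ao).P α A ∪
      ⋃ f ∈ {f ∈ (Γ.ob g md.ao).P | (A ∩ Γ.po.H f).Nonempty}, Γ.po.H (Γ.po.pd f (Γ.po.t f)))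

end Geo

end Pool.Agent.Lib.MP_b7d179_gt.L
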