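import Pool.Agent.Lib.MP_b7d179_gt.L.Obj

/-! States, their descriptions and kids; certificates of steps. -/

namespace Pool.Agent.Lib.MP_b7d179_gt.L

open Set C Gen

inductive XM
  | N | PAR | M
  deriving DecidableEq

inductive YM
  | N
  | T (b : Fin 3)
  | U (b : Fin 3)
  deriving DecidableEq

/-- lens and tripod after the access arcs, leaves before them -/
inductive Md
  | xq (s t : Bool) (m : XM)
  | yq (e t : Bool) (m : YM)
  | xp (s t c : Bool)
  | yp (e t : Bool) (c : Option (Fin 3))
  deriving DecidableEq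

def Md.gk : Md → Gk
  | .xq _ _ _ => .lens
  | .yq e t _ => .py e t
  | .xp a b _ => .lx a b
  | .yp e t _ => .ly e t

def Md.mk' : Md → ℕ → Option Bool
  | .xp _ _ true, i => some (i == 1)
  | .yp e _ (some b), i => if i = b.1 then some e else none
  | _, _ => none

def Md.ao (md : Md) : AO := md.gk.am md.mk'

def ftD (w : Wd) : List Ad := [(w, padM true), (w, padM false)]
def ftY (w : Wd) (t : Bool) : List Ad := [(w, e12), (w, seamM t)]
/-- the arc of the circle that joins the two seams -/
def xArc (a b : Bool) (m : XM) : ℕ :=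
  if m = .M then ka 0 0 (cond a 6 0) 8
  else if a = b then ka 0 0 (cond a 0 6) 2 else ka 0 0 (cond a 2 8) 4
/-- word of the foot number `j` -/
def fw (e t : Bool) (j : Fin 3) : Wd := bw e (ord e t j.1)
def visM (e t : Bool) : ℕ := cond e (cond t (hiU 0) (loU 0)) (cond t (loV 0) (hiV 0))
/-- index of the first end of the visible arcs -/
def ySt (e t : Bool) : ℕ := cond e (cond t 6 0) (cond t 2 8)
/-- closed arc on the circle of the foot number `j`, `n` steps from `30 (ySt + i)` -/
def yKa (e t : Bool) (j : Fin 3) (i n : ℕ) : ℕ :=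
  cond e (ka 0 (ord e t j.1) (ySt e t + i) n) (ka (ord e t j.1) 0 (ySt e t + i) n)
def yKo (e t : Bool) (j : Fin 3) (i n : ℕ) : ℕ :=
  cond e (ko 0 (ord e t j.1) (ySt e t + i) n) (ko (ord e t j.1) 0 (ySt e t + i) n)
def visC (e t : Bool) : ℕ :=
  orL [yKa e t 0 0 6, yKa e t 1 0 6, yKa e t 2 0 6, cond e (o3 (ed 28 0)) (o3 fun j => ed 29 j 0)]
/-- steps from the first end to the cut -/
def yCut (e : Bool) : ℕ := cond e 5 1
/-- index of the first end and length of the landing arc of a lens -/
def xSt (a b : Bool) : ℕ := cond a (cond b 6 8) (cond b 2 0)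
def xLen (a b : Bool) : ℕ := if a = b then 2 else 4

def xD : List Ad := ftD [s] ++ ftD []
def xY (a b : Bool) (m : XM) : List Ad := ftY [s] a ++ ftY [] b ++ [([], xArc a b m)]
def yD (e t : Bool) : List Ad :=
  ([], visM e (!t)) :: (ftD (fw e t 0) ++ ftD (fw e t 1) ++ ftD (fw e t 2))
def yY (e t : Bool) : List Ad := ftY (fw e t 0) t ++ ftY (fw e t 1) t ++ ftY (fw e t 2) t

def Md.spec : Md → Sp (List Ad)
  | .xq a b m =>
    let f := Sp.fa [([], Gk.lens.S)] xD (xY a b m)
    match m with
    | .N => f [[([s], b0M a)], [([s], j1M a)], [([], b0M b)], [([], j1M b)]] []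
    | .PAR => f [[([s], b0M a)], [([], b0M b)]] [[([s], j1M a)], [([], j1M b)]]
    | .M => f [[([s], j0M a)], [([], b0M b)]] [[([s], j1M a)], [([], j1M b)]]
  | .yq e t m =>
    let f := Sp.fa [([], yR e)] (yD e t) (yY e t)
    let at' (j : Fin 3) (x : ℕ) : List Ad := [(fw e t j, x)]
    match m with
    | .N => f [at' 0 (b0M t), at' 0 (j1M t), at' 1 (b0M t), at' 1 (j1M t), at' 2 (b0M t),
        at' 2 (j1M t)] []
    | .T b => f [at' b (j0M t), at' (b + 1) (j1M t), at' (b + 2) (b0M t), at' (b + 2) (j1M t)]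
        [at' b (j1M t), at' (b + 1) (j0M t)]
    | .U b => f [at' b (j0M t), at' (b + 2) (j0M t)] [at' b (j1M t), at' (b + 1) (j0M t)]
  | .xp a b c =>
    if c then .pt [([], ko 0 0 (xSt a b) 1)] [([], ko 0 0 (xSt a b + 1) 1)]
    else .pt [([], ko 0 0 (xSt a b) (xLen a b))] []
  | .yp e t c =>
    let f := Sp.di [([], visM e t)] [([], visC e t)]
    let w (j : Fin 3) : List Ad := [([], yKo e t j 0 6)]
    match c with
    | none => f [w 0, w 1, w 2] []
    | some b => f [[([], yKo e t b 0 (yCut e))], w (b + 2)]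
        [[([], yKo e t b (yCut e) (6 - yCut e))], w (b + 1)]

/-- the new state and the flip of the kid number `i` of kind `k` -/
def Md.kd : Md → ℕ → Gk → Md × Bool
  | .xq a _ m, i, .ly false t =>
    (.yp false t (if m = .M then some 1 else none), m != .N && (a != (i == 0)))
  | .xq a b m, i, .ly true t =>
    (.yp true t (if m = .M then some 2 else none), m != .N && (cond (m == .M) a b != (i == 2)))
  | .xq a b m, _, .lx a' b' =>
    (.xp a' b' (m == .M && a' == b'),
      match m with
      | .N => false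
      | .PAR => a != a' && b != b'
      | .M => a != b')
  | .yq _ t m, _, .ly e' t' => (.yp e' t' none, m != .N && t != t')
  | .yq e t m, i, .lens =>
    let j := ord e t i
    match m with
    | .N => (.xq t t .N, false)
    | .T b => if j = b.1 then (.xq t t .PAR, false) else if j = (b + 2).1 then (.xq t t .N, false)
        else (cond e (.xq t (!t) .M) (.xq (!t) t .PAR), true)
    | .U b => if j = b.1 then (.xq t t .PAR, false) else if j = (b + 2).1 then (.xq t t .N, false)
        else (.xq (!t) (!t) .N, true)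
  | md, _, _ => (md, false)

abbrev Kd : Type := Wd × Md × Bool

def Md.kids (md : Md) : List Kd := (gkids md.gk).mapIdx fun i k => (k.1, md.kd i k.2)

/-- the kids after the first normal form -/
def Gk.ikids (k : Gk) : List Kd := (gkids k).map fun x => (x.1,
  match k, x.2 with
  | _, .ly e t => .yp e t none
  | _, .lx a b => .xp a b false
  | .py _ t, _ => .xq (!t) (!t) .N
  | _, _ => .xq true true .N, false)

/-! ### Certificates -/

def Gk.chart (k : Gk) (lb l : List Rf) : Option Chart :=
  match k with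
  | .py e _ => yChart e lb l
  | _ => xChart l
/-- the part that misses `K` -/
def Gk.fr : Gk → List Ad
  | .py e _ => [([], free), (bw e 0, pU 0), (bw e 1, pU 0), (bw e 2, pU 0)]
  | _ => [([], free)]

def shift (w : Wd) (l : List Ad) : List Ad := l.map fun a => (w ++ a.1, a.2)
def Chart.sp (c : Chart) (w : Wd) (md : Md) : Option (Sp ℕ) :=
  md.spec.tr fun l => c.tauL (shift w l)
def Chart.kid (c : Chart) (k : Kd) : Option (TO' × Sp ℕ × Bool) :=
  (c.obj (k.1, k.2.1.ao)).bind fun o => (c.sp k.1 k.2.1).map fun sp => (o, sp, k.2.2)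
/-- disc and rim of a port -/
def TP.w (p : TP) : ℕ × ℕ := (p.h, df p.h p.o)
/-- the kids come first, then the cells of the table -/
def ndOf (A : Atoms) (ks : List (TO' × Sp ℕ × Bool)) (n : ℕ) : Option (ℕ × ℕ) :=
  if n < ks.length then ks[n]?.map fun k => (k.1.b, k.1.s) else A.a3 (n - ks.length)

def apart (ps : List TP) (Ls : List ℕ) : Bool :=
  pairs (fun L L' => ps.all fun p => dis L p.h || dis L' p.h) Ls
/-- a piece meets a port in at most one point -/
def oneOk (ps : List TP) : Sp ℕ → Bool
  | .fa _ D _ L0 L1 => (ps.all fun p => sub p.h D) && apart ps L0 && apart ps L1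
  | .di P c L0 L1 => (ps.all fun p => sub (Nat.land P p.h) c) && apart ps L0 && apart ps L1
  | .pt _ _ => true
/-- the discs of `ws` in `s` are the ports `ps` -/
def owns (ws : List (ℕ × ℕ)) (s : ℕ) (ps : List TP) : Bool :=
  wsOk ws s && (ps.all fun p => ws.contains p.w && sub p.h s) &&
    ws.all fun h => !sub h.1 s || (ps.map TP.w).contains h

/-- the end of a program -/
def finOk (A : Atoms) (fr n0 : ℕ) (o : TO') (ks : List (TO' × Sp ℕ × Bool)) (y : PS)
    (ex : List Ex) : Bool :=
  let ws := ((ks.flatMap fun k => k.1.p).map TP.w).eraseDups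
  locOk fr y.cs ws y.l && owns ws y.s o.p && ((full fr n0 y.l).all fun n => n < ks.length) &&
    ex.length == ks.length &&
    (ks.zip ex).all fun x => owns ws x.1.1.s x.1.1.p && oneOk x.1.1.p x.1.2.1 &&
      exOk A y.cs x.1.1.s x.1.2.2 x.1.2.1 x.2

/-- the ports of the parent are disjoint and carry all points of `K` on the rim -/
def topOk (fr : ℕ) (o : TO') (ls : List ℕ) : Bool :=
  let pl := o.p.map TP.w
  pairs (fun p q : TP => dis p.h q.h) o.p && sub (orL ls) (orL (pl.map Prod.snd)) &&
    ((pl.all fun h => sub h.1 o.s && sub h.2 fr) && sub (df o.s (orL (pl.map Prod.fst))) fr)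

structure Prog where
  lb : List Rf
  l : List Rf
  n0 : ℕ
  ch : List (ℕ × TD)
  ops : List Op
  ex : List Ex

/-- the translated data -/
structure Ctx where
  c : Chart
  o : TO'
  ks : List (TO' × Sp ℕ × Bool)
  fr : ℕ
  l : List Stp

def Ctx.pad (X : Ctx) : ℕ := orL ((X.o.p.map TP.w).map Prod.fst)

def ctx (k : Gk) (ks : List Kd) (x : Prog) : Option Ctx :=
  (k.chart x.lb x.l).bind fun c => (c.obj ([], k.ao)).bind fun o => (mapO c.kid ks).bind fun ks' =>
    (c.tauL k.fr).bind fun fr => (shell c.A (ndOf c.A ks') x.n0 x.ch).bind fun r =>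
      if Nat.beq r.2.1 o.b && Nat.beq r.2.2 o.s &&
          kidOk c k.ao (ks.map fun y => (y.1, y.2.1.ao)) then some ⟨c, o, ks', fr, r.1⟩ else none

def Sp.ls : Sp ℕ → List ℕ
  | .fa _ _ _ L0 L1 => L0 ++ L1
  | _ => []

structure Cert extends Prog where
  ob : TO
  ts : List TD

/-- the last state of the program of a step -/
def Cert.last (x : Cert) (md : Md) (X : Ctx) : Option PS :=
  (X.c.sp [] md).bind fun sp => (entry X.c.A X.pad X.o.s sp x.ob x.ts).bind fun cs =>
    if topOk X.fr X.o (Sp.ls sp) && wf X.fr X.pad X.o.s cs && sub X.pad X.o.s then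
      run X.c.A X.fr X.pad ⟨X.l, X.o.b, X.o.s, cs⟩ x.ops else none

def certOk (md : Md) (x : Cert) : Bool :=
  match ctx md.gk md.kids x.toProg with
  | some X =>
    match x.last md X with
    | some y => finOk X.c.A X.fr x.n0 X.o X.ks y x.ex
    | none => false
  | none => false

/-- obstacle, landing arcs and holes at the start -/
def Gk.iOb : Gk → List Ad
  | .py e t => [(fw e t 0, zM), (fw e t 1, zM), (fw e t 2, zM)]
  | _ => ftD [s] ++ [([s], e12), ([], zM)]
def Gk.iLs : Gk → List (List Ad)
  | .py e t => [[(fw e t 0, j0M t)], [(fw e t 1, j0M t)], [(fw e t 2, j0M t)]]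
  | _ => [[([s], j0M true)], [([s], j0M false)], [([], j0M true)], [([], j0M false)]]
def Gk.iHs : Gk → List (List Ad)
  | .py e t => [[(fw e t 0, zM)], [(fw e t 1, zM)], [(fw e t 2, zM)]]
  | _ => []

structure ICert extends Prog where
  ini : Ini

def icertOk (k : Gk) (x : ICert) : Bool :=
  match ctx k k.ikids x.toProg with
  | some X =>
    match X.c.tauL k.iOb, mapO X.c.tauL k.iLs, mapO X.c.tauL k.iHs with
    | some ob, some ls, some hs =>
      topOk X.fr X.o ls &&
        match (initRun X.c.A X.fr X.pad ob ls hs ⟨X.l, X.o.b, X.o.s, []⟩ x.ini).bind fun y =>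
            run X.c.A X.fr X.pad y x.ops with
        | some y => finOk X.c.A X.fr x.n0 X.o X.ks y x.ex
        | none => false
    | _, _, _ => false
  | none => false

variable {Z : Type} [MetricSpace Z]

/-- the shape of a description -/
def shOf {α : Type} (ρ : α → Set Z) : Sp α → Sh Z
  | .fa S D Y L0 L1 => .q (ρ S) (ρ D ∪ ρ Y) fun g => setsA ρ (cond g L1 L0)
  | .di P c L0 L1 => .d (ρ P) (ρ c) fun g => setsA ρ (cond g L1 L0)
  | .pt L0 L1 => .p fun g => ρ (cond g L1 L0)

theorem shOf_St {α ι : Type} (ρ : α → Set Z) (sp : Sp α) (rel : ι → ι → ι → Prop) (grp : ι → Bool)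
    (a : ι → Set Z) : (shOf ρ sp).St rel grp a ↔ sp.St ρ rel grp a := by
  cases sp <;> rfl

def Geo.sh (Γ : Geo Z) (g : Γ.Fl) (md : Md) : Sh Z := shOf (Γ.RL g) md.spec

/-- the states allowed in each phase -/
def Md.ph : ℕ → Md → Bool
  | 0, .xp _ _ c => !c
  | 0, .yp _ _ c => c == none
  | 1, .xq _ _ m => m != .M
  | 1, .yq _ _ (.U _) => false
  | 1, .yq _ _ _ => true
  | 2, .xq _ _ _ => true
  | 2, .xp a b c | 3, .xp a b c => !c || a == b
  | 2, .yp _ _ _ | 3, .yp _ _ _ => true
  | 4, .xq _ _ m | 5, .xq _ _ m => m != .M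
  | 4, .yq e _ (.T _) => !e
  | 4, .yq e _ (.U _) => e
  | 4, .yq _ _ .N => true
  | 5, .xp _ _ c => !c
  | 5, .yp _ _ c => c == none
  | _, _ => false

end Pool.Agent.Lib.MP_b7d179_gt.L
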