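import Pool.Agent.Lib.MP_b7d179_gt.L.Wd
import Pool.Agent.Lib.MP_b7d179_gt.L.CfgA
import Pool.Agent.Lib.MP_b7d179_gt.C.Defs2

/-! Feet, objects given by addresses, the kinds of objects and their kids. -/

namespace Pool.Agent.Lib.MP_b7d179_gt.L

open Set C Gen

/-! ### Masks in the chart of a foot -/

/-- slot of the pad on the side `b` -/
def sd (b : Bool) : ℕ := if b then 1 else 2
def padM (b : Bool) : ℕ := fc 37 0 (sd b)
/-- the word from a foot to its pad -/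
def pw (b : Bool) : Wd := wd 0 (sd b) 3
def e12 : ℕ := ed 28 0 1
def seamM (t : Bool) : ℕ := if t then ed 28 0 2 else ed 28 0 0
def zM : ℕ := orL [fc 37 0 1, stU 0 1, fc 37 0 2]
def zC : ℕ := orL [ka 0 1 7 9, ka 0 2 1 9, ed 24 0 1, ed 25 0 1]
/-- closed landing arc on the pad `t` -/
def jC (t : Bool) : ℕ := if t then ka 0 1 0 1 else ka 0 2 6 1
def j0M (t : Bool) : ℕ := if t then ko 0 1 0 1 else ko 0 2 6 1
def j1M (t : Bool) : ℕ := j0M (!t)
def jmM (t : Bool) : ℕ := if t then ko 0 1 11 1 else ko 0 2 5 1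
def b0M (t : Bool) : ℕ := if t then ko 0 1 11 2 else ko 0 2 5 2
def oM (t : Bool) : ℕ :=
  if t then orL [fc 39 0 0, fc 40 0 0, stU 0 0, fc 31 0 2]
  else orL [fc 39 0 0, fc 40 0 0, stU 0 2, fc 32 0 0]
/-- index of the first end of `I` -/
def i0 (t : Bool) : ℕ := if t then 1 else 7
def iM (t : Bool) : ℕ := ka 0 0 (i0 t) 11
def ioM (t : Bool) : ℕ := ko 0 0 (i0 t) 11
def lM (t : Bool) : ℕ :=
  if t then orL [ed 28 0 2, ka 0 2 6 4, ed 24 0 1, ka 0 1 7 4]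
  else orL [ed 28 0 0, ka 0 1 0 4, ed 25 0 1, ka 0 2 1 4]
def mM (t : Bool) : ℕ := if t then ka 0 1 11 1 else ka 0 2 5 1
def rM (t : Bool) : ℕ :=
  if t then orL [ka 0 1 0 4, ed 25 0 1, ka 0 2 1 3, ed 25 0 2]
  else orL [ka 0 2 6 4, ed 24 0 1, ka 0 1 7 3, ed 24 0 0]
def ocM (t : Bool) : ℕ := orL [iM t, lM t, mM t, rM t]
/-- index of the cut point: 150 or 210 degrees for `t = true`, 330 or 30 for `t = false` -/
def cutI (t b : Bool) : ℕ := if t then (if b then 7 else 5) else if b then 1 else 11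

/-! ### Objects by addresses -/

/-- address of a port -/
abbrev Pa : Type := Wd × Bool

structure AO where
  B : ℕ
  S : ℕ
  P : List (Pa × Option Bool)

def pads (l : List Pa) : List Pa := l.flatMap fun p => [(p.1 ++ pw true, true), (p.1 ++ pw false, false)]

inductive Gk
  | root
  | lens
  | lx (s t : Bool)
  | ly (e t : Bool)
  | py (e t : Bool)
  deriving DecidableEq

def yB (e : Bool) : ℕ := if e then Nat.lor yE (o3 (x6 0)) else Nat.lor yS (o3 fun a => x2 a 0)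
def yR (e : Bool) : ℕ :=
  if e then Nat.lor (pU 0) (o3 (fc 38 0)) else Nat.lor (pV 0) (o3 fun a => fc 35 a 0)
/-- the block of the foot number `j` in the cyclic order -/
def ord (e t : Bool) (j : ℕ) : ℕ := if xor e t then j % 3 else 2 * j % 3
def lyP (e t : Bool) : List Pa := [0, 1, 2].map fun j => (bw e (ord e t j), t)

def Gk.B : Gk → ℕ
  | .root => L.root
  | .lens | .lx _ _ => x1
  | .ly e _ | .py e _ => yB e
def Gk.S : Gk → ℕ
  | .root => br 43 0 0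
  | .lens | .lx _ _ => Nat.lor (h12 0 0) (h61 0 0)
  | .ly e _ | .py e _ => yR e
def Gk.P : Gk → List Pa
  | .root => []
  | .lens => pads [([s], true), ([], true)]
  | .lx a b => [([s], a), ([], b)]
  | .ly e t => lyP e t
  | .py e t => pads (lyP e t)
/-- the object with the mark `mk i` on the port number `i` -/
def Gk.am (k : Gk) (mk : ℕ → Option Bool) : AO := ⟨k.B, k.S, k.P.mapIdx fun i p => (p, mk i)⟩
def Gk.ao (k : Gk) : AO := k.am fun _ => none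
/-- the same ball with the pads as ports -/
def Gk.nx : Gk → Gk
  | .lx _ _ => .lens
  | .ly e t => .py e t
  | k => k
def kS (a : ℕ) : Wd × Gk := (wd a 0 1, .ly false (a == 1))
def kE (b : ℕ) : Wd × Gk := (wd 0 b 5, .ly true (b == 1))
def kX (a b : ℕ) : Wd × Gk := (wd a b 3, .lx (a == 1) (b == 1))
def gkids : Gk → List (Wd × Gk)
  | .root => [kS 0, kS 1, kS 2, kE 0, kE 1, kE 2, kX 0 0, kX 0 1, kX 0 2, kX 1 0, kX 1 1, kX 1 2,
      kX 2 0, kX 2 1, kX 2 2]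
  | .lens => [kS 1, kS 2, kE 1, kE 2, kX 1 1, kX 1 2, kX 2 1, kX 2 2]
  | .py false _ => [(wd 0 0 1, .lens), (wd 1 0 1, .lens), (wd 2 0 1, .lens), kE 1, kE 2]
  | .py true _ => [(wd 0 0 5, .lens), (wd 0 1 5, .lens), (wd 0 2 5, .lens), kS 1, kS 2]
  | k => [([], k)]

/-- a translated port: name, mark, closed and open disc -/
structure TP where
  n : List Tp × Bool
  m : Option Bool
  h : ℕ
  o : ℕ

/-- a translated object -/
structure TO' where
  b : ℕ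
  s : ℕ
  p : List TP

def Chart.port (c : Chart) (w : Wd) (p : Pa × Option Bool) : Option TP :=
  (c.tau (w ++ p.1.1) (h12 0 0)).bind fun h => (c.tau (w ++ p.1.1) hoM).map fun o =>
    ⟨(nf (w ++ p.1.1), p.1.2), p.2, h, o⟩
def Chart.obj (c : Chart) (x : Wd × AO) : Option TO' :=
  (c.tau x.1 x.2.B).bind fun b => (c.tau x.1 x.2.S).bind fun s =>
    (mapO (c.port x.1) x.2.P).map fun p => ⟨b, s, p⟩
def TO'.has (o : TO') (p : TP) : Bool := o.p.any fun q => p.n == q.n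

def kidChk (o : TO') (ks : List TO') : Bool :=
  let ps := ks.flatMap TO'.p
  pairs (fun p q => if p.n == q.n then p.m == q.m else dis p.o q.h && dis q.o p.h) (o.p ++ ps) &&
  pairs (fun k k' => sub (Nat.land k.b k'.b) (Nat.land k.s k'.s)) ks &&
  (ks.all fun k => sub k.b o.b && sub (Nat.land k.b o.s) k.s && (k.p.all fun p => sub p.h k.s) &&
    ps.all fun p => dis p.o k.b || k.has p) &&
  (ps.all fun p => o.has p || dis p.o o.s) && o.p.all fun p => ks.any fun k => k.has p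

/-- the check of `Kid` in the chart `c` -/
def kidOk (c : Chart) (o : AO) (ks : List (Wd × AO)) : Bool :=
  match c.obj ([], o), mapO c.obj ks with
  | some o', some ks' => kidChk o' ks'
  | _, _ => false

variable {Z : Type} [MetricSpace Z]

namespace Geo
variable (Γ : Geo Z)

abbrev Ft : Type := Γ.Fl × Bool

theorem pnt_ex (g : Γ.Fl) (i : ℕ) : ∃ x, Γ.Rg g (kv 0 0 i) = {x} := by
  have d : ∀ j < 12, vx.a1 (2 * (2 * j + 1)) = some (ka 0 0 j 1, kv 0 0 j, kv 0 0 (j + 1)) := by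
    decide +kernel
  obtain ⟨x, -, -, h, -⟩ := (Γ.Rg_ok g).h1 _ _ _ _ (d (i % 12) (Nat.mod_lt _ (by norm_num)))
  exact ⟨x, by rwa [kv, Nat.mod_mod] at h⟩

/-- the point of the circle at the angle `30 i` -/
noncomputable def pnt (g : Γ.Fl) (i : ℕ) : Z := (Γ.pnt_ex g i).choose
theorem pnt_eq (g : Γ.Fl) (i : ℕ) : Γ.Rg g (kv 0 0 i) = {Γ.pnt g i} := (Γ.pnt_ex g i).choose_spec

/-- the ports -/
noncomputable def po : Po Z Γ.Ft where
  H f := Γ.Rg f.1 (h12 0 0)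
  k f := Γ.Rg f.1 (kap 0 0)
  pd f b := (f.1 * Γ.ev (pw b), b)
  t f := f.2
  O f := Γ.Rg f.1 (oM f.2)
  c f := Γ.Rg f.1 (ocM f.2)
  I f := Γ.Rg f.1 (iM f.2)
  l f := Γ.Rg f.1 (lM f.2)
  m f := Γ.Rg f.1 (mM f.2)
  r f := Γ.Rg f.1 (rM f.2)
  e0 f := Γ.pnt f.1 (i0 f.2)
  e1 f := Γ.pnt f.1 (i0 f.2 + 11)
  J0 f := Γ.Rg f.1 (j0M f.2)
  J1 f := Γ.Rg f.1 (j1M f.2)
  Jm f := Γ.Rg f.1 (jmM f.2)
  cut f b := Γ.pnt f.1 (cutI f.2 b)

def pt (g : Γ.Fl) (p : Pa) : Γ.Ft := (g * Γ.ev p.1, p.2)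

open Classical in
/-- the object placed at `g` -/
noncomputable def ob (g : Γ.Fl) (o : AO) : Ob Z Γ.Ft where
  B := Γ.Rg g o.B
  S := Γ.Rg g o.S
  P := {f | ∃ p ∈ o.P, f = Γ.pt g p.1}
  M f := if ∃ p ∈ o.P, f = Γ.pt g p.1 ∧ p.2 = some true then some true
    else if ∃ p ∈ o.P, f = Γ.pt g p.1 ∧ p.2 = some false then some false else none

theorem pad_H (f : Γ.Ft) (b : Bool) : Γ.po.H (Γ.po.pd f b) = Γ.Rg f.1 (padM b) :=
  Γ.actW_ok f.1 (by revert b; decide +kernel)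
theorem pad_k (f : Γ.Ft) (b : Bool) : Γ.po.k (Γ.po.pd f b) = Γ.Rg f.1 (kap 0 (sd b)) :=
  Γ.actW_ok f.1 (by revert b; decide +kernel)
theorem po_Ho (f : Γ.Ft) : Γ.po.H f \ Γ.po.k f = Γ.Rg f.1 hoM := ((Γ.Rg_rl _).df _ _).symm
theorem po_Io (f : Γ.Ft) : Γ.po.Io f = Γ.Rg f.1 (ioM f.2) := by
  rw [ioM, ko, (Γ.Rg_rl _).df, (Γ.Rg_rl _).or, pnt_eq, pnt_eq]; rfl
theorem pt_pad (g : Γ.Fl) (p : Pa) (b : Bool) : Γ.pt g (p.1 ++ pw b, b) = Γ.po.pd (Γ.pt g p) b := by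
  simp only [pt, po, ev_append, mul_assoc]

end Geo

end Pool.Agent.Lib.MP_b7d179_gt.L
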