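import Pool.Agent.Lib.MP_b7d179_gt.L.PostS
import Pool.Agent.Lib.MP_b7d179_gt.L.Kid
import Pool.Agent.Lib.MP_b7d179_gt.L.MachD
import Pool.Agent.Lib.MP_b7d179_gt.C.Tr

/-! The leaves and their ports: checks on masks. -/

namespace Pool.Agent.Lib.MP_b7d179_gt.L

open Set C Gen Function

/-- the check of `a ∩ b ⊆ d` -/
def Chart.si (c : Chart) (x : List Ad × List Ad × List Ad) : Bool :=
  match c.tauL x.1, c.tauL x.2.1, c.tauL x.2.2 with
  | some a, some b, some d => sub (Nat.land a b) d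
  | _, _, _ => false
def siOk (k : Gk) (l : List (List Ad × List Ad × List Ad)) : Bool :=
  match gkC k with
  | some c => l.all c.si
  | none => false

def kT (a b i n : ℕ) : TA :=
  (List.range n).map fun k => 2 * (50 * (3 * a + b) + 2 * ((i + k) % 12) + 1)
def splOk (u v : TA) (I U V x m y : ℕ) : Bool :=
  vx.evA u == some (U, x, m) && vx.evA v == some (V, m, y) && Nat.beq (Nat.land U V) m &&
    Nat.beq (Nat.lor U V) I
def kSpl (a b i n n' : ℕ) : Bool :=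
  splOk (kT a b i n) (kT a b (i + n) n') (ka a b i (n + n')) (ka a b i n) (ka a b (i + n) n')
    (kv a b i) (kv a b (i + n)) (kv a b (i + (n + n')))
/-- the arc `ka a b j n` lies in `I` of the foot `(w, t)`, which starts at `i` -/
def insOk (w : Wd) (t : Bool) (a b i j n : ℕ) : Bool :=
  let d := (j + 12 - i % 12) % 12
  actW w (iM t) == some (ka a b i 11) && actW w (kv 0 0 (i0 t)) == some (kv a b i) &&
    actW w (kv 0 0 (i0 t + 11)) == some (kv a b (i + 11)) &&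
    splOk (kT a b i d) (kT a b j (11 - d)) (ka a b i 11) (ka a b i d) (ka a b j (11 - d)) (kv a b i)
      (kv a b j) (kv a b (i + 11)) &&
    splOk (kT a b j n) (kT a b (j + n) (11 - d - n)) (ka a b j (11 - d)) (ka a b j n)
      (ka a b (j + n) (11 - d - n)) (kv a b j) (kv a b (j + n)) (kv a b (i + 11))

def ownY (t : Bool) : ℕ := orL [e12, seamM t, kap 0 0]
def ownD (t : Bool) : ℕ := orL [padM true, padM false, ownY t]
def pgL (S D Y : List Ad) (p : Pa) : List (List Ad × List Ad × List Ad) :=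
  [([(p.1, h12 0 0)], [(p.1, h12 0 0)], S), (D, [(p.1, h12 0 0)], [(p.1, ownD p.2)]),
    ([(p.1, padM true)], [(p.1, padM true)], D), ([(p.1, padM false)], [(p.1, padM false)], D),
    (Y, [(p.1, h12 0 0)], [(p.1, ownY p.2)])]

/-- the two ports of a lens -/
def xF (a b j : Bool) : Pa := cond j ([], b) ([s], a)
def xL (a b : Bool) : List (List Ad × List Ad × List Ad) :=
  ([([s], h12 0 0)], [([], h12 0 0)], [([s], kap 0 0)]) ::
  ([([s], h12 0 0)], [([], h12 0 0)], [([], kap 0 0)]) ::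
  ([([], ko 0 0 (xSt a b) (xLen a b))], xD ++ xY a b .N, []) ::
  (pgL [([], Gk.lens.S)] xD (xY a b .N) (xF a b false) ++
    pgL [([], Gk.lens.S)] xD (xY a b .N) (xF a b true))

/-- slot of the circle of the foot number `j` -/
def yA (e t : Bool) (j : Fin 3) : ℕ := cond e 0 (ord e t j.1)
def yB' (e t : Bool) (j : Fin 3) : ℕ := cond e (ord e t j.1) 0
def yEi (e t : Bool) (j : Fin 3) : ℕ := ord e t (if xor e t then j.1 else j.1 + 1)
def yEd (e t : Bool) (j : Fin 3) : ℕ := cond e (ed 28 0 (yEi e t j)) (ed 29 (yEi e t j) 0)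
def yEt (e t : Bool) (j : Fin 3) : TA :=
  [2 * cond e (50 * yEi e t j + 28) (150 * yEi e t j + 29) + if xor e t then 0 else 1]
def yW (e t : Bool) (j : Fin 3) : ℕ := ka (yA e t j) (yB' e t j) (ySt e t) 6
def yP (e t : Bool) (j : Fin 3) (i : ℕ) : ℕ := kv (yA e t j) (yB' e t j) (ySt e t + i)
def visT (e t : Bool) : TD :=
  cond e (cond t (39, [(31, [48]), (81, [148]), (131, [248])])
      (40, [(32, [50]), (82, [150]), (132, [250])]))
    (cond t (41, [(33, [52]), (183, [352]), (333, [652])])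
      (42, [(34, [54]), (184, [354]), (334, [654])]))
def yL1 (e t : Bool) (j : Fin 3) : List (List Ad × List Ad × List Ad) :=
  ([(fw e t j, h12 0 0)], [(fw e t (j + 1), h12 0 0)], []) ::
  ([([], visM e t)], [(fw e t j, h12 0 0)], [([], visC e t)]) ::
  ([([], visM e t)], [(fw e t j, h12 0 0)], [(fw e t j, kap 0 0)]) ::
  ([([], yKo e t j 0 6)], yD e t ++ yY e t, []) ::
  pgL [([], yR e)] (yD e t) (yY e t) (fw e t j, t)
def yL (e t : Bool) : List (List Ad × List Ad × List Ad) :=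
  ([([], visM e t)], yD e t ++ yY e t, [([], visC e t)]) :: (yL1 e t 0 ++ yL1 e t 1 ++ yL1 e t 2)

theorem xL_ok : ∀ a b, siOk .lens (xL a b) = true := by decide +kernel
theorem yL_ok : ∀ e t, siOk (.ly e t) (yL e t) = true := by decide +kernel

variable {Z : Type} [MetricSpace Z]

namespace Geo
variable (Γ : Geo Z) (g : Γ.Fl)

theorem RL_sg (w : Wd) (m : ℕ) : Γ.RL g [(w, m)] = Γ.Rg (g * Γ.ev w) m := by
  ext x; simp [RL, Ra]
theorem RL_at (m : ℕ) : Γ.RL g [([], m)] = Γ.Rg g m := by rw [RL_sg, ev, mul_one]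
theorem RL_nil : Γ.RL g [] = ∅ := by ext x; simp [RL]
theorem RL_app (l l' : List Ad) : Γ.RL g (l ++ l') = Γ.RL g l ∪ Γ.RL g l' := by
  ext x; simp [RL, or_and_right, exists_or]

theorem si_ok {k : Gk} {l : List (List Ad × List Ad × List Ad)} (e : siOk k l = true)
    {a b d : List Ad} (h : (a, b, d) ∈ l) : Γ.RL g a ∩ Γ.RL g b ⊆ Γ.RL g d := by
  unfold siOk at e
  split at e
  · rename_i c hc
    obtain ⟨R', hR⟩ := Γ.gkC_val hc g
    have k := List.all_eq_true.1 e _ h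
    unfold Chart.si at k
    split at k
    · rename_i a' b' d' e1 e2 e3
      rw [← hR.tauL e1, ← hR.tauL e2, ← hR.tauL e3, ← hR.ok.rl.and]
      exact hR.ok.rl.sub k
    · cases k
  · cases e

open Classical in
/-- the point of a mask -/
noncomputable def pm (m : ℕ) : Z := if h : ∃ x, Γ.Rg g m = {x} then h.choose else Γ.pnt g 0

theorem pm_eq {m : ℕ} {x : Z} (h : Γ.Rg g m = {x}) : Γ.pm g m = x := by
  have k : ∃ x, Γ.Rg g m = {x} := ⟨x, h⟩
  rw [pm, dif_pos k]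
  exact singleton_injective (k.choose_spec.symm.trans h)

theorem arc_pm {t : TA} {m u v : ℕ} (e : vx.evA t = some (m, u, v)) :
    Arc (Γ.Rg g m) (Γ.pm g u) (Γ.pm g v) ∧ Γ.Rg g u = {Γ.pm g u} ∧ Γ.Rg g v = {Γ.pm g v} := by
  obtain ⟨x, y, a, b, c⟩ := Γ.kid_arc g e
  rw [Γ.pm_eq g b, Γ.pm_eq g c]
  exact ⟨a, b, c⟩

theorem open_pm {t : TA} {m u v : ℕ} (e : vx.evA t = some (m, u, v)) :
    Γ.Rg g (df m (Nat.lor u v)) = Γ.Rg g m \ {Γ.pm g u, Γ.pm g v} := by
  obtain ⟨-, b, c⟩ := Γ.arc_pm g e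
  rw [(Γ.Rg_rl g).df, (Γ.Rg_rl g).or, b, c]; rfl

theorem spl_pm {u v : TA} {I U V x m y : ℕ} (e : splOk u v I U V x m y = true) :
    Spl (Γ.Rg g I) (Γ.Rg g U) (Γ.Rg g V) (Γ.pm g x) (Γ.pm g m) (Γ.pm g y) := by
  simp only [splOk, Bool.and_eq_true, beq_iff_eq] at e
  obtain ⟨⟨⟨e1, e2⟩, e3⟩, e4⟩ := e
  obtain ⟨a, -, b⟩ := Γ.arc_pm g e1
  exact ⟨a, (Γ.arc_pm g e2).1, ((Γ.Rg_rl g).inter e3).trans b,
    by rw [← (Γ.Rg_rl g).or, Nat.eq_of_beq_eq_true e4]⟩

theorem pnt_pm {w : Wd} {i x : ℕ} (e : actW w (kv 0 0 i) = some x) :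
    Γ.pnt (g * Γ.ev w) i = Γ.pm g x :=
  (Γ.pm_eq g ((Γ.actW_ok g e).symm.trans (Γ.pnt_eq _ _))).symm

theorem ins_pm {w : Wd} {t : Bool} {a b i j n : ℕ} (e : insOk w t a b i j n = true) :
    Ins Γ.po (Γ.pt g (w, t)) (Γ.Rg g (ka a b j n)) (Γ.pm g (kv a b j)) (Γ.pm g (kv a b (j + n))) := by
  simp only [insOk, Bool.and_eq_true, beq_iff_eq] at e
  obtain ⟨⟨⟨⟨e1, e2⟩, e3⟩, e4⟩, e5⟩ := e
  have s1 := Γ.spl_pm g e4
  have s2 := Γ.spl_pm g e5
  rw [← Γ.actW_ok g e1, ← Γ.pnt_pm g e2, ← Γ.pnt_pm g e3, ← s2.u] at s1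
  rw [← Γ.pnt_pm g e3] at s2
  exact ⟨_, _, s1, s2.u ▸ s2⟩

theorem pg_ok {k : Gk} {l : List (List Ad × List Ad × List Ad)} (e : siOk k l = true)
    {S D Y : List Ad} {p : Pa} (h : pgL S D Y p ⊆ l) :
    PG Γ.po (Γ.RL g S) (Γ.RL g D) (Γ.RL g Y) (Γ.pt g p) := by
  obtain ⟨w, t⟩ := p
  simp only [pgL, List.cons_subset] at h
  obtain ⟨h1, h2, h3, h4, h5, -⟩ := h
  replace h1 := Γ.si_ok g e h1
  replace h2 := Γ.si_ok g e h2
  replace h3 := Γ.si_ok g e h3
  replace h4 := Γ.si_ok g e h4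
  replace h5 := Γ.si_ok g e h5
  simp only [RL_sg, inter_self] at h1 h2 h3 h4 h5
  have r := Γ.Rg_rl (g * Γ.ev w)
  refine ⟨h1, fun x hx => ?_, fun b => ?_, ?_⟩
  · have m := Γ.po_ok.os _ hx.1
    have k : x ∈ Γ.Rg (g * Γ.ev w) (ownD t) := hx.2.elim (fun k => h2 ⟨k, m⟩) fun k =>
      r.sub (by cases t <;> decide +kernel) (h5 ⟨k, m⟩)
    exact r.sub (a := Nat.land (oM t) (ownD t)) (b := ocM t) (by cases t <;> decide +kernel)
      ((r.and _ _).ge ⟨hx.1, k⟩)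
  · rw [pad_H]
    cases b
    exacts [h4, h3]
  · have k : Γ.po.J0 (Γ.pt g (w, t)) ∪ Γ.po.Jm (Γ.pt g (w, t)) ∪ Γ.po.J1 (Γ.pt g (w, t)) =
        Γ.Rg (g * Γ.ev w) (Nat.lor (Nat.lor (j0M t) (jmM t)) (j1M t)) := by
      rw [r.or, r.or]; rfl
    rw [k]
    exact disjoint_left.2 fun x hx hy => disjoint_left.1
      (r.dis (b := ownY t) (by cases t <;> decide +kernel)) hx
      (h5 ⟨hy, r.sub (by cases t <;> decide +kernel) hx⟩)

theorem cov_ok {l : List (List Ad)} {w : Wd} {t : Bool} {a m : ℕ} (h : [(w, m)] ∈ l)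
    (h1 : sub a m = true) (h2 : sub m hoM = true) :
    Cov Γ.po (Γ.pt g (w, t)) (Γ.Rg (g * Γ.ev w) a) (setsA (Γ.RL g) l) :=
  ⟨_, ⟨_, h, rfl⟩, by rw [RL_sg]; exact (Γ.Rg_rl _).sub h1,
    by rw [RL_sg, po_Ho]; exact (Γ.Rg_rl _).sub h2⟩

theorem cov_j0 {l : List (List Ad)} {w : Wd} {t : Bool} (h : [(w, j0M t)] ∈ l ∨ [(w, b0M t)] ∈ l) :
    Cov Γ.po (Γ.pt g (w, t)) (Γ.po.J0 (Γ.pt g (w, t))) (setsA (Γ.RL g) l) :=
  h.elim (fun h => Γ.cov_ok g (a := j0M t) h (by cases t <;> decide +kernel)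
    (by cases t <;> decide +kernel)) fun h => Γ.cov_ok g (a := j0M t) h (by cases t <;> decide +kernel)
    (by cases t <;> decide +kernel)

theorem cov_j1 {l : List (List Ad)} {w : Wd} {t : Bool} (h : [(w, j1M t)] ∈ l) :
    Cov Γ.po (Γ.pt g (w, t)) (Γ.po.J1 (Γ.pt g (w, t))) (setsA (Γ.RL g) l) :=
  Γ.cov_ok g (a := j1M t) h (by cases t <;> decide +kernel) (by cases t <;> decide +kernel)

theorem cov_all {l : List (List Ad)} {w : Wd} {t : Bool} (h : [(w, b0M t)] ∈ l)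
    (h' : [(w, j1M t)] ∈ l) : CovAll Γ.po (Γ.pt g (w, t)) (setsA (Γ.RL g) l) :=
  ⟨Γ.cov_j0 g (.inr h), Γ.cov_ok g (a := jmM t) h (by cases t <;> decide +kernel)
    (by cases t <;> decide +kernel), Γ.cov_j1 g h'⟩

/-- the obstacle of a state with a certificate -/
theorem obs_cert {md : Md} {x : Cert} (e : certOk md x = true) {S D Y : List Ad}
    {L0 L1 : List (List Ad)} (h : md.spec = .fa S D Y L0 L1) :
    Obs (Γ.RL g S) (Γ.RL g D) (Γ.RL g Y) := by
  unfold certOk at e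
  split at e
  swap
  · cases e
  rename_i X hX
  split at e
  swap
  · cases e
  rename_i y hy
  have hc : Γ.Val X.c := by
    obtain ⟨c, e1, hX⟩ := Option.bind_eq_some_iff.1 hX
    obtain ⟨o, -, hX⟩ := Option.bind_eq_some_iff.1 hX
    obtain ⟨ks, -, hX⟩ := Option.bind_eq_some_iff.1 hX
    obtain ⟨fr, -, hX⟩ := Option.bind_eq_some_iff.1 hX
    obtain ⟨r, -, hX⟩ := Option.bind_eq_some_iff.1 hX
    split at hX
    · cases hX
      unfold Gk.chart at e1
      split at e1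
      exacts [val_y e1, val_x e1]
    · cases hX
  obtain ⟨R', hR⟩ := hc g
  obtain ⟨sp, e1, hy⟩ := Option.bind_eq_some_iff.1 hy
  obtain ⟨cs, e2, -⟩ := Option.bind_eq_some_iff.1 hy
  have sh : ∀ l, shift [] l = l := fun l => by simp [shift]
  simp only [Chart.sp, h, Sp.tr, sh] at e1
  obtain ⟨S', k1, e1⟩ := Option.bind_eq_some_iff.1 e1
  obtain ⟨D', k2, e1⟩ := Option.bind_eq_some_iff.1 e1
  obtain ⟨Y', k3, e1⟩ := Option.bind_eq_some_iff.1 e1
  obtain ⟨M0, -, e1⟩ := Option.bind_eq_some_iff.1 e1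
  obtain ⟨M1, -, rfl⟩ := Option.map_eq_some_iff.1 e1
  rw [← hR.tauL k1, ← hR.tauL k2, ← hR.tauL k3]
  unfold entry at e2
  split at e2
  swap
  · cases e2
  rename_i S₁ D₁ Y₁ _ _ D₂ Y₂ k4 k5
  cases k4
  split at e2
  swap
  · cases e2
  rename_i k6
  simp only [Bool.and_eq_true] at k6
  obtain ⟨⟨⟨⟨q1, q2⟩, q3⟩, q4⟩, -⟩ := k6
  rw [← Nat.eq_of_beq_eq_true q2, ← Nat.eq_of_beq_eq_true q3] at k5
  refine evObs_ok hR.ok k5 ?_
  rw [← hR.ok.rl.or, Nat.eq_of_beq_eq_true q1]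
  exact hR.ok.rl.sub q4

theorem xg (hc : Certs) (a b c : Bool) : XG Γ.po (Γ.ob g (Md.xp a b c).ao) (fun j => Γ.pt g (xF a b j))
    (Γ.Rg g (ka 0 0 (xSt a b) (xLen a b))) (Γ.RL g xD) (Γ.RL g (xY a b .N))
    (Γ.pm g (kv 0 0 (xSt a b))) (Γ.pm g (kv 0 0 (xSt a b + xLen a b))) := by
  have h0 : (Γ.ob g (Md.xp a b c).ao).S = Γ.Rg g Gk.lens.S :=
    congrArg (Γ.Rg g) (by revert a b c; decide +kernel : (Md.xp a b c).ao.S = Gk.lens.S)
  have hS := h0.trans (Γ.RL_at g _).symm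
  have k := fun {x y z} h => Γ.si_ok g (a := x) (b := y) (d := z) (xL_ok a b) h
  refine ⟨h0 ▸ (Γ.gk_ball .lens g).sph, fun f => ?_, ?_, fun j => ?_, fun j => ?_, ?_, ?_⟩
  · simp [ob, Md.ao, Md.gk, Gk.am, Gk.P, xF]
  · have k1 := k (.head _)
    have k2 := k (.tail _ (.head _))
    simp only [RL_sg] at k1 k2
    exact subset_inter k1 k2
  · rw [hS]
    refine Γ.pg_ok g (xL_ok a b) ?_
    cases j <;> exact fun x hx => by simp only [xL, List.mem_cons, List.mem_append, hx]; simp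
  · cases j
    · exact Γ.ins_pm g (i := i0 a + 2) (by cases a <;> cases b <;> decide +kernel)
    · exact Γ.ins_pm g (i := i0 b) (by cases a <;> cases b <;> decide +kernel)
  · obtain ⟨x, hx⟩ := hc.x a b .N (by simp)
    exact hS ▸ Γ.obs_cert g hx rfl
  · have k1 := k (.tail _ (.tail _ (.head _)))
    rw [RL_at, RL_app, RL_nil, ko, Γ.open_pm g (t := kT 0 0 (xSt a b) (xLen a b))
      (by cases a <;> cases b <;> decide +kernel)] at k1
    exact disjoint_iff_inf_le.2 k1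

theorem yKo_eq (e t : Bool) (j : Fin 3) : Γ.Rg g (yKo e t j 0 6) =
    Γ.Rg g (yW e t j) \ {Γ.pm g (yP e t j 0), Γ.pm g (yP e t j 6)} := by
  rw [← Γ.open_pm g (t := kT (yA e t j) (yB' e t j) (ySt e t) 6) (by revert e t j; decide +kernel)]
  cases e <;> rfl

theorem yg (hc : Certs) (e t : Bool) (c : Option (Fin 3)) :
    YG Γ.po (Γ.ob g (Md.yp e t c).ao) (fun j => Γ.pt g (fw e t j, t)) (Γ.Rg g (visM e t))
      (Γ.Rg g (visC e t)) (Γ.RL g (yD e t)) (Γ.RL g (yY e t)) (fun j => Γ.Rg g (yW e t j))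
      (fun j => Γ.Rg g (yEd e t j)) (fun j => Γ.pm g (yP e t j 0)) fun j => Γ.pm g (yP e t j 6) := by
  have hS : (Γ.ob g (Md.yp e t c).ao).S = Γ.RL g [([], yR e)] := (Γ.RL_at g _).symm
  have s1 : ∀ j, yL1 e t j ⊆ yL e t := fun j => by
    fin_cases j <;> exact fun x hx => by
      simp only [yL, List.mem_cons, List.mem_append]; simp at hx; simp [hx]
  have k := fun j {x y z} h => Γ.si_ok g (a := x) (b := y) (d := z) (yL_ok e t) (s1 j h)
  have r := Γ.Rg_rl g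
  have aw := fun j => Γ.arc_pm g (t := kT (yA e t j) (yB' e t j) (ySt e t) 6) (m := yW e t j)
    (u := yP e t j 0) (v := yP e t j 6) (by clear * -; revert e t j; decide +kernel)
  have dj : ∀ j, Disjoint (Γ.po.H (Γ.pt g (fw e t j, t))) (Γ.po.H (Γ.pt g (fw e t (j + 1), t))) :=
    fun j => by
      have k1 := k j (.head _)
      simp only [RL_sg, RL_nil] at k1
      exact disjoint_iff_inf_le.2 k1
  refine ⟨(Γ.gk_ball (.ly e t) g).sph, fun f => ?_, fun j j' n => ?_, fun j => ?_,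
    ⟨(Γ.Rg_ok g).evD glues (t := visT e t) (by clear * -; revert e t; decide +kernel),
      fun j => (aw j).1,
      fun j => (Γ.arc_pm g (t := yEt e t j) (by clear * -; revert e t j; decide +kernel)).1,
      fun j => (r.inter ?_).trans (aw j).2.2, fun j => (r.inter ?_).trans (aw (j + 1)).2.1,
      fun j j' n => r.dis ?_, fun j j' n => r.dis ?_, fun j => r.dis ?_, ?_⟩,
    r.sub (b := yR e) ?_, fun j => ?_, fun j => ?_, ?_, ?_, fun j => ?_⟩
  · simp [ob, Md.ao, Md.gk, Gk.am, Gk.P, lyP, fw, Fin.exists_fin_succ]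
  · rcases (by decide : ∀ j j' : Fin 3, j ≠ j' → j' = j + 1 ∨ j = j' + 1) j j' n with rfl | rfl
    exacts [dj j, (dj j').symm]
  · rw [hS]
    exact Γ.pg_ok g (yL_ok e t) (List.Subset.trans (fun x hx => by simp [yL1, hx]) (s1 j))
  · clear * -; revert e t j; decide +kernel
  · clear * -; revert e t j; decide +kernel
  · clear * - n; revert e t j j'; decide +kernel
  · clear * - n; revert e t j j'; decide +kernel
  · clear * -; revert e t j; decide +kernel
  · have : visC e t = orL [Nat.lor (yW e t 0) (yEd e t 0), Nat.lor (yW e t 1) (yEd e t 1),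
        Nat.lor (yW e t 2) (yEd e t 2)] := by clear * -; revert e t; decide +kernel
    rw [this]
    simp only [orL, List.foldr, r.or, r.zero]
    ext x
    simp [Fin.exists_fin_succ]
  · clear * -; revert e t; decide +kernel
  · have k1 := k j (.tail _ (.head _))
    have k2 := k j (.tail _ (.tail _ (.head _)))
    rw [RL_at, RL_sg] at k1 k2
    rw [RL_at] at k1
    rw [RL_sg] at k2
    exact subset_inter k1 k2
  · exact Γ.ins_pm g (i := i0 t + cond e 4 10) (by clear * -; revert e t j; decide +kernel)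
  · obtain ⟨x, hx⟩ := hc.y e t .N (by simp)
    exact hS ▸ Γ.obs_cert g hx rfl
  · have k1 := Γ.si_ok g (yL_ok e t) (.head _)
    rwa [RL_at, RL_at, RL_app] at k1
  · have k1 := k j (.tail _ (.tail _ (.tail _ (.head _))))
    rw [RL_at, RL_app, RL_nil, yKo_eq] at k1
    exact disjoint_iff_inf_le.2 k1

end Geo

end Pool.Agent.Lib.MP_b7d179_gt.L
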