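import Pool.Agent.Lib.MP_b7d179_gt.L.Acc
import Pool.Agent.Lib.MP_b7d179_gt.C.Post
import Pool.Agent.Lib.MP_b7d179_gt.C.Tri

/-! Access arcs carry crosscuts of a visible disc, or points on a common rim, to arcs on the sphere
that end on the pads. -/

namespace Pool.Agent.Lib.MP_b7d179_gt.L

open Set C Function

variable {Z : Type} [MetricSpace Z] {φ ι : Type} (π : Po Z φ)

/-- the port `f` and the obstacle -/
structure PG (S D Y : Set Z) (f : φ) : Prop where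
  hs : π.H f ⊆ S
  oo : π.O f ∩ (D ∪ Y) ⊆ π.c f
  pad : ∀ b, π.H (π.pd f b) ⊆ D
  jy : Disjoint (π.J0 f ∪ π.Jm f ∪ π.J1 f) Y

/-- the arc `w` from `p` to `q` lies inside `I f` and runs in the same direction -/
def Ins (f : φ) (w : Set Z) (p q : Z) : Prop :=
  ∃ l r, Spl (π.I f) l (w ∪ r) (π.e0 f) p (π.e1 f) ∧ Spl (w ∪ r) w r p q (π.e1 f)

/-- `A` lies in a member of `Ls` inside the port `f` -/
def Cov (f : φ) (A : Set Z) (Ls : Set (Set Z)) : Prop := ∃ L ∈ Ls, A ⊆ L ∧ L ⊆ π.H f \ π.k f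

def CovAll (f : φ) (Ls : Set (Set Z)) : Prop :=
  Cov π f (π.J0 f) Ls ∧ Cov π f (π.Jm f) Ls ∧ Cov π f (π.J1 f) Ls

/-- `A` lies below `x` and `B` above `x` in `I f` -/
def Sides (f : φ) (x : Z) (A B : Set Z) : Prop :=
  ∃ u v, Spl (π.I f) u v (π.e0 f) x (π.e1 f) ∧ A ⊆ u \ {x} ∧ B ⊆ v \ {x}

/-- three ports round a visible disc `V` -/
structure YG (o : Ob Z φ) (f : Fin 3 → φ) (V c D Y : Set Z) (w e : Fin 3 → Set Z)
    (p q : Fin 3 → Z) : Prop where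
  sph : Sph o.S
  P : ∀ g, g ∈ o.P ↔ ∃ j, g = f j
  dj : Pairwise (onFun Disjoint fun j => π.H (f j))
  pg : ∀ j, PG π o.S D Y (f j)
  tri : Tri V c w e p q
  vs : V ⊆ o.S
  vh : ∀ j, V ∩ π.H (f j) ⊆ c ∩ π.k (f j)
  ins : ∀ j, Ins π (f j) (w j) (p j) (q j)
  obs : Obs o.S D Y
  vo : V ∩ (D ∪ Y) ⊆ c
  wo : ∀ j, Disjoint (w j \ {p j, q j}) (D ∪ Y)

/-- two ports with a common rim that contains the arc `w` -/
structure XG (o : Ob Z φ) (f : Bool → φ) (w D Y : Set Z) (p q : Z) : Prop where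
  sph : Sph o.S
  P : ∀ g, g ∈ o.P ↔ ∃ j, g = f j
  hh : π.H (f false) ∩ π.H (f true) ⊆ π.k (f false) ∩ π.k (f true)
  pg : ∀ j, PG π o.S D Y (f j)
  ins : ∀ j, Ins π (f j) w p q
  obs : Obs o.S D Y
  wo : Disjoint (w \ {p, q}) (D ∪ Y)

variable {π} {K S D Y V c w u v A A' E : Set Z} {f f' : φ} {th : Option Z} {α : Z → Set Z}
  {q : Z → Z} {e x y z z' : Z} {Ls : Set (Set Z)}

theorem Ins.arc (h : Ins π f w x y) : Arc w x y := h.choose_spec.choose_spec.2.a1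

theorem Ins.io (h : Ins π f w x y) : w ⊆ π.Io f := by
  obtain ⟨l, r, h1, h2⟩ := h
  refine fun z hz => ⟨tri_sub2 h1 (.inl hz), ?_⟩
  rintro (rfl | rfl)
  · exact h1.a1.ne (h1.i.le ⟨h1.a1.left, .inl hz⟩)
  · exact h2.a2.ne (h2.i.le ⟨hz, h2.a2.right⟩ : _ = y).symm

theorem Ins.sides (hπ : π.Ok K) (h : Ins π f w x y) (hs : Spl w u v x z y) :
    Sides π f z (u \ {z}) (v \ {z}) := by
  obtain ⟨U, W, a, b, i, n⟩ := hπ.halves (h.io (tri_sub1 hs hs.a1.right))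
  obtain ⟨l, r, h1, h2⟩ := h
  have k : Spl (π.I f) U W (π.e0 f) z (π.e1 f) := ⟨a, b, i, n⟩
  obtain ⟨rfl, rfl⟩ := hs.unique (k.mid h1 h2 ⟨tri_sub1 hs hs.a1.right, fun m =>
    m.elim (fun m => hs.a1.ne m.symm) hs.a2.ne⟩)
  exact ⟨U, W, k, fun _ m => ⟨m.1.1, m.2⟩, fun _ m => ⟨m.1.1, m.2⟩⟩

theorem Ac.sides (h : Ac π f th E α q) (ht : th = some x) (hs : Sides π f x A A') (he : e ∈ E) :
    (e ∈ A → q e ∈ π.J0 f) ∧ (e ∈ A' → q e ∈ π.J1 f) := by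
  obtain ⟨U, W, k, s1, s2⟩ := hs
  exact ⟨fun m => h.lo x U ht k.a1 (tri_sub1 k) e he (s1 m).1 (s1 m).2,
    fun m => h.hi x W ht k.a2 (tri_sub2 k) e he (s2 m).1 (s2 m).2⟩

theorem PG.acc (hπ : π.Ok K) (g : PG π S D Y f) (h : Ac π f th E α q) (he : e ∈ E)
    (hi : e ∈ π.I f) (hn : e ∉ D ∪ Y) : Arc (α e) e (q e) ∧ α e ⊆ π.H f ∧ α e ∩ π.k f = {e} ∧
      α e ∩ (D ∪ Y) = {q e} ∧ q e ∉ Y ∧ q e ∈ D ∧ q e ∉ π.I f := by
  obtain ⟨a, s, k, -⟩ := h.facts hπ he hi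
  obtain ⟨b, hb⟩ := h.pad hπ he hi
  have m := (hπ.kd _).d.rim_sub hb
  refine ⟨a, s, k, subset_antisymm (fun x hx => ?_)
    (singleton_subset_iff.2 ⟨a.right, .inl (g.pad b m)⟩), disjoint_left.1 g.jy ?_, g.pad b m,
    fun n => (hπ.pin f b m).2 (hπ.ik f n)⟩
  · exact ((h.cc e he).inter.le ⟨hx.1, g.oo ⟨(h.cc e he).sub hx.1, hx.2⟩⟩).resolve_left fun n =>
      hn ((n : x = e) ▸ hx.2)
  · rcases h.land hπ he hi with k | k | k
    exacts [.inl (.inl k), .inl (.inr k), .inr k]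

omit [MetricSpace Z] in
theorem Cov.lands (h : Cov π f A Ls) (h' : Cov π f' A' Ls) (d : π.H f ∩ π.H f' ⊆ π.k f)
    (hz : z ∈ A) (hz' : z' ∈ A') : Lands Ls z z' := by
  obtain ⟨L, hL, s, t⟩ := h
  obtain ⟨L', hL', s', t'⟩ := h'
  exact ⟨L, hL, L', hL', fun n => (t (s hz)).2 (d ⟨(t (s hz)).1, (t' (n ▸ s hz)).1⟩), s hz, s' hz'⟩

theorem CovAll.cov (hπ : π.Ok K) (g : CovAll π f Ls) (h : Ac π f th E α q) (he : e ∈ E)
    (hi : e ∈ π.I f) : Cov π f {q e} Ls := by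
  have k : ∀ A, Cov π f A Ls → q e ∈ A → Cov π f {q e} Ls := fun A ⟨L, a, b, d⟩ m =>
    ⟨L, a, singleton_subset_iff.2 (b m), d⟩
  rcases h.land hπ he hi with m | m | m
  exacts [k _ g.1 m, k _ g.2.1 m, k _ g.2.2 m]

omit [MetricSpace Z] in
theorem Lands.symm' (h : Lands Ls z z') : Lands Ls z' z := by
  obtain ⟨L, a, L', b, n, d, e⟩ := h
  exact ⟨L', b, L, a, n.symm, e, d⟩

theorem sep_nil {O s a b : Set Z} (h : a = ∅ ∨ b = ∅) : Sep O s a b := fun _ _ _ _ _ hx hy =>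
  h.elim (fun k => (k ▸ hx : _ ∈ (∅ : Set Z)).elim) fun k => (k ▸ hy : _ ∈ (∅ : Set Z)).elim

omit [MetricSpace Z] in
theorem del_ne {t i : ι} {a : ι → Set Z} (h : i ≠ t) : del t a i = a i :=
  Set.ext fun _ => ⟨fun k => k.1, fun k => ⟨k, h⟩⟩

omit [MetricSpace Z] in
theorem del_self (t : ι) (a : ι → Set Z) : del t a t = ∅ :=
  eq_empty_of_forall_notMem fun _ k => k.2 rfl

omit [MetricSpace Z] in
theorem del_nil {t : ι} {a : ι → Set Z} (h : a t = ∅) : del t a = a := by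
  funext i
  by_cases k : i = t
  · rw [k, del_self, h]
  · exact del_ne k

omit [MetricSpace Z] in
theorem del_tot (t : ι) (a : ι → Set Z) : tot univ (del t a) ⊆ tot univ a :=
  iUnion₂_mono fun _ _ _ k => k.1

variable {o : Ob Z φ} {rel : ι → ι → ι → Prop} {grp : ι → Bool} {a : ι → Set Z}
  {ths : φ → Option Z} {αs : φ → Z → Set Z} {qs : φ → Z → Z} {L0 L1 : Bool → Set (Set Z)}

section Y
variable {f : Fin 3 → φ} {w e : Fin 3 → Set Z} {p q : Fin 3 → Z}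

/-- different landing arcs of one group lie in different open arcs `w j` -/
def Apart (w : Fin 3 → Set Z) (p q : Fin 3 → Z) (L0 : Bool → Set (Set Z)) : Prop :=
  ∀ g z z', Lands (L0 g) z z' → ∃ j j', j ≠ j' ∧ z ∈ w j \ {p j, q j} ∧ z' ∈ w j' \ {p j', q j'}

theorem YG.wh (hπ : π.Ok K) (G : YG π o f V c D Y w e p q) (j : Fin 3) : w j ⊆ π.H (f j) :=
  fun _ h => (hπ.kd _).d.rim_sub (hπ.ik _ ((G.ins j).io h).1)

theorem YG.eq (G : YG π o f V c D Y w e p q) {j j' : Fin 3} (h : z ∈ π.H (f j))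
    (h' : z ∈ π.H (f j')) : j = j' :=
  by_contra fun n => disjoint_left.1 (G.dj n) h h'

theorem YG.base (hπ : π.Ok K) (G : YG π o f V c D Y w e p q) (h : FamD V c L0 rel grp a)
    (hL : Apart w p q L0) (i : ι) : ∀ g ∈ o.P, a i ∩ π.H g ⊆ π.Io g ∧ (a i ∩ π.H g).Subsingleton := by
  intro g hg
  obtain ⟨k, rfl⟩ := (G.P g).1 hg
  rcases h.arc i with n | ⟨z, z', cc, l⟩
  · simp [n]
  obtain ⟨j, j', n, hz, hz'⟩ := hL _ _ _ l
  have key : ∀ x ∈ a i ∩ π.H (f k), (x = z ∧ j = k) ∨ (x = z' ∧ j' = k) := fun x hx =>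
    (cc.inter.le ⟨hx.1, (G.vh k ⟨cc.sub hx.1, hx.2⟩).1⟩).imp
      (fun m => ⟨m, G.eq (G.wh hπ j hz.1) ((m : x = z) ▸ hx.2)⟩)
      fun m => ⟨m, G.eq (G.wh hπ j' hz'.1) ((m : x = z') ▸ hx.2)⟩
  refine ⟨fun x hx => ?_, fun x hx y hy => ?_⟩
  · rcases key x hx with ⟨rfl, rfl⟩ | ⟨rfl, rfl⟩
    exacts [(G.ins _).io hz.1, (G.ins _).io hz'.1]
  · rcases key x hx with ⟨m, r⟩ | ⟨m, r⟩ <;> rcases key y hy with ⟨m', r'⟩ | ⟨m', r'⟩
    exacts [m.trans m'.symm, (n (r.trans r'.symm)).elim, (n (r'.trans r.symm)).elim,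
      m.trans m'.symm]

theorem YG.core (hπ : π.Ok K) (G : YG π o f V c D Y w e p q) (h : FamD V c L0 rel grp a)
    (hL : Apart w p q L0) (hα : AcP π o ths (tot univ a) αs qs) {grp' : ι → Bool}
    (land : ∀ i z z' j j', j ≠ j' → Cc V c (a i) z z' → Lands (L0 (grp i)) z z' →
      z ∈ w j \ {p j, q j} → z' ∈ w j' \ {p j', q j'} →
      Lands (L1 (grp' i)) (qs (f j) z) (qs (f j') z')) :
    Fam o.S (D ∪ Y) L1 (fun i j s => rel i j s ∧ grp i = grp j) grp'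
      fun i => ext π o.P αs (a i) := by
  classical
  let J : Z → Fin 3 := fun x => if m : ∃ j, x ∈ π.H (f j) then m.choose else 0
  have hJ : ∀ x j, x ∈ π.H (f j) → J x = j := fun x j m => by
    have m' : ∃ j, x ∈ π.H (f j) := ⟨j, m⟩
    simp only [J, dif_pos m']
    exact G.eq m'.choose_spec m
  have hw : ∀ i, ∀ x ∈ a i ∩ c, x ∈ w (J x) \ {p (J x), q (J x)} := fun i x hx => by
    rcases h.arc i with n | ⟨z, z', cc, l⟩
    · exact (n ▸ hx.1 : x ∈ (∅ : Set Z)).elim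
    obtain ⟨j, j', -, hz, hz'⟩ := hL _ _ _ l
    rcases cc.inter.le hx with rfl | rfl
    · rwa [hJ _ _ (G.wh hπ j hz.1)]
    · rwa [hJ _ _ (G.wh hπ j' hz'.1)]
  have hw' : ∀ x ∈ tot univ a ∩ c, x ∈ w (J x) \ {p (J x), q (J x)} := fun x hx => by
    obtain ⟨i, -, hi⟩ := mem_iUnion₂.1 hx.1
    exact hw i x ⟨hi, hx.2⟩
  have fa := fun x (hx : x ∈ tot univ a ∩ c) => (G.pg (J x)).acc hπ
    (hα _ ((G.P _).2 ⟨J x, rfl⟩)) ⟨hx.1, G.wh hπ _ (hw' x hx).1⟩ ((G.ins _).io (hw' x hx).1).1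
    (disjoint_left.1 (G.wo _) (hw' x hx))
  obtain ⟨r1, r2, r3⟩ := post_disc (a' := fun i => ext π o.P αs (a i))
    (β := fun x => αs (f (J x)) x) (f := fun x => qs (f (J x)) x) G.sph G.obs G.tri.disc G.vs G.vo h
    (fun x hx => by
      obtain ⟨a1, a2, a3, a4, a5, -⟩ := fa x hx
      exact ⟨a1, a2.trans (G.pg _).hs, subset_antisymm
        (fun y hy => a3.le ⟨hy.1, (G.vh _ ⟨hy.2, a2 hy.1⟩).2⟩)
        (singleton_subset_iff.2 ⟨a1.left, G.tri.disc.rim_sub hx.2⟩), a4, a5⟩)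
    (fun x hx y hy n => by
      by_cases m : J x = J y
      · have := (hα _ ((G.P _).2 ⟨J x, rfl⟩)).dj ⟨hx.1, G.wh hπ _ (hw' x hx).1⟩
          ⟨hy.1, m ▸ G.wh hπ _ (hw' y hy).1⟩ n
        simpa only [onFun, ← m] using this
      · exact (G.dj m).mono (fa x hx).2.1 (fa y hy).2.1)
    (fun i => by
      refine congrArg (a i ∪ ·) (Set.ext fun x => ?_)
      simp only [mem_iUnion, exists_prop]
      constructor
      · rintro ⟨g, hg, y, hy, m⟩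
        obtain ⟨j, rfl⟩ := (G.P g).1 hg
        rcases h.arc i with n | ⟨z, z', cc, -⟩
        · exact (n ▸ hy.1 : y ∈ (∅ : Set Z)).elim
        exact ⟨y, ⟨hy.1, (G.vh j ⟨cc.sub hy.1, hy.2⟩).1⟩, by rwa [hJ y j hy.2]⟩
      · rintro ⟨y, hy, m⟩
        exact ⟨_, (G.P _).2 ⟨J y, rfl⟩, y, ⟨hy.1, G.wh hπ _ (hw i y hy).1⟩, m⟩)
  refine ⟨fun i => ?_, r2, fun i j s r _ => r3 i j s r.1 r.2⟩
  rcases h.arc i with n | ⟨z, z', cc, l⟩
  · exact .inl (by rw [n, ext_empty])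
  obtain ⟨b1, b2, b3⟩ := r1 i z z' cc
  obtain ⟨j, j', n, hz, hz'⟩ := hL _ _ _ l
  refine .inr ⟨_, _, b1, b2, b3, ?_⟩
  rw [hJ _ _ (G.wh hπ j hz.1), hJ _ _ (G.wh hπ j' hz'.1)]
  exact land i z z' j j' n cc l hz hz'

theorem fam_rel {Ob : Set Z} {rel' : ι → ι → ι → Prop} (h : Fam S Ob L1 rel' grp a)
    (k : ∀ i j s, rel i j s → grp i = grp j → a i ≠ ∅ → a j ≠ ∅ → rel' i j s) :
    Fam S Ob L1 rel grp a :=
  ⟨h.arc, h.dj, fun i j s r g => by
    by_cases m : a i = ∅ ∨ a j = ∅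
    · exact sep_nil m
    · exact h.sep i j s (k i j s r g (fun n => m (.inl n)) fun n => m (.inr n)) g⟩

theorem YG.mem (hπ : π.Ok K) (G : YG π o f V c D Y w e p q) {i : ι} {j : Fin 3} (hz : z ∈ a i)
    (m : z ∈ w j \ {p j, q j}) : z ∈ tot univ a ∩ π.H (f j) := ⟨post_tot hz, G.wh hπ j m.1⟩

theorem YG.hk (G : YG π o f V c D Y w e p q) {j j' : Fin 3} (n : j ≠ j') :
    π.H (f j) ∩ π.H (f j') ⊆ π.k (f j) := fun _ m => (n (G.eq m.1 m.2)).elim

/-- one group, any thresholds -/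
theorem YG.postN (hπ : π.Ok K) (G : YG π o f V c D Y w e p q) (h : FamD V c L0 rel grp a)
    (hL : Apart w p q L0) (h1 : L0 true = ∅) (hα : AcP π o ths (tot univ a) αs qs)
    (hN : ∀ j, CovAll π (f j) (L1 false)) :
    Fam o.S (D ∪ Y) L1 rel (fun _ => false) fun i => ext π o.P αs (a i) := by
  have hg : ∀ i, ext π o.P αs (a i) ≠ ∅ → grp i = false := fun i n => by
    rcases h.arc i with m | ⟨z, z', -, L, l, -⟩
    · exact (n (by rw [m, ext_empty])).elim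
    · exact Bool.eq_false_iff.2 fun g => by rw [g, h1] at l; exact l
  refine fam_rel (G.core hπ h hL hα fun i z z' j j' n cc _ hz hz' => ?_)
    fun i j s r _ n n' => ⟨r, (hg i n).trans (hg j n').symm⟩
  exact ((hN j).cov hπ (hα _ ((G.P _).2 ⟨j, rfl⟩)) (G.mem hπ cc.arc.left hz)
    ((G.ins j).io hz.1).1).lands ((hN j').cov hπ (hα _ ((G.P _).2 ⟨j', rfl⟩))
    (G.mem hπ cc.arc.right hz') ((G.ins j').io hz'.1).1) (G.hk n) rfl rfl

/-- two groups, a cut in the port number `b` -/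
theorem YG.postU (hπ : π.Ok K) (G : YG π o f V c D Y w e p q) {b : Fin 3} {lo hi : Set Z}
    (h : FamD V c L0 rel grp a) (hL : Apart w p q L0) (hα : AcP π o ths (tot univ a) αs qs)
    (h0 : ∀ L ∈ L0 false, L ⊆ lo ∨ L ⊆ w (b + 2)) (h1 : ∀ L ∈ L0 true, L ⊆ hi ∨ L ⊆ w (b + 1))
    (hs : Sides π (f b) x lo hi) (tb : ths (f b) = some x) (t1 : ths (f (b + 1)) = none)
    (t2 : ths (f (b + 2)) = none) (c0 : Cov π (f b) (π.J0 (f b)) (L1 false))
    (c1 : Cov π (f (b + 2)) (π.J0 (f (b + 2))) (L1 false)) (c2 : Cov π (f b) (π.J1 (f b)) (L1 true))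
    (c3 : Cov π (f (b + 1)) (π.J0 (f (b + 1))) (L1 true)) :
    Fam o.S (D ∪ Y) L1 rel grp fun i => ext π o.P αs (a i) := by
  have key : ∀ i z j, z ∈ a i → z ∈ w j \ {p j, q j} → (∃ L ∈ L0 (grp i), z ∈ L) →
      ∃ A, Cov π (f j) A (L1 (grp i)) ∧ qs (f j) z ∈ A := fun i z j hz m ⟨L, hl, l⟩ => by
    have ac := hα _ ((G.P _).2 ⟨j, rfl⟩)
    have me := G.mem hπ hz m
    obtain ⟨U, W, k, s1, s2⟩ := id hs
    have kb : ∀ y ∈ π.I (f b), y ∈ π.H (f b) := fun y n => (hπ.kd _).d.rim_sub (hπ.ik _ n)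
    cases g : grp i <;> rw [g] at hl
    · rcases h0 L hl with s | s
      · obtain rfl := G.eq me.2 (kb _ (tri_sub1 k (s1 (s l)).1))
        exact ⟨_, c0, (ac.sides tb hs me).1 (s l)⟩
      · obtain rfl := G.eq me.2 (G.wh hπ _ (s l))
        exact ⟨_, c1, ac.no t2 _ me⟩
    · rcases h1 L hl with s | s
      · obtain rfl := G.eq me.2 (kb _ (tri_sub2 k (s2 (s l)).1))
        exact ⟨_, c2, (ac.sides tb hs me).2 (s l)⟩
      · obtain rfl := G.eq me.2 (G.wh hπ _ (s l))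
        exact ⟨_, c3, ac.no t1 _ me⟩
  refine fam_rel (G.core hπ h hL hα fun i z z' j j' n cc l hz hz' => ?_) fun i j s r g _ _ => ⟨r, g⟩
  obtain ⟨L, l1, L', l2, -, l3, l4⟩ := l
  obtain ⟨A, a1, a2⟩ := key i z j cc.arc.left hz ⟨L, l1, l3⟩
  obtain ⟨A', a3, a4⟩ := key i z' j' cc.arc.right hz' ⟨L', l2, l4⟩
  exact a1.lands a3 (G.hk n) a2 a4

theorem famD_del (h : FamD V c L0 rel grp a) (t : ι) :
    FamD V c L0 (fun i j s => rel i j s ∧ s ≠ t) grp (del t a) := by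
  refine ⟨fun i => ?_, fun i j n => (h.dj n).mono (fun _ k => k.1) fun _ k => k.1,
    fun i j s r g => ?_⟩
  · by_cases m : i = t
    · exact .inl (m ▸ del_self _ _)
    · rw [del_ne m]; exact h.arc i
  · rw [del_ne r.2]
    exact fun P x y k1 k2 k3 k4 => h.sep i j s r.1 g P x y k1 k2 k3.1 k4.1

/-- the label `t` is dropped and splits the others into two groups -/
theorem YG.post1 (hπ : π.Ok K) (G : YG π o f V c D Y w e p q) (h : FamD V c L0 rel grp a)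
    (hr : ∀ i j s, rel i j s → i ≠ j) (h1 : L0 true = ∅)
    (h0 : ∀ L ∈ L0 false, ∃ j, L = w j \ {p j, q j}) (hα : AcP π o ths (tot univ a) αs qs) {t : ι}
    (ht : ∀ g ∈ o.P, ∀ x ∈ a t ∩ π.H g, ths g = some x) (hN : ∀ j, CovAll π (f j) (L1 false))
    {LT : Fin 3 → Bool → Set (Set Z)}
    (hT : ∀ b, Cov π (f b) (π.J0 (f b)) (LT b false) ∧
      Cov π (f (b + 1)) (π.J1 (f (b + 1))) (LT b false) ∧ CovAll π (f (b + 2)) (LT b false) ∧
      Cov π (f b) (π.J1 (f b)) (LT b true) ∧ Cov π (f (b + 1)) (π.J0 (f (b + 1))) (LT b true)) :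
    (Fam o.S (D ∪ Y) L1 rel (fun _ => false) fun i => ext π o.P αs (del t a i)) ∨
      ∃ b g, Fam o.S (D ∪ Y) (LT b) rel g fun i => ext π o.P αs (del t a i) := by
  have hL : Apart w p q L0 := fun g z z' ⟨L, l, L', l', n, m, m'⟩ => by
    cases g
    · obtain ⟨j, rfl⟩ := h0 L l
      obtain ⟨j', rfl⟩ := h0 L' l'
      exact ⟨j, j', fun k => n (k ▸ rfl), m, m'⟩
    · rw [h1] at l; exact l.elim
  have hg : ∀ i, a i ≠ ∅ → grp i = false := fun i n => by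
    rcases h.arc i with m | ⟨z, z', -, L, l, -⟩
    · exact (n m).elim
    · exact Bool.eq_false_iff.2 fun g => by rw [g, h1] at l; exact l
  rcases h.arc t with n | ⟨x, y, cc, l⟩
  · exact .inl (by rw [del_nil n]; exact G.postN hπ h hL h1 hα hN)
  right
  obtain ⟨b, x, y, cc, hx, hy⟩ : ∃ b x y, Cc V c (a t) x y ∧ x ∈ w b \ {p b, q b} ∧
      y ∈ w (b + 1) \ {p (b + 1), q (b + 1)} := by
    obtain ⟨j, j', n, hx, hy⟩ := hL _ _ _ l
    rcases (by decide : ∀ j j' : Fin 3, j ≠ j' → j' = j + 1 ∨ j = j' + 1) j j' n with rfl | rfl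
    exacts [⟨j, x, y, cc, hx, hy⟩, ⟨j', y, x, cc.symm, hy, hx⟩]
  have sp : ∀ j, ∀ z ∈ w j \ {p j, q j}, ∃ u v, Spl (w j) u v (p j) z (q j) := fun j z m => by
    obtain ⟨u, v, k1, k2, k3, k4⟩ := (G.tri.aw j).split m.1 (fun k => m.2 (.inl k))
      fun k => m.2 (.inr k)
    exact ⟨u, v, k1, k2, k3, k4⟩
  obtain ⟨u, v, s1⟩ := sp _ x hx
  obtain ⟨u', v', s2⟩ := sp _ y hy
  obtain ⟨g, g1, g2⟩ := tri_group G.tri h hg h0 cc s1 s2
  obtain ⟨c0, c1, c2, c3, c4⟩ := hT b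
  have ac := fun j => hα _ ((G.P _).2 ⟨j, rfl⟩)
  have tx := ht _ ((G.P _).2 ⟨b, rfl⟩) x ⟨cc.arc.left, G.wh hπ _ hx.1⟩
  have ty := ht _ ((G.P _).2 ⟨b + 1, rfl⟩) y ⟨cc.arc.right, G.wh hπ _ hy.1⟩
  have d1 := (G.ins _).sides hπ s1
  have d2 := (G.ins _).sides hπ s2
  have ne : ∀ i, ext π o.P αs (del t a i) ≠ ∅ → i ≠ t ∧ a i ≠ ∅ := fun i n =>
    have m : i ≠ t := fun m => n (by rw [m, del_self, ext_empty])
    ⟨m, fun k => n (by rw [del_ne m, k, ext_empty])⟩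
  refine ⟨b, g, fam_rel (G.core hπ (famD_del h t) hL (hα.mono (del_tot t a))
    fun i z z' j j' n c' l' hz hz' => ?_) fun i j s r e' n n' => ⟨⟨r, ?_⟩,
      (hg i (ne i n).2).trans (hg j (ne j n').2).symm⟩⟩
  swap
  · rintro rfl
    exact g2 i j r (hr _ _ _ r) (ne i n).1 (ne j n').1 (ne i n).2 (ne j n').2 e'
  have it : i ≠ t := c'.arc.left.2
  rw [del_ne it] at c'
  rw [hg i (nonempty_iff_ne_empty.1 ⟨z, c'.arc.left⟩)] at l'
  obtain ⟨g3, g4⟩ := g1 i it z z' c' l'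
  have mz := G.mem hπ c'.arc.left hz
  have mz' := G.mem hπ c'.arc.right hz'
  cases gi : g i
  · have key : ∀ k j, k ∈ tot univ a ∩ π.H (f j) → k ∈ w j \ {p j, q j} → k ∈ ({z, z'} : Set Z) →
        ∃ A, Cov π (f j) A (LT b false) ∧ qs (f j) k ∈ A := fun k j me m hk => by
      rcases g4 gi k hk with s | s | s
      · obtain rfl := G.eq me.2 (G.wh hπ _ (tri_sub1 s1 s.1))
        exact ⟨_, c0, ((ac _).sides tx d1 me).1 s⟩
      · obtain rfl := G.eq me.2 (G.wh hπ _ (tri_sub2 s2 s.1))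
        exact ⟨_, c1, ((ac _).sides ty d2 me).2 s⟩
      · obtain rfl := G.eq me.2 (G.wh hπ _ s)
        exact ⟨_, c2.cov hπ (ac _) me ((G.ins _).io s).1, rfl⟩
    obtain ⟨A, a1, a2⟩ := key z j mz hz (.inl rfl)
    obtain ⟨A', a3, a4⟩ := key z' j' mz' hz' (.inr rfl)
    exact a1.lands a3 (G.hk n) a2 a4
  · have key : ∀ k k' j j', j ≠ j' → k ∈ tot univ a ∩ π.H (f j) → k' ∈ tot univ a ∩ π.H (f j') →
        k ∈ v \ {x} → k' ∈ u' \ {y} → Lands (LT b true) (qs (f j) k) (qs (f j') k') :=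
      fun k k' j j' n me me' s s' => by
        obtain rfl := G.eq me.2 (G.wh hπ _ (tri_sub2 s1 s.1))
        obtain rfl := G.eq me'.2 (G.wh hπ _ (tri_sub1 s2 s'.1))
        exact c3.lands c4 (G.hk n) (((ac _).sides tx d1 me).2 s) (((ac _).sides ty d2 me').1 s')
    rcases g3 gi with s | s
    exacts [key z z' j j' n mz mz' s.1 s.2, Lands.symm' (key z' z j' j n.symm mz' mz s.1 s.2)]

end Y

section X
variable {f : Bool → φ} {L : Bool → Set Z}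

theorem XG.wh (hπ : π.Ok K) (G : XG π o f w D Y x y) (j : Bool) : w ⊆ π.H (f j) :=
  fun _ h => (hπ.kd _).d.rim_sub (hπ.ik _ ((G.ins j).io h).1)

theorem XG.base (G : XG π o f w D Y x y) (h : FamP L rel grp a) (hL : ∀ g, L g ⊆ w) (i : ι) :
    ∀ g ∈ o.P, a i ∩ π.H g ⊆ π.Io g ∧ (a i ∩ π.H g).Subsingleton := by
  intro g hg
  obtain ⟨k, rfl⟩ := (G.P g).1 hg
  rcases h.pt i with n | ⟨e, he, n⟩ <;> rw [n]
  · simp
  · exact ⟨fun z hz => (G.ins k).io (hL _ ((hz.1 : z = e) ▸ he)),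
      subsingleton_singleton.anti inter_subset_left⟩

theorem XG.core (hπ : π.Ok K) (G : XG π o f w D Y x y) (h : FamP L rel grp a)
    (hr : ∀ i j s, rel i j s → i ≠ j) (hL : ∀ g, L g ⊆ w \ {x, y} ∧ IsPreconnected (L g))
    (hα : AcP π o ths (tot univ a) αs qs) {grp' : ι → Bool}
    (land : ∀ i e, e ∈ a i → e ∈ L (grp i) →
      Lands (L1 (grp' i)) (qs (f false) e) (qs (f true) e)) :
    Fam o.S (D ∪ Y) L1 (fun i j s => rel i j s ∧ grp i = grp j) grp'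
      fun i => ext π o.P αs (a i) := by
  have hw : ∀ i, a i ⊆ w \ {x, y} := fun i z hz => by
    rcases h.pt i with n | ⟨e, he, n⟩ <;> rw [n] at hz
    exacts [hz.elim, (hL _).1 ((hz : z = e) ▸ he)]
  have hw' : tot univ a ⊆ w \ {x, y} := iUnion₂_subset fun i _ => hw i
  have ac : ∀ j, Ac π (f j) (ths (f j)) (tot univ a) (αs (f j)) (qs (f j)) := fun j =>
    (hα _ ((G.P _).2 ⟨j, rfl⟩)).mono fun z hz => ⟨hz, G.wh hπ j (hw' hz).1⟩
  have fa := fun j z (hz : z ∈ tot univ a) => (G.pg j).acc hπ (ac j) hz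
    ((G.ins j).io (hw' hz).1).1 (disjoint_left.1 G.wo (hw' hz))
  have ic : π.I (f false) ⊆ π.c (f false) := fun z hz =>
    (hπ.quad _).union.le (.inl (.inl (.inl hz)))
  obtain ⟨r1, r2, r3⟩ := post_pt (a' := fun i => ext π o.P αs (a i)) (α := αs (f false))
    (β := αs (f true)) (f := qs (f false)) (f' := qs (f true)) G.sph G.obs (hπ.od (f false))
    ((hπ.os _).trans (G.pg _).hs) (G.pg _).oo (hπ.arc _) ic h hr
    (fun g => ⟨fun z hz => ((G.ins _).io ((hL g).1 hz).1).1, (hL g).2, G.wo.mono_left (hL g).1⟩)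
    (fun e he => by
      obtain ⟨-, -, -, -, a5, a6, a7⟩ := fa false e he
      exact ⟨(ac false).cc e he, a7, a6, a5⟩)
    (fun e he => by
      obtain ⟨a1, a2, a3, a4, a5, -⟩ := fa true e he
      exact ⟨a1, a2.trans (G.pg _).hs, subset_antisymm
        (fun z hz => a3.le ⟨hz.1, (G.hh ⟨hπ.os _ hz.2, a2 hz.1⟩).2⟩) (singleton_subset_iff.2
          ⟨a1.left, (hπ.od _).rim_sub (ic ((G.ins _).io (hw' he).1).1)⟩), a4, a5⟩)
    (ac false).dj (ac true).dj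
    (fun i => Set.ext fun z => by
      simp only [ext, mem_union, mem_iUnion, exists_prop]
      constructor
      · rintro (m | ⟨g, hg, e, he, m⟩)
        · exact ⟨z, m, .inl (fa false z (post_tot m)).1.left⟩
        · obtain ⟨_ | _, rfl⟩ := (G.P g).1 hg
          exacts [⟨e, he.1, .inl m⟩, ⟨e, he.1, .inr m⟩]
      · rintro ⟨e, he, m | m⟩
        exacts [.inr ⟨_, (G.P _).2 ⟨false, rfl⟩, e, ⟨he, G.wh hπ _ (hw i he).1⟩, m⟩,
          .inr ⟨_, (G.P _).2 ⟨true, rfl⟩, e, ⟨he, G.wh hπ _ (hw i he).1⟩, m⟩])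
  refine ⟨fun i => ?_, r2, fun i j s r _ => r3 i j s r.1 r.2⟩
  rcases h.pt i with n | ⟨e, he, n⟩
  · exact .inl (by rw [n, ext_empty])
  obtain ⟨b1, b2, b3⟩ := r1 i e n
  exact .inr ⟨_, _, b1, b2, b3, land i e (n.ge rfl) he⟩

/-- one group, any thresholds -/
theorem XG.postN (hπ : π.Ok K) (G : XG π o f w D Y x y) (h : FamP L rel grp a)
    (hr : ∀ i j s, rel i j s → i ≠ j) (h0 : L false = w \ {x, y}) (h1 : L true = ∅)
    (hα : AcP π o ths (tot univ a) αs qs) (hN : ∀ j, CovAll π (f j) (L1 false)) :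
    Fam o.S (D ∪ Y) L1 rel (fun _ => false) fun i => ext π o.P αs (a i) := by
  have hL : ∀ g, L g ⊆ w \ {x, y} ∧ IsPreconnected (L g) := fun g => by
    cases g
    · exact ⟨h0.le, h0 ▸ (G.ins false).arc.conn_open⟩
    · exact ⟨h1 ▸ empty_subset _, h1 ▸ isPreconnected_empty⟩
  have hg : ∀ i, ext π o.P αs (a i) ≠ ∅ → grp i = false := fun i n => by
    rcases h.pt i with m | ⟨e, he, -⟩
    · exact (n (by rw [m, ext_empty])).elim
    · exact Bool.eq_false_iff.2 fun g => by rw [g, h1] at he; exact he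
  refine fam_rel (G.core hπ h hr hL hα fun i e m he => ?_)
    fun i j s r _ n n' => ⟨r, (hg i n).trans (hg j n').symm⟩
  have k := fun j => (hN j).cov hπ (hα _ ((G.P _).2 ⟨j, rfl⟩))
    ⟨post_tot m, G.wh hπ j ((hL _).1 he).1⟩ ((G.ins j).io ((hL _).1 he).1).1
  exact (k false).lands (k true) (fun z hz => (G.hh hz).1) rfl rfl

/-- two groups on both sides of a cut -/
theorem XG.postP (hπ : π.Ok K) (G : XG π o f w D Y x y) (h : FamP L rel grp a)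
    (hr : ∀ i j s, rel i j s → i ≠ j) (hL : ∀ g, L g ⊆ w \ {x, y} ∧ IsPreconnected (L g))
    (hα : AcP π o ths (tot univ a) αs qs)
    (hs : ∀ j, ∃ z, ths (f j) = some z ∧ Sides π (f j) z (L false) (L true))
    (c0 : ∀ j, Cov π (f j) (π.J0 (f j)) (L1 false)) (c1 : ∀ j, Cov π (f j) (π.J1 (f j)) (L1 true)) :
    Fam o.S (D ∪ Y) L1 rel grp fun i => ext π o.P αs (a i) := by
  refine fam_rel (G.core hπ h hr hL hα fun i e m he => ?_) fun i j s r g _ _ => ⟨r, g⟩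
  have k : ∀ j, (e ∈ L false → qs (f j) e ∈ π.J0 (f j)) ∧ (e ∈ L true → qs (f j) e ∈ π.J1 (f j)) :=
    fun j => (hs j).elim fun z hz => (hα _ ((G.P _).2 ⟨j, rfl⟩)).sides hz.1 hz.2
      ⟨post_tot m, G.wh hπ j ((hL _).1 he).1⟩
  cases g : grp i <;> rw [g] at he
  · exact (c0 false).lands (c0 true) (fun z hz => (G.hh hz).1) ((k _).1 he) ((k _).1 he)
  · exact (c1 false).lands (c1 true) (fun z hz => (G.hh hz).1) ((k _).2 he) ((k _).2 he)

/-- the label `t` is dropped and splits the others into two groups -/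
theorem XG.post1 (hπ : π.Ok K) (G : XG π o f w D Y x y) (h : FamP L rel grp a)
    (hr : ∀ i j s, rel i j s → i ≠ j) (h0 : L false = w \ {x, y}) (h1 : L true = ∅)
    (hα : AcP π o ths (tot univ a) αs qs) {t : ι}
    (ht : ∀ g ∈ o.P, ∀ x ∈ a t ∩ π.H g, ths g = some x) (hN : ∀ j, CovAll π (f j) (L1 false))
    {LP : Bool → Set (Set Z)} (c0 : ∀ j, Cov π (f j) (π.J0 (f j)) (LP false))
    (c1 : ∀ j, Cov π (f j) (π.J1 (f j)) (LP true)) :
    (Fam o.S (D ∪ Y) L1 rel (fun _ => false) fun i => ext π o.P αs (del t a i)) ∨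
      ∃ g, Fam o.S (D ∪ Y) LP rel g fun i => ext π o.P αs (del t a i) := by
  classical
  have pt : ∀ i, a i = ∅ ∨ ∃ e ∈ w \ {x, y}, grp i = false ∧ a i = {e} := fun i =>
    (h.pt i).imp_right fun ⟨e, he, n⟩ => by
      cases g : grp i <;> rw [g] at he
      exacts [⟨e, h0 ▸ he, rfl, n⟩, (h1 ▸ he : e ∈ (∅ : Set Z)).elim]
  rcases pt t with n | ⟨m, hm, -, n⟩
  · exact .inl (by rw [del_nil n]; exact G.postN hπ h hr h0 h1 hα hN)
  obtain ⟨u, v, k1, k2, k3, k4⟩ := (G.ins false).arc.split hm.1 (fun k => hm.2 (.inl k))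
    fun k => hm.2 (.inr k)
  have sp : Spl w u v x m y := ⟨k1, k2, k3, k4⟩
  have nm : ∀ i e, i ≠ t → e ∈ a i → e ≠ m := fun i e it he k =>
    disjoint_left.1 (h.dj it) he (n.ge k)
  let g : ι → Bool := fun i => decide (a i ⊆ v)
  have uv : ∀ e ∈ w, e ≠ m → (e ∈ u ↔ e ∉ v) := fun e he k =>
    ⟨fun s s' => k (k3.le ⟨s, s'⟩), (k4.ge he).resolve_right⟩
  refine .inr ⟨g, G.postP (L := fun b => cond b (v \ {m, y}) (u \ {x, m})) hπ ⟨fun i => ?_,
    fun i j k => (h.dj k).mono (fun _ k => k.1) fun _ k => k.1, fun i j s r e' => ?_⟩ hr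
    (fun b => ?_) (hα.mono (del_tot t a)) (fun j => ⟨m, ht _ ((G.P _).2 ⟨j, rfl⟩) m
      ⟨n.ge rfl, G.wh hπ j hm.1⟩, ?_⟩) c0 c1⟩
  · by_cases it : i = t
    · exact .inl (it ▸ del_self _ _)
    rw [del_ne it]
    refine (pt i).imp_right fun ⟨e, he, _, k⟩ => ⟨e, ?_, k⟩
    have em := nm i e it (k.ge rfl)
    by_cases s : e ∈ v
    · rw [show g i = true from decide_eq_true (k ▸ singleton_subset_iff.2 s)]
      exact ⟨s, fun l => l.elim em fun l => he.2 (.inr l)⟩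
    · rw [show g i = false from decide_eq_false fun l => s (l (k.ge rfl))]
      exact ⟨(uv e he.1 em).2 s, fun l => l.elim (fun l => he.2 (.inl l)) em⟩
  · by_cases it : i = t
    · exact sep_nil (.inl (it ▸ del_self _ _))
    by_cases jt : j = t
    · exact sep_nil (.inr (jt ▸ del_self _ _))
    rw [del_ne it, del_ne jt]
    rcases pt i with ni | ⟨e, he, gi, ni⟩
    · exact sep_nil (.inl ni)
    rcases pt j with nj | ⟨e₁, he₁, gj, nj⟩
    · exact sep_nil (.inr nj)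
    have hs := h.sep i j s r (gi.trans gj.symm)
    rw [gi, h0] at hs
    by_cases st : s = t
    · have em := nm i e it (ni.ge rfl)
      have em₁ := nm j e₁ jt (nj.ge rfl)
      rw [st, n, ni, nj] at hs
      have := sp.not_sep subset_rfl
        ⟨he.1, fun l => l.elim (fun l => he.2 (.inl l)) fun l => l.elim (fun l => he.2 (.inr l)) em⟩
        ⟨he₁.1, fun l => l.elim (fun l => he₁.2 (.inl l)) fun l =>
          l.elim (fun l => he₁.2 (.inr l)) em₁⟩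
        (fun l => disjoint_left.1 (h.dj (hr _ _ _ r)) (ni.ge rfl) (nj.ge l)) hs
      simp only [g, ni, nj, singleton_subset_iff, decide_eq_decide] at e'
      exact absurd ((uv e he.1 em).symm.trans (this.trans e'.symm)) not_iff_self
    · rw [del_ne st]
      refine fun P p q a1 a2 => hs P p q a1 (a2.trans ?_)
      cases g i
      · exact fun z hz => ⟨tri_sub1 sp hz.1, fun l => l.elim (fun l => hz.2 (.inl l)) fun l =>
          hz.2 (.inr (k3.le ⟨hz.1, (l : z = y) ▸ k2.right⟩))⟩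
      · exact fun z hz => ⟨tri_sub2 sp hz.1, fun l => l.elim (fun l =>
          hz.2 (.inl (k3.le ⟨(l : z = x) ▸ k1.left, hz.1⟩))) fun l => hz.2 (.inr l)⟩
  · cases b
    · exact ⟨fun z hz => ⟨tri_sub1 sp hz.1, fun l => l.elim (fun l => hz.2 (.inl l)) fun l =>
        hz.2 (.inr (k3.le ⟨hz.1, (l : z = y) ▸ k2.right⟩))⟩, k1.conn_open⟩
    · exact ⟨fun z hz => ⟨tri_sub2 sp hz.1, fun l => l.elim (fun l =>
        hz.2 (.inl (k3.le ⟨(l : z = x) ▸ k1.left, hz.1⟩))) fun l => hz.2 (.inr l)⟩, k2.conn_open⟩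
  · obtain ⟨U, W, s1, s2, s3⟩ := (G.ins j).sides hπ sp
    exact ⟨U, W, s1, fun z hz => s2 ⟨hz.1, fun l => hz.2 (.inr l)⟩,
      fun z hz => s3 ⟨hz.1, fun l => hz.2 (.inl l)⟩⟩

end X

end Pool.Agent.Lib.MP_b7d179_gt.L
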