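import Pool.Agent.Lib.MP_b7d179_gt.C.Mask
import Pool.Agent.Lib.MP_b7d179_gt.U.Defs

/-! The cell complex round a vertex of the hexagon tiling and the data exported by the geometry.
An open cell has a type `τ < 50` and a slot `(a, b)`; its bit is `50 * (3 * a + b) + τ`.
Types: `2 i` point of the circle at angle `30 i`, `2 i + 1` open arc from `30 i` to `30 (i + 1)`;
24 to 29 edges `eup eum evp evm qu qv`; 30 to 38 faces `R sup sum svp svm h23 h34 h45 h56`;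
39 40 polar hexagons of `u` (slot `(a, 0)`), 41 42 of `v` (slot `(0, b)`);
43 prism `U a`, 44 prism `U' b`, 45 `Y (u a)`, 46 `Y (v b)`, 47 48 49 the lenses `X3 X4 X5`. -/

namespace Pool.Agent.Lib.MP_b7d179_gt.L

open Set C

/-- bit of the open cell of type `τ` in slot `(a, b)` -/
def bt (τ a b : ℕ) : ℕ := Nat.shiftLeft 1 (50 * (3 * (a % 3) + b % 3) + τ)
/-- point at angle `30 i` -/
def kv (a b i : ℕ) : ℕ := bt (2 * (i % 12)) a b
/-- closed arc of `n` steps that starts at angle `30 i` -/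
def ka (a b i : ℕ) : ℕ → ℕ
  | 0 => kv a b i
  | n + 1 => Nat.lor (ka a b i n) (Nat.lor (bt (2 * ((i + n) % 12) + 1) a b) (kv a b (i + n + 1)))
/-- the same arc without its ends -/
def ko (a b i n : ℕ) : ℕ := df (ka a b i n) (Nat.lor (kv a b i) (kv a b (i + n)))
def kap (a b : ℕ) : ℕ := ka a b 0 12
def o3 (f : ℕ → ℕ) : ℕ := orL [f 0, f 1, f 2]
def o9 (f : ℕ → ℕ → ℕ) : ℕ := o3 fun a => o3 fun b => f a b

/-- ends of the edge of type `τ` -/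
def eEnds (τ a b : ℕ) : ℕ × ℕ :=
  match τ with
  | 24 => (kv a b 7, kv a (b + 1) 10)
  | 25 => (kv a b 4, kv a (b + 1) 1)
  | 26 => (kv a b 7, kv (a + 1) b 4)
  | 27 => (kv a b 10, kv (a + 1) b 1)
  | 28 => (kv a b 6, kv a (b + 1) 0)
  | _ => (kv a b 8, kv (a + 1) b 2)
/-- closed edge -/
def ed (τ a b : ℕ) : ℕ := orL [bt τ a b, (eEnds τ a b).1, (eEnds τ a b).2]
/-- rim of the face of type `τ` -/
def fr (τ a b : ℕ) : ℕ :=
  match τ with
  | 30 => orL [ed 24 a b, ed 26 a b, ed 25 (a + 1) b, ed 27 a (b + 1)]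
  | 31 => orL [ed 28 a b, ed 24 a b, ka a b 6 1, ka a (b + 1) 10 2]
  | 32 => orL [ed 28 a b, ed 25 a b, ka a b 4 2, ka a (b + 1) 0 1]
  | 33 => orL [ed 29 a b, ed 26 a b, ka a b 7 1, ka (a + 1) b 2 2]
  | 34 => orL [ed 29 a b, ed 27 a b, ka a b 8 2, ka (a + 1) b 1 1]
  | 39 => o3 fun j => Nat.lor (ka a j 7 3) (ed 24 a j)
  | 40 => o3 fun j => Nat.lor (ka a j 1 3) (ed 25 a j)
  | 41 => o3 fun j => Nat.lor (ka j b 4 3) (ed 26 j b)
  | 42 => o3 fun j => Nat.lor (ka j b 10 3) (ed 27 j b)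
  | _ => kap a b
/-- closed face -/
def fc (τ a b : ℕ) : ℕ := Nat.lor (bt τ a b) (fr τ a b)
def stU (a b : ℕ) : ℕ := Nat.lor (fc 31 a b) (fc 32 a b)
def stV (a b : ℕ) : ℕ := Nat.lor (fc 33 a b) (fc 34 a b)
/-- the halves of the pair of pants of `u a` over the angles `(180, 360)` and `(0, 180)` -/
def hiU (a : ℕ) : ℕ := Nat.lor (fc 39 a 0) (o3 fun j => fc 31 a j)
def loU (a : ℕ) : ℕ := Nat.lor (fc 40 a 0) (o3 fun j => fc 32 a j)
/-- the halves of the pair of pants of `v b` over the angles `(60, 240)` and `(240, 420)` -/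
def loV (b : ℕ) : ℕ := Nat.lor (fc 41 0 b) (o3 fun j => fc 33 j b)
def hiV (b : ℕ) : ℕ := Nat.lor (fc 42 0 b) (o3 fun j => fc 34 j b)
def pU (a : ℕ) : ℕ := Nat.lor (hiU a) (loU a)
def pV (b : ℕ) : ℕ := Nat.lor (hiV b) (loV b)
/-- rim of the 3-cell of type `τ` -/
def br (τ a b : ℕ) : ℕ :=
  match τ with
  | 43 => orL [fc 39 a 0, fc 40 (a + 1) 0, o3 fun j => Nat.lor (fc 30 a j) (stV a j)]
  | 44 => orL [fc 41 0 b, fc 42 0 (b + 1), o3 fun j => Nat.lor (fc 30 j b) (stU j b)]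
  | 45 => Nat.lor (pU a) (o3 fun j => fc 35 a j)
  | 46 => Nat.lor (pV b) (o3 fun j => fc 38 j b)
  | 47 => Nat.lor (fc 35 a b) (fc 36 a b)
  | 48 => Nat.lor (fc 36 a b) (fc 37 a b)
  | _ => Nat.lor (fc 37 a b) (fc 38 a b)
/-- closed 3-cell -/
def bc (τ a b : ℕ) : ℕ := Nat.lor (bt τ a b) (br τ a b)

/-- the slot `(a, b)` carries a cell of type `τ` -/
def used (τ a b : ℕ) : Bool :=
  if τ = 39 ∨ τ = 40 ∨ τ = 43 ∨ τ = 45 then b == 0
  else if τ = 41 ∨ τ = 42 ∨ τ = 44 ∨ τ = 46 then a == 0 else true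

/-- The tables. Arc number `2 t` is the edge with bit `t`, arc number `2 t + 1` the reversed one. -/
def vx : Atoms where
  a1 s :=
    let t := s / 2; let τ := t % 50; let a := t / 150; let b := t / 50 % 3
    let e : ℕ × ℕ × ℕ :=
      if τ < 24 then (ka a b (τ / 2) 1, kv a b (τ / 2), kv a b (τ / 2 + 1))
      else (ed τ a b, eEnds τ a b)
    if t < 450 ∧ τ < 30 ∧ (24 ≤ τ ∨ τ % 2 = 1) then
      some (if s % 2 = 0 then e else (e.1, e.2.2, e.2.1)) else none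
  a2 t :=
    let τ := t % 50; let a := t / 150; let b := t / 50 % 3
    if t < 450 ∧ 30 ≤ τ ∧ τ < 43 ∧ used τ a b = true then some (fc τ a b, fr τ a b) else none
  a3 t :=
    let τ := t % 50; let a := t / 150; let b := t / 50 % 3
    if t < 450 ∧ 43 ≤ τ ∧ used τ a b = true then some (bc τ a b, br τ a b) else none

def h12 (a b : ℕ) : ℕ := orL [pU a, fc 37 a (b + 1), fc 37 a (b + 2)]
def h61 (a b : ℕ) : ℕ := orL [pV b, fc 36 (a + 1) b, fc 36 (a + 2) b]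
def core : ℕ := o3 fun j => Nat.lor (bc 43 j 0) (bc 44 0 j)
/-- `Y (u a)` with its three legs -/
def yU (a : ℕ) : ℕ := Nat.lor (bc 45 a 0) (o3 fun j => bc 47 a j)
/-- `Y (v b)` with its three legs -/
def yV (b : ℕ) : ℕ := Nat.lor (bc 46 0 b) (o3 fun j => bc 49 j b)
def yS : ℕ := orL [core, yV 1, yV 2]
def yE : ℕ := orL [core, yU 1, yU 2]
def x1 : ℕ := orL [core, yU 1, yU 2, yV 1, yV 2, bc 48 1 1, bc 48 1 2, bc 48 2 1, bc 48 2 2]
def x2 (a b : ℕ) : ℕ :=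
  orL [bc 45 a 0, bc 47 a (b + 1), bc 48 a (b + 1), bc 47 a (b + 2), bc 48 a (b + 2)]
def x6 (a b : ℕ) : ℕ :=
  orL [bc 46 0 b, bc 48 (a + 1) b, bc 49 (a + 1) b, bc 48 (a + 2) b, bc 49 (a + 2) b]
def allM : ℕ := orL [core, o3 yU, o3 yV, o9 (bc 48)]
/-- everything but the open prism `U 0` -/
def root : ℕ := df allM (bt 43 0 0)
/-- the part that misses the limit set -/
def free : ℕ := core

/-- the types `τ` of one slot with `p τ` -/
def tyM (p : ℕ → Bool) : ℕ := orL ((List.range 50).map fun τ => if p τ then Nat.shiftLeft 1 τ else 0)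
/-- the part of `m` in slot `(a, b)` with types in `ty`, moved to slot `(a', b')` -/
def mvS (m ty a b a' b' : ℕ) : ℕ :=
  Nat.shiftLeft (Nat.land (Nat.shiftRight m (50 * (3 * a + b))) ty) (50 * (3 * (a' % 3) + b' % 3))
def tyA : ℕ := tyM fun τ => τ = 39 ∨ τ = 40 ∨ τ = 43 ∨ τ = 45
def tyB : ℕ := tyM fun τ => τ = 41 ∨ τ = 42 ∨ τ = 44 ∨ τ = 46
def tyAll : ℕ := tyM fun _ => true
/-- action of `g u` on masks -/
def shU (m : ℕ) : ℕ :=
  o9 fun a b => Nat.lor (mvS m tyA a b a b) (mvS m (df tyAll tyA) a b a (b + 1))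
/-- action of `g v` on masks -/
def shV (m : ℕ) : ℕ :=
  o9 fun a b => Nat.lor (mvS m tyB a b a b) (mvS m (df tyAll tyB) a b (a + 1) b)

/-- pairs `(m, m')` with `r '' R m = R m'` -/
def rPairs : List (ℕ × ℕ) :=
  ((List.range 24).map fun τ => (bt τ 0 0, bt ((τ + 20) % 24) 0 0)) ++
  [(ed 29 0 0, ed 28 0 0), (ed 29 1 0, ed 28 0 1), (ed 29 2 0, ed 28 0 2), (loV 0, loU 0),
   (hiV 0, hiU 0), (h61 0 0, h12 0 0), (h12 0 0, fc 35 0 0), (fc 35 0 0, fc 36 0 0),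
   (fc 36 0 0, fc 37 0 0), (fc 37 0 0, fc 38 0 0), (fc 38 0 0, h61 0 0), (x1, x2 0 0),
   (x2 0 0, bc 47 0 0), (bc 47 0 0, bc 48 0 0), (bc 48 0 0, bc 49 0 0), (bc 49 0 0, x6 0 0),
   (x6 0 0, x1), (yS, bc 45 0 0), (bc 46 0 0, yE)]

/-- the lens `X k` of the chamber `(a, b)` lies in `X 1`; here `j = k - 1` -/
def chL (a b j : ℕ) : Prop :=
  a < 3 ∧ b < 3 ∧ ((a ≠ 0 ∧ (j = 2 ∨ (j = 1 ∧ b = 0))) ∨ (b ≠ 0 ∧ (j = 4 ∨ (j = 5 ∧ a = 0))) ∨
    (a ≠ 0 ∧ b ≠ 0 ∧ j = 3))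

variable {Z : Type} [MetricSpace Z]

/-- nested lenses -/
inductive Desc (u v r : Z ≃ₜ Z) : ℕ → (Z ≃ₜ Z) → Prop
  | zero (a b j : ℕ) : Desc u v r 0 (v ^ a * u ^ b * r ^ j)
  | succ {n : ℕ} {γ : Z ≃ₜ Z} {a b j : ℕ} : Desc u v r n γ → chL a b j →
      Desc u v r (n + 1) (γ * (v ^ a * u ^ b * r ^ j))

/-- what the geometry exports -/
structure Geo (Z : Type) [MetricSpace Z] where
  K : Set Z
  u : Z ≃ₜ Z
  v : Z ≃ₜ Z
  r : Z ≃ₜ Z
  R : ℕ → Set Z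
  ok : vx.Ok R Ball
  kcl : IsClosed K
  ku : u '' K = K
  kr : r '' K = K
  u3 : u ^ 3 = 1
  r6 : r ^ 6 = 1
  rv : r * v = u * r
  uv : u * v = v * u
  su : ∀ m, sub m allM = true → u '' R m = R (shU m)
  sv : ∀ m, sub m allM = true → v '' R m = R (shV m)
  sr : ∀ p ∈ rPairs, r '' R p.1 = R p.2
  fre : Disjoint (R free) K
  hit : (K ∩ R (fc 37 0 0)).Nonempty
  all : K ⊆ R allM
  mesh : ∀ ε > 0, ∃ n, ∀ γ, Desc u v r n γ → ∀ x ∈ γ '' R x1, ∀ y ∈ γ '' R x1, dist x y < ε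

end Pool.Agent.Lib.MP_b7d179_gt.L
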