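import Pool.Agent.Lib.MP_b7d179_gt.Stmt
import Pool.Agent.Lib.MP_b7d179_gt.L.Vx

/-! Standard balls of the sphere and the statement exported by the geometry. -/

namespace Pool.Agent.Lib.MP_b7d179_gt.L

open Set Stmt

noncomputable section

/-- real inner product on the sphere -/
def ip (p q : S3) : ℝ := (p.1.1 * (starRingEnd ℂ) q.1.1 + p.1.2 * (starRingEnd ℂ) q.1.2).re

/-- an ambient isotopy carries the lower half sphere onto `B` and the equator onto `S` -/
def Std (B S : Set S3) : Prop :=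
  ∃ H : unitInterval → S3 ≃ₜ S3, Continuous (fun p : unitInterval × S3 => H p.1 p.2) ∧
    (∀ x, H 0 x = x) ∧ H 1 '' {p | p.1.2.im ≤ 0} = B ∧ H 1 '' {p | p.1.2.im = 0} = S

/-- the export of the geometry -/
def GeoEx : Prop :=
  ∃ Γ : Geo S3, Γ.K = limitSet ∧ ∃ h : S3 → S3, Mv Γ.K h (Γ.R root) ∧
    Std (h '' Γ.R root) (h '' Γ.R (br 43 0 0))

end

end Pool.Agent.Lib.MP_b7d179_gt.L
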