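import Pool.Agent.Lib.MP_b7d179_gt.L.Kid
import Pool.Agent.Lib.MP_b7d179_gt.C.ShellB

/-! The tower of the limit set: levels, feet, leaves. -/

namespace Pool.Agent.Lib.MP_b7d179_gt.L

open Set C

def Gk.leaf : Gk → Bool
  | .lx _ _ | .ly _ _ => true
  | _ => false

variable {Z : Type} [MetricSpace Z]

namespace Geo
variable (Γ : Geo Z)

abbrev Pl : Type := Gk × Γ.Fl

/-- the object of a kind at a place -/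
noncomputable def O (x : Γ.Pl) : Ob Z Γ.Ft := Γ.ob x.2 x.1.ao
def kids (x : Γ.Pl) : Set Γ.Pl := {y | ∃ a ∈ gkids x.1, y = (a.2, x.2 * Γ.ev a.1)}
def nx (x : Γ.Pl) : Γ.Pl := (x.1.nx, x.2)
def ch (x : Γ.Pl) : Set Γ.Pl := {z | ∃ y ∈ Γ.kids (Γ.nx x), z ∈ Γ.kids y}
/-- the leaves of a level -/
def Lv : ℕ → Set Γ.Pl
  | 0 => Γ.kids (.root, 1)
  | m + 1 => {z | ∃ x ∈ Lv m, z ∈ Γ.ch x}
/-- reachable objects: leaves, the same balls one level later, and their kids -/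
def Rch (m : ℕ) (k : Gk) (g : Γ.Fl) : Prop :=
  (k, g) ∈ Γ.Lv m ∨ ∃ n, m = n + 1 ∧ ∃ x ∈ Γ.Lv n, (k, g) = Γ.nx x ∨ (k, g) ∈ Γ.kids (Γ.nx x)

/-- the tower -/
noncomputable def tw : Tw Z where
  K := Γ.K
  φ := {x : ℕ × Γ.Ft // ∃ y ∈ Γ.Lv x.1, x.2 ∈ (Γ.O y).P}
  β := {x : ℕ × Γ.Pl // x.2 ∈ Γ.Lv x.1}
  lf f := f.1.1
  A f := Γ.Rg f.1.2.1 zM
  C f := Γ.Rg f.1.2.1 zC
  J f := Γ.po.J0 f.1.2
  sub f := {g | g.1.1 = f.1.1 + 1 ∧ ∃ b, g.1.2 = Γ.po.pd f.1.2 b}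
  lv v := v.1.1
  B v := (Γ.O v.1.2).B
  S v := (Γ.O v.1.2).S
  F v := {f | f.1.1 = v.1.1 ∧ f.1.2 ∈ (Γ.O v.1.2).P}
  ch v := {w | w.1.1 = v.1.1 + 1 ∧ w.1.2 ∈ Γ.ch v.1.2}

variable {Γ}

theorem O_P {x : Γ.Pl} {f : Γ.Ft} : f ∈ (Γ.O x).P ↔ ∃ p ∈ x.1.P, f = Γ.pt x.2 p := by
  simp only [O, ob, Gk.ao, Gk.am, mem_ofPred_eq, List.mem_mapIdx]
  constructor
  · rintro ⟨_, ⟨i, hi, rfl⟩, rfl⟩
    exact ⟨_, List.getElem_mem hi, rfl⟩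
  · rintro ⟨p, hp, rfl⟩
    obtain ⟨i, hi, rfl⟩ := List.getElem_of_mem hp
    exact ⟨_, ⟨i, hi, rfl⟩, rfl⟩

theorem kids_leaf {x y : Γ.Pl} (h : x.1.leaf = true) : y ∈ Γ.kids x ↔ y = x := by
  obtain ⟨k, g⟩ := x
  cases k <;> simp [Gk.leaf] at h <;> simp [kids, gkids, ev]

theorem kids_kind {x y : Γ.Pl} (h : y ∈ Γ.kids x) :
    y.1.leaf = true ∨ (y.1 = .lens ∧ ∃ e t, x.1 = .py e t) := by
  obtain ⟨a, ha, rfl⟩ := h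
  obtain ⟨k, g⟩ := x
  revert a
  rcases k with _ | _ | _ | _ | ⟨_ | _, _⟩ <;> simp [gkids, Gk.leaf, kS, kE, kX]

theorem Lv_leaf {m : ℕ} {x : Γ.Pl} (h : x ∈ Γ.Lv m) : x.1.leaf = true := by
  cases m with
  | zero => exact (kids_kind h).resolve_right fun ⟨_, _, _, e⟩ => by cases e
  | succ m =>
    obtain ⟨_, -, y, hy, h⟩ := h
    refine (kids_kind h).resolve_right fun ⟨_, _, _, e⟩ => ?_
    rcases kids_kind hy with k | ⟨k, -⟩ <;> rw [e] at k <;> cases k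

theorem Rch.lv {m : ℕ} {k : Gk} {g : Γ.Fl} (h : Γ.Rch m k g) (hk : k.leaf = true) :
    (k, g) ∈ Γ.Lv m := by
  rcases h with h | ⟨n, rfl, x, hx, h | h⟩
  · exact h
  · have := Lv_leaf hx
    obtain ⟨k', g'⟩ := x
    cases h
    cases k' <;> simp [Gk.leaf, Gk.nx] at this hk
  · exact ⟨x, hx, _, h, (kids_leaf hk).2 rfl⟩

theorem Rch.kid {m : ℕ} {k : Gk} {g : Γ.Fl} (h : Γ.Rch m k g) {a : Wd × Gk} (ha : a ∈ gkids k) :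
    Γ.Rch m a.2 (g * Γ.ev a.1) := by
  have hk : (a.2, g * Γ.ev a.1) ∈ Γ.kids (k, g) := ⟨a, ha, rfl⟩
  rcases h with h | ⟨n, rfl, x, hx, h | h⟩
  · exact .inl ((kids_leaf (Lv_leaf h)).1 hk ▸ h)
  · exact .inr ⟨n, rfl, x, hx, .inr (h ▸ hk)⟩
  · exact .inl ⟨x, hx, _, h, hk⟩

theorem Rch.nx {m : ℕ} {k : Gk} {g : Γ.Fl} (h : Γ.Rch m k g) (hk : k.leaf = true) :
    Γ.Rch (m + 1) k.nx g := .inr ⟨m, rfl, _, h.lv hk, .inl rfl⟩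

theorem tow_sec {N X : Type} {k : N → Ob Z Γ.Ft} {o : X → Ob Z Γ.Ft} {T : Set X} (h : GeoC Γ.po k)
    {f : N → X} (hf : ∀ y ∈ T, ∃ n, f n = y ∧ k n = o y) : GeoC Γ.po fun y : T => o y := by
  choose s h1 h2 using hf
  have := h.comap (f := fun y : T => s y y.2) fun a b c =>
    Subtype.ext ((h1 a a.2).symm.trans ((congrArg f c).trans (h1 b b.2)))
  simpa only [h2] using this

theorem O_kid (x : Γ.Pl) : Kid Γ.po (Γ.O x) fun y : Γ.kids x => Γ.O y := by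
  have k := Γ.gk_kid x.1 x.2
  have i : ∀ y ∈ Γ.kids x, ∃ n : Fin (gkids x.1).length,
      ((gkids x.1)[n].2, x.2 * Γ.ev (gkids x.1)[n].1) = y := by
    rintro _ ⟨a, ha, rfl⟩
    obtain ⟨i, hi, rfl⟩ := List.getElem_of_mem ha
    exact ⟨⟨i, hi⟩, rfl⟩
  refine ⟨tow_sec k.geo fun y hy => (i y hy).imp fun n e => ⟨e, e ▸ rfl⟩, ?_, ?_, ?_, fun g hg => ?_⟩
  · rintro ⟨y, hy⟩
    obtain ⟨n, rfl⟩ := i y hy
    exact k.sub n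
  · rintro ⟨y, hy⟩
    obtain ⟨n, rfl⟩ := i y hy
    exact k.rim n
  · rintro ⟨y, hy⟩
    obtain ⟨n, rfl⟩ := i y hy
    exact k.port n
  · obtain ⟨n, h⟩ := k.onto g hg
    exact ⟨⟨_, _, List.getElem_mem n.2, rfl⟩, h⟩

theorem O_up {x : Γ.Pl} (h : x.1.leaf = true) : Up Γ.po (Γ.O x) (Γ.O (Γ.nx x)) := by
  obtain ⟨k, g⟩ := x
  rcases k with _ | _ | ⟨a, b⟩ | ⟨e, t⟩ | _
  · cases h
  · cases h
  · exact Γ.up_ok (o := Gk.ao (.lx a b)) (o' := Gk.ao .lens) rfl rfl rfl g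
  · exact Γ.up_ok (o := Gk.ao (.ly e t)) (o' := Gk.ao (.py e t)) rfl rfl rfl g
  · cases h

theorem Lv_up {m : ℕ} (h : GeoC Γ.po fun y : Γ.Lv m => Γ.O y) :
    GeoC Γ.po fun y : Γ.Lv m => Γ.O (Γ.nx y) := h.up Γ.po_ok fun y => O_up (Lv_leaf y.2)

theorem Lv_geo (m : ℕ) : GeoC Γ.po fun y : Γ.Lv m => Γ.O y := by
  induction m with
  | zero => exact (O_kid _).geo
  | succ m ih =>
    have := geoC_step Γ.po_ok (geoC_step Γ.po_ok (Lv_up ih) fun y => O_kid _) fun y => O_kid _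
    exact tow_sec this (f := fun n => n.2.1) fun z ⟨x, hx, y, hy, hz⟩ =>
      ⟨⟨⟨⟨x, hx⟩, y, hy⟩, z, hz⟩, rfl, rfl⟩

theorem ch_sub {x z : Γ.Pl} (h : x.1.leaf = true) (hz : z ∈ Γ.ch x) :
    (Γ.O z).B ⊆ (Γ.O x).B ∧ (Γ.O z).B ∩ (Γ.O x).S ⊆ (Γ.O z).S := by
  obtain ⟨y, hy, hz⟩ := hz
  have a := (O_kid y).sub ⟨z, hz⟩
  rw [← (O_up h).b, ← (O_up h).s]
  exact ⟨a.trans ((O_kid _).sub ⟨y, hy⟩), fun p hp => (O_kid y).rim ⟨z, hz⟩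
    ⟨hp.1, (O_kid _).rim ⟨y, hy⟩ ⟨a hp.1, hp.2⟩⟩⟩

theorem nx_port {m : ℕ} {x : Γ.Pl} (hx : x ∈ Γ.Lv m) {y : Γ.Pl} (hy : y ∈ Γ.kids (Γ.nx x)) {f : Γ.Ft}
    (hf : f ∈ (Γ.O y).P) : ∃ z ∈ Γ.Lv (m + 1), f ∈ (Γ.O z).P :=
  ((O_kid y).onto f hf).elim fun z h => ⟨z, ⟨x, hx, y, hy, z.2⟩, h⟩

theorem pad_rch {m : ℕ} {x : Γ.Pl} (hx : x ∈ Γ.Lv m) {f : Γ.Ft} (hf : f ∈ (Γ.O x).P) (b : Bool) :
    ∃ z ∈ Γ.Lv (m + 1), Γ.po.pd f b ∈ (Γ.O z).P :=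
  ((O_kid _).onto _ (((O_up (Lv_leaf hx)).p _).2 ⟨f, hf, b, rfl⟩)).elim fun y h => nx_port hx y.2 h

theorem z_sub (f : Γ.Ft) : Γ.Rg f.1 zM ⊆ Γ.po.H f \ Γ.po.k f := by
  rw [po_Ho]; exact (Γ.Rg_rl _).sub (by decide +kernel)

theorem tw_fdj (f g : Γ.tw.φ) (e : Γ.tw.lf f = Γ.tw.lf g) (n : f ≠ g) :
    Disjoint (Γ.tw.A f) (Γ.tw.A g) := by
  obtain ⟨⟨m, f⟩, x, hx, hf⟩ := f
  obtain ⟨⟨_, g⟩, y, hy, hg⟩ := g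
  cases e
  exact ((Lv_geo m).dj (n := ⟨x, hx⟩) (n' := ⟨y, hy⟩) hf hg fun c => n (by subst c; rfl)).mono
    (z_sub f) ((z_sub g).trans sdiff_subset)

theorem tw_ok0 : Γ.tw.Ok0 := ⟨Γ.kcl, fun _ => Γ.gk_ball _ _⟩

theorem tw_link : Link Γ.tw Γ.po (fun f => f.1.2) fun v => Γ.O (Γ.nx v.1.2) := by
  refine ⟨fun v => (O_up (Lv_leaf v.2)).b, fun v => (O_up (Lv_leaf v.2)).s, fun v g => ?_, fun m => ?_,
    fun _ _ h => h.1, tw_fdj, fun f b => ?_, fun f => ⟨?_, f.1.2.2, ?_⟩⟩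
  · rw [(O_up (Lv_leaf v.2)).p]
    exact ⟨fun ⟨f, hf, h⟩ => ⟨⟨(v.1.1, f), _, v.2, hf⟩, ⟨rfl, hf⟩, h⟩, fun ⟨f, hf, h⟩ => ⟨_, hf.2, h⟩⟩
  · exact (Lv_up (Lv_geo m)).comap (f := fun v : {v // Γ.tw.lv v = m} =>
      ⟨v.1.1.2, (show Γ.Lv v.1.1.1 = Γ.Lv m from congrArg _ v.2).le v.1.2⟩)
      fun a b c => Subtype.ext (Subtype.ext (Prod.ext (a.2.trans b.2.symm) (congrArg Subtype.val c)))
  · rw [pad_H, pad_k]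
    simp only [tw, ← (Γ.Rg_rl _).df]
    exact ⟨(Γ.Rg_rl _).sub (by cases b <;> decide +kernel),
      (Γ.Rg_rl _).sub (by cases b <;> decide +kernel)⟩
  · exact (Γ.Rg_rl _).sub (by cases f.1.2.2 <;> decide +kernel)
  · rw [pad_H]; exact (Γ.Rg_rl _).sub (by cases f.1.2.2 <;> decide +kernel)

end Geo

end Pool.Agent.Lib.MP_b7d179_gt.L
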