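import Pool.Agent.Lib.MP_b7d179_gt.C.Vert
import Pool.Agent.Lib.MP_b7d179_gt.C.RefB
import Pool.Agent.Lib.MP_b7d179_gt.L.Vx

/-! Words in the generators, their action on masks, charts. -/

namespace Pool.Agent.Lib.MP_b7d179_gt.L

open Set C

inductive Gen
  | u | v | r | s
  deriving DecidableEq

abbrev Wd : Type := List Gen
/-- `(a, b, k)` stands for `v ^ a u ^ b r ^ k` -/
abbrev Tp : Type := ℕ × ℕ × ℕ
/-- an address: the mask read in the chart moved by the word -/
abbrev Ad : Type := Wd × ℕ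

def wd (a b k : ℕ) : Wd := List.replicate a .v ++ List.replicate b .u ++ List.replicate k .r
def Gen.inv : Gen → Wd
  | .u => [.u, .u]
  | .v => [.v, .v]
  | .r => [.s]
  | .s => [.r]
def winv : Wd → Wd
  | [] => []
  | x :: w => winv w ++ x.inv

def bump (x : Bool) (t : Tp) : Tp :=
  if x then (t.1, (t.2.1 + 1) % 3, t.2.2) else ((t.1 + 1) % 3, t.2.1, t.2.2)
/-- one more `u` (`true`) or `v` to the left of the power of `r` in `t`; the stack is read from the
top -/
def ins : List Tp → Bool → Tp → List Tp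
  | [], x, t => [bump x t]
  | t' :: l, x, t =>
    if t'.2.2 = (if x then 5 else 1) then t :: ins l (!x) t' else bump x t :: t' :: l
def mrg : List Tp → List Tp
  | t :: t' :: l => if t.1 = 0 ∧ t.2.1 = 0 then (t'.1, t'.2.1, (t'.2.2 + t.2.2) % 6) :: l
      else t :: t' :: l
  | l => l
def psh : List Tp → Gen → List Tp
  | [], x => [match x with | .u => (0, 1, 0) | .v => (1, 0, 0) | .r => (0, 0, 1) | .s => (0, 0, 5)]
  | t :: l, .r => (t.1, t.2.1, (t.2.2 + 1) % 6) :: l
  | t :: l, .s => (t.1, t.2.1, (t.2.2 + 5) % 6) :: l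
  | t :: l, .u => if t.2.2 = 0 then mrg (ins l true t) else if t.2.2 = 5 then mrg (ins l false t)
      else (0, 1, 0) :: t :: l
  | t :: l, .v => if t.2.2 = 0 then mrg (ins l false t) else if t.2.2 = 1 then mrg (ins l true t)
      else (1, 0, 0) :: t :: l
/-- normal form, last triple first -/
def nf (w : Wd) : List Tp := w.foldl psh [(0, 0, 0)]

/-- the pairs `(m, m')` with `r '' R m = R m'`, also without the circles -/
def rP2 : List (ℕ × ℕ) :=
  rPairs ++ (rPairs.drop 24).map fun p => (df p.1 (o3 fun j => kap j 0), df p.2 (o3 fun j => kap 0 j))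
def cnj (l : List (ℕ × ℕ)) : List (ℕ × ℕ) :=
  l ++ l.map (fun p => (shV p.1, shU p.2)) ++ l.map fun p => (shV (shV p.1), shU (shU p.2))
/-- these pairs and their conjugates -/
def rAt : List (ℕ × ℕ) := cnj rP2
def actL (l : List (ℕ × ℕ)) (m : ℕ) : Option ℕ :=
  let t := l.filter fun p => sub p.1 m
  if Nat.beq (orL (t.map Prod.fst)) m then some (orL (t.map Prod.snd)) else none
def itr (f : ℕ → Option ℕ) : ℕ → ℕ → Option ℕ
  | 0, m => some m
  | n + 1, m => (f m).bind (itr f n)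
def actU (m : ℕ) : Option ℕ := if sub m allM then some (shU m) else none
def actV (m : ℕ) : Option ℕ := if sub m allM then some (shV m) else none
def actK (k m : ℕ) : Option ℕ :=
  if k ≤ 3 then (itr (actL rAt) k m).orElse fun _ => itr (actL (rAt.map Prod.swap)) (6 - k) m
  else if k ≤ 6 then (itr (actL (rAt.map Prod.swap)) (6 - k) m).orElse fun _ => itr (actL rAt) k m
  else none
def actS : List Tp → ℕ → Option ℕ
  | [], m => some m
  | t :: l, m => (((actK t.2.2 m).bind (itr actU t.2.1)).bind (itr actV t.1)).bind (actS l)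
/-- the mask of the image of `R m` under the word -/
def actW (w : Wd) (m : ℕ) : Option ℕ := actS (nf w) m

/-- a table of atoms with a translation of addresses -/
structure Chart where
  A : Atoms
  tau : Wd → ℕ → Option ℕ

/-- union of the translations of a list of addresses -/
def Chart.tauL (c : Chart) : List Ad → Option ℕ
  | [] => some 0
  | a :: l => (c.tau a.1 a.2).bind fun m => (c.tauL l).map (Nat.lor m)

def c0 : Chart := ⟨vx, actW⟩
def Chart.ref (c : Chart) (n : ℕ) (l : List Rf) : Option Chart :=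
  (refs c.A n l).map fun A' => ⟨A', fun w m => (c.tau w m).bind fun m' =>
    if small n m' then some (rlift n l m') else none⟩

/-- the word of block `j`: `v ^ j r` (kind S, `false`), `u ^ j s s` (kind E, `true`) -/
def bw (e : Bool) (j : ℕ) : Wd :=
  if e then List.replicate j .u ++ [.s, .s] else List.replicate j .v ++ [.r]
/-- the open half sphere -/
def hoM : ℕ := df (h12 0 0) (kap 0 0)
def amM (e : Bool) (w loc : ℕ) : Amal where
  n := 450
  w := w
  loc := loc
  bd := kap 0 0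
  hb j := if e then bt 38 0 j else bt 35 j 0
  tr j m := orL ((List.range 24).map fun τ =>
    if dis m (Nat.shiftLeft 1 τ) then 0 else (actW (bw e j) (Nat.shiftLeft 1 τ)).getD 0)
/-- the bits of `vd` are removed from the tables -/
def cln (A : Atoms) (vd : ℕ) : Atoms where
  a1 s := (A.a1 s).map fun e => (df e.1 vd, df e.2.1 vd, df e.2.2 vd)
  a2 s := (A.a2 s).map fun e => (df e.1 vd, df e.2 vd)
  a3 s := (A.a3 s).map fun e => (df e.1 vd, df e.2 vd)
/-- the three dead bits -/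
def vdM (e : Bool) : ℕ := if e then o3 (bt 38 0) else o3 fun j => bt 35 j 0
/-- three copies of the half sphere `h12 0 0` of the chart `c` (on `w` bits) are put into the cells
`fc 35 j 0` or `fc 38 0 j` of `vx` -/
def Chart.amal (c : Chart) (w : ℕ) (e : Bool) : Option Chart :=
  (c.tau [] hoM).bind fun loc =>
    if small w loc && ((List.range 24).all fun τ =>
        c.tau [] (Nat.shiftLeft 1 τ) == some (Nat.shiftLeft 1 τ)) &&
        [0, 1, 2].all fun j => dis ((amM e w loc).hb j) ((amM e w loc).emb j loc) &&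
          sub ((amM e w loc).hb j) ((amM e w loc).up ((amM e w loc).hb j)) then
      some ⟨cln ((amM e w loc).tab vx c.A) (vdM e), fun x m =>
        match actW x m with
        | some m0 => if small 450 m0 then some (df ((amM e w loc).up m0) (vdM e)) else none
        | none => [0, 1, 2].findSome? fun j => (c.tau (winv (bw e j) ++ x) m).bind fun m1 =>
            if sub m1 (Nat.lor loc (kap 0 0)) then some (df ((amM e w loc).emb j m1) (vdM e))
            else none⟩
    else none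

/-- `vx` refined by `l`; the new bits start at 450 -/
def xChart (l : List Rf) : Option Chart := c0.ref 450 l
/-- blocks refined by `lb` (width `450 + 2 |lb|`), the amalgam refined by `l` -/
def yChart (e : Bool) (lb l : List Rf) : Option Chart :=
  ((xChart lb).bind fun c => c.amal (450 + 2 * lb.length) e).bind fun c =>
    c.ref (450 + 3 * (450 + 2 * lb.length)) l

variable {Z : Type} [MetricSpace Z]

namespace Geo
variable (Γ : Geo Z)

/-- homeomorphisms that keep `K` -/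
def Fl : Subgroup (Z ≃ₜ Z) where
  carrier := {g | g '' Γ.K = Γ.K}
  one_mem' := image_id _
  mul_mem' {a b} ha hb := by
    change (a ∘ b) '' Γ.K = Γ.K
    rw [image_comp, hb, ha]
  inv_mem' {a} ha := by
    change a.symm '' Γ.K = Γ.K
    conv_lhs => rw [← show a '' Γ.K = Γ.K from ha]
    exact a.toEquiv.symm_image_image _

def fu : Γ.Fl := ⟨Γ.u, Γ.ku⟩
def fr : Γ.Fl := ⟨Γ.r, Γ.kr⟩
def fv : Γ.Fl := ⟨Γ.v, by
  rw [show Γ.v = Γ.r⁻¹ * Γ.u * Γ.r by rw [mul_assoc, ← Γ.rv, inv_mul_cancel_left]]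
  exact (Γ.fr⁻¹ * Γ.fu * Γ.fr).2⟩
def gen : Gen → Γ.Fl
  | .u => Γ.fu
  | .v => Γ.fv
  | .r => Γ.fr
  | .s => Γ.fr⁻¹
def ev : Wd → Γ.Fl
  | [] => 1
  | x :: w => Γ.gen x * ev w
def evT (t : Tp) : Γ.Fl := Γ.fv ^ t.1 * Γ.fu ^ t.2.1 * Γ.fr ^ t.2.2
def evS : List Tp → Γ.Fl
  | [] => 1
  | t :: l => evS l * Γ.evT t

/-- the chart moved by `g` -/
def Rg (g : Γ.Fl) (m : ℕ) : Set Z := (g : Z ≃ₜ Z) '' Γ.R m
def Ra (g : Γ.Fl) (a : Ad) : Set Z := Γ.Rg (g * Γ.ev a.1) a.2
def RL (g : Γ.Fl) (l : List Ad) : Set Z := {x | ∃ a ∈ l, x ∈ Γ.Ra g a}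

/-- `R'` realises the chart `c` placed at `g` -/
structure At (c : Chart) (g : Γ.Fl) (R' : ℕ → Set Z) : Prop where
  ok : c.A.Ok R' Ball
  tau : ∀ w m m', c.tau w m = some m' → R' m' = Γ.Rg (g * Γ.ev w) m

def Val (c : Chart) : Prop := ∀ g, ∃ R', Γ.At c g R'

theorem ev_append (w w' : Wd) : Γ.ev (w ++ w') = Γ.ev w * Γ.ev w' := by
  induction w with
  | nil => simp [ev]
  | cons x w ih => simp [ev, ih, mul_assoc]

theorem fu3 : Γ.fu ^ 3 = 1 := Subtype.ext Γ.u3
theorem fr6 : Γ.fr ^ 6 = 1 := Subtype.ext Γ.r6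
theorem frv : Γ.fr * Γ.fv = Γ.fu * Γ.fr := Subtype.ext Γ.rv
theorem fuv : Commute Γ.fu Γ.fv := Subtype.ext Γ.uv
theorem frv' (j : ℕ) : Γ.fr * Γ.fv ^ j = Γ.fu ^ j * Γ.fr := SemiconjBy.pow_right Γ.frv j
theorem fv3 : Γ.fv ^ 3 = 1 := mul_left_cancel (a := Γ.fr) (by rw [frv', fu3, one_mul, mul_one])
theorem fs5 : Γ.fr⁻¹ = Γ.fr ^ 5 := inv_eq_of_mul_eq_one_right (by rw [← pow_succ', fr6])
theorem fsu : Γ.fr ^ 5 * Γ.fu = Γ.fv * Γ.fr ^ 5 := by
  rw [← fs5, inv_mul_eq_iff_eq_mul, ← mul_assoc, frv, mul_inv_cancel_right]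

theorem ev_rep (n : ℕ) (x : Gen) : Γ.ev (List.replicate n x) = Γ.gen x ^ n := by
  induction n with
  | zero => simp [ev]
  | succ n ih => rw [List.replicate_succ, ev, ih, pow_succ']

theorem ev_wd (a b k : ℕ) : Γ.ev (wd a b k) = Γ.fv ^ a * Γ.fu ^ b * Γ.fr ^ k := by
  rw [wd, ev_append, ev_append, ev_rep, ev_rep, ev_rep]; rfl

theorem ev_winv (w : Wd) : Γ.ev (winv w) = (Γ.ev w)⁻¹ := by
  induction w with
  | nil => simp [ev, winv]
  | cons x w ih =>
    rw [winv, ev_append, ih, ev, mul_inv_rev]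
    congr 1
    cases x
    · exact eq_inv_of_mul_eq_one_left (by rw [← Γ.fu3]; simp [ev, gen, Gen.inv, pow_succ])
    · exact eq_inv_of_mul_eq_one_left (by rw [← Γ.fv3]; simp [ev, gen, Gen.inv, pow_succ])
    · simp [ev, gen, Gen.inv]
    · simp [ev, gen, Gen.inv]

theorem wd_mod {a : Γ.Fl} {n : ℕ} (h : a ^ n = 1) (k : ℕ) : a ^ (k % n) = a ^ k :=
  (pow_eq_pow_mod k h).symm

theorem wd_ins (l : List Tp) : ∀ (x : Bool) (t : Tp), Γ.evS (ins l x t) =
    Γ.evS l * (Γ.fv ^ t.1 * Γ.fu ^ t.2.1 * (if x then Γ.fu else Γ.fv) * Γ.fr ^ t.2.2) := by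
  have b : ∀ (x : Bool) (t : Tp), Γ.evT (bump x t) =
      Γ.fv ^ t.1 * Γ.fu ^ t.2.1 * (if x then Γ.fu else Γ.fv) * Γ.fr ^ t.2.2 := fun x t => by
    cases x
    · simp only [bump, evT, Bool.false_eq_true, if_false, Γ.wd_mod Γ.fv3, pow_succ]
      rw [mul_assoc (Γ.fv ^ t.1) _ Γ.fv, (Γ.fuv.pow_left t.2.1).eq, ← mul_assoc (Γ.fv ^ t.1)]
    · simp only [bump, evT, if_true, Γ.wd_mod Γ.fu3, pow_succ, mul_assoc]
  induction l with
  | nil => intro x t; simp only [ins, evS, b]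
  | cons t' l ih =>
    intro x t
    simp only [ins]
    split_ifs with h1 h2 h2
    · subst h1
      simp only [evS, ih, evT, h2, Bool.not_true, Bool.false_eq_true, if_false]
      rw [mul_assoc _ Γ.fv, ← fsu,
        ← ((Γ.fuv.pow_right t.1).mul_right (Commute.self_pow Γ.fu t.2.1)).eq]
      simp only [mul_assoc]
    · simp only [evS, b, h1, if_true]
    · obtain rfl : x = false := by simpa using h1
      simp only [evS, ih, evT, h2, Bool.not_false, if_true, pow_one]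
      rw [mul_assoc _ Γ.fu, ← frv,
        ← ((Commute.self_pow Γ.fv t.1).mul_right (Γ.fuv.symm.pow_right t.2.1)).eq]
      simp only [mul_assoc]
    · simp only [evS, b, if_neg h1]

theorem wd_mrg (l : List Tp) : Γ.evS (mrg l) = Γ.evS l := by
  unfold mrg
  split
  · split_ifs with h
    · simp only [evS, evT, h.1, h.2, Γ.wd_mod Γ.fr6, pow_add, pow_zero, one_mul, mul_assoc]
    · rfl
  · rfl

theorem wd_push (l : List Tp) (x : Gen) : Γ.evS (psh l x) = Γ.evS l * Γ.gen x := by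
  rcases l with _ | ⟨t, l⟩
  · cases x <;> simp [psh, evS, evT, gen, fs5]
  cases x <;> simp only [psh, gen]
  · split_ifs with h h'
    · simp [wd_mrg, wd_ins, evS, evT, h, mul_assoc]
    · simp [wd_mrg, wd_ins, evS, evT, h', mul_assoc, fsu]
    · simp [evS, evT]
  · split_ifs with h h'
    · simp [wd_mrg, wd_ins, evS, evT, h, mul_assoc]
    · simp [wd_mrg, wd_ins, evS, evT, h', mul_assoc, frv]
    · simp [evS, evT]
  · simp only [evS, evT, Γ.wd_mod Γ.fr6, pow_succ, mul_assoc]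
  · simp only [evS, evT, Γ.wd_mod Γ.fr6, pow_add, mul_assoc, fs5]

theorem ev_nf (w : Wd) : Γ.evS (nf w) = Γ.ev w := by
  have : ∀ l, Γ.evS (w.foldl psh l) = Γ.evS l * Γ.ev w := by
    induction w with
    | nil => simp [ev]
    | cons x w ih => intro l; rw [List.foldl_cons, ih, wd_push, ev, mul_assoc]
  rw [nf, this]; simp [evS, evT]

theorem ev_of_nf {w w' : Wd} (h : nf w = nf w') : Γ.ev w = Γ.ev w' := by
  rw [← ev_nf, h, ev_nf]

theorem Rg_mul (g h : Γ.Fl) (m : ℕ) : Γ.Rg (g * h) m = (g : Z ≃ₜ Z) '' Γ.Rg h m :=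
  image_comp (g : Z ≃ₜ Z) (h : Z ≃ₜ Z) _
theorem Rg_one (m : ℕ) : Γ.Rg 1 m = Γ.R m := image_id _
theorem Rg_ok (g : Γ.Fl) : vx.Ok (Γ.Rg g) Ball := Γ.ok.image g
theorem Rg_rl (g : Γ.Fl) : Rl (Γ.Rg g) := (Γ.Rg_ok g).rl
theorem Rg_free (g : Γ.Fl) {m : ℕ} (h : sub m free = true) : Disjoint (Γ.Rg g m) Γ.K := by
  rw [← show (g : Z ≃ₜ Z) '' Γ.K = Γ.K from g.2]
  exact (disjoint_image_iff (g : Z ≃ₜ Z).injective).2 (Γ.fre.mono_left (Γ.ok.rl.sub h))

/-- `f` computes the action of `a` -/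
def Acts (a : Γ.Fl) (f : ℕ → Option ℕ) : Prop := ∀ m m', f m = some m' → Γ.Rg a m = Γ.R m'

theorem acts_bind {a b : Γ.Fl} {f f' : ℕ → Option ℕ} (h : Γ.Acts a f) (h' : Γ.Acts b f') :
    Γ.Acts (b * a) fun m => (f m).bind f' := fun m m' e => by
  obtain ⟨k, e1, e2⟩ := Option.bind_eq_some_iff.1 e
  rw [Rg_mul, h _ _ e1]; exact h' _ _ e2

theorem acts_itr {a : Γ.Fl} {f : ℕ → Option ℕ} (h : Γ.Acts a f) (n : ℕ) : Γ.Acts (a ^ n) (itr f n) := by
  induction n with
  | zero => intro m m' e; cases e; exact Γ.Rg_one m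
  | succ n ih => rw [pow_succ]; exact Γ.acts_bind h ih

theorem acts_L {a : Γ.Fl} {l : List (ℕ × ℕ)} (h : ∀ p ∈ l, Γ.Rg a p.1 = Γ.R p.2) :
    Γ.Acts a (actL l) := fun m m' e => by
  simp only [actL] at e
  split_ifs at e with k
  cases e
  rw [← Nat.eq_of_beq_eq_true k, (Γ.Rg_rl a).orL, Γ.ok.rl.orL, Nat.eq_of_beq_eq_true k]
  ext x
  simp only [mem_ofPred_eq, List.mem_map, exists_exists_and_eq_and]
  exact exists_congr fun p => and_congr_right fun hp => by rw [h p (List.mem_filter.1 hp).1]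

theorem acts_U : Γ.Acts Γ.fu actU := fun m m' e => by
  simp only [actU] at e
  split_ifs at e with k
  cases e; exact Γ.su m k
theorem acts_V : Γ.Acts Γ.fv actV := fun m m' e => by
  simp only [actV] at e
  split_ifs at e with k
  cases e; exact Γ.sv m k

theorem wd_cnj {l : List (ℕ × ℕ)} (d : l.all (fun p => sub p.1 allM && sub p.2 allM &&
    sub (shV p.1) allM && sub (shU p.2) allM) = true) (h : ∀ p ∈ l, Γ.Rg Γ.fr p.1 = Γ.R p.2) :
    ∀ p ∈ cnj l, Γ.Rg Γ.fr p.1 = Γ.R p.2 := by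
  have k : ∀ a b, sub a allM = true → sub b allM = true → Γ.Rg Γ.fr a = Γ.R b →
      Γ.Rg Γ.fr (shV a) = Γ.R (shU b) := fun a b ha hb e => by
    rw [← Γ.su b hb, ← e, Rg, ← Γ.sv a ha]
    exact (Γ.Rg_mul Γ.fr Γ.fv a).symm.trans (Γ.frv ▸ Γ.Rg_mul Γ.fu Γ.fr a)
  simp only [List.all_eq_true, Bool.and_eq_true] at d
  intro p hp
  simp only [cnj, List.mem_append, List.mem_map] at hp
  rcases hp with (hp | ⟨q, hq, rfl⟩) | ⟨q, hq, rfl⟩
  · exact h p hp
  · exact k _ _ (d q hq).1.1.1 (d q hq).1.1.2 (h q hq)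
  · exact k _ _ (d q hq).1.2 (d q hq).2 (k _ _ (d q hq).1.1.1 (d q hq).1.1.2 (h q hq))

theorem wd_rAt : ∀ p ∈ rAt, Γ.Rg Γ.fr p.1 = Γ.R p.2 := by
  refine Γ.wd_cnj (by decide +kernel) fun p hp => ?_
  rcases List.mem_append.1 hp with hp | hp
  · exact Γ.sr p hp
  · obtain ⟨q, hq, rfl⟩ := List.mem_map.1 hp
    rw [(Γ.Rg_rl _).df, Γ.ok.rl.df, Γ.acts_L (Γ.wd_cnj (by decide +kernel) Γ.sr)
      (o3 fun j => kap j 0) (o3 fun j => kap 0 j) (by decide +kernel)]
    exact congrArg (· \ _) (Γ.sr q (List.mem_of_mem_drop hq))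

theorem acts_K (k : ℕ) : Γ.Acts (Γ.fr ^ k) (actK k) := fun m m' e => by
  have a := Γ.acts_itr (Γ.acts_L Γ.wd_rAt) k m m'
  have b := Γ.acts_itr (Γ.acts_L (a := Γ.fr⁻¹) (l := rAt.map Prod.swap) fun p hp => by
    obtain ⟨q, hq, rfl⟩ := List.mem_map.1 hp
    rw [Prod.snd_swap, ← Rg_one, ← inv_mul_cancel Γ.fr, Rg_mul, Γ.wd_rAt q hq]; rfl) (6 - k) m m'
  have c : k ≤ 6 → Γ.fr⁻¹ ^ (6 - k) = Γ.fr ^ k := fun h => by
    rw [inv_pow]
    exact inv_eq_of_mul_eq_one_right (by rw [← pow_add, Nat.sub_add_cancel h, fr6])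
  simp only [actK] at e
  split_ifs at e with h h'
  · rw [c (by omega)] at b
    exact ((Option.orElse_eq_some _ _ _).1 e).elim a fun e => b e.2
  · rw [c h'] at b
    exact ((Option.orElse_eq_some _ _ _).1 e).elim b fun e => a e.2

theorem acts_S (l : List Tp) : Γ.Acts (Γ.evS l) (actS l) := by
  induction l with
  | nil => intro m m' e; cases e; exact Γ.Rg_one m
  | cons t l ih =>
    rw [evS, evT, mul_assoc (Γ.fv ^ t.1)]
    exact Γ.acts_bind (Γ.acts_bind (Γ.acts_bind (Γ.acts_K _) (Γ.acts_itr Γ.acts_U _))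
      (Γ.acts_itr Γ.acts_V _)) ih

theorem actW_ok (g : Γ.Fl) {w : Wd} {m m' : ℕ} (e : actW w m = some m') :
    Γ.Rg (g * Γ.ev w) m = Γ.Rg g m' := by
  rw [Rg_mul, ← ev_nf, Γ.acts_S _ _ _ e]; rfl

/-- the images of the face `fc 37 0 0` meet `K` -/
theorem Rg_hit (g : Γ.Fl) {w : Wd} {m : ℕ} (e : actW w (fc 37 0 0) = some m) :
    (Γ.K ∩ Γ.Rg g m).Nonempty := by
  obtain ⟨x, hx, hx'⟩ := Γ.hit
  rw [← Γ.actW_ok g e]
  exact ⟨_, (g * Γ.ev w).2.le ⟨x, hx, rfl⟩, x, hx', rfl⟩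

variable {Γ}

theorem At.tauL {c : Chart} {g : Γ.Fl} {R' : ℕ → Set Z} (h : Γ.At c g R') {l : List Ad} {m : ℕ}
    (e : c.tauL l = some m) : R' m = Γ.RL g l := by
  induction l generalizing m with
  | nil => cases e; simp [RL, h.ok.rl.zero]
  | cons a l ih =>
    obtain ⟨k, e1, e2⟩ := Option.bind_eq_some_iff.1 e
    obtain ⟨k', e3, rfl⟩ := Option.map_eq_some_iff.1 e2
    rw [h.ok.rl.or, ih e3, h.tau _ _ _ e1]
    ext x
    simp [RL, Ra]

theorem at_c0 (g : Γ.Fl) : Γ.At c0 g (Γ.Rg g) := ⟨Γ.Rg_ok g, fun _ _ _ e => (Γ.actW_ok g e).symm⟩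
theorem val_c0 : Γ.Val c0 := fun g => ⟨_, at_c0 g⟩

theorem Val.ref {c c' : Chart} {n : ℕ} {l : List Rf} (h : Γ.Val c) (e : c.ref n l = some c') :
    Γ.Val c' := fun g => by
  obtain ⟨R, hR⟩ := h g
  obtain ⟨A', e1, rfl⟩ := Option.map_eq_some_iff.1 e
  obtain ⟨R', a, b⟩ := refs_ok hR.ok e1
  refine ⟨R', a, fun w m m' k => ?_⟩
  obtain ⟨m1, k1, k⟩ := Option.bind_eq_some_iff.1 k
  split_ifs at k with s
  cases k
  rw [b _ s, hR.tau _ _ _ k1]

theorem wd_bits {m : ℕ} (h : sub m (kap 0 0) = true) : m = orL ((List.range 24).map fun τ =>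
    if dis m (Nat.shiftLeft 1 τ) then 0 else Nat.shiftLeft 1 τ) := by
  have o : ∀ (l : List ℕ) i, (orL l).testBit i = true ↔ ∃ a ∈ l, a.testBit i = true := fun l i => by
    induction l with
    | nil => simp [orL]
    | cons a l ih =>
      rw [show orL (a :: l) = Nat.lor a (orL l) from rfl, bit_or, Bool.or_eq_true, ih]; simp
  refine Nat.eq_of_testBit_eq fun i => Bool.eq_iff_iff.2 ?_
  simp only [o, List.mem_map, List.mem_range, exists_exists_and_eq_and]
  constructor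
  · intro k
    have : small 24 (kap 0 0) = true := by decide +kernel
    refine ⟨i, ref_small.1 this i (refB_sub.1 h i k), ?_⟩
    rw [if_neg (by rw [ref_dis, k]; simp), ref_one]; simp
  · rintro ⟨τ, -, k⟩
    split_ifs at k with d
    · simp at k
    · rw [ref_one, decide_eq_true_eq] at k
      rw [ref_dis, k] at d
      simpa using d

theorem cln_ok {A : Atoms} {R : ℕ → Set Z} {vd : ℕ} (h : A.Ok R Ball) (e : R vd = ∅) :
    (cln A vd).Ok R Ball := by
  have k : ∀ m, R (df m vd) = R m := fun m => by rw [h.rl.df, e, sdiff_empty]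
  refine ⟨h.rl, fun s a b d e => ?_, fun s a b e => ?_, fun s a b e => ?_⟩ <;>
    obtain ⟨x, e1, e2⟩ := Option.map_eq_some_iff.1 e <;> cases e2 <;> simp only [k]
  exacts [h.h1 _ _ _ _ e1, h.h2 _ _ _ e1, h.h3 _ _ _ e1]

theorem Val.amal {c c' : Chart} {w : ℕ} {e : Bool} (h : Γ.Val c) (k : c.amal w e = some c') :
    Γ.Val c' := fun g => by
  obtain ⟨loc, k1, k⟩ := Option.bind_eq_some_iff.1 k
  split_ifs at k with s
  cases k
  simp only [Bool.and_eq_true, List.all_eq_true, List.mem_range, beq_iff_eq] at s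
  obtain ⟨s, s3⟩ := s
  choose Rb hb using fun j => h (g * Γ.ev (bw e j))
  have d : ∀ e : Bool, ∀ j < 3, actW (bw e j) (h12 0 0) = some (if e then fc 38 0 j else fc 35 j 0) ∧
      actW (bw e j) (kap 0 0) = some (if e then kap 0 j else kap j 0) ∧
      df (if e then fc 38 0 j else fc 35 j 0) (if e then kap 0 j else kap j 0) =
        (if e then bt 38 0 j else bt 35 j 0) ∧
      (∃ t < 450, (if e then bt 38 0 j else bt 35 j 0) = Nat.shiftLeft 1 t) ∧
      (∀ i < 3, i ≠ j → dis (if e then bt 38 0 i else bt 35 i 0)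
        (if e then bt 38 0 j else bt 35 j 0) = true) ∧
      small 450 (if e then bt 38 0 j else bt 35 j 0) = true ∧
      ∀ τ < 24, (actW (bw e j) (Nat.shiftLeft 1 τ)).any (small 450) = true := by decide +kernel
  have hl : ∀ j < 3, Rb j loc = Γ.Rg g ((amM e w loc).hb j) := fun j hj => by
    rw [(hb j).tau _ _ _ k1, ev, mul_one, hoM,
      (Γ.Rg_rl _).df, Γ.actW_ok g (d e j hj).1, Γ.actW_ok g (d e j hj).2.1, ← (Γ.Rg_rl _).df,
      (d e j hj).2.2.1]; rfl
  obtain ⟨R', a, b, f⟩ := amal_ok (amM e w loc) (Γ.Rg_ok g) (fun j _ => (hb j).ok) s.1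
    (fun j hj => (d e j hj).2.2.2.1) (fun i hi j hj n => (d e j hj).2.2.2.2.1 i hi n) hl
    (fun j hj m hm => by
      have t := (d e j hj).2.2.2.2.2.2
      constructor
      · simp only [amM]
        have : ∀ l : List ℕ, (∀ a ∈ l, small 450 a = true) → small 450 (orL l) = true := fun l hl => by
          induction l with
          | nil => rfl
          | cons a l ih => exact ref_or.2 ⟨hl a (by simp), ih fun b hb => hl b (by simp [hb])⟩
        refine this _ fun a ha => ?_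
        obtain ⟨τ, hτ, rfl⟩ := List.mem_map.1 ha
        obtain ⟨x, e1, e2⟩ := (Option.any_eq_true _ _).1 (t τ (List.mem_range.1 hτ))
        split_ifs
        · rfl
        · rwa [e1]
      · conv_lhs => rw [wd_bits (m := m) (by simpa only [amM] using hm)]
        simp only [amM]
        rw [(hb j).ok.rl.orL, (Γ.Rg_rl g).orL]
        ext x
        simp only [mem_ofPred_eq, List.mem_map, List.mem_range, exists_exists_and_eq_and]
        refine exists_congr fun τ => and_congr_right fun hτ => ?_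
        obtain ⟨y, e1, -⟩ := (Option.any_eq_true _ _).1 (t τ hτ)
        split_ifs
        · rw [(hb j).ok.rl.zero, (Γ.Rg_rl g).zero]
        · rw [(hb j).tau _ _ _ (s.2 τ hτ), ev, mul_one, Γ.actW_ok g e1, e1]; rfl)
  have z : ∀ j < 3, R' ((amM e w loc).hb j) = ∅ := fun j hj => by
    have k := s3 j (by simp; omega)
    have k1 := a.rl.sub k.2
    have k2 := a.rl.dis k.1
    rw [b ((amM e w loc).hb j) (d e j hj).2.2.2.2.2.1, ← hl j hj] at k1
    rw [f j hj _ (refB_sub.2 fun i hi => by rw [bit_or, Bool.or_eq_true]; exact .inl hi)] at k2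
    exact k2.eq_bot_of_le k1
  have v : R' (vdM e) = ∅ := by
    have z0 := z 0 (by omega)
    have z1 := z 1 (by omega)
    have z2 := z 2 (by omega)
    cases e <;> simp only [amM, Bool.false_eq_true, if_false, if_true] at z0 z1 z2 <;>
      simp only [vdM, o3, orL, List.foldr, a.rl.or, a.rl.zero, z0, z1, z2, Bool.false_eq_true,
        if_false, if_true, union_empty]
  refine ⟨R', cln_ok a v, fun x m m' k => ?_⟩
  simp only at k
  split at k
  · rename_i m0 e0
    split_ifs at k with s0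
    cases k
    rw [a.rl.df, v, sdiff_empty, b _ s0, Γ.actW_ok g e0]
  · obtain ⟨j, hj, k⟩ := List.exists_of_findSome?_eq_some k
    obtain ⟨m1, k2, k⟩ := Option.bind_eq_some_iff.1 k
    split_ifs at k with s1
    cases k
    rw [a.rl.df, v, sdiff_empty, f j (by simp at hj; omega) _ (by simpa only [amM] using s1),
      (hb j).tau _ _ _ k2, ev_append, ev_winv, mul_assoc, mul_inv_cancel_left]

theorem val_x {l : List Rf} {c : Chart} (e : xChart l = some c) : Γ.Val c := val_c0.ref e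

theorem val_y {e : Bool} {lb l : List Rf} {c : Chart} (k : yChart e lb l = some c) : Γ.Val c := by
  obtain ⟨c2, k2, k⟩ := Option.bind_eq_some_iff.1 k
  obtain ⟨c1, k1, k2⟩ := Option.bind_eq_some_iff.1 k2
  exact ((val_x k1).amal k2).ref k

end Geo

end Pool.Agent.Lib.MP_b7d179_gt.L
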